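import Mathlib

set_option autoImplicit false

open Matrix

namespace Pool.Agent.RepPoly

/-- `S` is the set of vertices of a face of the representation polytope `P(G) = conv G`
(the whole polytope and the empty face included). -/
def IsFace {d : ℕ} (G : Subgroup (GL (Fin d) ℝ)) (S : Set G) : Prop :=
  ∃ A : Matrix (Fin d) (Fin d) ℝ, ∃ c : ℝ,
    (∀ g : G, ∑ i, ∑ j, A i j * (g.1 : Matrix (Fin d) (Fin d) ℝ) i j ≤ c) ∧
    ∀ g : G, (g ∈ S ↔ ∑ i, ∑ j, A i j * (g.1 : Matrix (Fin d) (Fin d) ℝ) i j = c)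

/-- `σ` is a combinatorial isomorphism from `P(G)` to `P(H)`: a bijection of the vertex sets
which maps the vertex sets of faces exactly onto the vertex sets of faces. -/
def CombIso {d e : ℕ} (G : Subgroup (GL (Fin d) ℝ)) (H : Subgroup (GL (Fin e) ℝ))
    (σ : G ≃ H) : Prop :=
  ∀ S : Set G, IsFace G S ↔ IsFace H (σ '' S)

/-- `σ` is the restriction of an affine map of the matrix spaces, and so is its inverse. -/
def AffIso {d e : ℕ} (G : Subgroup (GL (Fin d) ℝ)) (H : Subgroup (GL (Fin e) ℝ))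
    (σ : G ≃ H) : Prop :=
  (∃ f : Matrix (Fin d) (Fin d) ℝ →ᵃ[ℝ] Matrix (Fin e) (Fin e) ℝ,
    ∀ g : G, f (g.1 : Matrix (Fin d) (Fin d) ℝ) = ((σ g).1 : Matrix (Fin e) (Fin e) ℝ)) ∧
  (∃ f : Matrix (Fin e) (Fin e) ℝ →ᵃ[ℝ] Matrix (Fin d) (Fin d) ℝ,
    ∀ h : H, f (h.1 : Matrix (Fin e) (Fin e) ℝ) = ((σ.symm h).1 : Matrix (Fin d) (Fin d) ℝ))

/-- `T` is the support of a nonnegative function of `V`. -/
def Coface {X : Type*} (V : Submodule ℝ (X → ℝ)) (T : Set X) : Prop :=
  ∃ f ∈ V, (∀ x, 0 ≤ f x) ∧ ∀ x, x ∈ T ↔ f x ≠ 0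

/-- `V` is extremal with parameter `m`: the supports of nonzero nonnegative functions of `V` have at
least `m` points, those with exactly `m` points are carried by functions constant on their support,
and the indicator functions of this kind span `V`. -/
structure Ext {X : Type*} (V : Submodule ℝ (X → ℝ)) (m : ℕ) : Prop where
  lower : ∀ T : Set X, T.Nonempty → Coface V T → m ≤ T.ncard
  flat : ∀ f ∈ V, (∀ x, 0 ≤ f x) → {x | f x ≠ 0}.ncard = m →
    ∀ x y, f x ≠ 0 → f y ≠ 0 → f x = f y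
  span : V ≤ Submodule.span ℝ {f | f ∈ V ∧ ∃ T : Set X, T.Nonempty ∧ T.ncard = m ∧
    f = T.indicator (fun _ => (1 : ℝ))}

lemma Ext.indicator_mem {X : Type*} {V : Submodule ℝ (X → ℝ)} {m : ℕ} (h : Ext V m)
    {T : Set X} (hT : Coface V T) (hne : T.Nonempty) (hm : T.ncard = m) :
    T.indicator (fun _ => (1 : ℝ)) ∈ V := by
  obtain ⟨f, hf, h0, hs⟩ := hT
  obtain ⟨x, hx⟩ := hne
  have hTeq : {x | f x ≠ 0} = T := by
    ext y; simp [hs y]
  have hfl := h.flat f hf h0 (by rw [hTeq]; exact hm)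
  have hfx : f x ≠ 0 := (hs x).1 hx
  have : T.indicator (fun _ => (1 : ℝ)) = (f x)⁻¹ • f := by
    funext y
    by_cases hy : y ∈ T
    · have := hfl y x ((hs y).1 hy) hfx
      simp [Set.indicator_of_mem hy, this, hfx]
    · have : f y = 0 := by
        by_contra hne
        exact hy ((hs y).2 hne)
      simp [Set.indicator_of_notMem hy, this]
  rw [this]
  exact V.smul_mem _ hf

lemma coface_indicator {X : Type*} {V : Submodule ℝ (X → ℝ)} {T : Set X}
    (h : T.indicator (fun _ => (1 : ℝ)) ∈ V) : Coface V T := by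
  refine ⟨_, h, ?_, ?_⟩
  · intro x
    exact Set.indicator_nonneg (fun _ _ => zero_le_one) x
  · intro x
    by_cases hx : x ∈ T <;> simp [hx]

lemma param_le {X Y : Type*} [Finite X] [Finite Y] {V : Submodule ℝ (X → ℝ)}
    {W : Submodule ℝ (Y → ℝ)} {m m' : ℕ} (hV : Ext V m) (hW : Ext W m') (σ : X ≃ Y)
    (hσ : ∀ T : Set X, Coface V T ↔ Coface W (σ '' T)) (hne : V ≠ ⊥) : m' ≤ m := by
  -- some indicator function of `V`
  have : ∃ T : Set X, T.Nonempty ∧ T.ncard = m ∧ T.indicator (fun _ => (1 : ℝ)) ∈ V := by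
    by_contra hcon
    apply hne
    rw [eq_bot_iff]
    refine hV.span.trans ?_
    rw [Submodule.span_le]
    rintro f ⟨hf, T, h1, h2, rfl⟩
    exact absurd ⟨T, h1, h2, hf⟩ hcon
  obtain ⟨T, h1, h2, h3⟩ := this
  have h4 := (hσ T).1 (coface_indicator h3)
  have h5 := hW.lower _ (h1.image _) h4
  rwa [Set.ncard_image_of_injective _ σ.injective, h2] at h5

/-- The abstract rigidity statement. -/
theorem comp_mem {X Y : Type*} [Finite X] [Finite Y] {V : Submodule ℝ (X → ℝ)}
    {W : Submodule ℝ (Y → ℝ)} {m m' : ℕ} (hV : Ext V m) (hW : Ext W m') (σ : X ≃ Y)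
    (hσ : ∀ T : Set X, Coface V T ↔ Coface W (σ '' T)) {f : Y → ℝ} (hf : f ∈ W) :
    f ∘ σ ∈ V := by
  have hσ' : ∀ T : Set Y, Coface W T ↔ Coface V (σ.symm '' T) := by
    intro T
    rw [hσ]
    simp
  by_cases hWb : W = ⊥
  · rw [hWb, Submodule.mem_bot] at hf
    subst hf
    exact V.zero_mem
  have hVb : V ≠ ⊥ := by
    intro hVb
    apply hWb
    rw [eq_bot_iff]
    refine hW.span.trans ?_
    rw [Submodule.span_le]
    rintro g ⟨hg, T, h1, h2, rfl⟩
    obtain ⟨f', hf', h0, hs⟩ := (hσ' T).1 (coface_indicator hg)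
    rw [hVb, Submodule.mem_bot] at hf'
    obtain ⟨y, hy⟩ := h1
    exact absurd (by simp [hf']) ((hs (σ.symm y)).1 ⟨y, hy, rfl⟩)
  have hmm : m = m' := le_antisymm (param_le hW hV σ.symm hσ' hWb) (param_le hV hW σ hσ hVb)
  have hle : W ≤ V.comap (LinearMap.funLeft ℝ ℝ σ) := by
    refine hW.span.trans ?_
    rw [Submodule.span_le]
    rintro g ⟨hg, T, h1, h2, rfl⟩
    have h3 := (hσ' T).1 (coface_indicator hg)
    have h4 := hV.indicator_mem h3 (h1.image _)
      (by rw [Set.ncard_image_of_injective _ σ.symm.injective, h2, hmm])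
    have h5 : LinearMap.funLeft ℝ ℝ σ (T.indicator (fun _ => (1 : ℝ)))
        = (σ.symm '' T).indicator (fun _ => (1 : ℝ)) := by
      funext x
      rw [LinearMap.funLeft_apply]
      by_cases hx : σ x ∈ T
      · have : x ∈ σ.symm '' T := ⟨σ x, hx, by simp⟩
        rw [Set.indicator_of_mem hx, Set.indicator_of_mem this]
      · have : x ∉ σ.symm '' T := by
          rintro ⟨y, hy, rfl⟩
          exact hx (by simpa using hy)
        rw [Set.indicator_of_notMem hx, Set.indicator_of_notMem this]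
    show LinearMap.funLeft ℝ ℝ σ (T.indicator (fun _ => (1 : ℝ))) ∈ V
    rw [h5]
    exact h4
  exact hle hf

/-- The space of affine functions of the matrix `ρ g`, as functions of `g`. -/
def cf {Γ : Type*} [Group Γ] {d : ℕ} (ρ : Γ →* GL (Fin d) ℝ) : Submodule ℝ (Γ → ℝ) :=
  LinearMap.range
    ({ toFun := fun p g => p.1 + ∑ i, ∑ j, p.2 i j * (ρ g : Matrix (Fin d) (Fin d) ℝ) i j
       map_add' := by
        intro p q
        funext g
        simp only [Prod.fst_add, Prod.snd_add, Matrix.add_apply, Pi.add_apply, add_mul,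
          Finset.sum_add_distrib]
        ring
       map_smul' := by
        intro r p
        funext g
        simp only [Prod.smul_fst, Prod.smul_snd, Matrix.smul_apply, smul_eq_mul, Pi.smul_apply,
          RingHom.id_apply, mul_add, Finset.mul_sum, mul_assoc] } :
      (ℝ × Matrix (Fin d) (Fin d) ℝ) →ₗ[ℝ] (Γ → ℝ))

lemma mem_cf {Γ : Type*} [Group Γ] {d : ℕ} {ρ : Γ →* GL (Fin d) ℝ} {f : Γ → ℝ} :
    f ∈ cf ρ ↔ ∃ (c : ℝ) (A : Matrix (Fin d) (Fin d) ℝ), ∀ g : Γ,
      f g = c + ∑ i, ∑ j, A i j * (ρ g : Matrix (Fin d) (Fin d) ℝ) i j := by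
  constructor
  · rintro ⟨⟨c, A⟩, rfl⟩
    exact ⟨c, A, fun g => rfl⟩
  · rintro ⟨c, A, h⟩
    exact ⟨(c, A), (funext h).symm⟩

/-- The space of affine functions of the matrix, restricted to the group. -/
def coef {d : ℕ} (G : Subgroup (GL (Fin d) ℝ)) : Submodule ℝ (G → ℝ) := cf G.subtype

lemma mem_coef {d : ℕ} {G : Subgroup (GL (Fin d) ℝ)} {f : G → ℝ} :
    f ∈ coef G ↔ ∃ (c : ℝ) (A : Matrix (Fin d) (Fin d) ℝ), ∀ g : G,
      f g = c + ∑ i, ∑ j, A i j * (g.1 : Matrix (Fin d) (Fin d) ℝ) i j := mem_cf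

lemma const_mem_cf {Γ : Type*} [Group Γ] {d : ℕ} (ρ : Γ →* GL (Fin d) ℝ) (c : ℝ) :
    (fun _ => c) ∈ cf ρ := by
  rw [mem_cf]
  exact ⟨c, 0, fun g => by simp⟩

lemma entry_mem_cf {Γ : Type*} [Group Γ] {d : ℕ} (ρ : Γ →* GL (Fin d) ℝ) (k l : Fin d) :
    (fun g => (ρ g : Matrix (Fin d) (Fin d) ℝ) k l) ∈ cf ρ := by
  rw [mem_cf]
  refine ⟨0, Matrix.single k l 1, fun g => ?_⟩
  rw [zero_add, Finset.sum_eq_single k, Finset.sum_eq_single l]
  · simp
  · intro b _ hb
    simp [Matrix.single, hb.symm]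
  · simp
  · intro b _ hb
    simp [Matrix.single, hb.symm]
  · simp

/-- `cf ρ` is spanned by the constants and the entries. -/
lemma cf_le_iff {Γ : Type*} [Group Γ] {d : ℕ} (ρ : Γ →* GL (Fin d) ℝ)
    (W : Submodule ℝ (Γ → ℝ)) : cf ρ ≤ W ↔ ((fun _ => (1 : ℝ)) ∈ W ∧
      ∀ k l : Fin d, (fun g => (ρ g : Matrix (Fin d) (Fin d) ℝ) k l) ∈ W) := by
  constructor
  · intro h
    exact ⟨h (const_mem_cf ρ 1), fun k l => h (entry_mem_cf ρ k l)⟩
  · rintro ⟨h1, h2⟩ f hf
    obtain ⟨c, A, h⟩ := mem_cf.1 hf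
    have : f = c • (fun _ => (1 : ℝ)) +
        ∑ i, ∑ j, A i j • (fun g => (ρ g : Matrix (Fin d) (Fin d) ℝ) i j) := by
      funext g
      rw [h g]
      simp [Finset.sum_apply]
    rw [this]
    exact W.add_mem (W.smul_mem _ h1)
      (W.sum_mem fun i _ => W.sum_mem fun j _ => W.smul_mem _ (h2 i j))

/-- Transport of extremality along a bijection. -/
lemma Ext.congr {X Y : Type*} {V : Submodule ℝ (X → ℝ)} {W : Submodule ℝ (Y → ℝ)} {m : ℕ}
    (hV : Ext V m) (e : X ≃ Y) (h : ∀ f : Y → ℝ, f ∈ W ↔ f ∘ e ∈ V) : Ext W m := by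
  have hc : ∀ T : Set Y, Coface W T → Coface V (e ⁻¹' T) := by
    rintro T ⟨f, hf, h0, hs⟩
    exact ⟨f ∘ e, (h f).1 hf, fun x => h0 _, fun x => hs (e x)⟩
  have hn : ∀ T : Set Y, (e ⁻¹' T).ncard = T.ncard := by
    intro T
    rw [← Equiv.image_symm_eq_preimage, Set.ncard_image_of_injective _ e.symm.injective]
  refine ⟨?_, ?_, ?_⟩
  · intro T hT hTc
    have := hV.lower (e ⁻¹' T) (hT.preimage e.surjective) (hc T hTc)
    rwa [hn] at this
  · intro f hf h0 hm x y hx hy
    have h1 : {x | (f ∘ e) x ≠ 0}.ncard = m := by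
      rw [← hm, ← hn]
      rfl
    have := hV.flat (f ∘ e) ((h f).1 hf) (fun x => h0 _) h1 (e.symm x) (e.symm y)
      (by simpa using hx) (by simpa using hy)
    simpa using this
  · intro f hf
    have h1 := hV.span ((h f).1 hf)
    have h2 : V ≤ _ := hV.span
    have h3 : Submodule.span ℝ {f | f ∈ V ∧ ∃ T : Set X, T.Nonempty ∧ T.ncard = m ∧
        f = T.indicator (fun _ => (1 : ℝ))} ≤
        (Submodule.span ℝ {f | f ∈ W ∧ ∃ T : Set Y, T.Nonempty ∧ T.ncard = m ∧
        f = T.indicator (fun _ => (1 : ℝ))}).comap (LinearMap.funLeft ℝ ℝ e.symm) := by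
      rw [Submodule.span_le]
      rintro g ⟨hg, T, h4, h5, rfl⟩
      have h6 : LinearMap.funLeft ℝ ℝ e.symm (T.indicator (fun _ => (1 : ℝ)))
          = (e '' T).indicator (fun _ => (1 : ℝ)) := by
        funext y
        rw [LinearMap.funLeft_apply]
        by_cases hy : e.symm y ∈ T
        · have : y ∈ e '' T := ⟨e.symm y, hy, by simp⟩
          rw [Set.indicator_of_mem hy, Set.indicator_of_mem this]
        · have : y ∉ e '' T := by
            rintro ⟨x, hx, rfl⟩
            exact hy (by simpa using hx)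
          rw [Set.indicator_of_notMem hy, Set.indicator_of_notMem this]
      rw [SetLike.mem_coe, Submodule.mem_comap, h6]
      refine Submodule.subset_span ⟨?_, e '' T, h4.image _, ?_, rfl⟩
      · rw [h, ← h6]
        have : (LinearMap.funLeft ℝ ℝ e.symm (T.indicator (fun _ => (1 : ℝ)))) ∘ e
            = T.indicator (fun _ => (1 : ℝ)) := by
          funext x
          simp [LinearMap.funLeft_apply]
        rw [this]
        exact hg
      · rw [Set.ncard_image_of_injective _ e.injective, h5]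
    have h7 := h3 h1
    have h8 : LinearMap.funLeft ℝ ℝ e.symm (f ∘ e) = f := by
      funext y
      simp [LinearMap.funLeft_apply]
    rw [Submodule.mem_comap, h8] at h7
    exact h7

lemma Ext.range {Γ : Type*} [Group Γ] {d : ℕ} {ρ : Γ →* GL (Fin d) ℝ} {m : ℕ}
    (hρ : Function.Injective ρ) (h : Ext (cf ρ) m) : Ext (coef ρ.range) m := by
  refine h.congr (MonoidHom.ofInjective hρ).toEquiv fun f => ?_
  rw [mem_coef, mem_cf]
  constructor
  · rintro ⟨c, A, h1⟩
    exact ⟨c, A, fun g => h1 _⟩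
  · rintro ⟨c, A, h1⟩
    refine ⟨c, A, ?_⟩
    rintro ⟨_, g, rfl⟩
    exact h1 g

lemma isFace_iff {d : ℕ} (G : Subgroup (GL (Fin d) ℝ)) (S : Set G) :
    IsFace G S ↔ Coface (coef G) Sᶜ := by
  constructor
  · rintro ⟨A, c, h1, h2⟩
    refine ⟨fun g => c - ∑ i, ∑ j, A i j * (g.1 : Matrix (Fin d) (Fin d) ℝ) i j, ?_, ?_, ?_⟩
    · rw [mem_coef]
      refine ⟨c, -A, fun g => ?_⟩
      simp [sub_eq_add_neg, Finset.sum_neg_distrib]
    · intro g
      have := h1 g
      linarith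
    · intro g
      rw [Set.mem_compl_iff, h2 g, sub_ne_zero]
      exact ⟨fun h h' => h h'.symm, fun h h' => h h'.symm⟩
  · rintro ⟨f, hf, h0, hs⟩
    obtain ⟨c, A, h⟩ := mem_coef.1 hf
    refine ⟨-A, c, ?_, ?_⟩
    · intro g
      have h1 := h0 g
      rw [h g] at h1
      simp only [Matrix.neg_apply, neg_mul, Finset.sum_neg_distrib]
      linarith
    · intro g
      have h1 := hs g
      rw [Set.mem_compl_iff, h g] at h1
      simp only [Matrix.neg_apply, neg_mul, Finset.sum_neg_distrib]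
      constructor
      · intro hg
        by_contra hne
        exact (h1.2 (fun h' => hne (by linarith))) hg
      · intro hg
        by_contra hne
        exact (h1.1 hne) (by linarith)

lemma affine_of_mem {d e : ℕ} {G : Subgroup (GL (Fin d) ℝ)} {H : Subgroup (GL (Fin e) ℝ)}
    (σ : G ≃ H) (h : ∀ f ∈ coef H, f ∘ σ ∈ coef G) :
    ∃ f : Matrix (Fin d) (Fin d) ℝ →ᵃ[ℝ] Matrix (Fin e) (Fin e) ℝ,
      ∀ g : G, f (g.1 : Matrix (Fin d) (Fin d) ℝ) = ((σ g).1 : Matrix (Fin e) (Fin e) ℝ) := by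
  have h1 : ∀ k l : Fin e, ∃ (c : ℝ) (A : Matrix (Fin d) (Fin d) ℝ), ∀ g : G,
      ((σ g).1 : Matrix (Fin e) (Fin e) ℝ) k l
        = c + ∑ i, ∑ j, A i j * (g.1 : Matrix (Fin d) (Fin d) ℝ) i j := by
    intro k l
    have h2 : (fun h : H => (h.1 : Matrix (Fin e) (Fin e) ℝ) k l) ∈ coef H :=
      entry_mem_cf H.subtype k l
    obtain ⟨c, A, h3⟩ := mem_coef.1 (h _ h2)
    exact ⟨c, A, fun g => h3 g⟩
  choose c A hcA using h1
  let L : Matrix (Fin d) (Fin d) ℝ →ₗ[ℝ] Matrix (Fin e) (Fin e) ℝ :=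
    { toFun := fun M => Matrix.of fun k l => ∑ i, ∑ j, A k l i j * M i j
      map_add' := by
        intro M N
        ext k l
        simp [mul_add, Finset.sum_add_distrib]
      map_smul' := by
        intro r M
        ext k l
        simp only [Matrix.smul_apply, smul_eq_mul, RingHom.id_apply, Matrix.of_apply,
          Finset.mul_sum]
        refine Finset.sum_congr rfl fun i _ => Finset.sum_congr rfl fun j _ => ?_
        ring }
  refine ⟨L.toAffineMap + AffineMap.const ℝ _ (Matrix.of c), fun g => ?_⟩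
  ext k l
  simp only [AffineMap.coe_add, Pi.add_apply, LinearMap.coe_toAffineMap, AffineMap.coe_const,
    Function.const_apply, Matrix.add_apply, Matrix.of_apply]
  rw [hcA k l g, add_comm]
  rfl

/-- The rigidity statement for matrix groups. -/
theorem affIso_of_combIso {d e : ℕ} {G : Subgroup (GL (Fin d) ℝ)} {H : Subgroup (GL (Fin e) ℝ)}
    [Finite G] [Finite H] {m m' : ℕ} (hG : Ext (coef G) m) (hH : Ext (coef H) m')
    (σ : G ≃ H) (hσ : CombIso G H σ) : AffIso G H σ := by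
  have h1 : ∀ T : Set G, Coface (coef G) T ↔ Coface (coef H) (σ '' T) := by
    intro T
    have h2 := hσ Tᶜ
    rw [isFace_iff, isFace_iff, compl_compl, Set.image_compl_eq σ.bijective, compl_compl] at h2
    exact h2
  have h1' : ∀ T : Set H, Coface (coef H) T ↔ Coface (coef G) (σ.symm '' T) := by
    intro T
    rw [h1]
    simp
  exact ⟨affine_of_mem σ fun f hf => comp_mem hG hH σ h1 hf,
    affine_of_mem σ.symm fun f hf => comp_mem hH hG σ.symm h1' hf⟩

end Pool.Agent.RepPoly
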