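import Pool.Agent.RepPoly.Core

set_option autoImplicit false

namespace Pool.Agent.RepPoly

/-- The functions of `W` which vanish outside `Y`. -/
def suppIn {X : Type*} (W : Submodule ℝ (X → ℝ)) (Y : Set X) : Submodule ℝ (X → ℝ) where
  carrier := {f | f ∈ W ∧ ∀ x, x ∉ Y → f x = 0}
  add_mem' := by
    rintro a b ⟨ha, ha'⟩ ⟨hb, hb'⟩
    exact ⟨W.add_mem ha hb, fun x hx => by rw [Pi.add_apply, ha' x hx, hb' x hx, add_zero]⟩
  zero_mem' := ⟨W.zero_mem, fun _ _ => rfl⟩
  smul_mem' := by
    rintro c a ⟨ha, ha'⟩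
    exact ⟨W.smul_mem c ha, fun x hx => by rw [Pi.smul_apply, ha' x hx, smul_zero]⟩

lemma mem_suppIn {X : Type*} {W : Submodule ℝ (X → ℝ)} {Y : Set X} {f : X → ℝ} :
    f ∈ suppIn W Y ↔ f ∈ W ∧ ∀ x, x ∉ Y → f x = 0 := Iff.rfl

lemma suppIn_mono {X : Type*} (W : Submodule ℝ (X → ℝ)) {Y Y' : Set X} (h : Y ⊆ Y') :
    suppIn W Y ≤ suppIn W Y' := fun _ hf => ⟨hf.1, fun x hx => hf.2 x fun h' => hx (h h')⟩

lemma suppIn_suppIn {X : Type*} (W : Submodule ℝ (X → ℝ)) {Y Y' : Set X} (h : Y ⊆ Y') :
    suppIn (suppIn W Y') Y = suppIn W Y := by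
  ext f
  constructor
  · rintro ⟨⟨h1, _⟩, h2⟩
    exact ⟨h1, h2⟩
  · rintro ⟨h1, h2⟩
    exact ⟨⟨h1, fun x hx => h2 x fun h' => hx (h h')⟩, h2⟩

lemma coface_suppIn {X : Type*} {W : Submodule ℝ (X → ℝ)} {Y T : Set X}
    (h : Coface (suppIn W Y) T) : Coface W T ∧ T ⊆ Y := by
  obtain ⟨f, hf, h0, hs⟩ := h
  refine ⟨⟨f, hf.1, h0, hs⟩, fun x hx => ?_⟩
  by_contra hne
  exact (hs x).1 hx (hf.2 x hne)

/-- The key induction: the dimension is bounded through chains of cofaces. -/
lemma finrank_le_aux {X : Type*} [Finite X] (W' : Submodule ℝ (X → ℝ)) : ∀ (n : ℕ)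
    (W : Submodule ℝ (X → ℝ)) (Y : Set X), Module.finrank ℝ W = n → Coface W Y →
    (∀ w ∈ W, ∀ x, x ∉ Y → w x = 0) → (∀ T, Coface W T → Coface W' T) →
    n ≤ Module.finrank ℝ (suppIn W' Y) := by
  classical
  have := Fintype.ofFinite X
  intro n
  induction n with
  | zero => intro W Y _ _ _ _; exact Nat.zero_le _
  | succ n ih =>
    intro W Y hW hY hsupp hT
    obtain ⟨f, hfW, hf0, hfs⟩ := hY
    -- `Y` is nonempty
    have hYne : Y.Nonempty := by
      by_contra hcon
      rw [Set.not_nonempty_iff_eq_empty] at hcon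
      have : W = ⊥ := by
        rw [eq_bot_iff]
        intro w hw
        rw [Submodule.mem_bot]
        funext x
        exact hsupp w hw x (by rw [hcon]; exact Set.notMem_empty x)
      rw [this, finrank_bot] at hW
      omega
    -- a maximal proper coface
    obtain ⟨Y1, ⟨hY1c, hY1ne⟩, hmax⟩ :=
      (Set.toFinite {T : Set X | Coface W T ∧ T ≠ Y}).exists_maximal
        ⟨∅, ⟨0, W.zero_mem, fun _ => le_rfl, fun x => by simp⟩, hYne.ne_empty.symm⟩
    have hsub : ∀ T, Coface W T → T ⊆ Y := by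
      rintro T ⟨g, hg, _, hgs⟩ x hx
      by_contra hne
      exact (hgs x).1 hx (hsupp g hg x hne)
    have hY1sub : Y1 ⊆ Y := hsub Y1 hY1c
    obtain ⟨f1, hf1W, hf10, hf1s⟩ := hY1c
    let W1 := suppIn W Y1
    have hdecomp : W ≤ W1 ⊔ Submodule.span ℝ {f} := by
      intro g hg
      by_contra hcon
      -- the ratios
      have hYd : (Finset.univ.filter fun x => x ∈ Y ∧ x ∉ Y1).Nonempty := by
        obtain ⟨x, hx, hx1⟩ := Set.exists_of_ssubset (lt_of_le_of_ne hY1sub hY1ne)
        exact ⟨x, by simp [hx, hx1]⟩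
      obtain ⟨x0, hx0, hx0max⟩ := Finset.exists_max_image _ (fun x => g x / f x) hYd
      simp only [Finset.mem_filter, Finset.mem_univ, true_and] at hx0 hx0max
      set r := g x0 / f x0 with hr
      let w : X → ℝ := r • f - g
      have hwW : w ∈ W := W.sub_mem (W.smul_mem r hfW) hg
      have hfpos : ∀ x ∈ Y, 0 < f x := fun x hx =>
        lt_of_le_of_ne (hf0 x) (Ne.symm ((hfs x).1 hx))
      have hwx : ∀ x, w x = r * f x - g x := fun x => rfl
      have hw0 : ∀ x, x ∈ Y → x ∉ Y1 → 0 ≤ w x := by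
        intro x hx hx1
        have h1 := hx0max x ⟨hx, hx1⟩
        rw [div_le_iff₀ (hfpos x hx)] at h1
        rw [hwx]
        linarith
      have hwx0 : w x0 = 0 := by
        rw [hwx, hr, div_mul_cancel₀ _ (hfpos x0 hx0.1).ne', sub_self]
      have hex : ∃ x1, x1 ∈ Y ∧ x1 ∉ Y1 ∧ w x1 ≠ 0 := by
        by_contra hno
        push Not at hno
        apply hcon
        have hw1 : w ∈ W1 := by
          refine ⟨hwW, fun x hx => ?_⟩
          by_cases hxY : x ∈ Y
          · exact hno x hxY hx
          · exact hsupp w hwW x hxY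
        have : g = -w + r • f := by
          funext x
          simp only [Pi.add_apply, Pi.neg_apply, hwx, Pi.smul_apply, smul_eq_mul]
          ring
        rw [this]
        exact Submodule.add_mem_sup (W1.neg_mem hw1)
          (Submodule.smul_mem _ r (Submodule.mem_span_singleton_self f))
      obtain ⟨x1, hx1Y, hx1n, hx1w⟩ := hex
      -- a large multiple of `f1`
      obtain ⟨N, hN⟩ : ∃ N : ℝ, ∀ x ∈ Y1, 0 < w x + N * f1 x := by
        by_cases hY1e : (Finset.univ.filter fun x => x ∈ Y1).Nonempty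
        · obtain ⟨x2, hx2, hx2max⟩ := Finset.exists_max_image _ (fun x => -w x / f1 x) hY1e
          refine ⟨-w x2 / f1 x2 + 1, fun x hx => ?_⟩
          have h1 := hx2max x (by simp [hx])
          have h2 : 0 < f1 x := lt_of_le_of_ne (hf10 x) (Ne.symm ((hf1s x).1 hx))
          have h3 : -w x / f1 x < -w x2 / f1 x2 + 1 := by linarith
          rw [div_lt_iff₀ h2] at h3
          linarith
        · refine ⟨0, fun x hx => ?_⟩
          exact absurd ⟨x, by simp [hx]⟩ hY1e
      let u : X → ℝ := w + N • f1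
      have hux : ∀ x, u x = w x + N * f1 x := fun x => rfl
      have hf1out : ∀ x, x ∉ Y1 → f1 x = 0 := by
        intro x hx
        by_contra hne
        exact hx ((hf1s x).2 hne)
      have hu0 : ∀ x, 0 ≤ u x := by
        intro x
        by_cases hx1 : x ∈ Y1
        · exact (hN x hx1).le
        · rw [hux, hf1out x hx1, mul_zero, add_zero]
          by_cases hx : x ∈ Y
          · exact hw0 x hx hx1
          · rw [hsupp w hwW x hx]
      have huW : u ∈ W := W.add_mem hwW (W.smul_mem N hf1W)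
      have hY2 : Coface W {x | u x ≠ 0} := ⟨u, huW, hu0, fun x => Iff.rfl⟩
      have hux0 : u x0 = 0 := by rw [hux, hwx0, hf1out x0 hx0.2, mul_zero, add_zero]
      have hY2ne : {x | u x ≠ 0} ≠ Y := by
        intro h
        have : x0 ∈ {x | u x ≠ 0} := by rw [h]; exact hx0.1
        exact this hux0
      have hle : Y1 ⊆ {x | u x ≠ 0} := fun x hx => (hN x hx).ne'
      have h4 := hmax ⟨hY2, hY2ne⟩ hle
      have h5 : x1 ∈ {x | u x ≠ 0} := by
        show u x1 ≠ 0
        rw [hux, hf1out x1 hx1n, mul_zero, add_zero]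
        exact hx1w
      exact hx1n (h4 h5)
    -- dimensions
    have hW1lt : W1 < W := by
      refine lt_of_le_of_ne (fun g hg => hg.1) fun h => ?_
      have h1 : f ∈ W1 := by rw [h]; exact hfW
      apply hY1ne
      apply le_antisymm hY1sub
      intro x hx
      by_contra hx1
      exact (hfs x).1 hx (h1.2 x hx1)
    have hfr1 : Module.finrank ℝ W1 < Module.finrank ℝ W := Submodule.finrank_lt_finrank_of_lt hW1lt
    have hfr2 : Module.finrank ℝ W ≤ Module.finrank ℝ W1 + 1 := by
      refine (Submodule.finrank_mono hdecomp).trans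
        ((Submodule.finrank_add_le_finrank_add_finrank _ _).trans ?_)
      have := finrank_span_le_card (R := ℝ) ({f} : Set (X → ℝ))
      simp only [Set.toFinset_singleton, Finset.card_singleton] at this
      omega
    have hn : Module.finrank ℝ W1 = n := by omega
    have h6 := ih W1 Y1 hn ⟨f1, ⟨hf1W, fun x hx => by
        by_contra hne
        exact hx ((hf1s x).2 hne)⟩, hf10, hf1s⟩ (fun w hw => hw.2)
      (fun T hT' => hT T (coface_suppIn hT').1)
    have h7 : suppIn W' Y1 < suppIn W' Y := by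
      refine lt_of_le_of_ne (suppIn_mono W' hY1sub) fun h => ?_
      obtain ⟨f', hf'W, hf'0, hf's⟩ := hT Y ⟨f, hfW, hf0, hfs⟩
      have h8 : f' ∈ suppIn W' Y := ⟨hf'W, fun x hx => by
        by_contra hne
        exact hx ((hf's x).2 hne)⟩
      rw [← h] at h8
      apply hY1ne
      apply le_antisymm hY1sub
      intro x hx
      by_contra hx1
      exact (hf's x).1 hx (h8.2 x hx1)
    have := Submodule.finrank_lt_finrank_of_lt h7
    omega

/-- If all cofaces of `W` are cofaces of `W'` and `W` contains a positive function, then the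
dimension of `W` is at most that of `W'`. -/
theorem finrank_le_of_coface {X : Type*} [Finite X] (W W' : Submodule ℝ (X → ℝ))
    (hpos : Coface W Set.univ) (hT : ∀ T, Coface W T → Coface W' T) :
    Module.finrank ℝ W ≤ Module.finrank ℝ W' := by
  have h1 := finrank_le_aux W' _ W Set.univ rfl hpos (fun w _ x hx => absurd (Set.mem_univ x) hx) hT
  refine h1.trans (Submodule.finrank_mono fun f hf => hf.1)

end Pool.Agent.RepPoly
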