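import Pool.Agent.RepPoly.Tr

set_option autoImplicit false

open Matrix

namespace Pool.Agent.RepPoly

section two

variable {Γ : Type*} [Group Γ] [Fintype Γ] [DecidableEq Γ]

lemma two_sided_expand {E : Matrix Γ Γ ℝ} {V : Submodule ℝ (Γ → ℝ)} (hE : ProjOn E V)
    (hR : ∀ g : Γ, InvP V (Equiv.mulRight g)) :
    E = ∑ g : Γ, E g⁻¹ 1 • Mh (Equiv.mulLeft g) := by
  have h1 : ∀ x y : Γ, E x y = E (x * y⁻¹) 1 := by
    intro x y
    have h2 := hE.comm (hR y⁻¹)
    have h3 := congrFun (congrFun h2 x) 1
    rw [Mh_mul_apply, mul_Mh_apply] at h3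
    have h4 : (Equiv.mulRight y⁻¹ : Equiv.Perm Γ)⁻¹ 1 = y := by
      rw [Equiv.Perm.inv_eq_iff_eq]
      simp
    rw [h4, Equiv.coe_mulRight] at h3
    exact h3.symm
  ext x y
  rw [Matrix.sum_apply, Finset.sum_eq_single (y * x⁻¹)]
  · rw [Matrix.smul_apply, Mh_apply, if_pos, smul_eq_mul, mul_one, h1 x y]
    · congr 1
      group
    · rw [Equiv.coe_mulLeft]
      group
  · intro g _ hg
    rw [Matrix.smul_apply, Mh_apply, if_neg, smul_zero]
    intro hy
    apply hg
    rw [hy, Equiv.coe_mulLeft]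
    group
  · intro h
    exact absurd (Finset.mem_univ _) h

/-- Two rational subspaces with the same cofaces agree, when the first is invariant under left and
right translations and the second under left translations. -/
theorem eq_of_coface {E E' : Matrix Γ Γ ℝ} {V V' : Submodule ℝ (Γ → ℝ)} (hE : ProjOn E V)
    (hE' : ProjOn E' V') (hr : IsRat E) (hr' : IsRat E')
    (h1 : (fun _ => (1 : ℝ)) ∈ V) (h1' : (fun _ => (1 : ℝ)) ∈ V')
    (hT : ∀ T, Coface V T ↔ Coface V' T)
    (hR : ∀ g : Γ, InvP V (Equiv.mulRight g)) (hL : ∀ g : Γ, InvP V (Equiv.mulLeft g))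
    (hL' : ∀ g : Γ, InvP V' (Equiv.mulLeft g)) : V' = V := by
  have ht : ∀ g : Γ, (Mh (Equiv.mulLeft g) * E).trace = (Mh (Equiv.mulLeft g) * E').trace :=
    fun g => trace_eq hE hE' hr hr' h1 h1' hT _ _ rfl (hL g) (hL' g)
  have h2 : (E * E').trace = (E * E).trace := by
    have h3 : ∀ F : Matrix Γ Γ ℝ, (E * F).trace =
        ∑ g : Γ, E g⁻¹ 1 * (Mh (Equiv.mulLeft g) * F).trace := by
      intro F
      conv_lhs => rw [two_sided_expand hE hR]
      rw [Finset.sum_mul, Matrix.trace_sum]
      refine Finset.sum_congr rfl fun g _ => ?_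
      rw [Matrix.smul_mul, Matrix.trace_smul, smul_eq_mul]
    rw [h3, h3]
    refine Finset.sum_congr rfl fun g _ => ?_
    rw [ht g]
  have h4 : E'.trace = E.trace := by
    have := ht 1
    have h5 : (Equiv.mulLeft (1 : Γ)) = (1 : Equiv.Perm Γ) := by
      ext x
      simp
    rw [h5, Mh_one, one_mul, one_mul] at this
    exact this.symm
  rw [hE.idem] at h2
  -- the difference
  let N : Matrix Γ Γ ℝ := (1 - E) * E'
  have hN : (Nᴴ * N).trace = 0 := by
    have hNt : Nᴴ = E' * (1 - E) := by
      rw [Matrix.conjTranspose_eq_transpose_of_trivial, Matrix.transpose_mul, hE'.symm,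
        Matrix.transpose_sub, Matrix.transpose_one, hE.symm]
    have h6 : (1 - E) * (1 - E) = 1 - E := by
      rw [sub_mul, one_mul, mul_sub, mul_one, hE.idem, sub_self, sub_zero]
    have h7 : Nᴴ * N = E' * ((1 - E) * E') := by
      rw [hNt]
      show E' * (1 - E) * ((1 - E) * E') = _
      rw [mul_assoc, ← mul_assoc (1 - E) (1 - E), h6]
    rw [h7, Matrix.trace_mul_comm, mul_assoc, hE'.idem, sub_mul, one_mul, Matrix.trace_sub, h2, h4,
      sub_self]
  have hN0 : N = 0 := Matrix.trace_conjTranspose_mul_self_eq_zero_iff.1 hN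
  have h8 : E' = E * E' := by
    have : (1 - E) * E' = 0 := hN0
    rw [sub_mul, one_mul, sub_eq_zero] at this
    exact this
  have h9 : V' ≤ V := by
    intro f hf
    rw [hE.mem]
    have h10 := (hE'.mem f).1 hf
    conv_lhs => rw [← h10, Matrix.mulVec_mulVec, ← h8, h10]
  have h10 : Module.finrank ℝ V' = Module.finrank ℝ V := by
    have h11 := hE.finrank_eq
    have h12 := hE'.finrank_eq
    rw [h4, ← h11] at h12
    exact_mod_cast h12
  exact Submodule.eq_of_le_of_finrank_eq h9 h10

end two

section rat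

variable {X : Type*} [Fintype X] [DecidableEq X]

/-- A vector with rational entries. -/
def RatVec (f : X → ℝ) : Prop := ∀ x, ∃ q : ℚ, f x = q

omit [Fintype X] [DecidableEq X] in
lemma ratVec_sub {f g : X → ℝ} (hf : RatVec f) (hg : RatVec g) : RatVec (f - g) := by
  intro x
  obtain ⟨a, ha⟩ := hf x
  obtain ⟨b, hb⟩ := hg x
  exact ⟨a - b, by rw [Pi.sub_apply, ha, hb]; push_cast; rfl⟩

lemma rat_sum {ι : Type*} (s : Finset ι) (f : ι → ℝ) (hf : ∀ i ∈ s, ∃ q : ℚ, f i = q) :
    ∃ q : ℚ, ∑ i ∈ s, f i = q := by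
  classical
  induction s using Finset.induction_on with
  | empty => exact ⟨0, by simp⟩
  | insert a s ha ih =>
    obtain ⟨q, hq⟩ := ih fun i hi => hf i (Finset.mem_insert_of_mem hi)
    obtain ⟨r, hr⟩ := hf a (Finset.mem_insert_self _ _)
    exact ⟨r + q, by rw [Finset.sum_insert ha, hq, hr]; push_cast; rfl⟩

omit [DecidableEq X] in
lemma ratVec_mulVec {E : Matrix X X ℝ} (hE : IsRat E) {f : X → ℝ} (hf : RatVec f) :
    RatVec (E *ᵥ f) := by
  intro x
  apply rat_sum
  intro y _
  obtain ⟨a, ha⟩ := hE x y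
  obtain ⟨b, hb⟩ := hf y
  refine ⟨a * b, ?_⟩
  show E x y * f y = _
  rw [ha, hb]
  push_cast
  rfl

omit [DecidableEq X] in
/-- The orthogonal projection onto a rational subspace is rational. -/
lemma exists_projOn (s : Finset (X → ℝ)) (hs : ∀ f ∈ s, RatVec f) :
    ∃ E : Matrix X X ℝ, IsRat E ∧ ProjOn E (Submodule.span ℝ (s : Set (X → ℝ))) := by
  classical
  induction s using Finset.induction_on with
  | empty =>
    refine ⟨0, fun x y => ⟨0, by simp⟩, by simp, by simp, ?_⟩
    intro f
    rw [Finset.coe_empty, Submodule.span_empty, Submodule.mem_bot, Matrix.zero_mulVec]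
    exact eq_comm
  | insert u s hu ih =>
    obtain ⟨E, hr, hE⟩ := ih fun f hf => hs f (Finset.mem_insert_of_mem hf)
    have hur : RatVec u := hs u (Finset.mem_insert_self _ _)
    set u' : X → ℝ := u - E *ᵥ u with hu'
    have hu'r : RatVec u' := ratVec_sub hur (ratVec_mulVec hr hur)
    have hEu' : E *ᵥ u' = 0 := by
      rw [hu', Matrix.mulVec_sub, Matrix.mulVec_mulVec, hE.idem, sub_self]
    have hu'E : u' ᵥ* E = 0 := by
      rw [← hE.symm, Matrix.vecMul_transpose, hEu']
    by_cases h0 : u' = 0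
    · refine ⟨E, hr, hE.symm, hE.idem, ?_⟩
      intro f
      rw [← hE.mem, Finset.coe_insert, Submodule.span_insert_eq_span]
      rw [hE.mem]
      rw [hu', sub_eq_zero] at h0
      exact h0.symm
    · have hd : u' ⬝ᵥ u' ≠ 0 := by
        intro h
        exact h0 (dotProduct_self_eq_zero.1 h)
      set c : ℝ := (u' ⬝ᵥ u')⁻¹ with hc
      refine ⟨E + c • Matrix.vecMulVec u' u', ?_, ?_, ?_, ?_⟩
      · intro x y
        obtain ⟨a, ha⟩ := hr x y
        obtain ⟨b, hb⟩ := hu'r x
        obtain ⟨b', hb'⟩ := hu'r y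
        obtain ⟨d, hd'⟩ : ∃ q : ℚ, u' ⬝ᵥ u' = q := by
          apply rat_sum
          intro z _
          obtain ⟨e, he⟩ := hu'r z
          exact ⟨e * e, by rw [he]; push_cast; rfl⟩
        refine ⟨a + d⁻¹ * (b * b'), ?_⟩
        rw [Matrix.add_apply, Matrix.smul_apply, Matrix.vecMulVec_apply, ha, hb, hb', hc, hd',
          smul_eq_mul]
        push_cast
        rfl
      · rw [Matrix.transpose_add, Matrix.transpose_smul, Matrix.transpose_vecMulVec, hE.symm]
      · rw [add_mul, mul_add, mul_add, hE.idem, Matrix.mul_smul, Matrix.mul_vecMulVec, hEu',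
          Matrix.smul_mul, Matrix.vecMulVec_mul, hu'E, Matrix.smul_mul, Matrix.mul_smul,
          Matrix.vecMulVec_mul_vecMulVec]
        ext x y
        simp only [Matrix.add_apply, Matrix.smul_apply, Matrix.vecMulVec_apply, Pi.zero_apply,
          zero_mul, mul_zero, add_zero, zero_add, smul_eq_mul, Pi.smul_apply]
        rw [hc]
        field_simp
      · intro f
        have hmv : (E + c • Matrix.vecMulVec u' u') *ᵥ f = E *ᵥ f + (c * (u' ⬝ᵥ f)) • u' := by
          rw [Matrix.add_mulVec, Matrix.smul_mulVec, Matrix.vecMulVec_mulVec]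
          congr 1
          funext x
          simp only [Pi.smul_apply, MulOpposite.smul_eq_mul_unop, MulOpposite.unop_op, smul_eq_mul]
          ring
        rw [hmv, Finset.coe_insert, Submodule.mem_span_insert]
        constructor
        · rintro ⟨a, g, hg, rfl⟩
          have hEg := (hE.mem g).1 hg
          have h1 : u' ⬝ᵥ g = 0 := by
            rw [← hEg, Matrix.dotProduct_mulVec, hu'E, zero_dotProduct]
          have h2 : u' ⬝ᵥ u = u' ⬝ᵥ u' := by
            have : u = u' + E *ᵥ u := by rw [hu']; abel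
            conv_lhs => rw [this]
            rw [dotProduct_add, Matrix.dotProduct_mulVec, hu'E, zero_dotProduct, add_zero]
          rw [Matrix.mulVec_add, Matrix.mulVec_smul, hEg, dotProduct_add, dotProduct_smul, h1, h2,
            add_zero, smul_eq_mul]
          have h3 : c * (a * (u' ⬝ᵥ u')) = a := by
            rw [hc]
            field_simp
          rw [h3, hu']
          funext x
          simp only [Pi.add_apply, Pi.smul_apply, Pi.sub_apply, smul_eq_mul]
          ring
        · intro h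
          refine ⟨c * (u' ⬝ᵥ f), E *ᵥ f - (c * (u' ⬝ᵥ f)) • (E *ᵥ u), ?_, ?_⟩
          · exact Submodule.sub_mem _ (hE.mulVec_mem _)
              (Submodule.smul_mem _ _ (hE.mulVec_mem _))
          · conv_lhs => rw [← h, hu']
            funext x
            simp only [Pi.add_apply, Pi.smul_apply, Pi.sub_apply, smul_eq_mul]
            ring

end rat

end Pool.Agent.RepPoly
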