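import Pool.Agent.RepPoly.Index

set_option autoImplicit false

open Matrix

namespace Pool.Agent.RepPoly

section cyc

variable {Γ : Type*} [Group Γ] [Fintype Γ]

open Classical in
/-- Möbius inversion over cyclic subgroups. -/
lemma gen_sum_eq_zero (δ : Γ → ℝ)
    (h : ∀ g : Γ, ∑ x ∈ Finset.univ.filter (fun x => x ∈ Subgroup.zpowers g), δ x = 0) :
    ∀ (n : ℕ) (K : Subgroup Γ), Nat.card K = n →
      ∑ x ∈ Finset.univ.filter (fun x : Γ => Subgroup.zpowers x = K), δ x = 0 := by
  intro n
  induction n using Nat.strong_induction_on with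
  | _ n ih =>
    intro K hK
    by_cases hne : ∃ g : Γ, Subgroup.zpowers g = K
    swap
    · rw [Finset.filter_eq_empty_iff.2, Finset.sum_empty]
      intro x _ hx
      exact hne ⟨x, hx⟩
    obtain ⟨g, rfl⟩ := hne
    have h1 := h g
    rw [← Finset.sum_fiberwise _ (fun x : Γ => Subgroup.zpowers x)] at h1
    rw [Finset.sum_eq_single (Subgroup.zpowers g)] at h1
    · rw [Finset.filter_filter] at h1
      rw [← h1]
      refine Finset.sum_congr ?_ fun _ _ => rfl
      ext x
      simp only [Finset.mem_filter, Finset.mem_univ, true_and]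
      constructor
      · intro hx
        refine ⟨?_, hx⟩
        rw [← hx]
        exact Subgroup.mem_zpowers x
      · exact fun hx => hx.2
    · intro K' _ hK'
      rw [Finset.filter_filter]
      by_cases hle : K' ≤ Subgroup.zpowers g
      · have hlt : K' < Subgroup.zpowers g := lt_of_le_of_ne hle hK'
        have hcard : Nat.card K' < n := by
          rw [← hK]
          exact Set.Finite.card_lt_card (Set.toFinite _) (SetLike.coe_ssubset_coe.2 hlt)
        have h2 := ih _ hcard K' rfl
        rw [← h2]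
        refine Finset.sum_congr ?_ fun _ _ => rfl
        ext x
        simp only [Finset.mem_filter, Finset.mem_univ, true_and]
        constructor
        · exact fun hx => hx.2
        · intro hx
          refine ⟨?_, hx⟩
          apply hle
          rw [← hx]
          exact Subgroup.mem_zpowers x
      · rw [Finset.filter_eq_empty_iff.2, Finset.sum_empty]
        rintro x _ ⟨hx, rfl⟩
        exact hle (Subgroup.zpowers_le.2 hx)
    · intro h'
      exact absurd (Finset.mem_univ _) h'

open Classical in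
lemma class_sum_eq_zero (δ c : Γ → ℝ)
    (h : ∀ g : Γ, ∑ x ∈ Finset.univ.filter (fun x => x ∈ Subgroup.zpowers g), δ x = 0)
    (hc : ∀ x y : Γ, Subgroup.zpowers x = Subgroup.zpowers y → c x = c y) :
    ∑ x, c x * δ x = 0 := by
  rw [← Finset.sum_fiberwise _ (fun x : Γ => Subgroup.zpowers x)]
  refine Finset.sum_eq_zero fun K _ => ?_
  by_cases hne : ∃ g : Γ, Subgroup.zpowers g = K
  swap
  · rw [Finset.filter_eq_empty_iff.2, Finset.sum_empty]
    intro x _ hx
    exact hne ⟨x, hx⟩
  obtain ⟨g, rfl⟩ := hne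
  have h1 : ∀ x ∈ Finset.univ.filter (fun x : Γ => Subgroup.zpowers x = Subgroup.zpowers g),
      c x * δ x = c g * δ x := by
    intro x hx
    rw [hc x g (Finset.mem_filter.1 hx).2]
  rw [Finset.sum_congr rfl h1, ← Finset.mul_sum, gen_sum_eq_zero δ h _ _ rfl, mul_zero]

open Classical in
lemma sum_zpowers (F : Γ → ℝ) (g : Γ) :
    ∑ x ∈ Finset.univ.filter (fun x => x ∈ Subgroup.zpowers g), F x =
      ∑ j ∈ Finset.range (orderOf g), F (g ^ j) := by
  symm
  apply Finset.sum_bij (fun j _ => g ^ j)
  · intro j _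
    simp only [Finset.mem_filter, Finset.mem_univ, true_and]
    exact Subgroup.npow_mem_zpowers g j
  · intro i hi j hj hij
    exact pow_injOn_Iio_orderOf (Set.mem_Iio.2 (Finset.mem_range.1 hi))
      (Set.mem_Iio.2 (Finset.mem_range.1 hj)) hij
  · intro x hx
    simp only [Finset.mem_filter, Finset.mem_univ, true_and] at hx
    have h1 : x ∈ Submonoid.powers g := (mem_powers_iff_mem_zpowers).2 hx
    obtain ⟨k, rfl⟩ := h1
    refine ⟨k % orderOf g, Finset.mem_range.2 (Nat.mod_lt _ (orderOf_pos g)), ?_⟩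
    exact pow_mod_orderOf g k
  · intro j _
    rfl

end cyc

section two

variable {Γ : Type*} [Group Γ] [Fintype Γ] [DecidableEq Γ]

lemma mulLeft_pow (g : Γ) (j : ℕ) : (Equiv.mulLeft g : Equiv.Perm Γ) ^ j = Equiv.mulLeft (g ^ j) := by
  induction j with
  | zero => ext x; simp
  | succ j ih =>
    rw [pow_succ, ih]
    ext x
    simp [pow_succ]

lemma orderOf_mulLeft (g : Γ) : orderOf (Equiv.mulLeft g : Equiv.Perm Γ) = orderOf g := by
  apply Nat.dvd_antisymm
  · rw [orderOf_dvd_iff_pow_eq_one, mulLeft_pow, pow_orderOf_eq_one]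
    ext x
    simp
  · rw [orderOf_dvd_iff_pow_eq_one]
    have h1 := pow_orderOf_eq_one (Equiv.mulLeft g : Equiv.Perm Γ)
    rw [mulLeft_pow] at h1
    have h2 := congrArg (fun s : Equiv.Perm Γ => s 1) h1
    simpa using h2

lemma trace_Mh_mulLeft (g : Γ) : (Mh (Equiv.mulLeft g : Equiv.Perm Γ)).trace =
    if g = 1 then (Fintype.card Γ : ℝ) else 0 := by
  rw [Matrix.trace]
  simp only [Matrix.diag_apply, Mh_apply]
  by_cases hg : g = 1
  · simp [hg]
  · rw [if_neg hg]
    refine Finset.sum_eq_zero fun x _ => ?_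
    have hx : ¬ x = Equiv.mulLeft g x := by
      intro h
      apply hg
      rw [Equiv.coe_mulLeft] at h
      exact mul_eq_right.1 h.symm
    exact if_neg hx

/-- Two subspaces with the same cofaces agree, when the first is rational and invariant under left
and right translations and the second is invariant under left translations. -/
theorem eq_of_coface' {E E' : Matrix Γ Γ ℝ} {V V' : Submodule ℝ (Γ → ℝ)} (hE : ProjOn E V)
    (hE' : ProjOn E' V') (hr : IsRat E)
    (h1 : (fun _ => (1 : ℝ)) ∈ V) (h1' : (fun _ => (1 : ℝ)) ∈ V')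
    (hT : ∀ T, Coface V T ↔ Coface V' T)
    (hR : ∀ g : Γ, InvP V (Equiv.mulRight g)) (hL : ∀ g : Γ, InvP V (Equiv.mulLeft g))
    (hL' : ∀ g : Γ, InvP V' (Equiv.mulLeft g)) : V' = V := by
  let t : Γ → ℝ := fun g => (Mh (Equiv.mulLeft g) * E).trace
  let t' : Γ → ℝ := fun g => (Mh (Equiv.mulLeft g) * E').trace
  let δ : Γ → ℝ := fun g => t g - t' g
  have hδ : ∀ g : Γ, ∑ j ∈ Finset.range (orderOf g), δ (g ^ j) = 0 := by
    intro g
    have hdim : Module.finrank ℝ (fixV V (Equiv.mulLeft g)) =
        Module.finrank ℝ (fixV V' (Equiv.mulLeft g)) :=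
      le_antisymm (finrank_fixV_le (hL' g) h1 fun T => (hT T).1)
        (finrank_fixV_le (hL g) h1' fun T => (hT T).2)
    have h2 := sum_trace_eq hE (hL g)
    have h3 := sum_trace_eq hE' (hL' g)
    rw [← hdim, ← h2] at h3
    rw [orderOf_mulLeft] at h3
    rw [Finset.sum_sub_distrib, sub_eq_zero]
    have h4 : ∀ j, t (g ^ j) = (Mh ((Equiv.mulLeft g : Equiv.Perm Γ) ^ j) * E).trace := by
      intro j
      rw [mulLeft_pow]
    have h5 : ∀ j, t' (g ^ j) = (Mh ((Equiv.mulLeft g : Equiv.Perm Γ) ^ j) * E').trace := by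
      intro j
      rw [mulLeft_pow]
    simp only [h4, h5]
    exact h3.symm
  have hδ' : ∀ g : Γ, ∑ x ∈ Finset.univ.filter (fun x => x ∈ Subgroup.zpowers g), δ x = 0 := by
    intro g
    rw [sum_zpowers, hδ g]
  -- the coefficients of the projection
  have hnR : (Fintype.card Γ : ℝ) ≠ 0 := by exact_mod_cast Fintype.card_ne_zero
  have hct : ∀ g : Γ, t g = Fintype.card Γ * E g 1 := by
    intro g
    show (Mh (Equiv.mulLeft g) * E).trace = _
    conv_lhs => rw [two_sided_expand hE hR]
    rw [Finset.mul_sum, Matrix.trace_sum, Finset.sum_eq_single g⁻¹]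
    · rw [Matrix.mul_smul, Matrix.trace_smul, Mh_mul]
      have h2 : (Equiv.mulLeft g⁻¹ * Equiv.mulLeft g : Equiv.Perm Γ) = Equiv.mulLeft 1 := by
        ext x
        simp
      rw [h2, trace_Mh_mulLeft, if_pos rfl, inv_inv, smul_eq_mul, mul_comm]
    · intro x _ hx
      rw [Matrix.mul_smul, Matrix.trace_smul, Mh_mul]
      have h2 : (Equiv.mulLeft x * Equiv.mulLeft g : Equiv.Perm Γ) = Equiv.mulLeft (x * g) := by
        ext y
        simp
      rw [h2, trace_Mh_mulLeft, if_neg, smul_zero]
      intro h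
      exact hx (eq_inv_of_mul_eq_one_left h)
    · intro h
      exact absurd (Finset.mem_univ _) h
  have hgen : ∀ x y : Γ, Subgroup.zpowers x = Subgroup.zpowers y → E x⁻¹ 1 = E y⁻¹ 1 := by
    intro x y hxy
    have h2 : x⁻¹ ∈ Submonoid.powers y⁻¹ := by
      rw [mem_powers_iff_mem_zpowers, Subgroup.zpowers_inv, ← hxy]
      exact Subgroup.inv_mem _ (Subgroup.mem_zpowers x)
    obtain ⟨j, hj⟩ := h2
    have hj' : (y⁻¹) ^ j = x⁻¹ := hj
    have hord : orderOf (y⁻¹ ^ j) = orderOf y⁻¹ := by
      rw [hj', orderOf_inv, orderOf_inv, ← Nat.card_zpowers, hxy, Nat.card_zpowers]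
    have hcop : j.Coprime (orderOf (Equiv.mulLeft y⁻¹ : Equiv.Perm Γ)) := by
      rw [orderOf_mulLeft]
      rw [orderOf_pow] at hord
      have hpos : 0 < orderOf y⁻¹ := orderOf_pos _
      have hg : Nat.gcd (orderOf y⁻¹) j = 1 := by
        have hgpos : 0 < Nat.gcd (orderOf y⁻¹) j := Nat.gcd_pos_of_pos_left _ hpos
        have h3 := Nat.div_mul_cancel (Nat.gcd_dvd_left (orderOf y⁻¹) j)
        rw [hord] at h3
        exact Nat.eq_of_mul_eq_mul_left hpos (by rw [mul_one]; exact h3)
      exact Nat.coprime_comm.1 hg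
    have h3 := trace_coprime hE hr (hL y⁻¹) hcop
    rw [mulLeft_pow, hj'] at h3
    have h4 : t x⁻¹ = t y⁻¹ := h3
    rw [hct, hct] at h4
    exact mul_left_cancel₀ hnR h4
  have hsum := class_sum_eq_zero δ (fun g => E g⁻¹ 1) hδ' hgen
  have h2 : (E * E').trace = (E * E).trace := by
    have h3 : ∀ F : Matrix Γ Γ ℝ, (E * F).trace =
        ∑ g : Γ, E g⁻¹ 1 * (Mh (Equiv.mulLeft g) * F).trace := by
      intro F
      conv_lhs => rw [two_sided_expand hE hR]
      rw [Finset.sum_mul, Matrix.trace_sum]
      refine Finset.sum_congr rfl fun g _ => ?_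
      rw [Matrix.smul_mul, Matrix.trace_smul, smul_eq_mul]
    rw [h3, h3]
    have h4 : ∑ g : Γ, E g⁻¹ 1 * (t g - t' g) = 0 := hsum
    simp only [mul_sub, Finset.sum_sub_distrib] at h4
    linarith
  have h4 : E'.trace = E.trace := by
    have := hδ 1
    rw [orderOf_one, Finset.sum_range_one, pow_zero] at this
    have h5 : (Mh (Equiv.mulLeft (1 : Γ)) * E).trace - (Mh (Equiv.mulLeft (1 : Γ)) * E').trace = 0 :=
      this
    have h6 : (Equiv.mulLeft (1 : Γ)) = (1 : Equiv.Perm Γ) := by
      ext x
      simp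
    rw [h6, Mh_one, one_mul, one_mul] at h5
    linarith
  rw [hE.idem] at h2
  -- the difference
  let N : Matrix Γ Γ ℝ := (1 - E) * E'
  have hN : (Nᴴ * N).trace = 0 := by
    have hNt : Nᴴ = E' * (1 - E) := by
      rw [Matrix.conjTranspose_eq_transpose_of_trivial, Matrix.transpose_mul, hE'.symm,
        Matrix.transpose_sub, Matrix.transpose_one, hE.symm]
    have h6 : (1 - E) * (1 - E) = 1 - E := by
      rw [sub_mul, one_mul, mul_sub, mul_one, hE.idem, sub_self, sub_zero]
    have h7 : Nᴴ * N = E' * ((1 - E) * E') := by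
      rw [hNt]
      show E' * (1 - E) * ((1 - E) * E') = _
      rw [mul_assoc, ← mul_assoc (1 - E) (1 - E), h6]
    rw [h7, Matrix.trace_mul_comm, mul_assoc, hE'.idem, sub_mul, one_mul, Matrix.trace_sub, h2, h4,
      sub_self]
  have hN0 : N = 0 := Matrix.trace_conjTranspose_mul_self_eq_zero_iff.1 hN
  have h8 : E' = E * E' := by
    have : (1 - E) * E' = 0 := hN0
    rw [sub_mul, one_mul, sub_eq_zero] at this
    exact this
  have h9 : V' ≤ V := by
    intro f hf
    rw [hE.mem]
    have h10 := (hE'.mem f).1 hf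
    conv_lhs => rw [← h10, Matrix.mulVec_mulVec, ← h8, h10]
  have h10 : Module.finrank ℝ V' = Module.finrank ℝ V := by
    have h11 := hE.finrank_eq
    have h12 := hE'.finrank_eq
    rw [h4, ← h11] at h12
    exact_mod_cast h12
  exact Submodule.eq_of_le_of_finrank_eq h9 h10

end two

section proj

variable {X : Type*} [Fintype X] [DecidableEq X]

omit [DecidableEq X] in
lemma exists_projOn_span (s : Finset (X → ℝ)) :
    ∃ E : Matrix X X ℝ, ProjOn E (Submodule.span ℝ (s : Set (X → ℝ))) := by
  classical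
  induction s using Finset.induction_on with
  | empty =>
    refine ⟨0, by simp, by simp, ?_⟩
    intro f
    rw [Finset.coe_empty, Submodule.span_empty, Submodule.mem_bot, Matrix.zero_mulVec]
    exact eq_comm
  | insert u s hu ih =>
    obtain ⟨E, hE⟩ := ih
    set u' : X → ℝ := u - E *ᵥ u with hu'
    have hEu' : E *ᵥ u' = 0 := by
      rw [hu', Matrix.mulVec_sub, Matrix.mulVec_mulVec, hE.idem, sub_self]
    have hu'E : u' ᵥ* E = 0 := by
      rw [← hE.symm, Matrix.vecMul_transpose, hEu']
    by_cases h0 : u' = 0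
    · refine ⟨E, hE.symm, hE.idem, ?_⟩
      intro f
      rw [← hE.mem, Finset.coe_insert, Submodule.span_insert_eq_span]
      rw [hE.mem]
      rw [hu', sub_eq_zero] at h0
      exact h0.symm
    · have hd : u' ⬝ᵥ u' ≠ 0 := by
        intro h
        exact h0 (dotProduct_self_eq_zero.1 h)
      set c : ℝ := (u' ⬝ᵥ u')⁻¹ with hc
      refine ⟨E + c • Matrix.vecMulVec u' u', ?_, ?_, ?_⟩
      · rw [Matrix.transpose_add, Matrix.transpose_smul, Matrix.transpose_vecMulVec, hE.symm]
      · rw [add_mul, mul_add, mul_add, hE.idem, Matrix.mul_smul, Matrix.mul_vecMulVec, hEu',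
          Matrix.smul_mul, Matrix.vecMulVec_mul, hu'E, Matrix.smul_mul, Matrix.mul_smul,
          Matrix.vecMulVec_mul_vecMulVec]
        ext x y
        simp only [Matrix.add_apply, Matrix.smul_apply, Matrix.vecMulVec_apply, Pi.zero_apply,
          zero_mul, mul_zero, add_zero, zero_add, smul_eq_mul, Pi.smul_apply]
        rw [hc]
        field_simp
      · intro f
        have hmv : (E + c • Matrix.vecMulVec u' u') *ᵥ f = E *ᵥ f + (c * (u' ⬝ᵥ f)) • u' := by
          rw [Matrix.add_mulVec, Matrix.smul_mulVec, Matrix.vecMulVec_mulVec]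
          congr 1
          funext x
          simp only [Pi.smul_apply, MulOpposite.smul_eq_mul_unop, MulOpposite.unop_op, smul_eq_mul]
          ring
        rw [hmv, Finset.coe_insert, Submodule.mem_span_insert]
        constructor
        · rintro ⟨a, g, hg, rfl⟩
          have hEg := (hE.mem g).1 hg
          have h1 : u' ⬝ᵥ g = 0 := by
            rw [← hEg, Matrix.dotProduct_mulVec, hu'E, zero_dotProduct]
          have h2 : u' ⬝ᵥ u = u' ⬝ᵥ u' := by
            have : u = u' + E *ᵥ u := by rw [hu']; abel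
            conv_lhs => rw [this]
            rw [dotProduct_add, Matrix.dotProduct_mulVec, hu'E, zero_dotProduct, add_zero]
          rw [Matrix.mulVec_add, Matrix.mulVec_smul, hEg, dotProduct_add, dotProduct_smul, h1, h2,
            add_zero, smul_eq_mul]
          have h3 : c * (a * (u' ⬝ᵥ u')) = a := by
            rw [hc]
            field_simp
          rw [h3, hu']
          funext x
          simp only [Pi.add_apply, Pi.smul_apply, Pi.sub_apply, smul_eq_mul]
          ring
        · intro h
          refine ⟨c * (u' ⬝ᵥ f), E *ᵥ f - (c * (u' ⬝ᵥ f)) • (E *ᵥ u), ?_, ?_⟩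
          · exact Submodule.sub_mem _ (hE.mulVec_mem _)
              (Submodule.smul_mem _ _ (hE.mulVec_mem _))
          · conv_lhs => rw [← h, hu']
            funext x
            simp only [Pi.add_apply, Pi.smul_apply, Pi.sub_apply, smul_eq_mul]
            ring

omit [DecidableEq X] in
lemma exists_projOn_any (V : Submodule ℝ (X → ℝ)) : ∃ E : Matrix X X ℝ, ProjOn E V := by
  obtain ⟨s, hs⟩ := (inferInstance : Module.Finite ℝ V).1
  have h1 : V.FG := by
    rw [← Module.Finite.iff_fg]
    infer_instance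
  obtain ⟨s, hs⟩ := h1
  rw [← hs]
  exact exists_projOn_span s

end proj

end Pool.Agent.RepPoly
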