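import Pool.Agent.RepPoly.Equi2

set_option autoImplicit false

open Matrix

namespace Pool.Agent.RepPoly

/-- `S` is the set of labels of the vertices on a face of the polytope spanned by the points `q y`
(the whole polytope and the empty face included). -/
def IsFaceOf {Y : Type} {N : ℕ} (q : Y → (Fin N → ℝ)) (S : Set Y) : Prop :=
  ∃ a : Fin N → ℝ, ∃ c : ℝ, (∀ y, ∑ i, a i * q y i ≤ c) ∧ ∀ y, (y ∈ S ↔ ∑ i, a i * q y i = c)

/-- Affine functions of the point `q y`, as functions of `y`. -/
def aq {Y : Type} {N : ℕ} (q : Y → (Fin N → ℝ)) : Submodule ℝ (Y → ℝ) where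
  carrier := {f | ∃ (c : ℝ) (a : Fin N → ℝ), ∀ y, f y = c + ∑ i, a i * q y i}
  add_mem' := by
    rintro f g ⟨c, a, hf⟩ ⟨c', a', hg⟩
    refine ⟨c + c', a + a', fun y => ?_⟩
    rw [Pi.add_apply, hf, hg]
    simp only [Pi.add_apply, add_mul, Finset.sum_add_distrib]
    ring
  zero_mem' := ⟨0, 0, fun y => by simp⟩
  smul_mem' := by
    rintro r f ⟨c, a, hf⟩
    refine ⟨r * c, r • a, fun y => ?_⟩
    rw [Pi.smul_apply, hf, smul_eq_mul, mul_add, Finset.mul_sum]
    simp only [Pi.smul_apply, smul_eq_mul, mul_assoc]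

lemma mem_aq {Y : Type} {N : ℕ} {q : Y → (Fin N → ℝ)} {f : Y → ℝ} :
    f ∈ aq q ↔ ∃ (c : ℝ) (a : Fin N → ℝ), ∀ y, f y = c + ∑ i, a i * q y i := Iff.rfl

lemma isFaceOf_iff {Y : Type} {N : ℕ} (q : Y → (Fin N → ℝ)) (S : Set Y) :
    IsFaceOf q S ↔ Coface (aq q) Sᶜ := by
  constructor
  · rintro ⟨a, c, h1, h2⟩
    refine ⟨fun y => c - ∑ i, a i * q y i, ?_, ?_, ?_⟩
    · refine ⟨c, -a, fun y => ?_⟩
      simp [sub_eq_add_neg, Finset.sum_neg_distrib]
    · intro y
      have := h1 y
      linarith
    · intro y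
      rw [Set.mem_compl_iff, h2 y, sub_ne_zero]
      exact ⟨fun h h' => h h'.symm, fun h h' => h h'.symm⟩
  · rintro ⟨f, ⟨c, a, h⟩, h0, hs⟩
    refine ⟨-a, c, ?_, ?_⟩
    · intro y
      have h1 := h0 y
      rw [h y] at h1
      simp only [Pi.neg_apply, neg_mul, Finset.sum_neg_distrib]
      linarith
    · intro y
      have h1 := hs y
      rw [Set.mem_compl_iff, h y] at h1
      simp only [Pi.neg_apply, neg_mul, Finset.sum_neg_distrib]
      constructor
      · intro hg
        by_contra hne
        exact (h1.2 (fun h' => hne (by linarith))) hg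
      · intro hg
        by_contra hne
        exact (h1.1 hne) (by linarith)

/-- The representation polytope of a rational group is the only realization of its face lattice
in which the left translations are affine. -/
theorem realization_unique {d N : ℕ} (G : Subgroup (GL (Fin d) ℚ)) [Finite G]
    (q : toReal G → (Fin N → ℝ)) (hface : ∀ S, IsFace (toReal G) S ↔ IsFaceOf q S)
    (hleft : ∀ g : toReal G, ∃ F : (Fin N → ℝ) →ᵃ[ℝ] (Fin N → ℝ), ∀ x, F (q x) = q (g * x)) :
    (∃ F : Matrix (Fin d) (Fin d) ℝ →ᵃ[ℝ] (Fin N → ℝ),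
      ∀ x : toReal G, F (x.1 : Matrix (Fin d) (Fin d) ℝ) = q x) ∧
    (∃ F : (Fin N → ℝ) →ᵃ[ℝ] Matrix (Fin d) (Fin d) ℝ,
      ∀ x : toReal G, F (q x) = (x.1 : Matrix (Fin d) (Fin d) ℝ)) := by
  classical
  have := finite_toReal G
  let _ : Fintype (toReal G) := Fintype.ofFinite _
  obtain ⟨E, hr, hE⟩ := exists_proj_coef G
  obtain ⟨E', hE'⟩ := exists_projOn_any (aq q)
  have hT : ∀ T, Coface (coef (toReal G)) T ↔ Coface (aq q) T := by
    intro T
    have h1 := hface Tᶜ
    rw [isFace_iff, isFaceOf_iff, compl_compl] at h1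
    exact h1
  have hL' : ∀ g : toReal G, InvP (aq q) (Equiv.mulLeft g) := by
    rintro g f ⟨c, a, hf⟩
    obtain ⟨F, hF⟩ := hleft g
    refine ⟨c + ∑ i, a i * F 0 i, fun j => ∑ i, a i * F.linear (Pi.single j 1) i, fun y => ?_⟩
    rw [Function.comp_apply, hf, Equiv.coe_mulLeft, ← hF y]
    have h3 : F (q y) = F.linear (q y) + F 0 := by
      have := F.decomp
      rw [this]
      simp
    have h4 : F.linear (q y) = ∑ j, q y j • F.linear (Pi.single j 1) := by
      conv_lhs => rw [LinearMap.pi_apply_eq_sum_univ F.linear (q y)]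
      refine Finset.sum_congr rfl fun j _ => ?_
      congr 2
      funext k
      simp [Pi.single_apply, eq_comm]
    rw [h3, h4]
    simp only [Pi.add_apply, Finset.sum_apply, Pi.smul_apply, smul_eq_mul, mul_add,
      Finset.sum_add_distrib, Finset.mul_sum, Finset.sum_mul]
    rw [Finset.sum_comm]
    have h5 : ∀ j i, a i * (q y j * F.linear (Pi.single j 1) i) =
        a i * F.linear (Pi.single j 1) i * q y j := fun j i => by ring
    simp only [h5]
    ring
  have hVV : aq q = coef (toReal G) :=
    eq_of_coface' hE hE' hr (const_mem_cf _ 1) ⟨1, 0, fun y => by simp⟩ hT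
      (invP_mulRight _) (invP_mulLeft _) hL'
  constructor
  · have h1 : ∀ k : Fin N, ∃ (c : ℝ) (A : Matrix (Fin d) (Fin d) ℝ), ∀ g : toReal G,
        q g k = c + ∑ i, ∑ j, A i j * (g.1 : Matrix (Fin d) (Fin d) ℝ) i j := by
      intro k
      have h2 : (fun g => q g k) ∈ coef (toReal G) := by
        rw [← hVV]
        refine ⟨0, Pi.single k 1, fun y => ?_⟩
        simp [Pi.single_apply]
      exact mem_coef.1 h2
    choose c A hcA using h1
    let L : Matrix (Fin d) (Fin d) ℝ →ₗ[ℝ] (Fin N → ℝ) :=
      { toFun := fun M k => ∑ i, ∑ j, A k i j * M i j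
        map_add' := by
          intro M N'
          funext k
          simp [mul_add, Finset.sum_add_distrib]
        map_smul' := by
          intro r M
          funext k
          simp only [Matrix.smul_apply, smul_eq_mul, RingHom.id_apply, Pi.smul_apply,
            Finset.mul_sum]
          refine Finset.sum_congr rfl fun i _ => Finset.sum_congr rfl fun j _ => ?_
          ring }
    refine ⟨L.toAffineMap + AffineMap.const ℝ _ c, fun g => ?_⟩
    funext k
    simp only [AffineMap.coe_add, Pi.add_apply, LinearMap.coe_toAffineMap, AffineMap.coe_const,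
      Function.const_apply]
    rw [hcA k g, add_comm]
    rfl
  · have h1 : ∀ k l : Fin d, ∃ (c : ℝ) (a : Fin N → ℝ), ∀ g : toReal G,
        (g.1 : Matrix (Fin d) (Fin d) ℝ) k l = c + ∑ i, a i * q g i := by
      intro k l
      have h2 : (fun g : toReal G => (g.1 : Matrix (Fin d) (Fin d) ℝ) k l) ∈ aq q := by
        rw [hVV]
        exact entry_mem_cf (toReal G).subtype k l
      exact mem_aq.1 h2
    choose c a hca using h1
    let L : (Fin N → ℝ) →ₗ[ℝ] Matrix (Fin d) (Fin d) ℝ :=
      { toFun := fun v => Matrix.of fun k l => ∑ i, a k l i * v i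
        map_add' := by
          intro v w
          ext k l
          simp [mul_add, Finset.sum_add_distrib]
        map_smul' := by
          intro r v
          ext k l
          simp only [Matrix.smul_apply, smul_eq_mul, RingHom.id_apply, Matrix.of_apply,
            Pi.smul_apply, Finset.mul_sum]
          refine Finset.sum_congr rfl fun i _ => ?_
          ring }
    refine ⟨L.toAffineMap + AffineMap.const ℝ _ (Matrix.of c), fun g => ?_⟩
    ext k l
    simp only [AffineMap.coe_add, Pi.add_apply, LinearMap.coe_toAffineMap, AffineMap.coe_const,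
      Function.const_apply, Matrix.add_apply, Matrix.of_apply]
    rw [hca k l g, add_comm]
    rfl

end Pool.Agent.RepPoly
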