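import Pool.Agent.RepPoly.Weights

set_option autoImplicit false

open Matrix

namespace Pool.Agent.RepPoly

/-- Matrix coefficient functions lie in `cf ρ`. -/
lemma coeff_mem_cf {Γ : Type*} [Group Γ] {d : ℕ} (ρ : Γ →* GL (Fin d) ℝ)
    (lam : (Fin d → ℝ) →ₗ[ℝ] ℝ) (u : Fin d → ℝ) :
    (fun g => lam ((ρ g : Matrix (Fin d) (Fin d) ℝ) *ᵥ u)) ∈ cf ρ := by
  rw [mem_cf]
  refine ⟨0, Matrix.of fun i j => lam (Pi.single i 1) * u j, fun g => ?_⟩
  rw [zero_add]
  have h1 : (ρ g : Matrix (Fin d) (Fin d) ℝ) *ᵥ u =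
      ∑ i, ((ρ g : Matrix (Fin d) (Fin d) ℝ) *ᵥ u) i • (Pi.single i 1 : Fin d → ℝ) := by
    funext k
    simp [Finset.sum_apply, Pi.single_apply]
  rw [h1, map_sum]
  refine Finset.sum_congr rfl fun i _ => ?_
  rw [map_smul, smul_eq_mul, Matrix.mulVec, dotProduct, Finset.sum_mul]
  refine Finset.sum_congr rfl fun j _ => ?_
  rw [Matrix.of_apply]
  ring

open Classical in
lemma ext_of_dim_zero {Γ : Type*} [Group Γ] [Fintype Γ] (ρ : Γ →* GL (Fin 0) ℝ) :
    Ext (cf ρ) (Fintype.card Γ) := by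
  refine ext_of_weights ρ (Fintype.card Γ) (fun g => if g = 1 then 1 else 0) ?_ ?_ ?_ ?_ ?_ ?_
  · intro g
    split_ifs
    · exact zero_le_one
    · exact le_rfl
  · simp
  · simp
  · ext i
    exact i.elim0
  · refine Submodule.subset_span ⟨const_mem_cf _ _, Set.univ, Set.univ_nonempty, ?_, ?_⟩
    · rw [Set.ncard_univ, Nat.card_eq_fintype_card]
    · simp
  · intro k
    exact k.elim0

section frame

variable {d N k : ℕ} (v : Fin N → Fin k → (Fin d → ℝ))

/-- The linear functional with value `1 - 1/k` on the vectors `v i (σ i)` and `-1/k` on the other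
vectors of the frame. -/
lemma exists_functional (hspan : ⊤ ≤ Submodule.span ℝ (Set.range fun p : Fin N × Fin k => v p.1 p.2))
    (hsum : ∀ i, ∑ a, v i a = 0) (hk : 0 < k) (hdim : N * (k - 1) = d) (σ : Fin N → Fin k) :
    ∃ lam : (Fin d → ℝ) →ₗ[ℝ] ℝ, ∀ i a, lam (v i a) = (if a = σ i then 1 else 0) - 1 / (k : ℝ) := by
  classical
  have hkR : (0 : ℝ) < k := by exact_mod_cast hk
  let J := {p : Fin N × Fin k // p.2 ≠ σ p.1}
  let b : J → (Fin d → ℝ) := fun p => v p.1.1 p.1.2
  have hcard : Fintype.card J = Module.finrank ℝ (Fin d → ℝ) := by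
    rw [Module.finrank_fin_fun, ← hdim]
    have h1 : ∀ i : Fin N, ∑ a : Fin k, (if a ≠ σ i then 1 else 0) = k - 1 := by
      intro i
      rw [← Finset.card_filter, Finset.filter_ne', Finset.card_erase_of_mem (Finset.mem_univ _),
        Finset.card_univ, Fintype.card_fin]
    rw [Fintype.card_subtype, Finset.card_filter, Fintype.sum_prod_type]
    simp only [h1]
    simp
  have hbspan : ⊤ ≤ Submodule.span ℝ (Set.range b) := by
    refine hspan.trans ?_
    rw [Submodule.span_le]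
    rintro _ ⟨⟨i, a⟩, rfl⟩
    by_cases ha : a = σ i
    · have h1 : v i a = - ∑ a' ∈ Finset.univ.erase (σ i), v i a' := by
        have h2 := Finset.add_sum_erase Finset.univ (v i) (Finset.mem_univ (σ i))
        rw [hsum i] at h2
        rw [ha]
        exact eq_neg_of_add_eq_zero_left h2
      show v i a ∈ Submodule.span ℝ (Set.range b)
      rw [h1]
      refine Submodule.neg_mem _ (Submodule.sum_mem _ fun a' ha' => ?_)
      exact Submodule.subset_span ⟨⟨(i, a'), Finset.ne_of_mem_erase ha'⟩, rfl⟩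
    · exact Submodule.subset_span ⟨⟨(i, a), ha⟩, rfl⟩
  have hli : LinearIndependent ℝ b := linearIndependent_of_top_le_span_of_card_eq_finrank hbspan hcard
  let B := Module.Basis.mk hli hbspan
  let lam : (Fin d → ℝ) →ₗ[ℝ] ℝ := B.constr ℝ (fun _ => - (1 / (k : ℝ)))
  have hlam : ∀ i a, a ≠ σ i → lam (v i a) = - (1 / (k : ℝ)) := by
    intro i a ha
    have h1 : B ⟨(i, a), ha⟩ = v i a := by
      rw [Module.Basis.mk_apply]
    rw [← h1]
    exact B.constr_basis ℝ _ _
  refine ⟨lam, fun i a => ?_⟩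
  by_cases ha : a = σ i
  · have h1 : v i a = - ∑ a' ∈ Finset.univ.erase (σ i), v i a' := by
      have h2 := Finset.add_sum_erase Finset.univ (v i) (Finset.mem_univ (σ i))
      rw [hsum i] at h2
      rw [ha]
      exact eq_neg_of_add_eq_zero_left h2
    rw [h1, map_neg, map_sum, Finset.sum_congr rfl
      (fun a' ha' => hlam i a' (Finset.ne_of_mem_erase ha')), Finset.sum_const,
      Finset.card_erase_of_mem (Finset.mem_univ _), Finset.card_univ, Fintype.card_fin,
      if_pos ha, nsmul_eq_mul, Nat.cast_sub hk, Nat.cast_one]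
    field_simp
  · rw [hlam i a ha, if_neg ha]
    ring

end frame

open Classical in
/-- Extremality for groups permuting a frame, with `k` elements of sum zero. -/
theorem ext_of_frame {Γ : Type*} [Group Γ] [Fintype Γ] {d : ℕ} (ρ : Γ →* GL (Fin d) ℝ)
    (N k : ℕ) (v : Fin N → Fin k → (Fin d → ℝ))
    (hspan : ⊤ ≤ Submodule.span ℝ (Set.range fun p : Fin N × Fin k => v p.1 p.2))
    (hsum : ∀ i, ∑ a, v i a = 0) (hdim : N * (k - 1) = d)
    (hperm : ∀ g i a, ∃ i' a', (ρ g : Matrix (Fin d) (Fin d) ℝ) *ᵥ v i a = v i' a')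
    (R : Finset Γ) (hR1 : 1 ∈ R) (hRk : R.card = k)
    (hR0 : ∑ r ∈ R, (ρ r : Matrix (Fin d) (Fin d) ℝ) = 0) :
    ∃ m, Ext (cf ρ) m := by
  rcases Nat.eq_zero_or_pos d with hd | hd
  · subst hd
    exact ⟨_, ext_of_dim_zero ρ⟩
  have hk : 0 < k := by
    rw [← hRk]
    exact Finset.card_pos.2 ⟨1, hR1⟩
  have hkR : (0 : ℝ) < k := by exact_mod_cast hk
  have hN : 0 < N := by
    rw [Nat.pos_iff_ne_zero]
    intro h
    subst h
    omega
  let i0 : Fin N := ⟨0, hN⟩
  let a0 : Fin k := ⟨0, hk⟩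
  choose lam hlam using exists_functional v hspan hsum hk hdim
  -- the sum of all matrices vanishes
  have hzero : ∑ g : Γ, (ρ g : Matrix (Fin d) (Fin d) ℝ) = 0 := by
    have h1 : (∑ g : Γ, (ρ g : Matrix (Fin d) (Fin d) ℝ)) *
        ∑ r ∈ R, (ρ r : Matrix (Fin d) (Fin d) ℝ) = 0 := by rw [hR0, mul_zero]
    rw [Finset.mul_sum] at h1
    have h2 : ∀ r : Γ, (∑ g : Γ, (ρ g : Matrix (Fin d) (Fin d) ℝ)) *
        (ρ r : Matrix (Fin d) (Fin d) ℝ) = ∑ g : Γ, (ρ g : Matrix (Fin d) (Fin d) ℝ) := by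
      intro r
      rw [Finset.sum_mul]
      have h3 := Equiv.sum_comp (Equiv.mulRight r)
        (fun g : Γ => (ρ g : Matrix (Fin d) (Fin d) ℝ))
      rw [← h3]
      refine Finset.sum_congr rfl fun g _ => ?_
      simp
    rw [Finset.sum_congr rfl (fun r _ => h2 r), Finset.sum_const, hRk] at h1
    have h4 : (k : ℝ) • ∑ g : Γ, (ρ g : Matrix (Fin d) (Fin d) ℝ) = 0 := by
      rw [← h1]
      exact Nat.cast_smul_eq_nsmul ℝ _ _
    exact (smul_eq_zero.1 h4).resolve_left hkR.ne'
  have hzero' : ∀ (l : (Fin d → ℝ) →ₗ[ℝ] ℝ) (u : Fin d → ℝ),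
      ∑ g : Γ, l ((ρ g : Matrix (Fin d) (Fin d) ℝ) *ᵥ u) = 0 := by
    intro l u
    rw [← map_sum]
    have h1 : ∑ g : Γ, (ρ g : Matrix (Fin d) (Fin d) ℝ) *ᵥ u
        = (∑ g : Γ, (ρ g : Matrix (Fin d) (Fin d) ℝ)) *ᵥ u := by
      rw [Matrix.sum_mulVec]
    rw [h1, hzero, Matrix.zero_mulVec, map_zero]
  -- the flat functions
  let F : (Fin N → Fin k) → Fin N → Fin k → Γ → ℝ := fun σ i a g =>
    lam σ ((ρ g : Matrix (Fin d) (Fin d) ℝ) *ᵥ v i a) + 1 / (k : ℝ)
  have hF01 : ∀ σ i a g, F σ i a g = 0 ∨ F σ i a g = 1 := by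
    intro σ i a g
    obtain ⟨i', a', h⟩ := hperm g i a
    show lam σ ((ρ g : Matrix (Fin d) (Fin d) ℝ) *ᵥ v i a) + 1 / (k : ℝ) = 0 ∨
      lam σ ((ρ g : Matrix (Fin d) (Fin d) ℝ) *ᵥ v i a) + 1 / (k : ℝ) = 1
    rw [h, hlam]
    split_ifs
    · right; ring
    · left; ring
  have hFmem : ∀ σ i a, F σ i a ∈ cf ρ := by
    intro σ i a
    exact (cf ρ).add_mem (coeff_mem_cf ρ (lam σ) (v i a)) (const_mem_cf ρ (1 / (k : ℝ)))
  have hFind : ∀ σ i a, F σ i a = ({g | F σ i a g = 1} : Set Γ).indicator (fun _ => (1 : ℝ)) := by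
    intro σ i a
    funext g
    rw [Set.indicator_apply]
    rcases hF01 σ i a g with h | h
    · rw [if_neg (by rw [Set.mem_ofPred_eq, h]; exact zero_ne_one), h]
    · rw [if_pos (by rw [Set.mem_ofPred_eq, h]), h]
  have hFsum : ∀ σ i a, (k : ℝ) * ∑ g, F σ i a g = Fintype.card Γ := by
    intro σ i a
    show (k : ℝ) * ∑ g, (lam σ ((ρ g : Matrix (Fin d) (Fin d) ℝ) *ᵥ v i a) + 1 / (k : ℝ)) = _
    rw [Finset.sum_add_distrib, hzero', zero_add, Finset.sum_const, Finset.card_univ,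
      nsmul_eq_mul]
    field_simp
  have hcard : ∀ σ i a, k * ({g | F σ i a g = 1} : Set Γ).ncard = Fintype.card Γ := by
    intro σ i a
    have h1 := hFsum σ i a
    have h2 : ∑ g, F σ i a g = (({g | F σ i a g = 1} : Set Γ).ncard : ℝ) := by
      rw [Set.ncard_eq_toFinset_card', ← nsmul_one, ← Finset.sum_const]
      symm
      rw [Finset.sum_congr rfl (g := fun g => F σ i a g)]
      · apply Finset.sum_subset (Finset.subset_univ _)
        intro g _ hg
        rcases hF01 σ i a g with h | h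
        · exact h
        · exact absurd ((Set.mem_toFinset (s := {g | F σ i a g = 1})).2 h) hg
      · intro g hg
        exact (Set.mem_toFinset.1 hg).symm
    rw [h2] at h1
    exact_mod_cast h1
  let m : ℕ := ({g | F (fun _ => a0) i0 a0 g = 1} : Set Γ).ncard
  have hm : ∀ σ i a, ({g | F σ i a g = 1} : Set Γ).ncard = m := by
    intro σ i a
    exact Nat.eq_of_mul_eq_mul_left hk ((hcard σ i a).trans (hcard _ _ _).symm)
  have hmpos : 0 < m := by
    rw [Nat.pos_iff_ne_zero]
    intro h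
    have h1 := hcard (fun _ => a0) i0 a0
    have h2 : ({g | F (fun _ => a0) i0 a0 g = 1} : Set Γ).ncard = 0 := h
    rw [h2, mul_zero] at h1
    have : 0 < Fintype.card Γ := Fintype.card_pos
    omega
  have hflat : ∀ σ i a, F σ i a ∈ Flats (cf ρ) m := by
    intro σ i a
    refine ⟨hFmem σ i a, _, ?_, hm σ i a, hFind σ i a⟩
    rw [← Set.ncard_pos, hm σ i a]
    exact hmpos
  have hcoef : ∀ (l : (Fin d → ℝ) →ₗ[ℝ] ℝ) (i : Fin N) (a : Fin k),
      (fun g => l ((ρ g : Matrix (Fin d) (Fin d) ℝ) *ᵥ v i a)) ∈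
        Submodule.span ℝ (Flats (cf ρ) m) := by
    intro l i a
    have hl : l = ∑ i', ∑ a', l (v i' a') •
        (lam (Function.update (fun _ => a0) i' a') - lam (fun _ => a0)) := by
      apply LinearMap.ext_on_range (v := fun p : Fin N × Fin k => v p.1 p.2)
        (eq_top_iff.2 hspan)
      rintro ⟨j, c⟩
      simp only [LinearMap.sum_apply, LinearMap.smul_apply, LinearMap.sub_apply, smul_eq_mul]
      rw [Finset.sum_eq_single j]
      · have h1 : ∀ a' : Fin k, l (v j a') * ((lam (Function.update (fun _ => a0) j a')) (v j c)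
            - (lam fun _ => a0) (v j c))
            = (if c = a' then l (v j a') else 0) - (if c = a0 then l (v j a') else 0) := by
          intro a'
          rw [hlam, hlam, Function.update_self]
          split_ifs <;> ring
        rw [Finset.sum_congr rfl (fun a' _ => h1 a'), Finset.sum_sub_distrib, Finset.sum_ite_eq]
        rw [if_pos (Finset.mem_univ _)]
        have h2 : ∑ a', (if c = a0 then l (v j a') else 0) = 0 := by
          split_ifs
          · rw [← map_sum, hsum, map_zero]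
          · simp
        rw [h2, sub_zero]
      · intro b _ hb
        apply Finset.sum_eq_zero
        intro a' _
        rw [hlam, hlam, Function.update_of_ne hb.symm]
        simp
      · intro h
        exact absurd (Finset.mem_univ _) h
    have h2 : (fun g => l ((ρ g : Matrix (Fin d) (Fin d) ℝ) *ᵥ v i a)) =
        ∑ i', ∑ a', l (v i' a') • (F (Function.update (fun _ => a0) i' a') i a
          - F (fun _ => a0) i a) := by
      funext g
      have h3 := congrArg (fun l' : (Fin d → ℝ) →ₗ[ℝ] ℝ =>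
        l' ((ρ g : Matrix (Fin d) (Fin d) ℝ) *ᵥ v i a)) hl
      simp only [LinearMap.sum_apply, LinearMap.smul_apply, LinearMap.sub_apply] at h3
      rw [h3]
      simp only [Finset.sum_apply, Pi.smul_apply, Pi.sub_apply]
      refine Finset.sum_congr rfl fun i' _ => Finset.sum_congr rfl fun a' _ => ?_
      congr 1
      show _ = (lam (Function.update (fun _ => a0) i' a')
        ((ρ g : Matrix (Fin d) (Fin d) ℝ) *ᵥ v i a) + 1 / (k : ℝ)) -
        (lam (fun _ => a0) ((ρ g : Matrix (Fin d) (Fin d) ℝ) *ᵥ v i a) + 1 / (k : ℝ))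
      ring
    rw [h2]
    refine Submodule.sum_mem _ fun i' _ => Submodule.sum_mem _ fun a' _ =>
      Submodule.smul_mem _ _ (Submodule.sub_mem _ ?_ ?_)
    · exact Submodule.subset_span (hflat _ _ _)
    · exact Submodule.subset_span (hflat _ _ _)
  refine ⟨m, ext_of_weights ρ m (fun g => if g ∈ R then 1 else 0) ?_ ?_ ?_ ?_ ?_ ?_⟩
  · intro g
    split_ifs
    · exact zero_le_one
    · exact le_rfl
  · exact if_pos hR1
  · rw [Finset.sum_ite_mem, Finset.univ_inter, Finset.sum_const, hRk, nsmul_eq_mul, mul_one]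
    have := hcard (fun _ => a0) i0 a0
    rw [mul_comm]
    exact_mod_cast this
  · have h1 : ∑ g : Γ, (if g ∈ R then (1 : ℝ) else 0) • (ρ g : Matrix (Fin d) (Fin d) ℝ)
        = ∑ r ∈ R, (ρ r : Matrix (Fin d) (Fin d) ℝ) := by
      simp only [ite_smul, one_smul, zero_smul]
      rw [Finset.sum_ite_mem, Finset.univ_inter]
    rw [h1, hR0, smul_zero, hzero]
  · -- constants
    have h1 : (fun _ : Γ => (1 : ℝ)) = ∑ a : Fin k, F (fun _ => a) i0 a0 := by
      funext g
      rw [Finset.sum_apply]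
      obtain ⟨i', a', h⟩ := hperm g i0 a0
      have h2 : ∀ a : Fin k, F (fun _ => a) i0 a0 g = if a' = a then 1 else 0 := by
        intro a
        show lam (fun _ => a) ((ρ g : Matrix (Fin d) (Fin d) ℝ) *ᵥ v i0 a0) + 1 / (k : ℝ) = _
        rw [h, hlam]
        ring
      rw [Finset.sum_congr rfl (fun a _ => h2 a), Finset.sum_ite_eq, if_pos (Finset.mem_univ _)]
    rw [h1]
    exact Submodule.sum_mem _ fun a _ => Submodule.subset_span (hflat _ _ _)
  · intro p q
    have h1 : (fun g => (ρ g : Matrix (Fin d) (Fin d) ℝ) p q) =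
        fun g => (LinearMap.proj p : (Fin d → ℝ) →ₗ[ℝ] ℝ)
          ((ρ g : Matrix (Fin d) (Fin d) ℝ) *ᵥ (Pi.single q 1)) := by
      funext g
      simp
    rw [h1]
    have h2 : ∀ u : Fin d → ℝ, (fun g => (LinearMap.proj p : (Fin d → ℝ) →ₗ[ℝ] ℝ)
          ((ρ g : Matrix (Fin d) (Fin d) ℝ) *ᵥ u)) ∈ Submodule.span ℝ (Flats (cf ρ) m) := by
      intro u
      have hu : u ∈ Submodule.span ℝ (Set.range fun p : Fin N × Fin k => v p.1 p.2) :=
        hspan Submodule.mem_top
      induction hu using Submodule.span_induction with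
      | mem x hx =>
        obtain ⟨⟨i, a⟩, rfl⟩ := hx
        exact hcoef _ i a
      | zero =>
        have : (fun g => (LinearMap.proj p : (Fin d → ℝ) →ₗ[ℝ] ℝ)
          ((ρ g : Matrix (Fin d) (Fin d) ℝ) *ᵥ (0 : Fin d → ℝ))) = 0 := by
          funext g
          simp
        rw [this]
        exact Submodule.zero_mem _
      | add x y _ _ hx hy =>
        have : (fun g => (LinearMap.proj p : (Fin d → ℝ) →ₗ[ℝ] ℝ)
          ((ρ g : Matrix (Fin d) (Fin d) ℝ) *ᵥ (x + y))) =
          (fun g => (LinearMap.proj p : (Fin d → ℝ) →ₗ[ℝ] ℝ)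
          ((ρ g : Matrix (Fin d) (Fin d) ℝ) *ᵥ x)) + (fun g => (LinearMap.proj p :
            (Fin d → ℝ) →ₗ[ℝ] ℝ) ((ρ g : Matrix (Fin d) (Fin d) ℝ) *ᵥ y)) := by
          funext g
          simp [Matrix.mulVec_add]
        rw [this]
        exact Submodule.add_mem _ hx hy
      | smul c x _ hx =>
        have : (fun g => (LinearMap.proj p : (Fin d → ℝ) →ₗ[ℝ] ℝ)
          ((ρ g : Matrix (Fin d) (Fin d) ℝ) *ᵥ (c • x))) =
          c • (fun g => (LinearMap.proj p : (Fin d → ℝ) →ₗ[ℝ] ℝ)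
          ((ρ g : Matrix (Fin d) (Fin d) ℝ) *ᵥ x)) := by
          funext g
          simp [Matrix.mulVec_smul]
        rw [this]
        exact Submodule.smul_mem _ _ hx
    exact h2 _

end Pool.Agent.RepPoly
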