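import Mathlib

set_option autoImplicit false

namespace Pool.Agent.RepPoly

/-- A normal subgroup of a finite `p`-group contains elements that are central modulo a smaller
normal subgroup. -/
lemma exists_central_mod {Γ : Type*} [Group Γ] [Finite Γ] {p : ℕ} [Fact p.Prime]
    (hΓ : IsPGroup p Γ) (H K : Subgroup Γ) [H.Normal] [K.Normal] (hHK : ∃ k ∈ K, k ∉ H) :
    ∃ c ∈ K, c ∉ H ∧ ∀ g, g * c * g⁻¹ * c⁻¹ ∈ H := by
  classical
  let K' : Subgroup (Γ ⧸ H) := K.map (QuotientGroup.mk' H)
  have : K'.Normal := Subgroup.Normal.map inferInstance _ (QuotientGroup.mk'_surjective H)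
  have hQ : IsPGroup p (Γ ⧸ H) := hΓ.to_quotient H
  have hQc : IsPGroup p (ConjAct (Γ ⧸ H)) := hQ.of_equiv ConjAct.toConjAct
  obtain ⟨k, hk, hkH⟩ := hHK
  have hne : Nat.card K' ≠ 1 := by
    intro h
    rw [Subgroup.card_eq_one] at h
    have h1 : (QuotientGroup.mk' H) k ∈ K' := ⟨k, hk, rfl⟩
    rw [h, Subgroup.mem_bot] at h1
    exact hkH ((QuotientGroup.eq_one_iff k).1 h1)
  have hdvd : p ∣ Nat.card K' := (hQ.to_subgroup K').card_eq_or_dvd.resolve_left hne
  have hfix : (1 : K') ∈ MulAction.fixedPoints (ConjAct (Γ ⧸ H)) K' := by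
    intro g
    exact smul_one g
  obtain ⟨b, hb, hb1⟩ := hQc.exists_fixed_point_of_prime_dvd_card_of_fixed_point K' hdvd hfix
  obtain ⟨_, c, hc, rfl⟩ := b
  refine ⟨c, hc, ?_, ?_⟩
  · intro hcH
    apply hb1
    symm
    apply Subtype.ext
    exact (QuotientGroup.eq_one_iff c).2 hcH
  · intro g
    have h1 := hb (ConjAct.toConjAct (g : Γ ⧸ H))
    have h2 := congrArg (fun x : K' => (x : Γ ⧸ H)) h1
    rw [← QuotientGroup.eq_one_iff]
    have h3 : ((g : Γ ⧸ H) * c * (g : Γ ⧸ H)⁻¹) = c := h2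
    calc ((g * c * g⁻¹ * c⁻¹ : Γ) : Γ ⧸ H) = ((g : Γ ⧸ H) * c * (g : Γ ⧸ H)⁻¹) * (c : Γ ⧸ H)⁻¹ := rfl
      _ = 1 := by rw [h3, mul_inv_cancel]

/-- A finite `p`-group has a self-centralizing abelian normal subgroup. -/
lemma exists_self_centralizing {Γ : Type*} [Group Γ] [Finite Γ] {p : ℕ} [Fact p.Prime]
    (hΓ : IsPGroup p Γ) : ∃ A : Subgroup Γ, A.Normal ∧ (∀ a ∈ A, ∀ b ∈ A, a * b = b * a) ∧
      ∀ g, (∀ a ∈ A, a * g = g * a) → g ∈ A := by
  classical
  let S : Set (Subgroup Γ) := {A | A.Normal ∧ ∀ a ∈ A, ∀ b ∈ A, a * b = b * a}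
  have hS : S.Finite := Set.toFinite S
  have hSne : S.Nonempty := ⟨⊥, inferInstance, by
    intro a ha b hb
    rw [Subgroup.mem_bot] at ha hb
    rw [ha, hb]⟩
  obtain ⟨A, hA⟩ := hS.exists_maximal hSne
  have hAn : A.Normal := hA.prop.1
  have hAc := hA.prop.2
  refine ⟨A, hAn, hAc, ?_⟩
  by_contra hcon
  push Not at hcon
  obtain ⟨k, hk, hkA⟩ := hcon
  let C : Subgroup Γ := Subgroup.centralizer (A : Set Γ)
  have : C.Normal := inferInstance
  have hmemC : ∀ g, g ∈ C ↔ ∀ a ∈ A, a * g = g * a := by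
    intro g
    rw [Subgroup.mem_centralizer_iff]
    rfl
  obtain ⟨c, hcC, hcA, hc⟩ := exists_central_mod hΓ A C ⟨k, (hmemC k).2 hk, hkA⟩
  let A' : Subgroup Γ := A ⊔ Subgroup.zpowers c
  have hcA' : c ∈ A' := (le_sup_right : _ ≤ A') (Subgroup.mem_zpowers c)
  have hAA' : A ≤ A' := le_sup_left
  have h1 : A' ≤ Subgroup.centralizer (A' : Set Γ) := by
    have h2 : A' ≤ C := by
      refine sup_le ?_ ?_
      · intro a ha
        rw [hmemC]
        intro b hb
        exact hAc b hb a ha
      · rw [Subgroup.zpowers_le]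
        exact hcC
    have h3 : A' ≤ Subgroup.centralizer {c} := by
      refine sup_le ?_ ?_
      · intro a ha
        rw [Subgroup.mem_centralizer_singleton_iff]
        exact (hmemC c).1 hcC a ha
      · rw [Subgroup.zpowers_le, Subgroup.mem_centralizer_singleton_iff]
    refine sup_le ?_ ?_
    · intro a ha
      rw [Subgroup.mem_centralizer_iff]
      intro b hb
      exact ((hmemC b).1 (h2 hb) a ha).symm
    · rw [Subgroup.zpowers_le, Subgroup.mem_centralizer_iff]
      intro b hb
      exact Subgroup.mem_centralizer_singleton_iff.1 (h3 hb)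
  have h2 : A'.Normal := by
    constructor
    intro x hx g
    have h3 : A'.map (MulAut.conj g).toMonoidHom ≤ A' := by
      rw [Subgroup.map_sup]
      refine sup_le ?_ ?_
      · rintro _ ⟨a, ha, rfl⟩
        exact hAA' (hAn.conj_mem a ha g)
      · rw [MonoidHom.map_zpowers, Subgroup.zpowers_le]
        have h4 : (MulAut.conj g).toMonoidHom c = (g * c * g⁻¹ * c⁻¹) * c := by
          simp
        rw [h4]
        exact A'.mul_mem (hAA' (hc g)) hcA'
    exact h3 ⟨x, hx, rfl⟩
  have h3 : A' ∈ S := ⟨h2, fun a ha b hb => (Subgroup.mem_centralizer_iff.1 (h1 hb) a ha)⟩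
  exact hcA (hA.le_of_ge h3 hAA' hcA')

/-- A finite abelian `p`-group with at most `p` elements of order dividing `p` is cyclic. -/
lemma isCyclic_of_torsion {C : Type*} [CommGroup C] [Finite C] {p : ℕ} [hp : Fact p.Prime]
    (hC : IsPGroup p C) (h : Nat.card {c : C // c ^ p = 1} ≤ p) : IsCyclic C := by
  classical
  have : Fintype C := Fintype.ofFinite C
  have key : ∀ k : ℕ, (Finset.univ.filter fun c : C => c ^ p ^ k = 1).card ≤ p ^ k := by
    intro k
    induction k with
    | zero =>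
      refine (Finset.card_le_card (t := {1}) ?_).trans (by simp)
      intro c hc
      rw [Finset.mem_filter] at hc
      simpa using hc.2
    | succ k ih =>
      have h1 := Finset.card_le_mul_card_image
        (s := Finset.univ.filter fun c : C => c ^ p ^ (k + 1) = 1) (f := fun c => c ^ p) p ?_
      · have h2 : (Finset.univ.filter fun c : C => c ^ p ^ (k + 1) = 1).image (fun c => c ^ p)
            ⊆ Finset.univ.filter fun c : C => c ^ p ^ k = 1 := by
          intro x hx
          rw [Finset.mem_image] at hx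
          obtain ⟨c, hc, rfl⟩ := hx
          rw [Finset.mem_filter] at hc ⊢
          refine ⟨Finset.mem_univ _, ?_⟩
          rw [← pow_mul, ← pow_succ']
          exact hc.2
        calc _ ≤ p * _ := h1
          _ ≤ p * p ^ k := Nat.mul_le_mul_left _ ((Finset.card_le_card h2).trans ih)
          _ = p ^ (k + 1) := by rw [pow_succ, mul_comm]
      · intro a ha
        rw [Finset.mem_image] at ha
        obtain ⟨x0, hx0, hx0a⟩ := ha
        refine le_trans ?_ h
        rw [Nat.card_eq_fintype_card, Fintype.card_subtype]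
        apply Finset.card_le_card_of_injOn (fun x => x * x0⁻¹)
        · intro x hx
          rw [Finset.mem_coe, Finset.mem_filter] at hx ⊢
          refine ⟨Finset.mem_univ _, ?_⟩
          rw [mul_pow, inv_pow, hx.2, hx0a, mul_inv_cancel]
        · intro x _ y _ hxy
          exact mul_right_cancel hxy
  obtain ⟨N, hN⟩ := IsPGroup.iff_card.1 hC
  apply isCyclic_of_card_pow_eq_one_le
  intro n hn
  have h1 : ∀ c : C, c ^ n = 1 → c ^ (Nat.gcd n (p ^ N)) = 1 := by
    intro c hc
    rw [← orderOf_dvd_iff_pow_eq_one] at hc ⊢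
    refine Nat.dvd_gcd hc ?_
    rw [← hN]
    exact orderOf_dvd_natCard c
  obtain ⟨k, -, hk⟩ := (Nat.dvd_prime_pow hp.out).1 (Nat.gcd_dvd_right n (p ^ N))
  calc (Finset.univ.filter fun c : C => c ^ n = 1).card
      ≤ (Finset.univ.filter fun c : C => c ^ p ^ k = 1).card := by
        apply Finset.card_le_card
        intro c hc
        rw [Finset.mem_filter] at hc ⊢
        refine ⟨Finset.mem_univ _, ?_⟩
        rw [← hk]
        exact h1 c hc.2
    _ ≤ p ^ k := key k
    _ = Nat.gcd n (p ^ N) := hk.symm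
    _ ≤ n := Nat.gcd_le_left _ hn

end Pool.Agent.RepPoly
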