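import Pool.Agent.RepPoly.GT

set_option autoImplicit false

namespace Pool.Agent.RepPoly

lemma pow_mul_formula {Γ : Type*} [Group Γ] {c w u : Γ} (hu : ∀ g, g * u = u * g)
    (h : w * c = u * c * w) : ∀ i : ℕ, (c * w) ^ i = c ^ i * w ^ i * u ^ (i.choose 2) := by
  have h1 : ∀ i : ℕ, w ^ i * c = u ^ i * c * w ^ i := by
    intro i
    induction i with
    | zero => simp
    | succ i ih =>
      rw [pow_succ, mul_assoc, h]
      calc w ^ i * (u * c * w) = u * (w ^ i * c) * w := by
            have := (Commute.pow_left (hu w : Commute w u) i).eq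
            rw [← mul_assoc, ← mul_assoc, this]
            simp only [mul_assoc]
        _ = u * (u ^ i * c * w ^ i) * w := by rw [ih]
        _ = u ^ (i + 1) * c * (w ^ i * w) := by rw [pow_succ']; simp only [mul_assoc]
  intro i
  induction i with
  | zero => simp
  | succ i ih =>
    have hc : (i + 1).choose 2 = i + i.choose 2 := by
      rw [Nat.choose_succ_succ' i 1, Nat.choose_one_right]
    have hcomm : ∀ (k : ℕ) (g : Γ), g * u ^ k = u ^ k * g := fun k g =>
      (Commute.pow_right (hu g : Commute g u) k).eq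
    rw [pow_succ, ih, hc, pow_add u]
    calc c ^ i * w ^ i * u ^ i.choose 2 * (c * w)
        = c ^ i * w ^ i * (u ^ i.choose 2 * (c * w)) := by simp only [mul_assoc]
      _ = c ^ i * w ^ i * ((c * w) * u ^ i.choose 2) := by rw [hcomm _ (c * w)]
      _ = c ^ i * (w ^ i * c) * w * u ^ i.choose 2 := by simp only [mul_assoc]
      _ = c ^ i * (u ^ i * c * w ^ i) * w * u ^ i.choose 2 := by rw [h1]
      _ = (c ^ i * u ^ i) * c * w ^ i * w * u ^ i.choose 2 := by simp only [mul_assoc]
      _ = (u ^ i * c ^ i) * c * w ^ i * w * u ^ i.choose 2 := by rw [hcomm i (c ^ i)]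
      _ = u ^ i * (c ^ (i + 1) * w ^ (i + 1)) * u ^ i.choose 2 := by
          rw [pow_succ c, pow_succ w]; simp only [mul_assoc]
      _ = (c ^ (i + 1) * w ^ (i + 1)) * u ^ i * u ^ i.choose 2 := by
          rw [← hcomm i (c ^ (i + 1) * w ^ (i + 1))]
      _ = c ^ (i + 1) * w ^ (i + 1) * (u ^ i * u ^ i.choose 2) := by simp only [mul_assoc]

/-- Commutation with integer powers. -/
lemma zpow_comm_formula {Γ : Type*} [Group Γ] {a w u : Γ} (hu : ∀ g, g * u = u * g)
    (h : w * a = u * a * w) (r : ℤ) : w * a ^ r = u ^ r * a ^ r * w := by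
  have h1 : w * a * w⁻¹ = u * a := by rw [h]; group
  have h2 : w * a ^ r * w⁻¹ = (u * a) ^ r := by
    rw [← h1, conj_zpow]
  have h3 : (u * a) ^ r = u ^ r * a ^ r := by
    have : Commute u a := (hu a).symm
    exact this.mul_zpow r
  rw [← h3, ← h2]
  group

section

variable {Γ : Type*} [Group Γ] {p : ℕ} [hp : Fact p.Prime] {z a : Γ} {n : ℕ}

/-- The key step: an element acting on the cyclic self-centralizing subgroup `⟨a⟩` through `⟨z⟩`
gives an element of order `p` outside `⟨z⟩` that is central modulo `⟨z⟩`. -/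
lemma key_step (hz : ∀ g, g * z = z * g) (hz1 : z ≠ 1) (hzp : z ^ p = 1)
    (nE : ∀ y : Γ, y ^ p = 1 → (∀ g, g * y * g⁻¹ * y⁻¹ ∈ Subgroup.zpowers z) →
      y ∈ Subgroup.zpowers z)
    (hn : 1 ≤ n) (ha : orderOf a = p ^ n)
    (hnorm : ∀ g : Γ, ∀ b ∈ Subgroup.zpowers a, g * b * g⁻¹ ∈ Subgroup.zpowers a)
    (hself : ∀ g : Γ, a * g = g * a → g ∈ Subgroup.zpowers a)
    (htor : ∀ y ∈ Subgroup.zpowers a, y ^ p = 1 → y ∈ Subgroup.zpowers z)
    (hza : z ∈ Subgroup.zpowers a)
    (w : Γ) (hw : w ∉ Subgroup.zpowers a) (hwp : w ^ p ∈ Subgroup.zpowers a)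
    (hcomm : ∀ g, g * w * g⁻¹ * w⁻¹ ∈ Subgroup.zpowers a)
    (hz1w : w * a * w⁻¹ * a⁻¹ ∈ Subgroup.zpowers z) (h2 : p = 2 → 3 ≤ n) : False := by
  classical
  have hord : orderOf z = p := orderOf_eq_prime hzp hz1
  set u : Γ := w * a * w⁻¹ * a⁻¹ with hu_def
  have hzpc : ∀ v ∈ Subgroup.zpowers z, ∀ g, g * v = v * g := by
    rintro v ⟨k, rfl⟩ g
    exact (Commute.zpow_right (hz g : Commute g z) k).eq
  have huc : ∀ g, g * u = u * g := hzpc u hz1w
  have hvp : ∀ v ∈ Subgroup.zpowers z, v ^ p = 1 := by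
    rintro v ⟨k, rfl⟩
    dsimp only
    rw [← zpow_natCast, ← zpow_mul, mul_comm, zpow_mul, zpow_natCast, hzp, one_zpow]
  have hwa : w * a = u * a * w := by
    rw [hu_def]; group
  have hu1 : u ≠ 1 := by
    intro h
    rw [h, one_mul] at hwa
    exact hw (hself w hwa.symm)
  have hup : u ^ p = 1 := hvp u hz1w
  have huord : orderOf u = p := orderOf_eq_prime hup hu1
  obtain ⟨j, hj⟩ := hwp
  have hj' : a ^ j = w ^ p := hj
  have huj : u ^ j = 1 := by
    have h3 := zpow_comm_formula huc hwa j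
    rw [hj'] at h3
    have h4 : w * w ^ p = w ^ p * w := by rw [← pow_succ', pow_succ]
    rw [h4, mul_assoc] at h3
    exact (mul_eq_right.1 h3.symm)
  have hpj : (p : ℤ) ∣ j := by
    rw [← huord]
    exact orderOf_dvd_iff_zpow_eq_one.2 huj
  obtain ⟨j', rfl⟩ := hpj
  -- construct `y`
  have hy : ∃ m : ℤ, (a ^ m * w) ^ p = 1 := by
    rcases hp.out.eq_two_or_odd' with h2p | hodd
    · subst h2p
      have hn3 := h2 rfl
      obtain ⟨k, rfl⟩ : ∃ k, n = k + 3 := ⟨n - 3, by omega⟩
      -- `u = a ^ 2 ^ (n-1)`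
      have hu2 : u = a ^ ((2 : ℤ) ^ (k + 2)) := by
        have h3 : (a ^ ((2 : ℤ) ^ (k + 2))) ^ 2 = 1 := by
          rw [← zpow_natCast, ← zpow_mul]
          have : ((2 : ℤ) ^ (k + 2) * ((2 : ℕ) : ℤ)) = ((2 ^ (k + 3) : ℕ) : ℤ) := by
            push_cast; ring
          rw [this, zpow_natCast, ← ha, pow_orderOf_eq_one]
        have h4 : a ^ ((2 : ℤ) ^ (k + 2)) ≠ 1 := by
          intro h
          have h5 := orderOf_dvd_iff_zpow_eq_one.2 h
          rw [ha] at h5
          have h6 : (2 : ℕ) ^ (k + 3) ∣ 2 ^ (k + 2) := by exact_mod_cast h5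
          have h7 := Nat.le_of_dvd (by positivity) h6
          have h8 : (2 : ℕ) ^ (k + 2) < 2 ^ (k + 3) := Nat.pow_lt_pow_right (by norm_num) (by omega)
          omega
        have h5 : a ^ ((2 : ℤ) ^ (k + 2)) ∈ Subgroup.zpowers z :=
          htor _ (Subgroup.zpow_mem _ (Subgroup.mem_zpowers a) _) h3
        -- both are the unique nontrivial element of `⟨z⟩`
        have h6 : ∀ v ∈ Subgroup.zpowers z, v ≠ 1 → v = z := by
          rintro v ⟨i, rfl⟩ hv
          dsimp only at hv ⊢
          rcases Int.even_or_odd' i with ⟨t, ht | ht⟩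
          · exfalso
            apply hv
            rw [ht, zpow_mul]
            have : z ^ (2 : ℤ) = 1 := by exact_mod_cast hzp
            rw [this, one_zpow]
          · rw [ht, zpow_add, zpow_mul]
            have : z ^ (2 : ℤ) = 1 := by exact_mod_cast hzp
            rw [this, one_zpow, one_mul, zpow_one]
        rw [h6 u hz1w hu1, h6 _ h5 h4]
      refine ⟨-j' + j' * 2 ^ (k + 1), ?_⟩
      have h3 := zpow_comm_formula huc hwa (-j' + j' * 2 ^ (k + 1))
      rw [pow_mul_formula (fun g => (Commute.zpow_right (huc g : Commute g u) _).eq) h3]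
      rw [← hj', hu2]
      simp only [Nat.choose_self, pow_one]
      rw [← zpow_natCast, ← zpow_mul, ← zpow_mul, ← zpow_add, ← zpow_add]
      have h4 : (-j' + j' * 2 ^ (k + 1)) * ((2 : ℕ) : ℤ) + ((2 : ℕ) : ℤ) * j' +
          2 ^ (k + 2) * (-j' + j' * 2 ^ (k + 1)) = ((2 ^ (k + 3) : ℕ) : ℤ) * (j' * 2 ^ k) := by
        push_cast
        ring
      rw [h4, zpow_mul, zpow_natCast, ← ha, pow_orderOf_eq_one, one_zpow]
    · refine ⟨-j', ?_⟩
      have h3 := zpow_comm_formula huc hwa (-j')
      rw [pow_mul_formula (fun g => (Commute.zpow_right (huc g : Commute g u) _).eq) h3]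
      have h4 : p ∣ p.choose 2 := hp.out.dvd_choose_self (by norm_num) (by
        rcases hodd with ⟨t, ht⟩
        have := hp.out.two_le
        omega)
      obtain ⟨q, hq⟩ := h4
      have h5 : (u ^ (-j')) ^ p.choose 2 = 1 := by
        rw [hq, pow_mul, ← zpow_natCast (u ^ (-j')) p, ← zpow_mul, mul_comm, zpow_mul,
          zpow_natCast, hup, one_zpow, one_pow]
      rw [h5, mul_one, ← hj', ← zpow_natCast, ← zpow_mul, ← zpow_add]
      have h6 : -j' * (p : ℤ) + (p : ℤ) * j' = 0 := by ring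
      rw [h6, zpow_zero]
  obtain ⟨m, hm⟩ := hy
  set y : Γ := a ^ m * w with hy_def
  have hyA : y ∉ Subgroup.zpowers a := by
    intro h
    apply hw
    have h3 : w = (a ^ m)⁻¹ * y := by rw [hy_def]; group
    rw [h3]
    exact Subgroup.mul_mem _ (Subgroup.inv_mem _ (Subgroup.zpow_mem _ (Subgroup.mem_zpowers a) _)) h
  have hya : y * a = u * a * y := by
    calc y * a = a ^ m * (w * a) := by rw [hy_def, mul_assoc]
      _ = a ^ m * (u * a * w) := by rw [hwa]
      _ = (a ^ m * u) * a * w := by simp only [mul_assoc]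
      _ = (u * a ^ m) * a * w := by rw [huc]
      _ = u * (a ^ m * a) * w := by simp only [mul_assoc]
      _ = u * (a * a ^ m) * w := by rw [← zpow_add_one, ← zpow_one_add, add_comm]
      _ = u * a * y := by rw [hy_def]; simp only [mul_assoc]
  apply hyA
  have hyz : y ∈ Subgroup.zpowers z := by
    apply nE y hm
    intro g
    set b : Γ := g * y * g⁻¹ * y⁻¹ with hb_def
    have hbA : b ∈ Subgroup.zpowers a := by
      have h3 : b = (g * a ^ m * g⁻¹) * (g * w * g⁻¹ * w⁻¹) * (a ^ m)⁻¹ := by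
        rw [hb_def, hy_def]; group
      rw [h3]
      exact Subgroup.mul_mem _ (Subgroup.mul_mem _ (hnorm g _ (Subgroup.zpow_mem _
        (Subgroup.mem_zpowers a) _)) (hcomm g)) (Subgroup.inv_mem _ (Subgroup.zpow_mem _
        (Subgroup.mem_zpowers a) _))
    obtain ⟨r, hr⟩ := hbA
    have hr' : a ^ r = b := hr
    have h3 : (b * y) ^ p = 1 := by
      have : b * y = g * y * g⁻¹ := by rw [hb_def]; group
      rw [this, conj_pow, hm, mul_one, mul_inv_cancel]
    have h4 := zpow_comm_formula huc hya r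
    rw [hr'] at h4
    rw [pow_mul_formula (fun g => (Commute.zpow_right (huc g : Commute g u) _).eq) h4, hm,
      mul_one] at h3
    have hbp : b ^ p = 1 := by
      rcases hp.out.eq_two_or_odd' with h2p | hodd
      · subst h2p
        have hn3 := h2 rfl
        obtain ⟨k, rfl⟩ : ∃ k, n = k + 3 := ⟨n - 3, by omega⟩
        simp only [Nat.choose_self, pow_one] at h3
        have h5 : b ^ 4 = 1 := by
          have h6 : b ^ 2 = (u ^ r)⁻¹ := eq_inv_of_mul_eq_one_left h3
          have h7 : b ^ 4 = (b ^ 2) ^ 2 := by rw [← pow_mul]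
          rw [h7, h6, inv_pow, ← zpow_natCast, ← zpow_mul, mul_comm, zpow_mul, zpow_natCast, hup,
            one_zpow, inv_one]
        have h6 : a ^ (r * 4) = 1 := by
          rw [zpow_mul, hr']
          exact_mod_cast h5
        have h7 := orderOf_dvd_iff_zpow_eq_one.2 h6
        rw [ha] at h7
        have h8 : (2 : ℤ) ∣ r := by
          have h9 : ((2 : ℤ) * 2 ^ k) * 4 ∣ r * 4 := by
            have : ((2 : ℤ) * 2 ^ k) * 4 = ((2 ^ (k + 3) : ℕ) : ℤ) := by push_cast; ring
            rw [this]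
            exact h7
          exact (Dvd.intro _ rfl).trans (Int.dvd_of_mul_dvd_mul_right (by norm_num) h9)
        obtain ⟨r', rfl⟩ := h8
        have h9 : u ^ (2 * r') = 1 := by
          rw [zpow_mul]
          have : u ^ (2 : ℤ) = 1 := by exact_mod_cast hup
          rw [this, one_zpow]
        rw [h9, mul_one] at h3
        exact h3
      · have h4 : p ∣ p.choose 2 := hp.out.dvd_choose_self (by norm_num) (by
          rcases hodd with ⟨t, ht⟩
          have := hp.out.two_le
          omega)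
        obtain ⟨q, hq⟩ := h4
        have h5 : (u ^ r) ^ p.choose 2 = 1 := by
          rw [hq, pow_mul, ← zpow_natCast (u ^ r) p, ← zpow_mul, mul_comm, zpow_mul,
            zpow_natCast, hup, one_zpow, one_pow]
        rw [h5, mul_one] at h3
        exact h3
    exact htor b ⟨r, hr⟩ hbp
  obtain ⟨i, hi⟩ := hyz
  have hi' : z ^ i = y := hi
  rw [← hi']
  exact Subgroup.zpow_mem _ hza _

end

end Pool.Agent.RepPoly
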