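import Pool.Agent.RepPoly.GT2

set_option autoImplicit false

namespace Pool.Agent.RepPoly

/-- A nontrivial normal subgroup `A` that is abelian and self-centralizing is cyclic when the
group has no element of order `p` outside `⟨z⟩` that is central modulo `⟨z⟩`. -/
lemma cyclic_selfcentral {Γ : Type*} [Group Γ] [Finite Γ] {p : ℕ} [hp : Fact p.Prime]
    (hΓ : IsPGroup p Γ) {z : Γ} (hz : ∀ g, g * z = z * g) (hz1 : z ≠ 1) (hzp : z ^ p = 1)
    (nE : ∀ y : Γ, y ^ p = 1 → (∀ g, g * y * g⁻¹ * y⁻¹ ∈ Subgroup.zpowers z) →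
      y ∈ Subgroup.zpowers z) :
    ∃ a : Γ, z ∈ Subgroup.zpowers a ∧
      (∀ g : Γ, ∀ b ∈ Subgroup.zpowers a, g * b * g⁻¹ ∈ Subgroup.zpowers a) ∧
      (∀ g : Γ, a * g = g * a → g ∈ Subgroup.zpowers a) ∧
      (∀ y ∈ Subgroup.zpowers a, y ^ p = 1 → y ∈ Subgroup.zpowers z) := by
  classical
  obtain ⟨A, hAn, hAc, hAs⟩ := exists_self_centralizing hΓ
  have hord : orderOf z = p := orderOf_eq_prime hzp hz1
  have hzA : z ∈ A := hAs z fun a _ => hz a
  -- the elements of order dividing `p` in `A`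
  let K : Subgroup Γ :=
    { carrier := {y | y ∈ A ∧ y ^ p = 1}
      mul_mem' := by
        rintro x y ⟨hx, hx1⟩ ⟨hy, hy1⟩
        refine ⟨A.mul_mem hx hy, ?_⟩
        have : Commute x y := hAc x hx y hy
        rw [this.mul_pow, hx1, hy1, one_mul]
      one_mem' := ⟨A.one_mem, one_pow p⟩
      inv_mem' := by
        rintro x ⟨hx, hx1⟩
        exact ⟨A.inv_mem hx, by rw [inv_pow, hx1, inv_one]⟩ }
  have hKn : K.Normal := by
    constructor
    rintro x ⟨hx, hx1⟩ g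
    exact ⟨hAn.conj_mem x hx g, by rw [conj_pow, hx1, mul_one, mul_inv_cancel]⟩
  have hZn : (Subgroup.zpowers z).Normal := by
    constructor
    rintro x ⟨k, rfl⟩ g
    dsimp only
    rw [(Commute.zpow_right (hz g : Commute g z) k).eq, mul_assoc, mul_inv_cancel, mul_one]
    exact Subgroup.zpow_mem _ (Subgroup.mem_zpowers z) k
  have htorA : ∀ y ∈ A, y ^ p = 1 → y ∈ Subgroup.zpowers z := by
    by_contra hcon
    push Not at hcon
    obtain ⟨k, hk, hk1, hkz⟩ := hcon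
    obtain ⟨c, hcK, hcz, hc⟩ := exists_central_mod hΓ (Subgroup.zpowers z) K ⟨k, ⟨hk, hk1⟩, hkz⟩
    exact hcz (nE c hcK.2 hc)
  let _ : CommGroup A := { (inferInstance : Group A) with
    mul_comm := fun a b => Subtype.ext (hAc a.1 a.2 b.1 b.2) }
  have hcyc : IsCyclic A := by
    apply isCyclic_of_torsion (p := p) (hΓ.to_subgroup A)
    have h1 : Nat.card {c : A // c ^ p = 1} ≤ Nat.card (Subgroup.zpowers z) := by
      apply Nat.card_le_card_of_injective
        (fun c => (⟨c.1.1, htorA c.1.1 c.1.2 (by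
          have := congrArg Subtype.val c.2
          simpa using this)⟩ : Subgroup.zpowers z))
      intro c c' hcc
      have := congrArg Subtype.val hcc
      exact Subtype.ext (Subtype.ext this)
    rwa [Nat.card_zpowers, hord] at h1
  obtain ⟨⟨a, haA⟩, ha⟩ := hcyc.exists_generator
  have hAz : ∀ x, x ∈ A ↔ x ∈ Subgroup.zpowers a := by
    intro x
    constructor
    · intro hx
      obtain ⟨k, hk⟩ := ha ⟨x, hx⟩
      refine ⟨k, ?_⟩
      have := congrArg Subtype.val hk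
      simpa using this
    · rintro ⟨k, rfl⟩
      exact A.zpow_mem haA k
  refine ⟨a, (hAz z).1 hzA, ?_, ?_, ?_⟩
  · intro g b hb
    rw [← hAz] at hb ⊢
    exact hAn.conj_mem b hb g
  · intro g hg
    rw [← hAz]
    apply hAs
    intro b hb
    obtain ⟨k, rfl⟩ := (hAz b).1 hb
    exact (Commute.zpow_left (hg : Commute a g) k).eq
  · intro y hy
    exact htorA y ((hAz y).2 hy)

lemma lte_odd {p : ℕ} (hp : p.Prime) (hodd : Odd p) (s : ℤ) (n : ℕ)
    (h : (p : ℤ) ^ (n + 1) ∣ s ^ p - 1) : (p : ℤ) ^ n ∣ s - 1 := by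
  have : Fact p.Prime := ⟨hp⟩
  have h1 : (p : ℤ) ∣ s - 1 := by
    have h2 : (p : ℤ) ∣ s ^ p - 1 := (dvd_pow_self (p : ℤ) (Nat.succ_ne_zero n)).trans h
    rw [← ZMod.intCast_zmod_eq_zero_iff_dvd] at h2 ⊢
    push_cast at h2 ⊢
    rwa [ZMod.pow_card] at h2
  have h2 : ¬ (p : ℤ) ∣ s := by
    intro h3
    have h4 : (p : ℤ) ∣ 1 := by
      have := dvd_sub h3 h1
      simpa using this
    have h5 : p ∣ 1 := by exact_mod_cast h4
    exact hp.one_lt.ne' (Nat.dvd_one.1 h5)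
  have h3 := Int.emultiplicity_pow_sub_pow hp hodd h1 h2 p
  rw [one_pow] at h3
  have h4 : emultiplicity p p = 1 := by
    have := (Nat.finiteMultiplicity_iff.2 ⟨hp.ne_one, hp.pos⟩).emultiplicity_self
    exact this
  rw [h4] at h3
  rw [pow_dvd_iff_le_emultiplicity] at h ⊢
  rw [h3] at h
  push_cast at h
  exact (ENat.add_le_add_iff_right ENat.one_ne_top).1 h

lemma two_dvd_of_sq {s : ℤ} {n : ℕ} (h : (2 : ℤ) ^ (n + 1) ∣ s ^ 2 - 1) (hs : s % 4 = 1) :
    (2 : ℤ) ^ n ∣ s - 1 := by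
  obtain ⟨k, hk⟩ : ∃ k, s + 1 = 2 * (2 * k + 1) := ⟨s / 4, by omega⟩
  have h1 : (2 : ℤ) ^ n ∣ (s - 1) * (2 * k + 1) := by
    have h2 : s ^ 2 - 1 = ((s - 1) * (2 * k + 1)) * 2 := by
      have : s ^ 2 - 1 = (s - 1) * (s + 1) := by ring
      rw [this, hk]; ring
    rw [h2, pow_succ] at h
    exact Int.dvd_of_mul_dvd_mul_right (by norm_num) h
  have h2 : IsCoprime ((2 : ℤ) ^ n) (2 * k + 1) := by
    apply IsCoprime.pow_left
    exact ⟨-k, 1, by ring⟩
  exact h2.dvd_of_dvd_mul_right h1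

lemma two_dvd_of_sq' {s : ℤ} {n : ℕ} (h : (2 : ℤ) ^ (n + 1) ∣ s ^ 2 - 1) (hs : s % 4 = 3) :
    (2 : ℤ) ^ n ∣ s + 1 := by
  have h1 : (2 : ℤ) ^ n ∣ (-s) - 1 := two_dvd_of_sq (s := -s) (by rwa [neg_sq]) (by omega)
  have h2 : s + 1 = -((-s) - 1) := by ring
  rw [h2]
  exact (dvd_neg).2 h1

/-- The structure of the finite `p`-groups without an element of order `p` outside `⟨z⟩` that is
central modulo `⟨z⟩`. -/
theorem structure_of_nE {Γ : Type*} [Group Γ] [Finite Γ] {p : ℕ} [hp : Fact p.Prime]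
    (hΓ : IsPGroup p Γ) {z : Γ} (hz : ∀ g, g * z = z * g) (hz1 : z ≠ 1) (hzp : z ^ p = 1)
    (nE : ∀ y : Γ, y ^ p = 1 → (∀ g, g * y * g⁻¹ * y⁻¹ ∈ Subgroup.zpowers z) →
      y ∈ Subgroup.zpowers z) :
    ∃ (a : Γ) (n : ℕ), orderOf a = p ^ (n + 1) ∧ a ^ (p ^ n) ∈ Subgroup.zpowers z ∧
      a ^ (p ^ n) ≠ 1 ∧ z ∈ Subgroup.zpowers a ∧
      (∀ g : Γ, a * g = g * a → g ∈ Subgroup.zpowers a) ∧
      (∀ y ∈ Subgroup.zpowers a, y ^ p = 1 → y ∈ Subgroup.zpowers z) ∧
      ((∀ g, g ∈ Subgroup.zpowers a) ∨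
        (p = 2 ∧ 1 ≤ n ∧ (∃ x, x ∉ Subgroup.zpowers a) ∧
          (∀ x y, x ∉ Subgroup.zpowers a → y ∉ Subgroup.zpowers a →
            x * y ∈ Subgroup.zpowers a) ∧
          ∀ x, x ∉ Subgroup.zpowers a →
            x * a * x⁻¹ = a⁻¹ ∨ x * a * x⁻¹ = a⁻¹ * a ^ (2 ^ n))) := by
  classical
  obtain ⟨a, hza, hnorm, hself, htor⟩ := cyclic_selfcentral hΓ hz hz1 hzp nE
  obtain ⟨N, hN⟩ := (IsPGroup.iff_orderOf.1 hΓ) a
  have hN0 : N ≠ 0 := by
    intro h
    rw [h, pow_zero, orderOf_eq_one_iff] at hN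
    rw [hN] at hza
    obtain ⟨k, hk⟩ := hza
    apply hz1
    rw [← hk]
    exact one_zpow k
  obtain ⟨n, rfl⟩ := Nat.exists_eq_add_one_of_ne_zero hN0
  have hapn : (a ^ (p ^ n)) ^ p = 1 := by
    rw [← pow_mul, ← pow_succ, ← hN, pow_orderOf_eq_one]
  have hapn1 : a ^ (p ^ n) ≠ 1 := by
    intro h
    have h1 := orderOf_dvd_of_pow_eq_one h
    rw [hN] at h1
    have h2 := Nat.le_of_dvd (pow_pos hp.out.pos n) h1
    have h3 : p ^ n < p ^ (n + 1) := Nat.pow_lt_pow_right hp.out.one_lt (Nat.lt_succ_self n)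
    omega
  have hapz : a ^ (p ^ n) ∈ Subgroup.zpowers z :=
    htor _ (Subgroup.pow_mem _ (Subgroup.mem_zpowers a) _) hapn
  refine ⟨a, n, hN, hapz, hapn1, hza, hself, htor, ?_⟩
  -- exponents
  have hexp : ∀ g : Γ, ∃ s : ℤ, g * a * g⁻¹ = a ^ s := by
    intro g
    obtain ⟨s, hs⟩ := hnorm g a (Subgroup.mem_zpowers a)
    exact ⟨s, hs.symm⟩
  have hzpow : ∀ (g : Γ) (s r : ℤ), g * a * g⁻¹ = a ^ s → g * a ^ r * g⁻¹ = a ^ (s * r) := by
    intro g s r h
    rw [← conj_zpow, h, zpow_mul]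
  have hpowexp : ∀ (g : Γ) (s : ℤ), g * a * g⁻¹ = a ^ s →
      ∀ i : ℕ, g ^ i * a * (g ^ i)⁻¹ = a ^ (s ^ i) := by
    intro g s h i
    induction i with
    | zero => simp
    | succ i ih =>
      have h1 : g ^ (i + 1) * a * (g ^ (i + 1))⁻¹ = g * (g ^ i * a * (g ^ i)⁻¹) * g⁻¹ := by
        rw [pow_succ']; group
      rw [h1, ih, hzpow g s _ h, ← pow_succ']
  -- commutators lie in `⟨a⟩`
  have hcommA : ∀ h w : Γ, h * w * h⁻¹ * w⁻¹ ∈ Subgroup.zpowers a := by
    intro h w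
    apply hself
    obtain ⟨s, hs⟩ := hexp h
    obtain ⟨t, ht⟩ := hexp w
    obtain ⟨k, hk⟩ := hnorm (w * h)⁻¹ a (Subgroup.mem_zpowers a)
    have hk' : a ^ k = (w * h)⁻¹ * a * (w * h) := by
      have : a ^ k = (w * h)⁻¹ * a * ((w * h)⁻¹)⁻¹ := hk
      rwa [inv_inv] at this
    have h1 : w * (h * a ^ k * h⁻¹) * w⁻¹ = a := by
      rw [hk']; group
    rw [hzpow h s k hs, hzpow w t _ ht] at h1
    have h2 : h * (w * a ^ k * w⁻¹) * h⁻¹ = a := by
      rw [hzpow w t k ht, hzpow h s _ hs]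
      have h3 : s * (t * k) = t * (s * k) := by ring
      rw [h3, h1]
    have h3 : (h * w * h⁻¹ * w⁻¹) * a * (h * w * h⁻¹ * w⁻¹)⁻¹ = h * (w * a ^ k * w⁻¹) * h⁻¹ := by
      rw [hk']; group
    rw [h2] at h3
    exact (mul_inv_eq_iff_eq_mul.1 h3).symm
  by_cases hall : ∀ g, g ∈ Subgroup.zpowers a
  · exact Or.inl hall
  push Not at hall
  obtain ⟨g0, hg0⟩ := hall
  -- a power whose `p`-th power lies in `⟨a⟩`
  have hfind : ∀ g : Γ, g ∉ Subgroup.zpowers a → ∃ i : ℕ, g ^ p ^ i ∉ Subgroup.zpowers a ∧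
      (g ^ p ^ i) ^ p ∈ Subgroup.zpowers a := by
    intro g hg
    have hex : ∃ t : ℕ, g ^ p ^ t ∈ Subgroup.zpowers a := by
      obtain ⟨t, ht⟩ := hΓ g
      exact ⟨t, by rw [ht]; exact Subgroup.one_mem _⟩
    have h1 := Nat.find_spec hex
    have h0 : Nat.find hex ≠ 0 := by
      intro h
      rw [h, pow_zero, pow_one] at h1
      exact hg h1
    obtain ⟨i, hi⟩ := Nat.exists_eq_add_one_of_ne_zero h0
    refine ⟨i, ?_, ?_⟩
    · exact Nat.find_min hex (by omega)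
    · rw [← pow_mul, ← pow_succ, ← hi]
      exact h1
  have hfix : ∀ g : Γ, g ∈ Subgroup.zpowers a → g * a * g⁻¹ = a := by
    rintro g ⟨k, rfl⟩
    dsimp only
    have : Commute (a ^ k) a := (Commute.refl a).zpow_left k
    rw [this.eq, mul_assoc, mul_inv_cancel, mul_one]
  have hdvd : ∀ s : ℤ, a ^ s = a → ((p : ℤ) ^ (n + 1)) ∣ s - 1 := by
    intro s hs
    have h1 : a ^ (s - 1) = 1 := by rw [zpow_sub_one, hs, mul_inv_cancel]
    have h2 := orderOf_dvd_iff_zpow_eq_one.2 h1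
    rw [hN] at h2
    exact_mod_cast h2
  have hdvd' : ∀ s : ℤ, ((p : ℤ) ^ (n + 1)) ∣ s - 1 → a ^ s = a := by
    intro s hs
    have h1 : a ^ (s - 1) = 1 := by
      apply orderOf_dvd_iff_zpow_eq_one.1
      rw [hN]
      exact_mod_cast hs
    rw [zpow_sub_one, mul_inv_eq_one] at h1
    exact h1
  have hcomm_of : ∀ g : Γ, g * a * g⁻¹ = a → g ∈ Subgroup.zpowers a := by
    intro g hg
    apply hself
    exact (mul_inv_eq_iff_eq_mul.1 hg).symm
  -- the commutator with `a` lies in `⟨z⟩`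
  have hu : ∀ (w : Γ) (s : ℤ), w * a * w⁻¹ = a ^ s → ((p : ℤ) ^ n) ∣ s - 1 →
      w * a * w⁻¹ * a⁻¹ ∈ Subgroup.zpowers z := by
    rintro w s hs ⟨q, hq⟩
    rw [hs, ← zpow_sub_one, hq]
    have h1 : a ^ ((p : ℤ) ^ n * q) = (a ^ (p ^ n)) ^ q := by
      rw [zpow_mul]
      congr 1
      rw [← zpow_natCast]
      push_cast
      rfl
    rw [h1]
    exact Subgroup.zpow_mem _ hapz q
  rcases hp.out.eq_two_or_odd' with h2p | hodd
  · subst h2p
    have claim : ∀ g : Γ, g ∉ Subgroup.zpowers a → ∀ s : ℤ, g * a * g⁻¹ = a ^ s →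
        s % 4 = 3 ∧ 1 ≤ n := by
      intro g hg s hs
      have hsodd : s % 2 = 1 := by
        by_contra hcon
        obtain ⟨k, hk⟩ : ∃ k, s = 2 * k := ⟨s / 2, by omega⟩
        have h1 : (g * a * g⁻¹) ^ (2 ^ n) = 1 := by
          rw [hs, hk, ← zpow_natCast, ← zpow_mul]
          have h3 : 2 * k * ((2 ^ n : ℕ) : ℤ) = ((2 ^ (n + 1) : ℕ) : ℤ) * k := by
            push_cast; ring
          rw [h3, zpow_mul, zpow_natCast, ← hN, pow_orderOf_eq_one, one_zpow]
        rw [conj_pow, mul_inv_eq_one, mul_eq_left] at h1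
        exact hapn1 h1
      have hs4 : s % 4 = 3 := by
        by_contra hcon
        have hs1 : s % 4 = 1 := by omega
        obtain ⟨i, hi1, hi2⟩ := hfind g hg
        have hs' : (s ^ 2 ^ i) % 4 = 1 := by
          have h3 : s ≡ 1 [ZMOD 4] := hs1
          have h4 := h3.pow (2 ^ i)
          rw [one_pow] at h4
          exact h4
        have hw := hpowexp g s hs (2 ^ i)
        have hw2 := hpowexp _ _ hw 2
        rw [hfix _ hi2] at hw2
        have hd : (2 : ℤ) ^ (n + 1) ∣ (s ^ 2 ^ i) ^ 2 - 1 := by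
          have := hdvd _ hw2.symm
          exact_mod_cast this
        have hd2 := two_dvd_of_sq hd hs'
        have hn2 : 2 ≤ n := by
          by_contra hlt
          apply hi1
          apply hcomm_of
          rw [hw]
          apply hdvd'
          have h5 : (4 : ℤ) ∣ s ^ 2 ^ i - 1 := by omega
          refine Dvd.dvd.trans ?_ h5
          have h6 : (4 : ℤ) = 2 ^ 2 := by norm_num
          rw [h6]
          exact_mod_cast pow_dvd_pow 2 (by omega)
        exact key_step hz hz1 hzp nE (n := n + 1) (by omega) hN hnorm hself htor hza _ hi1 hi2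
          (fun h => hcommA h _) (hu _ _ hw (by exact_mod_cast hd2)) (fun _ => by omega)
      refine ⟨hs4, ?_⟩
      by_contra hn
      have hn0 : n = 0 := by omega
      apply hg
      apply hcomm_of
      rw [hs]
      apply hdvd'
      rw [hn0]
      norm_num
      omega
    have hprod : ∀ x y, x ∉ Subgroup.zpowers a → y ∉ Subgroup.zpowers a →
        x * y ∈ Subgroup.zpowers a := by
      intro x y hx hy
      by_contra hxy
      obtain ⟨s, hs⟩ := hexp x
      obtain ⟨t, ht⟩ := hexp y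
      have h1 : (x * y) * a * (x * y)⁻¹ = a ^ (s * t) := by
        have h2 : (x * y) * a * (x * y)⁻¹ = x * (y * a * y⁻¹) * x⁻¹ := by group
        rw [h2, ht, hzpow x s t hs]
      have h2 := (claim _ hxy _ h1).1
      have h3 := (claim _ hx _ hs).1
      have h4 := (claim _ hy _ ht).1
      rw [Int.mul_emod, h3, h4] at h2
      norm_num at h2
    right
    refine ⟨rfl, ?_, ⟨g0, hg0⟩, hprod, ?_⟩
    · obtain ⟨s, hs⟩ := hexp g0
      exact (claim g0 hg0 s hs).2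
    · intro x hx
      obtain ⟨s, hs⟩ := hexp x
      have h1 := hpowexp x s hs 2
      rw [hfix (x ^ 2) (by rw [sq]; exact hprod x x hx hx)] at h1
      have h2 : (2 : ℤ) ^ (n + 1) ∣ s ^ 2 - 1 := by
        have := hdvd _ h1.symm
        exact_mod_cast this
      obtain ⟨q, hq⟩ := two_dvd_of_sq' h2 (claim x hx s hs).1
      have h3 : a ^ s = a⁻¹ * (a ^ (2 ^ n)) ^ q := by
        have h4 : s = -1 + 2 ^ n * q := by rw [← hq]; ring
        rw [h4, zpow_add, zpow_neg_one, zpow_mul]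
        congr 2
        rw [← zpow_natCast]
        push_cast
        rfl
      rw [hs, h3]
      rcases Int.even_or_odd' q with ⟨r, hr | hr⟩
      · left
        rw [hr, zpow_mul]
        have h4 : (a ^ (2 ^ n)) ^ (2 : ℤ) = 1 := by exact_mod_cast hapn
        rw [h4, one_zpow, mul_one]
      · right
        rw [hr, zpow_add, zpow_mul]
        have h4 : (a ^ (2 ^ n)) ^ (2 : ℤ) = 1 := by exact_mod_cast hapn
        rw [h4, one_zpow, one_mul, zpow_one]
  · exfalso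
    obtain ⟨i, hi1, hi2⟩ := hfind g0 hg0
    obtain ⟨s, hs⟩ := hexp (g0 ^ p ^ i)
    have h1 := hpowexp _ s hs p
    rw [hfix _ hi2] at h1
    have h2 := lte_odd hp.out hodd s n (hdvd _ h1.symm)
    refine key_step hz hz1 hzp nE (n := n + 1) (by omega) hN hnorm hself htor hza _ hi1 hi2
          (fun h => hcommA h _) (hu _ _ hs h2) (fun h => ?_)
    exfalso
    rw [h] at hodd
    exact absurd hodd (by decide)

end Pool.Agent.RepPoly
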