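import Pool.Agent.RepPoly.Weights

set_option autoImplicit false

open Matrix

namespace Pool.Agent.RepPoly

/-- If `-(1/(k-1)) I` lies in the convex hull of the matrices then their sum vanishes. -/
lemma sum_eq_zero_of_hull {Γ : Type*} [Group Γ] [Fintype Γ] {d : ℕ} (ρ : Γ →* GL (Fin d) ℝ)
    (k : ℝ) (hk : 1 < k)
    (hull : (-(1 / (k - 1))) • (1 : Matrix (Fin d) (Fin d) ℝ) ∈
      convexHull ℝ (Set.range fun g => (ρ g : Matrix (Fin d) (Fin d) ℝ))) :
    ∑ g : Γ, (ρ g : Matrix (Fin d) (Fin d) ℝ) = 0 := by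
  set Sm : Matrix (Fin d) (Fin d) ℝ := ∑ g : Γ, (ρ g : Matrix (Fin d) (Fin d) ℝ) with hS
  let L : Matrix (Fin d) (Fin d) ℝ →ₗ[ℝ] Matrix (Fin d) (Fin d) ℝ := LinearMap.mulLeft ℝ Sm
  have h1 : convexHull ℝ (Set.range fun g => (ρ g : Matrix (Fin d) (Fin d) ℝ)) ⊆ L ⁻¹' {Sm} := by
    apply convexHull_min
    · rintro _ ⟨g, rfl⟩
      rw [Set.mem_preimage, Set.mem_singleton_iff]
      show Sm * (ρ g : Matrix (Fin d) (Fin d) ℝ) = Sm
      rw [hS, Finset.sum_mul]
      have h3 := Equiv.sum_comp (Equiv.mulRight g)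
        (fun g : Γ => (ρ g : Matrix (Fin d) (Fin d) ℝ))
      rw [← h3]
      refine Finset.sum_congr rfl fun h _ => ?_
      simp only [Equiv.coe_mulRight, map_mul, Units.val_mul]
    · exact (convex_singleton Sm).linear_preimage L
  have h2 := h1 hull
  rw [Set.mem_preimage, Set.mem_singleton_iff] at h2
  have h3 : Sm * ((-(1 / (k - 1))) • (1 : Matrix (Fin d) (Fin d) ℝ)) = Sm := h2
  rw [Matrix.mul_smul, mul_one] at h3
  have h4 : (-(1 / (k - 1)) - 1) • Sm = 0 := by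
    rw [sub_smul, h3, one_smul, sub_self]
  have h5 : -(1 / (k - 1)) - 1 ≠ 0 := by
    have : 0 < 1 / (k - 1) := by
      apply div_pos one_pos
      linarith
    linarith
  exact (smul_eq_zero.1 h4).resolve_left h5

/-- The averaging bound coming from a point of the polytope opposite to the identity. -/
lemma bound_of_hull {Γ : Type*} [Group Γ] [Fintype Γ] {d : ℕ} (ρ : Γ →* GL (Fin d) ℝ)
    (m : ℕ) (k : ℝ) (hk : 1 < k) (hmk : (m : ℝ) * k = Fintype.card Γ)
    (hull : (-(1 / (k - 1))) • (1 : Matrix (Fin d) (Fin d) ℝ) ∈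
      convexHull ℝ (Set.range fun g => (ρ g : Matrix (Fin d) (Fin d) ℝ))) :
    ∀ f ∈ cf ρ, (∀ x, 0 ≤ f x) → ∀ x, (m : ℝ) * f x ≤ ∑ y, f y := by
  intro f hf h0 x
  obtain ⟨c, A, hA⟩ := mem_cf.1 hf
  have hzero := sum_eq_zero_of_hull ρ k hk hull
  have hsum : ∑ y, f y = (m : ℝ) * (k * c) := by
    simp only [hA]
    rw [Finset.sum_add_distrib]
    have h1 : ∑ g : Γ, ∑ i, ∑ j, A i j * (ρ g : Matrix (Fin d) (Fin d) ℝ) i j = 0 := by
      rw [Finset.sum_comm]
      apply Finset.sum_eq_zero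
      intro i _
      rw [Finset.sum_comm]
      apply Finset.sum_eq_zero
      intro j _
      rw [← Finset.mul_sum]
      have h2 := congrFun (congrFun hzero i) j
      rw [Matrix.sum_apply] at h2
      rw [h2]
      simp
    rw [h1, Finset.sum_const, Finset.card_univ, nsmul_eq_mul, ← hmk]
    ring
  rw [hsum]
  apply mul_le_mul_of_nonneg_left _ (Nat.cast_nonneg m)
  -- the functional
  let L : Matrix (Fin d) (Fin d) ℝ →ₗ[ℝ] ℝ :=
    { toFun := fun M => ∑ i, ∑ j, A i j * ((ρ x : Matrix (Fin d) (Fin d) ℝ) * M) i j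
      map_add' := by
        intro M N
        simp only [Matrix.mul_add, Matrix.add_apply, mul_add, Finset.sum_add_distrib]
      map_smul' := by
        intro r M
        simp only [Matrix.mul_smul, Matrix.smul_apply, smul_eq_mul, RingHom.id_apply,
          Finset.mul_sum]
        refine Finset.sum_congr rfl fun i _ => Finset.sum_congr rfl fun j _ => ?_
        ring }
  have h1 : convexHull ℝ (Set.range fun g => (ρ g : Matrix (Fin d) (Fin d) ℝ)) ⊆
      L ⁻¹' (Set.Ici (-c)) := by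
    apply convexHull_min
    · rintro _ ⟨g, rfl⟩
      rw [Set.mem_preimage, Set.mem_Ici]
      have h2 := h0 (x * g)
      rw [hA, map_mul, Units.val_mul] at h2
      show -c ≤ ∑ i, ∑ j, A i j * ((ρ x : Matrix (Fin d) (Fin d) ℝ) *
        (ρ g : Matrix (Fin d) (Fin d) ℝ)) i j
      linarith
    · exact (convex_Ici (-c)).linear_preimage L
  have h2 := h1 hull
  rw [Set.mem_preimage, Set.mem_Ici, map_smul, smul_eq_mul] at h2
  have h3 : L 1 = ∑ i, ∑ j, A i j * (ρ x : Matrix (Fin d) (Fin d) ℝ) i j := by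
    show ∑ i, ∑ j, A i j * ((ρ x : Matrix (Fin d) (Fin d) ℝ) *
      (1 : Matrix (Fin d) (Fin d) ℝ)) i j = _
    rw [mul_one]
  rw [hA x, ← h3]
  have hk1 : 0 < k - 1 := by linarith
  have h4 : L 1 ≤ (k - 1) * c := by
    have h5 : (k - 1) * (-c) ≤ (k - 1) * (-(1 / (k - 1)) * L 1) :=
      mul_le_mul_of_nonneg_left h2 hk1.le
    have h6 : (k - 1) * (-(1 / (k - 1)) * L 1) = - L 1 := by
      field_simp
    rw [h6] at h5
    linarith
  linarith

/-- Extremality from a point of the polytope opposite to the identity and a spanning family of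
indicator functions. -/
theorem ext_of_hull {Γ : Type*} [Group Γ] [Fintype Γ] {d : ℕ} (ρ : Γ →* GL (Fin d) ℝ)
    (m : ℕ) (k : ℝ) (hk : 1 < k) (hmk : (m : ℝ) * k = Fintype.card Γ)
    (hull : (-(1 / (k - 1))) • (1 : Matrix (Fin d) (Fin d) ℝ) ∈
      convexHull ℝ (Set.range fun g => (ρ g : Matrix (Fin d) (Fin d) ℝ)))
    (hspan1 : (fun _ => (1 : ℝ)) ∈ Submodule.span ℝ (Flats (cf ρ) m))
    (hspan2 : ∀ k l : Fin d, (fun g => (ρ g : Matrix (Fin d) (Fin d) ℝ) k l) ∈
      Submodule.span ℝ (Flats (cf ρ) m)) : Ext (cf ρ) m :=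
  ⟨lower_of_bound (bound_of_hull ρ m k hk hmk hull),
    flat_of_bound (bound_of_hull ρ m k hk hmk hull),
    (cf_le_iff ρ _).2 ⟨hspan1, hspan2⟩⟩

end Pool.Agent.RepPoly
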