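import Pool.Agent.RepPoly.PG4
import Pool.Agent.RepPoly.Frame

set_option autoImplicit false

open Matrix

namespace Pool.Agent.RepPoly

/-- `G` is irreducible over the rationals. -/
def IrreducibleQ {d : ℕ} (G : Subgroup (GL (Fin d) ℚ)) : Prop :=
  ∀ W : Submodule ℚ (Fin d → ℚ),
    (∀ g ∈ G, ∀ w ∈ W, (g : Matrix (Fin d) (Fin d) ℚ) *ᵥ w ∈ W) → W = ⊥ ∨ W = ⊤

/-- The group `G` of rational matrices, seen as a group of real matrices. -/
noncomputable def toReal {d : ℕ} (G : Subgroup (GL (Fin d) ℚ)) : Subgroup (GL (Fin d) ℝ) :=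
  G.map (Matrix.GeneralLinearGroup.map (algebraMap ℚ ℝ))

/-- The rational representation. -/
noncomputable def repQ {d : ℕ} (G : Subgroup (GL (Fin d) ℚ)) :
    G →* Module.End ℚ (Fin d → ℚ) :=
  ((Matrix.toLinAlgEquiv' : Matrix (Fin d) (Fin d) ℚ ≃ₐ[ℚ] _).toAlgHom.toRingHom.toMonoidHom.comp
    (Units.coeHom _)).comp G.subtype

lemma repQ_apply {d : ℕ} (G : Subgroup (GL (Fin d) ℚ)) (g : G) (v : Fin d → ℚ) :
    repQ G g v = (g.1 : Matrix (Fin d) (Fin d) ℚ) *ᵥ v := rfl

lemma repQ_injective {d : ℕ} (G : Subgroup (GL (Fin d) ℚ)) : Function.Injective (repQ G) := by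
  intro g h hgh
  apply Subtype.ext
  apply Units.ext
  exact (Matrix.toLinAlgEquiv' : Matrix (Fin d) (Fin d) ℚ ≃ₐ[ℚ] _).injective hgh

/-- The real representation. -/
noncomputable def repR {d : ℕ} (G : Subgroup (GL (Fin d) ℚ)) : G →* GL (Fin d) ℝ :=
  (Matrix.GeneralLinearGroup.map (algebraMap ℚ ℝ)).comp G.subtype

lemma repR_range {d : ℕ} (G : Subgroup (GL (Fin d) ℚ)) : (repR G).range = toReal G := by
  unfold repR toReal
  rw [MonoidHom.range_comp, Subgroup.range_subtype]

lemma repR_apply {d : ℕ} (G : Subgroup (GL (Fin d) ℚ)) (g : G) (i j : Fin d) :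
    (repR G g : Matrix (Fin d) (Fin d) ℝ) i j = (((g.1 : Matrix (Fin d) (Fin d) ℚ) i j : ℚ) : ℝ) :=
  rfl

lemma repR_injective {d : ℕ} (G : Subgroup (GL (Fin d) ℚ)) : Function.Injective (repR G) := by
  intro g h hgh
  apply Subtype.ext
  apply Units.ext
  ext i j
  have h1 : (repR G g : Matrix (Fin d) (Fin d) ℝ) i j = (repR G h : Matrix (Fin d) (Fin d) ℝ) i j := by
    rw [hgh]
  rw [repR_apply, repR_apply] at h1
  exact_mod_cast h1

/-- Real vector of a rational vector. -/
def cv {d : ℕ} (v : Fin d → ℚ) : Fin d → ℝ := fun i => (v i : ℝ)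

lemma cv_mulVec {d : ℕ} (G : Subgroup (GL (Fin d) ℚ)) (g : G) (v : Fin d → ℚ) :
    (repR G g : Matrix (Fin d) (Fin d) ℝ) *ᵥ cv v = cv ((g.1 : Matrix (Fin d) (Fin d) ℚ) *ᵥ v) := by
  funext i
  simp only [Matrix.mulVec, dotProduct, cv, repR_apply]
  push_cast
  rfl

/-- Real functional of a rational functional. -/
def cl {d : ℕ} (l : (Fin d → ℚ) →ₗ[ℚ] ℚ) : (Fin d → ℝ) →ₗ[ℝ] ℝ where
  toFun x := ∑ i, (l (Pi.single i 1) : ℝ) * x i
  map_add' x y := by
    simp [mul_add, Finset.sum_add_distrib]
  map_smul' c x := by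
    simp only [Pi.smul_apply, smul_eq_mul, RingHom.id_apply, Finset.mul_sum]
    refine Finset.sum_congr rfl fun i _ => ?_
    ring

lemma cl_apply {d : ℕ} (l : (Fin d → ℚ) →ₗ[ℚ] ℚ) (x : Fin d → ℝ) :
    cl l x = ∑ i, (l (Pi.single i 1) : ℝ) * x i := rfl

lemma cl_cv {d : ℕ} (l : (Fin d → ℚ) →ₗ[ℚ] ℚ) (v : Fin d → ℚ) : cl l (cv v) = ((l v : ℚ) : ℝ) := by
  rw [cl_apply]
  have h1 : v = ∑ i, v i • (Pi.single i 1 : Fin d → ℚ) := by
    funext k
    simp [Finset.sum_apply, Pi.single_apply]
  conv_rhs => rw [h1, map_sum]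
  push_cast
  refine Finset.sum_congr rfl fun i _ => ?_
  rw [map_smul, smul_eq_mul]
  push_cast
  simp only [cv]
  ring

/-- A central element of order `p` without fixed vectors. -/
lemma exists_central_nofix {Γ V : Type} [Group Γ] [AddCommGroup V] [Module ℚ V] [Finite Γ]
    {p : ℕ} (hp : p.Prime) (ρ : Γ →* Module.End ℚ V) (hinj : Function.Injective ρ)
    (hΓ : IsPGroup p Γ) (hirr : Irr ρ) (hnt : Nontrivial Γ) :
    ∃ z : Γ, (∀ g, g * z = z * g) ∧ z ≠ 1 ∧ z ^ p = 1 ∧ ∀ v, ρ z v = v → v = 0 := by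
  have : Fact p.Prime := ⟨hp⟩
  have hcnt : Nontrivial (Subgroup.center Γ) := hΓ.center_nontrivial
  obtain ⟨c, hc1⟩ := exists_ne (1 : Subgroup.center Γ)
  obtain ⟨k, hk⟩ := (IsPGroup.iff_orderOf.1 hΓ) c.1
  have hk0 : k ≠ 0 := by
    intro h
    rw [h, pow_zero, orderOf_eq_one_iff] at hk
    exact hc1 (Subtype.ext hk)
  obtain ⟨k, rfl⟩ := Nat.exists_eq_add_one_of_ne_zero hk0
  let z : Γ := c.1 ^ p ^ k
  have hz : ∀ g, g * z = z * g := by
    intro g
    have h1 : g * c.1 = c.1 * g := (Subgroup.mem_center_iff.1 c.2 g)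
    exact (Commute.pow_right (h1 : Commute g c.1) _).eq
  have hzp : z ^ p = 1 := by
    show (c.1 ^ p ^ k) ^ p = 1
    rw [← pow_mul, ← pow_succ, ← hk, pow_orderOf_eq_one]
  have hz1 : z ≠ 1 := by
    intro h
    have h1 := orderOf_dvd_of_pow_eq_one h
    rw [hk] at h1
    have h2 := Nat.le_of_dvd (pow_pos hp.pos k) h1
    have h3 : p ^ k < p ^ (k + 1) := Nat.pow_lt_pow_right hp.one_lt (Nat.lt_succ_self k)
    omega
  refine ⟨z, hz, hz1, hzp, ?_⟩
  let W : Submodule ℚ V := LinearMap.ker (ρ z - 1)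
  have hW : ∀ v, v ∈ W ↔ ρ z v = v := by
    intro v
    rw [LinearMap.mem_ker, LinearMap.sub_apply, Module.End.one_apply, sub_eq_zero]
  rcases hirr W (fun g w hw => by
    rw [hW] at hw ⊢
    rw [← Module.End.mul_apply, ← map_mul, ← hz, map_mul, Module.End.mul_apply, hw])
    with h | h
  · intro v hv
    have h1 := (hW v).2 hv
    rw [h] at h1
    exact (Submodule.mem_bot ℚ).1 h1
  · exfalso
    apply hz1
    apply hinj
    ext v
    have h3 : v ∈ W := by rw [h]; exact Submodule.mem_top
    rw [(hW v).1 h3, map_one, Module.End.one_apply]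

open Classical in
theorem ext_of_pgroup {d p : ℕ} (hp : p.Prime) (G : Subgroup (GL (Fin d) ℚ)) [Finite G]
    (hG : IsPGroup p G) (hirr : IrreducibleQ G) : ∃ m, Ext (coef (toReal G)) m := by
  have hpf : Fact p.Prime := ⟨hp⟩
  suffices h : ∃ m, Ext (cf (repR G)) m by
    obtain ⟨m, hm⟩ := h
    refine ⟨m, ?_⟩
    rw [← repR_range]
    exact hm.range (repR_injective G)
  let _ : Fintype G := Fintype.ofFinite G
  rcases Nat.eq_zero_or_pos d with hd | hd
  · subst hd
    exact ⟨_, ext_of_dim_zero (repR G)⟩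
  have hirr' : Irr (repQ G) := by
    intro W hW
    exact hirr W fun g hg w hw => hW ⟨g, hg⟩ w hw
  have hpR : (0 : ℝ) < p := by exact_mod_cast hp.pos
  rcases subsingleton_or_nontrivial G with hsub | hnt
  · -- the trivial group
    have hone : ∀ g : G, g = 1 := fun g => Subsingleton.elim g 1
    have hflat1 : (fun _ : G => (1 : ℝ)) ∈ Flats (cf (repR G)) 1 := by
      refine ⟨const_mem_cf _ _, Set.univ, Set.univ_nonempty, ?_, ?_⟩
      · rw [Set.ncard_univ, Nat.card_eq_one_iff_unique]
        exact ⟨hsub, ⟨1⟩⟩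
      · simp
    have hcard : Fintype.card G = 1 := Fintype.card_eq_one_iff.2 ⟨1, hone⟩
    refine ⟨1, ext_of_weights (repR G) 1 (fun _ => 1) (fun _ => zero_le_one) rfl ?_ ?_
      (Submodule.subset_span hflat1) ?_⟩
    · simp
    · simp
    · intro k l
      have h1 : (fun g => (repR G g : Matrix (Fin d) (Fin d) ℝ) k l)
          = ((repR G 1 : Matrix (Fin d) (Fin d) ℝ) k l) • (fun _ : G => (1 : ℝ)) := by
        funext g
        rw [hone g]
        simp
      rw [h1]
      exact Submodule.smul_mem _ _ (Submodule.subset_span hflat1)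
  -- the nontrivial case
  have hV : Nontrivial (Fin d → ℚ) := by
    have : Nonempty (Fin d) := ⟨⟨0, hd⟩⟩
    infer_instance
  obtain ⟨z, hz, hz1, hzp, hfix⟩ := exists_central_nofix hp (repQ G) (repQ_injective G) hG hirr' hnt
  have hord : orderOf z = p := orderOf_eq_prime hzp hz1
  have hact : ∃ g, repQ G g ≠ 1 := by
    refine ⟨z, fun h => hz1 (repQ_injective G ?_)⟩
    rw [h, map_one]
  obtain ⟨v, lam, hlam⟩ := flat_exists hp (Nat.card G) G (Fin d → ℚ) (repQ G) le_rfl hG hirr' hact
  have hvne : v ≠ 0 := by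
    intro h
    have h1 := hlam 1
    rw [h, map_zero, map_zero] at h1
    have hpQ : (1 : ℚ) < p := by exact_mod_cast hp.one_lt
    have h2 : 0 < 1 / (p : ℚ) := by positivity
    have h3 : 1 / (p : ℚ) < 1 := by
      rw [div_lt_one (by linarith)]
      exact hpQ
    rcases h1 with h1 | h1 <;> linarith
  -- sum over the powers of `z`
  have hgeo : ∀ w : Fin d → ℚ, ∑ k ∈ Finset.range p, (repQ G (z ^ k)) w = 0 := by
    intro w
    have h1 := geo_sum (repQ G z) (p := p) (by rw [← map_pow, hzp, map_one]) hfix w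
    rw [← h1]
    refine Finset.sum_congr rfl fun k _ => ?_
    rw [map_pow]
  have hgeoR : ∑ k ∈ Finset.range p, (repR G (z ^ k) : Matrix (Fin d) (Fin d) ℝ) = 0 := by
    ext i j
    have h1 := congrFun (hgeo (Pi.single j 1)) i
    rw [Finset.sum_apply] at h1
    rw [Matrix.sum_apply]
    simp only [repR_apply]
    have h2 : ∀ k, (repQ G (z ^ k)) (Pi.single j 1) i = ((z ^ k : G).1 : Matrix (Fin d) (Fin d) ℚ) i j := by
      intro k
      rw [repQ_apply]
      simp
    simp only [h2] at h1
    have h3 : ((∑ k ∈ Finset.range p, ((z ^ k : G).1 : Matrix (Fin d) (Fin d) ℚ) i j : ℚ) : ℝ) = 0 := by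
      rw [h1]
      simp
    push_cast at h3
    simpa using h3
  -- the whole sum
  have hsumR : ∑ g : G, (repR G g : Matrix (Fin d) (Fin d) ℝ) = 0 := by
    have h1 : (∑ g : G, (repR G g : Matrix (Fin d) (Fin d) ℝ)) *
        ∑ k ∈ Finset.range p, (repR G (z ^ k) : Matrix (Fin d) (Fin d) ℝ) = 0 := by
      rw [hgeoR, mul_zero]
    rw [Finset.mul_sum] at h1
    have h2 : ∀ r : G, (∑ g : G, (repR G g : Matrix (Fin d) (Fin d) ℝ)) *
        (repR G r : Matrix (Fin d) (Fin d) ℝ) = ∑ g : G, (repR G g : Matrix (Fin d) (Fin d) ℝ) := by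
      intro r
      rw [Finset.sum_mul]
      have h3 := Equiv.sum_comp (Equiv.mulRight r)
        (fun g : G => (repR G g : Matrix (Fin d) (Fin d) ℝ))
      rw [← h3]
      refine Finset.sum_congr rfl fun g _ => ?_
      simp only [Equiv.coe_mulRight, map_mul, Units.val_mul]
    rw [Finset.sum_congr rfl (fun k _ => h2 (z ^ k)), Finset.sum_const, Finset.card_range] at h1
    have h4 : (p : ℝ) • ∑ g : G, (repR G g : Matrix (Fin d) (Fin d) ℝ) = 0 := by
      rw [← h1]
      exact Nat.cast_smul_eq_nsmul ℝ _ _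
    exact (smul_eq_zero.1 h4).resolve_left hpR.ne'
  -- the flat functions
  let F : G → G → G → ℝ := fun h h' g =>
    cl lam ((repR G h : Matrix (Fin d) (Fin d) ℝ) *ᵥ
      ((repR G g : Matrix (Fin d) (Fin d) ℝ) *ᵥ
        ((repR G h' : Matrix (Fin d) (Fin d) ℝ) *ᵥ cv v))) + 1 / (p : ℝ)
  have hFval : ∀ h h' g, F h h' g = ((lam (repQ G (h * g * h') v) : ℚ) : ℝ) + 1 / (p : ℝ) := by
    intro h h' g
    show cl lam ((repR G h : Matrix (Fin d) (Fin d) ℝ) *ᵥ
      ((repR G g : Matrix (Fin d) (Fin d) ℝ) *ᵥ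
        ((repR G h' : Matrix (Fin d) (Fin d) ℝ) *ᵥ cv v))) + 1 / (p : ℝ) = _
    rw [cv_mulVec, cv_mulVec, cv_mulVec, cl_cv]
    congr 3
    rw [map_mul, map_mul, Module.End.mul_apply, Module.End.mul_apply]
    rfl
  have hF01 : ∀ h h' g, F h h' g = 0 ∨ F h h' g = 1 := by
    intro h h' g
    rw [hFval]
    rcases hlam (h * g * h') with h1 | h1
    · left
      rw [h1]
      push_cast
      ring
    · right
      rw [h1]
      push_cast
      ring
  have hFmem : ∀ h h', F h h' ∈ cf (repR G) := by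
    intro h h'
    exact (cf (repR G)).add_mem
      (coeff_mem_cf (repR G) ((cl lam).comp (Matrix.mulVecLin (repR G h : Matrix (Fin d) (Fin d) ℝ)))
        ((repR G h' : Matrix (Fin d) (Fin d) ℝ) *ᵥ cv v)) (const_mem_cf (repR G) (1 / (p : ℝ)))
  have hFind : ∀ h h', F h h' = ({g | F h h' g = 1} : Set G).indicator (fun _ => (1 : ℝ)) := by
    intro h h'
    funext g
    rw [Set.indicator_apply]
    rcases hF01 h h' g with h1 | h1
    · rw [if_neg (by rw [Set.mem_ofPred_eq, h1]; exact zero_ne_one), h1]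
    · rw [if_pos (by rw [Set.mem_ofPred_eq, h1]), h1]
  have hzero' : ∀ (l : (Fin d → ℝ) →ₗ[ℝ] ℝ) (u : Fin d → ℝ),
      ∑ g : G, l ((repR G g : Matrix (Fin d) (Fin d) ℝ) *ᵥ u) = 0 := by
    intro l u
    rw [← map_sum]
    have h1 : ∑ g : G, (repR G g : Matrix (Fin d) (Fin d) ℝ) *ᵥ u
        = (∑ g : G, (repR G g : Matrix (Fin d) (Fin d) ℝ)) *ᵥ u := by
      rw [Matrix.sum_mulVec]
    rw [h1, hsumR, Matrix.zero_mulVec, map_zero]
  have hcard : ∀ h h', p * ({g | F h h' g = 1} : Set G).ncard = Fintype.card G := by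
    intro h h'
    have h1 : (p : ℝ) * ∑ g, F h h' g = Fintype.card G := by
      show (p : ℝ) * ∑ g, (((cl lam).comp (Matrix.mulVecLin
        (repR G h : Matrix (Fin d) (Fin d) ℝ))) ((repR G g : Matrix (Fin d) (Fin d) ℝ) *ᵥ
        ((repR G h' : Matrix (Fin d) (Fin d) ℝ) *ᵥ cv v)) + 1 / (p : ℝ)) = _
      rw [Finset.sum_add_distrib, hzero', zero_add, Finset.sum_const, Finset.card_univ,
        nsmul_eq_mul]
      field_simp
    have h2 : ∑ g, F h h' g = (({g | F h h' g = 1} : Set G).ncard : ℝ) := by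
      rw [Set.ncard_eq_toFinset_card', ← nsmul_one, ← Finset.sum_const]
      symm
      rw [Finset.sum_congr rfl (g := fun g => F h h' g)]
      · apply Finset.sum_subset (Finset.subset_univ _)
        intro g _ hg
        rcases hF01 h h' g with h3 | h3
        · exact h3
        · exact absurd ((Set.mem_toFinset (s := {g | F h h' g = 1})).2 h3) hg
      · intro g hg
        exact (Set.mem_toFinset.1 hg).symm
    rw [h2] at h1
    exact_mod_cast h1
  let m : ℕ := ({g | F 1 1 g = 1} : Set G).ncard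
  have hm : ∀ h h', ({g | F h h' g = 1} : Set G).ncard = m := by
    intro h h'
    exact Nat.eq_of_mul_eq_mul_left hp.pos ((hcard h h').trans (hcard _ _).symm)
  have hmpos : 0 < m := by
    rw [Nat.pos_iff_ne_zero]
    intro h
    have h1 := hcard 1 1
    have h2 : ({g | F 1 1 g = 1} : Set G).ncard = 0 := h
    rw [h2, mul_zero] at h1
    have : 0 < Fintype.card G := Fintype.card_pos
    omega
  have hflat : ∀ h h', F h h' ∈ Submodule.span ℝ (Flats (cf (repR G)) m) := by
    intro h h'
    refine Submodule.subset_span ⟨hFmem h h', _, ?_, hm h h', hFind h h'⟩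
    rw [← Set.ncard_pos, hm h h']
    exact hmpos
  -- constants
  have hconst : (fun _ : G => (1 : ℝ)) ∈ Submodule.span ℝ (Flats (cf (repR G)) m) := by
    have h1 : (fun _ : G => (1 : ℝ)) = ∑ k ∈ Finset.range p, F 1 (z ^ k) := by
      funext g
      rw [Finset.sum_apply]
      simp only [hFval]
      rw [Finset.sum_add_distrib, Finset.sum_const, Finset.card_range, nsmul_eq_mul]
      have h2 : ∑ k ∈ Finset.range p, ((lam (repQ G (1 * g * z ^ k) v) : ℚ) : ℝ) = 0 := by
        have h3 : ∑ k ∈ Finset.range p, lam (repQ G (1 * g * z ^ k) v) = 0 := by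
          rw [← map_sum]
          have h4 : ∀ k, repQ G (1 * g * z ^ k) v = repQ G g (repQ G (z ^ k) v) := by
            intro k
            rw [one_mul, map_mul, Module.End.mul_apply]
          rw [Finset.sum_congr rfl (fun k _ => h4 k), ← map_sum, hgeo, map_zero, map_zero]
        rw [← Rat.cast_sum, h3, Rat.cast_zero]
      rw [h2]
      field_simp
      ring
    rw [h1]
    exact Submodule.sum_mem _ fun k _ => hflat _ _
  -- coefficient functions
  have hC1 : ∀ h h', (fun g => cl lam ((repR G h : Matrix (Fin d) (Fin d) ℝ) *ᵥ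
      ((repR G g : Matrix (Fin d) (Fin d) ℝ) *ᵥ
        ((repR G h' : Matrix (Fin d) (Fin d) ℝ) *ᵥ cv v)))) ∈
        Submodule.span ℝ (Flats (cf (repR G)) m) := by
    intro h h'
    have h1 : (fun g => cl lam ((repR G h : Matrix (Fin d) (Fin d) ℝ) *ᵥ
      ((repR G g : Matrix (Fin d) (Fin d) ℝ) *ᵥ
        ((repR G h' : Matrix (Fin d) (Fin d) ℝ) *ᵥ cv v)))) =
        F h h' - (1 / (p : ℝ)) • (fun _ : G => (1 : ℝ)) := by
      funext g
      show _ = (cl lam ((repR G h : Matrix (Fin d) (Fin d) ℝ) *ᵥ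
      ((repR G g : Matrix (Fin d) (Fin d) ℝ) *ᵥ
        ((repR G h' : Matrix (Fin d) (Fin d) ℝ) *ᵥ cv v))) + 1 / (p : ℝ)) -
        (1 / (p : ℝ)) • (1 : ℝ)
      simp
    rw [h1]
    exact Submodule.sub_mem _ (hflat _ _) (Submodule.smul_mem _ _ hconst)
  -- the vectors span
  have hspanv : ∀ u : Fin d → ℝ, u ∈ Submodule.span ℝ
      (Set.range fun h : G => (repR G h : Matrix (Fin d) (Fin d) ℝ) *ᵥ cv v) := by
    have h1 : ∀ w : Fin d → ℚ, cv w ∈ Submodule.span ℝ
        (Set.range fun h : G => (repR G h : Matrix (Fin d) (Fin d) ℝ) *ᵥ cv v) := by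
      intro w
      have hw : w ∈ Submodule.span ℚ (Set.range fun g => repQ G g v) := by
        rw [span_orbit (repQ G) hirr' hvne]
        exact Submodule.mem_top
      induction hw using Submodule.span_induction with
      | mem x hx =>
        obtain ⟨h, rfl⟩ := hx
        refine Submodule.subset_span ⟨h, ?_⟩
        exact cv_mulVec G h v
      | zero =>
        have : cv (0 : Fin d → ℚ) = 0 := by funext i; simp [cv]
        rw [this]
        exact Submodule.zero_mem _
      | add x y _ _ hx hy =>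
        have : cv (x + y) = cv x + cv y := by funext i; simp [cv]
        rw [this]
        exact Submodule.add_mem _ hx hy
      | smul c x _ hx =>
        have : cv (c • x) = (c : ℝ) • cv x := by funext i; simp [cv]
        rw [this]
        exact Submodule.smul_mem _ _ hx
    intro u
    have h2 : u = ∑ i, u i • cv (Pi.single i 1 : Fin d → ℚ) := by
      funext k
      simp only [Finset.sum_apply, Pi.smul_apply, cv, smul_eq_mul]
      rw [Finset.sum_eq_single k]
      · simp
      · intro b _ hb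
        rw [Pi.single_eq_of_ne hb.symm]
        simp
      · simp
    rw [h2]
    exact Submodule.sum_mem _ fun i _ => Submodule.smul_mem _ _ (h1 _)
  have hC2 : ∀ (h : G) (u : Fin d → ℝ), (fun g => cl lam ((repR G h : Matrix (Fin d) (Fin d) ℝ) *ᵥ
      ((repR G g : Matrix (Fin d) (Fin d) ℝ) *ᵥ u))) ∈
        Submodule.span ℝ (Flats (cf (repR G)) m) := by
    intro h u
    have hu := hspanv u
    induction hu using Submodule.span_induction with
    | mem x hx =>
      obtain ⟨h', rfl⟩ := hx
      exact hC1 h h'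
    | zero =>
      have : (fun g : G => cl lam ((repR G h : Matrix (Fin d) (Fin d) ℝ) *ᵥ
        ((repR G g : Matrix (Fin d) (Fin d) ℝ) *ᵥ (0 : Fin d → ℝ)))) = 0 := by
        funext g
        simp
      rw [this]
      exact Submodule.zero_mem _
    | add x y _ _ hx hy =>
      have : (fun g : G => cl lam ((repR G h : Matrix (Fin d) (Fin d) ℝ) *ᵥ
        ((repR G g : Matrix (Fin d) (Fin d) ℝ) *ᵥ (x + y)))) =
        (fun g : G => cl lam ((repR G h : Matrix (Fin d) (Fin d) ℝ) *ᵥ
        ((repR G g : Matrix (Fin d) (Fin d) ℝ) *ᵥ x))) +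
        (fun g : G => cl lam ((repR G h : Matrix (Fin d) (Fin d) ℝ) *ᵥ
        ((repR G g : Matrix (Fin d) (Fin d) ℝ) *ᵥ y))) := by
        funext g
        simp only [Pi.add_apply, Matrix.mulVec_add, map_add]
      rw [this]
      exact Submodule.add_mem _ hx hy
    | smul c x _ hx =>
      have : (fun g : G => cl lam ((repR G h : Matrix (Fin d) (Fin d) ℝ) *ᵥ
        ((repR G g : Matrix (Fin d) (Fin d) ℝ) *ᵥ (c • x)))) =
        c • (fun g : G => cl lam ((repR G h : Matrix (Fin d) (Fin d) ℝ) *ᵥ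
        ((repR G g : Matrix (Fin d) (Fin d) ℝ) *ᵥ x))) := by
        funext g
        simp only [Pi.smul_apply, Matrix.mulVec_smul, map_smul]
      rw [this]
      exact Submodule.smul_mem _ _ hx
  -- the functionals span
  have hspanl : ∀ k : Fin d, (LinearMap.proj k : (Fin d → ℝ) →ₗ[ℝ] ℝ) ∈ Submodule.span ℝ
      (Set.range fun h : G => (cl lam).comp
        (Matrix.mulVecLin (repR G h : Matrix (Fin d) (Fin d) ℝ))) := by
    intro k
    have h1 : (LinearMap.proj k : (Fin d → ℚ) →ₗ[ℚ] ℚ) ∈ Submodule.span ℚ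
        (Set.range fun h : G => lam.comp (repQ G h)) := by
      apply FiniteDimensional.mem_span_of_iInf_ker_le_ker
      have hbot : (⨅ h : G, LinearMap.ker (lam.comp (repQ G h))) = ⊥ := by
        refine (hirr' _ ?_).resolve_right ?_
        · intro g w hw
          rw [Submodule.mem_iInf] at hw ⊢
          intro h
          have h2 := hw (h * g)
          rw [LinearMap.mem_ker, LinearMap.comp_apply] at h2 ⊢
          rwa [map_mul, Module.End.mul_apply] at h2
        · intro htop
          have h2 : v ∈ (⨅ h : G, LinearMap.ker (lam.comp (repQ G h))) := by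
            rw [htop]; exact Submodule.mem_top
          rw [Submodule.mem_iInf] at h2
          have h3 := h2 1
          rw [LinearMap.mem_ker, LinearMap.comp_apply] at h3
          have h4 := hlam 1
          rw [h3] at h4
          have hpQ : (1 : ℚ) < p := by exact_mod_cast hp.one_lt
          have h5 : 0 < 1 / (p : ℚ) := by positivity
          have h6 : 1 / (p : ℚ) < 1 := by
            rw [div_lt_one (by linarith)]
            exact hpQ
          rcases h4 with h4 | h4 <;> linarith
      rw [hbot]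
      exact bot_le
    have h2 : ∀ l ∈ Submodule.span ℚ (Set.range fun h : G => lam.comp (repQ G h)),
        cl l ∈ Submodule.span ℝ (Set.range fun h : G => (cl lam).comp
        (Matrix.mulVecLin (repR G h : Matrix (Fin d) (Fin d) ℝ))) := by
      intro l hl
      induction hl using Submodule.span_induction with
      | mem x hx =>
        obtain ⟨h, rfl⟩ := hx
        refine Submodule.subset_span ⟨h, ?_⟩
        apply LinearMap.pi_ext'
        intro i
        ext
        simp only [LinearMap.comp_apply, LinearMap.single_apply, Matrix.mulVecLin_apply]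
        have e1 : (Pi.single i (1 : ℝ) : Fin d → ℝ) = cv (Pi.single i 1) := by
          funext k
          by_cases hk : k = i
          · subst hk; simp [cv]
          · simp [cv, Pi.single_eq_of_ne hk]
        rw [e1, cv_mulVec, cl_cv, cl_cv, LinearMap.comp_apply]
        rfl
      | zero =>
        have : cl (0 : (Fin d → ℚ) →ₗ[ℚ] ℚ) = 0 := by
          ext x
          simp [cl_apply]
        rw [this]
        exact Submodule.zero_mem _
      | add x y _ _ hx hy =>
        have : cl (x + y) = cl x + cl y := by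
          apply LinearMap.ext
          intro t
          simp [cl_apply, add_mul, Finset.sum_add_distrib]
        rw [this]
        exact Submodule.add_mem _ hx hy
      | smul c x _ hx =>
        have : cl (c • x) = (c : ℝ) • cl x := by
          apply LinearMap.ext
          intro t
          simp only [cl_apply, LinearMap.smul_apply, smul_eq_mul, Finset.mul_sum]
          refine Finset.sum_congr rfl fun i _ => ?_
          push_cast
          ring
        rw [this]
        exact Submodule.smul_mem _ _ hx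
    have h3 : (LinearMap.proj k : (Fin d → ℝ) →ₗ[ℝ] ℝ) =
        cl (LinearMap.proj k : (Fin d → ℚ) →ₗ[ℚ] ℚ) := by
      apply LinearMap.ext
      intro t
      rw [cl_apply, Finset.sum_eq_single k]
      · simp
      · intro b _ hb
        simp [Pi.single_eq_of_ne hb.symm]
      · simp
    rw [h3]
    exact h2 _ h1
  have hC3 : ∀ (l : (Fin d → ℝ) →ₗ[ℝ] ℝ) (u : Fin d → ℝ), l ∈ Submodule.span ℝ
      (Set.range fun h : G => (cl lam).comp
        (Matrix.mulVecLin (repR G h : Matrix (Fin d) (Fin d) ℝ))) →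
      (fun g : G => l ((repR G g : Matrix (Fin d) (Fin d) ℝ) *ᵥ u)) ∈
        Submodule.span ℝ (Flats (cf (repR G)) m) := by
    intro l u hl
    induction hl using Submodule.span_induction with
    | mem x hx =>
      obtain ⟨h, rfl⟩ := hx
      exact hC2 h u
    | zero => exact Submodule.zero_mem _
    | add x y _ _ hx hy => exact Submodule.add_mem _ hx hy
    | smul c x _ hx => exact Submodule.smul_mem _ _ hx
  -- conclusion
  have hinjz : Set.InjOn (fun k => z ^ k) (Finset.range p : Set ℕ) := by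
    intro a ha b hb hab
    rw [Finset.coe_range, Set.mem_Iio] at ha hb
    exact pow_injOn_Iio_orderOf (by rw [hord]; exact ha) (by rw [hord]; exact hb) hab
  refine ⟨m, ext_of_weights (repR G) m
    (fun g => if g ∈ (Finset.range p).image (fun k => z ^ k) then 1 else 0) ?_ ?_ ?_ ?_ hconst ?_⟩
  · intro g
    split_ifs
    · exact zero_le_one
    · exact le_rfl
  · exact if_pos (Finset.mem_image.2 ⟨0, Finset.mem_range.2 hp.pos, pow_zero z⟩)
  · rw [Finset.sum_ite_mem, Finset.univ_inter, Finset.sum_const, Finset.card_image_of_injOn hinjz,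
      Finset.card_range, nsmul_eq_mul, mul_one]
    have := hcard 1 1
    rw [mul_comm]
    exact_mod_cast this
  · have h1 : ∑ g : G, (if g ∈ (Finset.range p).image (fun k => z ^ k) then (1 : ℝ) else 0) •
        (repR G g : Matrix (Fin d) (Fin d) ℝ)
        = ∑ k ∈ Finset.range p, (repR G (z ^ k) : Matrix (Fin d) (Fin d) ℝ) := by
      simp only [ite_smul, one_smul, zero_smul]
      rw [Finset.sum_ite_mem, Finset.univ_inter, Finset.sum_image hinjz]
    rw [h1, hgeoR, smul_zero, hsumR]
  · intro k l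
    have h1 : (fun g => (repR G g : Matrix (Fin d) (Fin d) ℝ) k l) =
        fun g => (LinearMap.proj k : (Fin d → ℝ) →ₗ[ℝ] ℝ)
          ((repR G g : Matrix (Fin d) (Fin d) ℝ) *ᵥ (Pi.single l 1)) := by
      funext g
      simp
    rw [h1]
    exact hC3 _ _ (hspanl k)

end Pool.Agent.RepPoly
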