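import Pool.Agent.RepPoly.Equi
import Pool.Agent.RepPoly.PG5

set_option autoImplicit false

open Matrix

namespace Pool.Agent.RepPoly

section general

lemma CombIso.symm {d e : ℕ} {G : Subgroup (GL (Fin d) ℝ)} {H : Subgroup (GL (Fin e) ℝ)}
    {σ : G ≃ H} (h : CombIso G H σ) : CombIso H G σ.symm := by
  intro S
  rw [h]
  simp

lemma CombIso.trans {d e k : ℕ} {G : Subgroup (GL (Fin d) ℝ)} {H : Subgroup (GL (Fin e) ℝ)}
    {K : Subgroup (GL (Fin k) ℝ)} {σ : G ≃ H} {τ : H ≃ K} (h : CombIso G H σ)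
    (h' : CombIso H K τ) : CombIso G K (σ.trans τ) := by
  intro S
  rw [h, h', ← Set.image_comp]
  rfl

lemma AffIso.symm {d e : ℕ} {G : Subgroup (GL (Fin d) ℝ)} {H : Subgroup (GL (Fin e) ℝ)}
    {σ : G ≃ H} (h : AffIso G H σ) : AffIso H G σ.symm := ⟨h.2, h.1⟩

lemma AffIso.trans {d e k : ℕ} {G : Subgroup (GL (Fin d) ℝ)} {H : Subgroup (GL (Fin e) ℝ)}
    {K : Subgroup (GL (Fin k) ℝ)} {σ : G ≃ H} {τ : H ≃ K} (h : AffIso G H σ)
    (h' : AffIso H K τ) : AffIso G K (σ.trans τ) := by
  obtain ⟨⟨a, ha⟩, ⟨b, hb⟩⟩ := h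
  obtain ⟨⟨a', ha'⟩, ⟨b', hb'⟩⟩ := h'
  refine ⟨⟨a'.comp a, fun g => ?_⟩, ⟨b.comp b', fun g => ?_⟩⟩
  · rw [AffineMap.comp_apply, ha, ha']
    rfl
  · rw [AffineMap.comp_apply, hb', hb]
    rfl

/-- Composition with an affine bijection preserves affine functions. -/
lemma mem_of_affine {d e : ℕ} {G : Subgroup (GL (Fin d) ℝ)} {H : Subgroup (GL (Fin e) ℝ)}
    (σ : G ≃ H) (h : ∃ f : Matrix (Fin d) (Fin d) ℝ →ᵃ[ℝ] Matrix (Fin e) (Fin e) ℝ,
      ∀ g : G, f (g.1 : Matrix (Fin d) (Fin d) ℝ) = ((σ g).1 : Matrix (Fin e) (Fin e) ℝ)) :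
    ∀ f ∈ coef H, f ∘ σ ∈ coef G := by
  obtain ⟨F, hF⟩ := h
  have h1 : coef H ≤ (coef G).comap (LinearMap.funLeft ℝ ℝ σ) := by
    rw [coef, cf_le_iff]
    constructor
    · exact const_mem_cf G.subtype 1
    · intro k l
      rw [Submodule.mem_comap]
      have h2 : (LinearMap.funLeft ℝ ℝ σ) (fun g : H => (H.subtype g : Matrix (Fin e) (Fin e) ℝ) k l)
          = fun g : G => F 0 k l + ∑ i, ∑ j, F.linear (Matrix.single i j 1) k l *
            (g.1 : Matrix (Fin d) (Fin d) ℝ) i j := by
        funext g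
        rw [LinearMap.funLeft_apply]
        show ((σ g).1 : Matrix (Fin e) (Fin e) ℝ) k l = _
        rw [← hF g]
        have h3 : F (g.1 : Matrix (Fin d) (Fin d) ℝ) =
            F.linear (g.1 : Matrix (Fin d) (Fin d) ℝ) + F 0 := by
          have := F.decomp
          rw [this]
          simp
        rw [h3, Matrix.add_apply, add_comm]
        congr 1
        conv_lhs => rw [Matrix.matrix_eq_sum_single (g.1 : Matrix (Fin d) (Fin d) ℝ)]
        rw [map_sum, Matrix.sum_apply]
        refine Finset.sum_congr rfl fun i _ => ?_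
        rw [map_sum, Matrix.sum_apply]
        refine Finset.sum_congr rfl fun j _ => ?_
        have h4 : Matrix.single i j ((g.1 : Matrix (Fin d) (Fin d) ℝ) i j) =
            (g.1 : Matrix (Fin d) (Fin d) ℝ) i j • Matrix.single i j (1 : ℝ) := by
          rw [Matrix.smul_single, smul_eq_mul, mul_one]
        rw [h4, map_smul, Matrix.smul_apply, smul_eq_mul, mul_comm]
      rw [h2, mem_coef]
      exact ⟨F 0 k l, Matrix.of fun i j => F.linear (Matrix.single i j 1) k l, fun g => rfl⟩
  intro f hf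
  exact h1 hf

lemma coface_iff_of_comb {d e : ℕ} {G : Subgroup (GL (Fin d) ℝ)} {H : Subgroup (GL (Fin e) ℝ)}
    {σ : G ≃ H} : CombIso G H σ ↔ ∀ T : Set G, Coface (coef G) T ↔ Coface (coef H) (σ '' T) := by
  constructor
  · intro hσ T
    have h2 := hσ Tᶜ
    rw [isFace_iff, isFace_iff, compl_compl, Set.image_compl_eq σ.bijective, compl_compl] at h2
    exact h2
  · intro h S
    rw [isFace_iff, isFace_iff, h, Set.image_compl_eq σ.bijective]

lemma AffIso.combIso {d e : ℕ} {G : Subgroup (GL (Fin d) ℝ)} {H : Subgroup (GL (Fin e) ℝ)}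
    {σ : G ≃ H} (h : AffIso G H σ) : CombIso G H σ := by
  rw [coface_iff_of_comb]
  have key : ∀ {d e : ℕ} {G : Subgroup (GL (Fin d) ℝ)} {H : Subgroup (GL (Fin e) ℝ)}
      (σ : G ≃ H), (∀ f ∈ coef G, f ∘ σ.symm ∈ coef H) → ∀ T : Set G, Coface (coef G) T →
      Coface (coef H) (σ '' T) := by
    rintro d e G H σ h T ⟨f, hf, h0, hs⟩
    refine ⟨f ∘ σ.symm, h f hf, fun x => h0 _, fun x => ?_⟩
    rw [Function.comp_apply, ← hs]
    constructor
    · rintro ⟨y, hy, rfl⟩
      simpa using hy
    · intro hx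
      exact ⟨_, hx, by simp⟩
  intro T
  constructor
  · exact key σ (mem_of_affine σ.symm h.2) T
  · intro h1
    have h2 := key σ.symm (by simpa using mem_of_affine σ h.1) (σ '' T) h1
    simpa using h2

lemma invP_mulRight {d : ℕ} (G : Subgroup (GL (Fin d) ℝ)) (g : G) :
    InvP (coef G) (Equiv.mulRight g) := by
  have h1 : coef G ≤ (coef G).comap (LinearMap.funLeft ℝ ℝ (Equiv.mulRight g)) := by
    conv_lhs => rw [coef]
    rw [cf_le_iff]
    constructor
    · exact const_mem_cf G.subtype 1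
    · intro k l
      rw [Submodule.mem_comap]
      have h2 : (LinearMap.funLeft ℝ ℝ (Equiv.mulRight g))
          (fun x : G => (G.subtype x : Matrix (Fin d) (Fin d) ℝ) k l) =
          ∑ j, (g.1 : Matrix (Fin d) (Fin d) ℝ) j l •
            fun x : G => (G.subtype x : Matrix (Fin d) (Fin d) ℝ) k j := by
        funext x
        rw [LinearMap.funLeft_apply, Finset.sum_apply, Equiv.coe_mulRight]
        show (((x.1 * g.1 : GL (Fin d) ℝ)) : Matrix (Fin d) (Fin d) ℝ) k l = _
        rw [Units.val_mul, Matrix.mul_apply]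
        refine Finset.sum_congr rfl fun j _ => ?_
        rw [Pi.smul_apply, smul_eq_mul, mul_comm]
        rfl
      rw [h2]
      exact Submodule.sum_mem _ fun j _ => Submodule.smul_mem _ _ (entry_mem_cf G.subtype k j)
  intro f hf
  exact h1 hf

lemma invP_mulLeft {d : ℕ} (G : Subgroup (GL (Fin d) ℝ)) (g : G) :
    InvP (coef G) (Equiv.mulLeft g) := by
  have h1 : coef G ≤ (coef G).comap (LinearMap.funLeft ℝ ℝ (Equiv.mulLeft g)) := by
    conv_lhs => rw [coef]
    rw [cf_le_iff]
    constructor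
    · exact const_mem_cf G.subtype 1
    · intro k l
      rw [Submodule.mem_comap]
      have h2 : (LinearMap.funLeft ℝ ℝ (Equiv.mulLeft g))
          (fun x : G => (G.subtype x : Matrix (Fin d) (Fin d) ℝ) k l) =
          ∑ j, (g.1 : Matrix (Fin d) (Fin d) ℝ) k j •
            fun x : G => (G.subtype x : Matrix (Fin d) (Fin d) ℝ) j l := by
        funext x
        rw [LinearMap.funLeft_apply, Finset.sum_apply, Equiv.coe_mulLeft]
        show (((g.1 * x.1 : GL (Fin d) ℝ)) : Matrix (Fin d) (Fin d) ℝ) k l = _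
        rw [Units.val_mul, Matrix.mul_apply]
        refine Finset.sum_congr rfl fun j _ => ?_
        rw [Pi.smul_apply, smul_eq_mul]
        rfl
      rw [h2]
      exact Submodule.sum_mem _ fun j _ => Submodule.smul_mem _ _ (entry_mem_cf G.subtype j l)
  intro f hf
  exact h1 hf

lemma affIso_mulLeft {d : ℕ} (G : Subgroup (GL (Fin d) ℝ)) (g : G) :
    AffIso G G (Equiv.mulLeft g) := by
  refine ⟨affine_of_mem _ fun f hf => invP_mulLeft G g f hf, affine_of_mem _ fun f hf => ?_⟩
  have h1 : (Equiv.mulLeft g).symm = Equiv.mulLeft g⁻¹ := by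
    ext x
    rfl
  rw [h1]
  exact invP_mulLeft G g⁻¹ f hf

lemma finite_toReal {d : ℕ} (G : Subgroup (GL (Fin d) ℚ)) [hG : Finite G] : Finite (toReal G) := by
  have h : Function.Surjective (fun s : G =>
      (⟨Matrix.GeneralLinearGroup.map (algebraMap ℚ ℝ) s.1,
      Subgroup.mem_map_of_mem _ s.2⟩ : toReal G)) := by
    rintro ⟨_, s, hs, rfl⟩
    exact ⟨⟨s, hs⟩, rfl⟩
  exact Finite.of_surjective _ h

lemma isPGroup_toReal {d p : ℕ} (G : Subgroup (GL (Fin d) ℚ)) (hG : IsPGroup p G) :
    IsPGroup p (toReal G) := by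
  have h : Function.Surjective (MonoidHom.subgroupMap
      (Matrix.GeneralLinearGroup.map (n := Fin d) (algebraMap ℚ ℝ)) G) :=
    MonoidHom.subgroupMap_surjective _ _
  exact hG.of_surjective _ h

open Classical in
lemma exists_proj_coef {d : ℕ} (G : Subgroup (GL (Fin d) ℚ)) [Fintype (toReal G)] :
    ∃ E : Matrix (toReal G) (toReal G) ℝ, IsRat E ∧ ProjOn E (coef (toReal G)) := by
  let s : Finset (toReal G → ℝ) := insert (fun _ => (1 : ℝ))
    (Finset.univ.image fun p : Fin d × Fin d =>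
      fun g : toReal G => (g.1 : Matrix (Fin d) (Fin d) ℝ) p.1 p.2)
  obtain ⟨E, hr, hE⟩ := exists_projOn s (by
    intro f hf
    rw [Finset.mem_insert, Finset.mem_image] at hf
    rcases hf with rfl | ⟨⟨i, j⟩, _, rfl⟩
    · intro x
      exact ⟨1, by simp⟩
    · rintro ⟨_, g, hg, rfl⟩
      exact ⟨(g : Matrix (Fin d) (Fin d) ℚ) i j, rfl⟩)
  refine ⟨E, hr, ?_⟩
  have h1 : Submodule.span ℝ (s : Set (toReal G → ℝ)) = coef (toReal G) := by
    apply le_antisymm
    · rw [Submodule.span_le]
      intro f hf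
      rw [Finset.mem_coe, Finset.mem_insert, Finset.mem_image] at hf
      rcases hf with rfl | ⟨⟨i, j⟩, _, rfl⟩
      · exact const_mem_cf _ 1
      · exact entry_mem_cf (toReal G).subtype i j
    · rw [coef, cf_le_iff]
      constructor
      · exact Submodule.subset_span (Finset.mem_coe.2 (Finset.mem_insert_self _ _))
      · intro k l
        refine Submodule.subset_span (Finset.mem_coe.2 (Finset.mem_insert_of_mem ?_))
        exact Finset.mem_image.2 ⟨(k, l), Finset.mem_univ _, rfl⟩
  rw [← h1]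
  exact hE

/-- A combinatorial isomorphism which carries left translations to affine symmetries is affine. -/
theorem affIso_of_equivariant {d e : ℕ} (G : Subgroup (GL (Fin d) ℚ))
    (H : Subgroup (GL (Fin e) ℚ)) [Finite G] [Finite H] (σ : toReal G ≃ toReal H)
    (hσ : CombIso (toReal G) (toReal H) σ)
    (hinv : ∀ g : toReal G, AffIso (toReal H) (toReal H)
      (σ.symm.trans ((Equiv.mulLeft g).trans σ))) :
    AffIso (toReal G) (toReal H) σ := by
  classical
  have := finite_toReal G
  have := finite_toReal H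
  let _ : Fintype (toReal G) := Fintype.ofFinite _
  let _ : Fintype (toReal H) := Fintype.ofFinite _
  obtain ⟨E, hr, hE⟩ := exists_proj_coef G
  obtain ⟨E1, hr1, hE1⟩ := exists_proj_coef H
  let V' : Submodule ℝ (toReal G → ℝ) := (coef (toReal H)).map (LinearMap.funLeft ℝ ℝ σ)
  have hV' : ∀ f, f ∈ V' ↔ f ∘ σ.symm ∈ coef (toReal H) := by
    intro f
    constructor
    · rintro ⟨f', hf', rfl⟩
      have : (LinearMap.funLeft ℝ ℝ σ f') ∘ σ.symm = f' := by
        funext x
        simp [LinearMap.funLeft_apply]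
      rw [this]
      exact hf'
    · intro hf
      refine ⟨f ∘ σ.symm, hf, ?_⟩
      funext x
      simp [LinearMap.funLeft_apply]
  let E' : Matrix (toReal G) (toReal G) ℝ := E1.submatrix σ σ
  have hr' : IsRat E' := fun x y => hr1 (σ x) (σ y)
  have hE' : ProjOn E' V' := by
    refine ⟨?_, ?_, ?_⟩
    · show (E1.submatrix σ σ)ᵀ = _
      rw [Matrix.transpose_submatrix, hE1.symm]
    · show E1.submatrix σ σ * E1.submatrix σ σ = E1.submatrix σ σ
      rw [Matrix.submatrix_mul_equiv, hE1.idem]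
    · intro f
      rw [hV', hE1.mem]
      have h1 : E' *ᵥ f = (E1 *ᵥ (f ∘ σ.symm)) ∘ σ := by
        show E1.submatrix σ σ *ᵥ f = _
        rw [Matrix.submatrix_mulVec_equiv]
      rw [h1]
      constructor
      · intro h
        rw [h]
        funext x
        simp
      · intro h
        funext x
        have := congrFun h (σ.symm x)
        simpa using this
  have hT : ∀ T, Coface (coef (toReal G)) T ↔ Coface V' T := by
    intro T
    rw [coface_iff_of_comb.1 hσ T]
    constructor
    · rintro ⟨f, hf, h0, hs⟩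
      refine ⟨f ∘ σ, ?_, fun x => h0 _, fun x => ?_⟩
      · rw [hV']
        have : (f ∘ σ) ∘ σ.symm = f := by
          funext x
          simp
        rw [this]
        exact hf
      · rw [Function.comp_apply, ← hs]
        constructor
        · intro hx
          exact ⟨x, hx, rfl⟩
        · rintro ⟨y, hy, hyx⟩
          rwa [σ.injective hyx] at hy
    · rintro ⟨f, hf, h0, hs⟩
      refine ⟨f ∘ σ.symm, (hV' f).1 hf, fun x => h0 _, fun x => ?_⟩
      rw [Function.comp_apply, ← hs]
      constructor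
      · rintro ⟨y, hy, rfl⟩
        simpa using hy
      · intro hx
        exact ⟨_, hx, by simp⟩
  have hL' : ∀ g : toReal G, InvP V' (Equiv.mulLeft g) := by
    intro g f hf
    rw [hV'] at hf ⊢
    have h1 := mem_of_affine _ (hinv g).1 _ hf
    have h2 : (f ∘ σ.symm) ∘ (σ.symm.trans ((Equiv.mulLeft g).trans σ)) =
        (f ∘ (Equiv.mulLeft g)) ∘ σ.symm := by
      funext x
      simp
    rw [← h2]
    exact h1
  have hVV : V' = coef (toReal G) :=
    eq_of_coface hE hE' hr hr' (const_mem_cf _ 1) ((hV' _).2 (const_mem_cf _ 1)) hT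
      (invP_mulRight _) (invP_mulLeft _) hL'
  refine ⟨affine_of_mem σ fun f hf => ?_, affine_of_mem σ.symm fun f hf => ?_⟩
  · rw [← hVV, hV']
    have : (f ∘ σ) ∘ σ.symm = f := by
      funext x
      simp
    rw [this]
    exact hf
  · rw [← hVV, hV'] at hf
    exact hf

end general

end Pool.Agent.RepPoly
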