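import Pool.Agent.RepPoly.Index

set_option autoImplicit false

open Matrix

namespace Pool.Agent.RepPoly

/-- The combinatorial symmetries of `P(G)`. -/
def combGroup {d : ℕ} (G : Subgroup (GL (Fin d) ℝ)) : Subgroup (Equiv.Perm G) where
  carrier := {σ | CombIso G G σ}
  mul_mem' := by
    intro a b ha hb
    exact CombIso.trans (σ := b) (τ := a) hb ha
  one_mem' := by
    intro S
    simp
  inv_mem' := by
    intro a ha
    exact CombIso.symm (σ := a) ha

/-- The affine symmetries of `P(G)`. -/
def affGroup {d : ℕ} (G : Subgroup (GL (Fin d) ℝ)) : Subgroup (Equiv.Perm G) where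
  carrier := {σ | AffIso G G σ}
  mul_mem' := by
    intro a b ha hb
    exact AffIso.trans (σ := b) (τ := a) hb ha
  one_mem' := ⟨⟨AffineMap.id ℝ _, fun _ => rfl⟩, ⟨AffineMap.id ℝ _, fun _ => rfl⟩⟩
  inv_mem' := by
    intro a ha
    exact AffIso.symm (σ := a) ha

lemma mem_combGroup {d : ℕ} {G : Subgroup (GL (Fin d) ℝ)} {σ : Equiv.Perm G} :
    σ ∈ combGroup G ↔ CombIso G G σ := Iff.rfl

lemma mem_affGroup {d : ℕ} {G : Subgroup (GL (Fin d) ℝ)} {σ : Equiv.Perm G} :
    σ ∈ affGroup G ↔ AffIso G G σ := Iff.rfl

lemma affGroup_le {d : ℕ} (G : Subgroup (GL (Fin d) ℝ)) : affGroup G ≤ combGroup G :=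
  fun _ h => AffIso.combIso h

/-- Only the affine symmetries move all left translations into the affine symmetries. -/
lemma mem_aff_of_conj {d : ℕ} (G : Subgroup (GL (Fin d) ℚ)) [Finite G]
    (γ : Equiv.Perm (toReal G)) (hγ : γ ∈ combGroup (toReal G))
    (h : ∀ g : toReal G, γ⁻¹ * Equiv.mulLeft g * γ ∈ affGroup (toReal G)) :
    γ ∈ affGroup (toReal G) := by
  have h1 : γ⁻¹ ∈ affGroup (toReal G) := by
    apply affIso_of_equivariant G G γ⁻¹ ((combGroup (toReal G)).inv_mem hγ)
    intro g
    have h2 := h g
    have h3 : (γ⁻¹ * Equiv.mulLeft g * γ : Equiv.Perm (toReal G)) =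
        (Equiv.symm γ⁻¹).trans ((Equiv.mulLeft g).trans γ⁻¹) := by
      ext x
      rfl
    rw [h3] at h2
    exact h2
  have := (affGroup (toReal G)).inv_mem h1
  rwa [inv_inv] at this

section quot

variable {d : ℕ} (G : Subgroup (GL (Fin d) ℚ))

/-- The affine symmetries inside the combinatorial symmetries. -/
noncomputable abbrev affSub : Subgroup (combGroup (toReal G)) := (affGroup (toReal G)).subgroupOf _

/-- Left translations as combinatorial symmetries. -/
noncomputable def lmul : toReal G →* combGroup (toReal G) where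
  toFun g := ⟨Equiv.mulLeft g, affGroup_le _ (affIso_mulLeft _ g)⟩
  map_one' := by
    apply Subtype.ext
    ext x
    simp
  map_mul' a b := by
    apply Subtype.ext
    ext x
    simp

lemma index_modEq {p : ℕ} (hp : p.Prime) [Finite G] (hG : IsPGroup p G) :
    Nat.card (combGroup (toReal G) ⧸ affSub G) ≡ 1 [MOD p] := by
  have : Fact p.Prime := ⟨hp⟩
  have := finite_toReal G
  have hfin : Finite (combGroup (toReal G)) := inferInstance
  have hK : IsPGroup p (lmul G).range := by
    exact (isPGroup_toReal G hG).of_surjective _ (lmul G).rangeRestrict_surjective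
  have h1 := hK.card_modEq_card_fixedPoints (combGroup (toReal G) ⧸ affSub G)
  have h2 : Nat.card (MulAction.fixedPoints (lmul G).range
      (combGroup (toReal G) ⧸ affSub G)) = 1 := by
    rw [Nat.card_eq_one_iff_unique]
    constructor
    · constructor
      have key : ∀ a : MulAction.fixedPoints (lmul G).range (combGroup (toReal G) ⧸ affSub G),
          a.1 = ((1 : combGroup (toReal G)) : combGroup (toReal G) ⧸ affSub G) := by
        rintro ⟨a, ha⟩
        obtain ⟨γ, rfl⟩ := QuotientGroup.mk_surjective a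
        rw [MulAction.mem_fixedPoints] at ha
        rw [eq_comm, QuotientGroup.eq, inv_one, one_mul, Subgroup.mem_subgroupOf]
        apply mem_aff_of_conj G γ.1 γ.2
        intro g
        have h3 := ha ⟨lmul G g, ⟨g, rfl⟩⟩
        have h4 : ((lmul G g * γ : combGroup (toReal G)) : combGroup (toReal G) ⧸ affSub G) =
            (γ : combGroup (toReal G) ⧸ affSub G) := h3
        rw [eq_comm, QuotientGroup.eq, Subgroup.mem_subgroupOf] at h4
        have h5 : ((γ⁻¹ * (lmul G g * γ) : combGroup (toReal G)) : Equiv.Perm (toReal G)) =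
            (γ.1)⁻¹ * Equiv.mulLeft g * γ.1 := by
          rw [← mul_assoc]
          rfl
        rw [h5] at h4
        exact h4
      intro a b
      apply Subtype.ext
      rw [key a, key b]
    · refine ⟨⟨((1 : combGroup (toReal G)) : combGroup (toReal G) ⧸ affSub G), ?_⟩⟩
      rw [MulAction.mem_fixedPoints]
      rintro ⟨_, g, rfl⟩
      show ((lmul G g * 1 : combGroup (toReal G)) : combGroup (toReal G) ⧸ affSub G) = _
      rw [mul_one, eq_comm, QuotientGroup.eq, inv_one, one_mul, Subgroup.mem_subgroupOf]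
      exact affIso_mulLeft _ g
  rw [h2] at h1
  exact h1

end quot

/-- The count: for rational `p`-groups the number of combinatorial isomorphisms is `k` times the
number of affine isomorphisms, with `k` congruent to `1` modulo `p`. -/
theorem count_iso {d e p : ℕ} (hp : p.Prime) (G : Subgroup (GL (Fin d) ℚ))
    (H : Subgroup (GL (Fin e) ℚ)) [Finite G] [Finite H] (hG : IsPGroup p G) (hH : IsPGroup p H) :
    ∃ k : ℕ, k ≡ 1 [MOD p] ∧
      Nat.card {σ : toReal G ≃ toReal H // CombIso (toReal G) (toReal H) σ} =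
        k * Nat.card {σ : toReal G ≃ toReal H // AffIso (toReal G) (toReal H) σ} := by
  have : Fact p.Prime := ⟨hp⟩
  have := finite_toReal G
  have := finite_toReal H
  by_cases hex : ∃ σ : toReal G ≃ toReal H, CombIso (toReal G) (toReal H) σ
  swap
  · refine ⟨1, rfl, ?_⟩
    have h1 : IsEmpty {σ : toReal G ≃ toReal H // CombIso (toReal G) (toReal H) σ} :=
      ⟨fun σ => hex ⟨σ.1, σ.2⟩⟩
    have h2 : IsEmpty {σ : toReal G ≃ toReal H // AffIso (toReal G) (toReal H) σ} :=
      ⟨fun σ => hex ⟨σ.1, AffIso.combIso σ.2⟩⟩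
    rw [Nat.card_of_isEmpty, Nat.card_of_isEmpty]
  obtain ⟨σ0, hσ0⟩ := hex
  have hidx := index_modEq G hp hG
  -- the transported left translations
  let κ : toReal H →* combGroup (toReal G) :=
    { toFun := fun h => ⟨(σ0.trans (Equiv.mulLeft h)).trans σ0.symm,
        CombIso.trans (CombIso.trans hσ0 (AffIso.combIso (affIso_mulLeft _ h))) hσ0.symm⟩
      map_one' := by
        apply Subtype.ext
        apply Equiv.ext
        intro x
        simp
      map_mul' := by
        intro a b
        apply Subtype.ext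
        apply Equiv.ext
        intro x
        simp }
  have hK : IsPGroup p κ.range :=
    (isPGroup_toReal H hH).of_surjective _ κ.rangeRestrict_surjective
  have hnd : ¬ p ∣ Nat.card (combGroup (toReal G) ⧸ affSub G) := by
    intro hd
    have h1 : (0 : ℕ) ≡ 1 [MOD p] := ((Nat.modEq_zero_iff_dvd.2 hd).symm.trans hidx)
    have h2 := (Nat.modEq_iff_dvd' (Nat.zero_le _)).1 h1
    have h3 := Nat.le_of_dvd one_pos h2
    have := hp.two_le
    omega
  obtain ⟨a, ha⟩ := hK.nonempty_fixed_point_of_prime_not_dvd_card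
    (combGroup (toReal G) ⧸ affSub G) hnd
  obtain ⟨γ, rfl⟩ := QuotientGroup.mk_surjective a
  rw [MulAction.mem_fixedPoints] at ha
  -- the affine isomorphism
  let τ : toReal G ≃ toReal H := γ.1.trans σ0
  have hτc : CombIso (toReal G) (toReal H) τ := CombIso.trans γ.2 hσ0
  have hτ : AffIso (toReal G) (toReal H) τ := by
    have h1 : AffIso (toReal H) (toReal G) τ.symm := by
      apply affIso_of_equivariant H G τ.symm hτc.symm
      intro h
      have h3 := ha ⟨κ h, ⟨h, rfl⟩⟩
      have h4 : ((κ h * γ : combGroup (toReal G)) : combGroup (toReal G) ⧸ affSub G) =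
          (γ : combGroup (toReal G) ⧸ affSub G) := h3
      rw [eq_comm, QuotientGroup.eq, Subgroup.mem_subgroupOf] at h4
      have h5 : ((γ⁻¹ * (κ h * γ) : combGroup (toReal G)) : Equiv.Perm (toReal G)) =
          τ.symm.symm.trans ((Equiv.mulLeft h).trans τ.symm) := by
        apply Equiv.ext
        intro x
        rfl
      rw [h5] at h4
      exact h4
    exact h1.symm
  refine ⟨Nat.card (combGroup (toReal G) ⧸ affSub G), hidx, ?_⟩
  have e1 : Nat.card {σ : toReal G ≃ toReal H // CombIso (toReal G) (toReal H) σ} =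
      Nat.card (combGroup (toReal G)) := by
    refine Nat.card_congr
      { toFun := fun σ => ⟨σ.1.trans τ.symm, CombIso.trans σ.2 hτc.symm⟩
        invFun := fun σ => ⟨σ.1.trans τ, CombIso.trans σ.2 hτc⟩
        left_inv := ?_
        right_inv := ?_ }
    · rintro ⟨σ, hσ⟩
      apply Subtype.ext
      apply Equiv.ext
      intro x
      simp
    · rintro ⟨σ, hσ⟩
      apply Subtype.ext
      apply Equiv.ext
      intro x
      simp
  have e2 : Nat.card {σ : toReal G ≃ toReal H // AffIso (toReal G) (toReal H) σ} =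
      Nat.card (affSub G) := by
    refine Nat.card_congr
      { toFun := fun σ => ⟨⟨σ.1.trans τ.symm, CombIso.trans (AffIso.combIso σ.2) hτc.symm⟩,
          AffIso.trans σ.2 hτ.symm⟩
        invFun := fun σ => ⟨σ.1.1.trans τ, AffIso.trans σ.2 hτ⟩
        left_inv := ?_
        right_inv := ?_ }
    · rintro ⟨σ, hσ⟩
      apply Subtype.ext
      apply Equiv.ext
      intro x
      simp
    · rintro ⟨⟨σ, hσ⟩, hσ'⟩
      apply Subtype.ext
      apply Subtype.ext
      apply Equiv.ext
      intro x
      simp
  rw [e1, e2]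
  exact Subgroup.card_eq_card_quotient_mul_card_subgroup (affSub G)

end Pool.Agent.RepPoly
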