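import Pool.Agent.RepPoly.PG6

set_option autoImplicit false

open Matrix

namespace Pool.Agent.RepPoly

/-- `G` has no nonzero invariant vector in `K ^ d`. -/
def NoInvVec {K : Type} [Field K] {d : ℕ} (G : Subgroup (GL (Fin d) K)) : Prop :=
  ∀ v : Fin d → K, (∀ g ∈ G, (g : Matrix (Fin d) (Fin d) K) *ᵥ v = v) → v = 0

/-- `G` has no nonzero invariant tensor in the third tensor power of `K ^ d`. -/
def NoInvTensor {K : Type} [Field K] {d : ℕ} (G : Subgroup (GL (Fin d) K)) : Prop :=
  ∀ T : Fin d → Fin d → Fin d → K,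
    (∀ g ∈ G, ∀ a b c : Fin d, ∑ i, ∑ j, ∑ k, (g : Matrix (Fin d) (Fin d) K) a i *
      (g : Matrix (Fin d) (Fin d) K) b j * (g : Matrix (Fin d) (Fin d) K) c k * T i j k = T a b c) →
    T = 0

lemma sum_entry_eq_zero {K : Type} [Field K] {d : ℕ} (G : Subgroup (GL (Fin d) K)) [Fintype G]
    (h : NoInvVec G) (i j : Fin d) : ∑ g : G, (g.1 : Matrix (Fin d) (Fin d) K) i j = 0 := by
  have h1 := h (fun i => ∑ g : G, (g.1 : Matrix (Fin d) (Fin d) K) i j) (by
    intro g hg
    funext a
    show ∑ i, (g : Matrix (Fin d) (Fin d) K) a i * ∑ x : G, (x.1 : Matrix (Fin d) (Fin d) K) i j = _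
    simp only [Finset.mul_sum]
    rw [Finset.sum_comm]
    rw [← Equiv.sum_comp (Equiv.mulLeft (⟨g, hg⟩ : G))
      (fun x : G => (x.1 : Matrix (Fin d) (Fin d) K) a j)]
    refine Finset.sum_congr rfl fun x _ => ?_
    rw [Equiv.coe_mulLeft]
    show _ = ((g * x.1 : GL (Fin d) K) : Matrix (Fin d) (Fin d) K) a j
    rw [Units.val_mul, Matrix.mul_apply])
  exact congrFun h1 i

lemma swap_triple {K : Type} [Field K] {d : ℕ} {X : Type*} [Fintype X]
    (F : Fin d → Fin d → Fin d → X → K) :
    ∑ i, ∑ j, ∑ k, ∑ x, F i j k x = ∑ x, ∑ i, ∑ j, ∑ k, F i j k x := by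
  have h1 : ∀ i j, ∑ k, ∑ x, F i j k x = ∑ x, ∑ k, F i j k x := fun i j => Finset.sum_comm
  simp_rw [h1]
  have h2 : ∀ i, ∑ j, ∑ x, ∑ k, F i j k x = ∑ x, ∑ j, ∑ k, F i j k x := fun i => Finset.sum_comm
  simp_rw [h2]
  exact Finset.sum_comm

lemma sum_triple_eq_zero {K : Type} [Field K] {d : ℕ} (G : Subgroup (GL (Fin d) K)) [Fintype G]
    (h : NoInvTensor G) (i j k l a b : Fin d) :
    ∑ g : G, (g.1 : Matrix (Fin d) (Fin d) K) i j * (g.1 : Matrix (Fin d) (Fin d) K) k l *
      (g.1 : Matrix (Fin d) (Fin d) K) a b = 0 := by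
  have h1 := h (fun i k a => ∑ g : G, (g.1 : Matrix (Fin d) (Fin d) K) i j *
      (g.1 : Matrix (Fin d) (Fin d) K) k l * (g.1 : Matrix (Fin d) (Fin d) K) a b) (by
    intro g hg i' k' a'
    rw [← Equiv.sum_comp (Equiv.mulLeft (⟨g, hg⟩ : G))
      (fun x : G => (x.1 : Matrix (Fin d) (Fin d) K) i' j * (x.1 : Matrix (Fin d) (Fin d) K) k' l *
        (x.1 : Matrix (Fin d) (Fin d) K) a' b)]
    have h2 : ∀ (x : G) (u v : Fin d),
        ((Equiv.mulLeft (⟨g, hg⟩ : G) x).1 : Matrix (Fin d) (Fin d) K) u v =
        ∑ w, (g : Matrix (Fin d) (Fin d) K) u w * (x.1 : Matrix (Fin d) (Fin d) K) w v := by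
      intro x u v
      rw [Equiv.coe_mulLeft]
      show ((g * x.1 : GL (Fin d) K) : Matrix (Fin d) (Fin d) K) u v = _
      rw [Units.val_mul, Matrix.mul_apply]
    simp only [h2]
    have h3 : ∀ x : G,
        (∑ w, (g : Matrix (Fin d) (Fin d) K) i' w * (x.1 : Matrix (Fin d) (Fin d) K) w j) *
        (∑ w, (g : Matrix (Fin d) (Fin d) K) k' w * (x.1 : Matrix (Fin d) (Fin d) K) w l) *
        (∑ w, (g : Matrix (Fin d) (Fin d) K) a' w * (x.1 : Matrix (Fin d) (Fin d) K) w b) =
        ∑ u, ∑ v, ∑ w, (g : Matrix (Fin d) (Fin d) K) i' u * (g : Matrix (Fin d) (Fin d) K) k' v *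
          (g : Matrix (Fin d) (Fin d) K) a' w * ((x.1 : Matrix (Fin d) (Fin d) K) u j *
          (x.1 : Matrix (Fin d) (Fin d) K) v l * (x.1 : Matrix (Fin d) (Fin d) K) w b) := by
      intro x
      rw [Finset.sum_mul_sum, Finset.sum_mul]
      refine Finset.sum_congr rfl fun u _ => ?_
      rw [Finset.sum_mul_sum]
      refine Finset.sum_congr rfl fun v _ => Finset.sum_congr rfl fun w _ => ?_
      ring
    simp only [h3]
    rw [← swap_triple]
    refine Finset.sum_congr rfl fun u _ => Finset.sum_congr rfl fun v _ =>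
      Finset.sum_congr rfl fun w _ => ?_
    rw [Finset.mul_sum])
  exact congrFun (congrFun (congrFun h1 i) k) a

lemma noTri_subtype {d : ℕ} (G : Subgroup (GL (Fin d) ℝ)) [Fintype G] (h1 : NoInvVec G)
    (h3 : NoInvTensor G) : NoTri G.subtype :=
  ⟨fun i j => sum_entry_eq_zero G h1 i j, fun i j k l a b => sum_triple_eq_zero G h3 i j k l a b⟩

lemma noTri_repR {d : ℕ} (G : Subgroup (GL (Fin d) ℚ)) [Fintype G] (h1 : NoInvVec G)
    (h3 : NoInvTensor G) : NoTri (repR G) := by
  refine ⟨fun i j => ?_, fun i j k l a b => ?_⟩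
  · have h := sum_entry_eq_zero G h1 i j
    simp only [repR_apply]
    exact_mod_cast h
  · have h := sum_triple_eq_zero G h3 i j k l a b
    simp only [repR_apply]
    exact_mod_cast h

/-- Extremality for rational `2`-groups without invariant vectors and without invariant tensors of
degree three. -/
theorem ext_of_rational_two' {d : ℕ} (G : Subgroup (GL (Fin d) ℚ)) [Finite G]
    (hG : IsPGroup 2 G) (h1 : NoInvVec G) (h3 : NoInvTensor G) :
    ∃ m, Ext (coef (toReal G)) m := by
  let _ : Fintype G := Fintype.ofFinite G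
  exact ext_of_rational_two G hG (noTri_repR G h1 h3)

/-- `g` is a signed permutation matrix: each column has one entry `1` or `-1`, all other entries
of the column being `0`. -/
def IsSignedPerm {d : ℕ} (g : GL (Fin d) ℝ) : Prop :=
  ∀ j : Fin d, ∃ i : Fin d, ∃ s : ℝ, (s = 1 ∨ s = -1) ∧
    ∀ k : Fin d, (g : Matrix (Fin d) (Fin d) ℝ) k j = if k = i then s else 0

lemma finite_of_signed {d : ℕ} (G : Subgroup (GL (Fin d) ℝ)) (hG : ∀ g ∈ G, IsSignedPerm g) :
    Finite G := by
  have h : ∀ g : G, ∀ j, ∃ i : Fin d, ∃ b : Bool,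
      ∀ k, (g.1 : Matrix (Fin d) (Fin d) ℝ) k j = if k = i then (if b then 1 else -1) else 0 := by
    intro g j
    obtain ⟨i, s, hs, h⟩ := hG g.1 g.2 j
    rcases hs with hs | hs
    · refine ⟨i, true, fun k => ?_⟩
      rw [h k, hs]; simp
    · refine ⟨i, false, fun k => ?_⟩
      rw [h k, hs]; simp
  choose i b hib using h
  apply Finite.of_injective (fun g : G => fun j => (i g j, b g j))
  intro g g' hgg
  apply Subtype.ext
  apply Units.ext
  ext k j
  have h1 := congrFun hgg j
  have h2 : i g j = i g' j := (Prod.ext_iff.1 h1).1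
  have h3 : b g j = b g' j := (Prod.ext_iff.1 h1).2
  rw [hib g j k, hib g' j k, h2, h3]

open Classical in
/-- Extremality for signed permutation groups without invariant vectors and without invariant
tensors of degree three. -/
theorem ext_of_signed {d : ℕ} (G : Subgroup (GL (Fin d) ℝ)) (hG : ∀ g ∈ G, IsSignedPerm g)
    (h1 : NoInvVec G) (h3 : NoInvTensor G) : ∃ m, Ext (coef G) m := by
  have hfin := finite_of_signed G hG
  let _ : Fintype G := Fintype.ofFinite G
  rcases Nat.eq_zero_or_pos d with hd | hd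
  · subst hd
    exact ⟨_, ext_of_dim_zero G.subtype⟩
  have hT := noTri_subtype G h1 h3
  -- the sign functions
  let S : (Fin d → Bool) → Fin d → G → ℝ := fun ε j g =>
    ∑ i, (if ε i then (1 : ℝ) else -1) * (g.1 : Matrix (Fin d) (Fin d) ℝ) i j
  have hSval : ∀ ε j g, S ε j g = 1 ∨ S ε j g = -1 := by
    intro ε j g
    obtain ⟨i, s, hs, h⟩ := hG g.1 g.2 j
    have h2 : S ε j g = (if ε i then (1 : ℝ) else -1) * s := by
      show ∑ k, (if ε k then (1 : ℝ) else -1) * (g.1 : Matrix (Fin d) (Fin d) ℝ) k j = _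
      rw [Finset.sum_eq_single i]
      · rw [h i, if_pos rfl]
      · intro k _ hk
        rw [h k, if_neg hk, mul_zero]
      · intro h'
        exact absurd (Finset.mem_univ _) h'
    rw [h2]
    rcases hs with hs | hs <;> by_cases hε : ε i <;> simp [hs, hε]
  have hSsum : ∀ ε j, ∑ g : G, S ε j g = 0 := by
    intro ε j
    show ∑ g : G, ∑ i, (if ε i then (1 : ℝ) else -1) * (g.1 : Matrix (Fin d) (Fin d) ℝ) i j = 0
    rw [Finset.sum_comm]
    refine Finset.sum_eq_zero fun i _ => ?_
    rw [← Finset.mul_sum, sum_entry_eq_zero G h1 i j, mul_zero]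
  have hSmem : ∀ ε j, S ε j ∈ cf G.subtype := by
    intro ε j
    have h2 : S ε j = ∑ i, (if ε i then (1 : ℝ) else -1) •
        fun g : G => (G.subtype g : Matrix (Fin d) (Fin d) ℝ) i j := by
      funext g
      rw [Finset.sum_apply]
      rfl
    rw [h2]
    exact Submodule.sum_mem _ fun i _ => Submodule.smul_mem _ _ (entry_mem_cf G.subtype i j)
  -- the number of elements
  have hcount : ∀ ε j, 2 * (Finset.univ.filter fun g : G => S ε j g = 1).card = Fintype.card G := by
    intro ε j
    have h2 : ∀ g : G, 1 + S ε j g = if S ε j g = 1 then 2 else 0 := by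
      intro g
      rcases hSval ε j g with h | h
      · rw [h, if_pos rfl]; norm_num
      · rw [h, if_neg (by norm_num)]; norm_num
    have h4 : ∑ g : G, (1 + S ε j g) = Fintype.card G := by
      rw [Finset.sum_add_distrib, hSsum, Finset.sum_const, Finset.card_univ, nsmul_eq_mul, mul_one,
        add_zero]
    rw [Finset.sum_congr rfl (fun g _ => h2 g), ← Finset.sum_filter, Finset.sum_const,
      nsmul_eq_mul] at h4
    have h5 : ((2 * (Finset.univ.filter fun g : G => S ε j g = 1).card : ℕ) : ℝ) =
        (Fintype.card G : ℝ) := by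
      rw [← h4]
      push_cast
      ring
    exact_mod_cast h5
  let j0 : Fin d := ⟨0, hd⟩
  let m := (Finset.univ.filter fun g : G => S (fun _ => true) j0 g = 1).card
  have hm : 2 * m = Fintype.card G := hcount _ _
  have hflat : ∀ ε j, (fun g => (1 + S ε j g) / 2) ∈ Flats (cf G.subtype) m := by
    intro ε j
    refine ⟨?_, {g | S ε j g = 1}, ?_, ?_, ?_⟩
    · have h2 : (fun g => (1 + S ε j g) / 2) = (2 : ℝ)⁻¹ • ((fun _ => (1 : ℝ)) + S ε j) := by
        funext g
        simp only [Pi.smul_apply, Pi.add_apply, smul_eq_mul]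
        ring
      rw [h2]
      exact (cf G.subtype).smul_mem _ ((cf G.subtype).add_mem (const_mem_cf _ _) (hSmem ε j))
    · by_contra hcon
      rw [Set.not_nonempty_iff_eq_empty] at hcon
      have h2 := hcount ε j
      have h4 : (Finset.univ.filter fun g : G => S ε j g = 1) = ∅ := by
        ext g
        have : g ∉ {g | S ε j g = 1} := by rw [hcon]; exact Set.notMem_empty g
        simpa using this
      rw [h4, Finset.card_empty, mul_zero] at h2
      exact Fintype.card_ne_zero h2.symm
    · rw [Set.ncard_eq_toFinset_card']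
      have h2 := hcount ε j
      have h4 : Set.toFinset {g : G | S ε j g = 1} = Finset.univ.filter fun g : G => S ε j g = 1 := by
        ext g
        simp
      rw [h4]
      omega
    · funext g
      rcases hSval ε j g with h | h
      · rw [Set.indicator_of_mem (show g ∈ {g | S ε j g = 1} from h), h]
        norm_num
      · rw [Set.indicator_of_notMem, h]
        · norm_num
        · intro h'
          have h'' : S ε j g = 1 := h'
          rw [h] at h''
          norm_num at h''
  refine ⟨m, ext_of_third G.subtype hT m hm ?_ ?_⟩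
  · -- the constant function
    have h2 : (fun _ : G => (1 : ℝ)) = (fun g => (1 + S (fun _ => true) j0 g) / 2) +
        fun g => (1 + S (fun _ => false) j0 g) / 2 := by
      funext g
      have h4 : S (fun _ => false) j0 g = - S (fun _ => true) j0 g := by
        show ∑ i, (if false then (1 : ℝ) else -1) * (g.1 : Matrix (Fin d) (Fin d) ℝ) i j0 =
          -∑ i, (if true then (1 : ℝ) else -1) * (g.1 : Matrix (Fin d) (Fin d) ℝ) i j0
        rw [← Finset.sum_neg_distrib]
        refine Finset.sum_congr rfl fun i _ => ?_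
        simp
      simp only [Pi.add_apply]
      rw [h4]
      ring
    rw [h2]
    exact Submodule.add_mem _ (Submodule.subset_span (hflat _ _))
      (Submodule.subset_span (hflat _ _))
  · -- the entries
    intro k l
    have h2 : (fun g : G => (G.subtype g : Matrix (Fin d) (Fin d) ℝ) k l) =
        (fun g => (1 + S (fun _ => true) l g) / 2) -
        fun g => (1 + S (fun i => decide (i ≠ k)) l g) / 2 := by
      funext g
      have h4 : S (fun _ => true) l g - S (fun i => decide (i ≠ k)) l g =
          2 * (g.1 : Matrix (Fin d) (Fin d) ℝ) k l := by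
        show ∑ i, (if true then (1 : ℝ) else -1) * (g.1 : Matrix (Fin d) (Fin d) ℝ) i l -
          ∑ i, (if decide (i ≠ k) then (1 : ℝ) else -1) * (g.1 : Matrix (Fin d) (Fin d) ℝ) i l = _
        rw [← Finset.sum_sub_distrib, Finset.sum_eq_single k]
        · simp
          ring
        · intro i _ hi
          simp [hi]
        · intro h'
          exact absurd (Finset.mem_univ _) h'
      simp only [Pi.sub_apply]
      have h5 : (G.subtype g : Matrix (Fin d) (Fin d) ℝ) k l =
          (g.1 : Matrix (Fin d) (Fin d) ℝ) k l := rfl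
      rw [h5]
      linarith
    rw [h2]
    exact Submodule.sub_mem _ (Submodule.subset_span (hflat _ _))
      (Submodule.subset_span (hflat _ _))

/-- Groups containing `-I` have no invariant vectors and no invariant tensors of degree three. -/
lemma noInv_of_neg {K : Type} [Field K] [CharZero K] {d : ℕ} (G : Subgroup (GL (Fin d) K))
    (h : (-1 : GL (Fin d) K) ∈ G) : NoInvVec G ∧ NoInvTensor G := by
  constructor
  · intro v hv
    have h1 := hv _ h
    funext i
    have h2 := congrFun h1 i
    rw [Units.val_neg, Units.val_one, Matrix.neg_mulVec, Matrix.one_mulVec, Pi.neg_apply] at h2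
    exact self_eq_neg.1 h2.symm
  · intro T hT
    funext a b c
    have h1 := hT _ h a b c
    have h2 : ∀ x y : Fin d, (((-1 : GL (Fin d) K)) : Matrix (Fin d) (Fin d) K) x y =
        if x = y then -1 else 0 := by
      intro x y
      rw [Units.val_neg, Units.val_one, Matrix.neg_apply, Matrix.one_apply]
      split_ifs <;> simp
    simp only [h2] at h1
    rw [Finset.sum_eq_single a, Finset.sum_eq_single b, Finset.sum_eq_single c] at h1
    · simp only [if_true] at h1
      have h3 : -T a b c = T a b c := by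
        linear_combination h1
      exact self_eq_neg.1 h3.symm
    all_goals simp +contextual [eq_comm]

end Pool.Agent.RepPoly
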