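import Mathlib

set_option autoImplicit false

namespace Pool.Agent.RepPoly

/-- The geometric sum of an endomorphism of finite order without fixed vectors vanishes. -/
lemma geo_sum {V : Type*} [AddCommGroup V] [Module ℚ V] (T : Module.End ℚ V) {p : ℕ}
    (hT : T ^ p = 1) (hfix : ∀ v, T v = v → v = 0) (v : V) :
    ∑ i ∈ Finset.range p, (T ^ i) v = 0 := by
  apply hfix
  rw [map_sum]
  have h1 : ∀ i, T ((T ^ i) v) = (T ^ (i + 1)) v := by
    intro i
    rw [pow_succ']
    rfl
  simp only [h1]
  have h2 := Finset.sum_range_succ' (fun i => (T ^ i) v) p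
  have h3 := Finset.sum_range_succ (fun i => (T ^ i) v) p
  rw [h3] at h2
  rw [hT, pow_zero] at h2
  exact (add_right_cancel h2).symm

/-- The dimension bound coming from the cyclotomic polynomial. -/
lemma finrank_ge {V : Type*} [AddCommGroup V] [Module ℚ V] [FiniteDimensional ℚ V]
    [Nontrivial V] (T : Module.End ℚ V) {p n : ℕ} (hp : p.Prime)
    (h : ∀ v, ∑ i ∈ Finset.range p, ((T ^ p ^ n) ^ i) v = 0) :
    p ^ n * (p - 1) ≤ Module.finrank ℚ V := by
  have h1 : Polynomial.aeval T (Polynomial.cyclotomic (p ^ (n + 1)) ℚ) = 0 := by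
    rw [Polynomial.cyclotomic_prime_pow_eq_geom_sum hp]
    ext v
    simp only [map_sum, map_pow, Polynomial.aeval_X, LinearMap.sum_apply, LinearMap.zero_apply]
    exact h v
  have h2 : minpoly ℚ T ∣ Polynomial.cyclotomic (p ^ (n + 1)) ℚ := minpoly.dvd ℚ T h1
  have hint : IsIntegral ℚ T := Algebra.IsIntegral.isIntegral T
  have h3 : ¬ IsUnit (minpoly ℚ T) := minpoly.not_isUnit ℚ T
  have hirr : Irreducible (Polynomial.cyclotomic (p ^ (n + 1)) ℚ) :=
    Polynomial.cyclotomic.irreducible_rat (pow_pos hp.pos _)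
  have h4 : Associated (minpoly ℚ T) (Polynomial.cyclotomic (p ^ (n + 1)) ℚ) :=
    (hirr.dvd_iff.1 h2).resolve_left h3 |>.symm
  have h5 : (minpoly ℚ T).natDegree = (Polynomial.cyclotomic (p ^ (n + 1)) ℚ).natDegree := by
    rw [Polynomial.eq_of_monic_of_associated (minpoly.monic hint)
      (Polynomial.cyclotomic.monic _ _) h4]
  rw [Polynomial.natDegree_cyclotomic, Nat.totient_prime_pow_succ hp] at h5
  rw [← h5]
  have h6 := LinearMap.minpoly_dvd_charpoly T
  have h7 := Polynomial.natDegree_le_of_dvd h6 (LinearMap.charpoly_monic T).ne_zero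
  rwa [LinearMap.charpoly_natDegree] at h7

/-- A functional on a space with a frame. -/
lemma exists_functional' {K E : Type*} [Field K] [AddCommGroup E] [Module K E]
    [FiniteDimensional K E] {I : Type*} [Fintype I] {k : ℕ} (v : I → Fin k → E)
    (hspan : ⊤ ≤ Submodule.span K (Set.range fun p : I × Fin k => v p.1 p.2))
    (hsum : ∀ i, ∑ a, v i a = 0) (hk : 0 < k) (hkK : (k : K) ≠ 0)
    (hdim : Fintype.card I * (k - 1) ≤ Module.finrank K E) (σ : I → Fin k) :
    ∃ lam : E →ₗ[K] K, ∀ i a, lam (v i a) = (if a = σ i then 1 else 0) - 1 / (k : K) := by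
  classical
  let J := {p : I × Fin k // p.2 ≠ σ p.1}
  let b : J → E := fun p => v p.1.1 p.1.2
  have hcard : Fintype.card J ≤ Module.finrank K E := by
    refine le_trans (le_of_eq ?_) hdim
    have h1 : ∀ i : I, ∑ a : Fin k, (if a ≠ σ i then 1 else 0) = k - 1 := by
      intro i
      rw [← Finset.card_filter, Finset.filter_ne', Finset.card_erase_of_mem (Finset.mem_univ _),
        Finset.card_univ, Fintype.card_fin]
    rw [Fintype.card_subtype, Finset.card_filter, Fintype.sum_prod_type]
    simp only [h1]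
    simp
  have hbspan : ⊤ ≤ Submodule.span K (Set.range b) := by
    refine hspan.trans ?_
    rw [Submodule.span_le]
    rintro _ ⟨⟨i, a⟩, rfl⟩
    by_cases ha : a = σ i
    · have h1 : v i a = - ∑ a' ∈ Finset.univ.erase (σ i), v i a' := by
        have h2 := Finset.add_sum_erase Finset.univ (v i) (Finset.mem_univ (σ i))
        rw [hsum i] at h2
        rw [ha]
        exact eq_neg_of_add_eq_zero_left h2
      show v i a ∈ Submodule.span K (Set.range b)
      rw [h1]
      refine Submodule.neg_mem _ (Submodule.sum_mem _ fun a' ha' => ?_)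
      exact Submodule.subset_span ⟨⟨(i, a'), Finset.ne_of_mem_erase ha'⟩, rfl⟩
    · exact Submodule.subset_span ⟨⟨(i, a), ha⟩, rfl⟩
  have hli : LinearIndependent K b := linearIndependent_of_top_le_span_of_card_le_finrank hbspan hcard
  let B := Module.Basis.mk hli hbspan
  let lam : E →ₗ[K] K := B.constr K (fun _ => - (1 / (k : K)))
  have hlam : ∀ i a, a ≠ σ i → lam (v i a) = - (1 / (k : K)) := by
    intro i a ha
    have h1 : B ⟨(i, a), ha⟩ = v i a := by
      rw [Module.Basis.mk_apply]
    rw [← h1]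
    exact B.constr_basis K _ _
  refine ⟨lam, fun i a => ?_⟩
  by_cases ha : a = σ i
  · have h1 : v i a = - ∑ a' ∈ Finset.univ.erase (σ i), v i a' := by
      have h2 := Finset.add_sum_erase Finset.univ (v i) (Finset.mem_univ (σ i))
      rw [hsum i] at h2
      rw [ha]
      exact eq_neg_of_add_eq_zero_left h2
    rw [h1, map_neg, map_sum, Finset.sum_congr rfl
      (fun a' ha' => hlam i a' (Finset.ne_of_mem_erase ha')), Finset.sum_const,
      Finset.card_erase_of_mem (Finset.mem_univ _), Finset.card_univ, Fintype.card_fin,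
      if_pos ha, nsmul_eq_mul, Nat.cast_sub hk, Nat.cast_one]
    field_simp
  · rw [hlam i a ha, if_neg ha]
    ring

end Pool.Agent.RepPoly
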