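import Pool.Agent.RepPoly.Weights

set_option autoImplicit false

namespace Pool.Agent.RepPoly

/-- `f` depends only on the coordinates in `e`. -/
def Dep {n : ℕ} {K : Fin n → Type} (e : Finset (Fin n)) (f : (∀ i, K i) → ℝ) : Prop :=
  ∀ x y : (∀ i, K i), (∀ i ∈ e, x i = y i) → f x = f y

/-- Sums of functions each of which depends only on the coordinates in a member of `E`. -/
def VE {n : ℕ} {K : Fin n → Type} (E : Set (Finset (Fin n))) :
    Submodule ℝ ((∀ i, K i) → ℝ) :=
  Submodule.span ℝ {f | ∃ e ∈ E, Dep e f}

section step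

variable {n : ℕ} {K : Fin (n + 1) → Type}

/-- The slice of a function. -/
def slice (a : K 0) : (((∀ i, K i) → ℝ)) →ₗ[ℝ] ((∀ i : Fin n, K i.succ) → ℝ) where
  toFun f x := f (Fin.cons a x)
  map_add' _ _ := rfl
  map_smul' _ _ := rfl

lemma slice_apply (a : K 0) (f : (∀ i, K i) → ℝ) (x : ∀ i : Fin n, K i.succ) :
    slice a f x = f (Fin.cons a x) := rfl

open Classical in
/-- The trace of a set of coordinates on the last coordinates. -/
noncomputable def tr (e : Finset (Fin (n + 1))) : Finset (Fin n) :=
  Finset.univ.filter fun i => i.succ ∈ e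

lemma mem_tr (e : Finset (Fin (n + 1))) (i : Fin n) : i ∈ tr e ↔ i.succ ∈ e := by
  simp [tr]

lemma dep_slice {e : Finset (Fin (n + 1))} {f : (∀ i, K i) → ℝ} (h : Dep e f) (a : K 0) :
    Dep (K := fun i : Fin n => K i.succ) (tr e) (slice a f) := by
  intro x y hxy
  apply h
  intro i
  induction i using Fin.cases with
  | zero => intro _; rfl
  | succ j =>
    intro hj
    exact hxy j ((mem_tr e j).2 hj)

lemma slice_mem {E : Set (Finset (Fin (n + 1)))} {f : (∀ i, K i) → ℝ} (hf : f ∈ VE E)
    (a : K 0) : slice a f ∈ VE (K := fun i : Fin n => K i.succ) (tr '' E) := by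
  have h : VE E ≤ (VE (K := fun i : Fin n => K i.succ) (tr '' E)).comap (slice (K := K) a) := by
    unfold VE
    rw [Submodule.span_le]
    rintro g ⟨e, he, hg⟩
    exact Submodule.subset_span ⟨tr e, ⟨e, he, rfl⟩, dep_slice hg a⟩
  exact h hf

lemma slice_sub_mem {E : Set (Finset (Fin (n + 1)))} {f : (∀ i, K i) → ℝ} (hf : f ∈ VE E)
    (a b : K 0) : slice a f - slice b f ∈
      VE (K := fun i : Fin n => K i.succ) (tr '' {e | e ∈ E ∧ 0 ∈ e}) := by
  have h : VE E ≤ (VE (K := fun i : Fin n => K i.succ) (tr '' {e | e ∈ E ∧ 0 ∈ e})).comap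
      (slice (K := K) a - slice (K := K) b) := by
    unfold VE
    rw [Submodule.span_le]
    rintro g ⟨e, he, hg⟩
    rw [SetLike.mem_coe, Submodule.mem_comap, LinearMap.sub_apply]
    by_cases h0 : (0 : Fin (n + 1)) ∈ e
    · exact Submodule.sub_mem _
        (Submodule.subset_span ⟨tr e, ⟨e, ⟨he, h0⟩, rfl⟩, dep_slice hg a⟩)
        (Submodule.subset_span ⟨tr e, ⟨e, ⟨he, h0⟩, rfl⟩, dep_slice hg b⟩)
    · have h1 : slice a g = slice b g := by
        funext x
        apply hg
        intro i
        induction i using Fin.cases with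
        | zero => intro h; exact absurd h h0
        | succ j => intro _; rfl
      rw [h1, sub_self]
      exact Submodule.zero_mem _
  exact h hf

end step

/-- The number of points not seen by `e`. -/
noncomputable def co {n : ℕ} (K : Fin n → Type) [∀ i, Fintype (K i)] (e : Finset (Fin n)) : ℕ :=
  ∏ i, (if i ∈ e then 1 else Fintype.card (K i))

lemma co_succ {n : ℕ} (K : Fin (n + 1) → Type) [∀ i, Fintype (K i)] (e : Finset (Fin (n + 1))) :
    co K e = (if (0 : Fin (n + 1)) ∈ e then 1 else Fintype.card (K 0)) *
      co (fun i : Fin n => K i.succ) (tr e) := by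
  unfold co
  rw [Fin.prod_univ_succ]
  congr 1
  refine Finset.prod_congr rfl fun i _ => ?_
  simp only [mem_tr]

open Classical in
lemma card_supp {n : ℕ} {K : Fin (n + 1) → Type} [∀ i, Fintype (K i)] (f : (∀ i, K i) → ℝ) :
    (Finset.univ.filter fun x => f x ≠ 0).card =
      ∑ a : K 0, (Finset.univ.filter fun x => slice a f x ≠ 0).card := by
  rw [Finset.card_eq_sum_card_fiberwise (f := fun x => x 0) (t := Finset.univ)
    (fun _ _ => Finset.mem_univ _)]
  refine Finset.sum_congr rfl fun a _ => ?_
  symm
  apply Finset.card_bij (fun x _ => (Fin.cons a x : ∀ i, K i))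
  · intro x hx
    rw [Finset.mem_filter] at hx
    rw [Finset.mem_filter, Finset.mem_filter]
    exact ⟨⟨Finset.mem_univ _, hx.2⟩, rfl⟩
  · intro x _ y _ hxy
    exact Fin.cons_right_injective a hxy
  · intro x hx
    rw [Finset.mem_filter, Finset.mem_filter] at hx
    obtain ⟨⟨_, h1⟩, h2⟩ := hx
    refine ⟨Fin.tail x, ?_, ?_⟩
    · rw [Finset.mem_filter]
      refine ⟨Finset.mem_univ _, ?_⟩
      rw [slice_apply, ← h2, Fin.cons_self_tail]
      exact h1
    · rw [← h2, Fin.cons_self_tail]

open Classical in
/-- Small supports in spaces of sums of functions of few coordinates. -/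
theorem supp_bound : ∀ (n : ℕ) (K : Fin n → Type) [∀ i, Fintype (K i)]
    (E : Set (Finset (Fin n))) (M : ℕ), 1 ≤ M → (∀ e ∈ E, M ≤ co K e) →
    ∀ f : (∀ i, K i) → ℝ, f ∈ VE E → f ≠ 0 →
      M ≤ (Finset.univ.filter fun x => f x ≠ 0).card ∧
      ((Finset.univ.filter fun x => f x ≠ 0).card = M → ∀ x y, f x ≠ 0 → f y ≠ 0 → |f x| = |f y|) := by
  intro n
  induction n with
  | zero =>
    intro K _ E M hM hE f hf hf0
    have hex : ∃ e, e ∈ E := by
      by_contra hcon
      push Not at hcon
      apply hf0
      have h1 : (VE E : Submodule ℝ ((∀ i, K i) → ℝ)) = ⊥ := by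
        unfold VE
        rw [Submodule.span_eq_bot]
        rintro g ⟨e, he, _⟩
        exact absurd he (hcon e)
      rw [h1] at hf
      exact (Submodule.mem_bot ℝ).1 hf
    obtain ⟨e, he⟩ := hex
    have h1 : M ≤ 1 := by
      have := hE e he
      simpa [co] using this
    have hM1 : M = 1 := by omega
    obtain ⟨x0, hx0⟩ := Function.ne_iff.1 hf0
    refine ⟨?_, ?_⟩
    · rw [hM1]
      exact Finset.card_pos.2 ⟨x0, Finset.mem_filter.2 ⟨Finset.mem_univ _, hx0⟩⟩
    · intro _ x y _ _
      rw [Subsingleton.elim x y]
  | succ n ih =>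
    intro K _ E M hM hE f hf hf0
    have hcs := card_supp f
    have hsl : ∀ a : K 0, slice a f ≠ 0 →
        0 < (Finset.univ.filter fun x => slice a f x ≠ 0).card := by
      intro a ha
      obtain ⟨x, hx⟩ := Function.ne_iff.1 ha
      exact Finset.card_pos.2 ⟨x, by simpa using hx⟩
    have hlinkE : ∀ e' ∈ (tr '' {e | e ∈ E ∧ (0 : Fin (n + 1)) ∈ e}),
        M ≤ co (fun i : Fin n => K i.succ) e' := by
      rintro _ ⟨e, ⟨he, h0⟩, rfl⟩
      have := hE e he
      rwa [co_succ, if_pos h0, one_mul] at this
    by_cases hz : ∃ b : K 0, slice b f = 0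
    · obtain ⟨b, hb⟩ := hz
      have hlink : ∀ a : K 0, slice a f ∈
          VE (K := fun i : Fin n => K i.succ) (tr '' {e | e ∈ E ∧ 0 ∈ e}) := by
        intro a
        have := slice_sub_mem hf a b
        rwa [hb, sub_zero] at this
      obtain ⟨x0, hx0⟩ := Function.ne_iff.1 hf0
      have ha0 : slice (x0 0) f ≠ 0 := by
        intro h
        have h1 := congrFun h (Fin.tail x0)
        rw [slice_apply, Fin.cons_self_tail] at h1
        exact hx0 h1
      have hbd := fun (a : K 0) (ha : slice a f ≠ 0) =>
        ih (fun i : Fin n => K i.succ) _ M hM hlinkE (slice a f) (hlink a) ha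
      have hle : M ≤ (Finset.univ.filter fun x => f x ≠ 0).card := by
        rw [hcs]
        exact (hbd _ ha0).1.trans (Finset.single_le_sum
          (f := fun a : K 0 => (Finset.univ.filter fun x => slice a f x ≠ 0).card)
          (fun _ _ => Nat.zero_le _) (Finset.mem_univ (x0 0)))
      refine ⟨hle, ?_⟩
      intro heq x y hx hy
      -- all the mass is on one slice
      have honly : ∀ a : K 0, slice a f ≠ 0 → a = x0 0 := by
        intro a ha
        by_contra hne
        have h1 : (Finset.univ.filter fun x => slice a f x ≠ 0).card +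
            (Finset.univ.filter fun x => slice (x0 0) f x ≠ 0).card ≤
            ∑ a : K 0, (Finset.univ.filter fun x => slice a f x ≠ 0).card := by
          rw [← Finset.sum_pair (f := fun a : K 0 =>
            (Finset.univ.filter fun x => slice a f x ≠ 0).card) hne]
          exact Finset.sum_le_sum_of_subset (Finset.subset_univ _)
        have h2 := (hbd a ha).1
        have h3 := (hbd _ ha0).1
        rw [← hcs, heq] at h1
        omega
      have hx' : slice (x 0) f ≠ 0 := by
        intro h
        have h1 := congrFun h (Fin.tail x)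
        rw [slice_apply, Fin.cons_self_tail] at h1
        exact hx h1
      have hy' : slice (y 0) f ≠ 0 := by
        intro h
        have h1 := congrFun h (Fin.tail y)
        rw [slice_apply, Fin.cons_self_tail] at h1
        exact hy h1
      have hcard0 : (Finset.univ.filter fun x => slice (x0 0) f x ≠ 0).card = M := by
        rw [← heq, hcs]
        symm
        apply Finset.sum_eq_single (x0 0)
        · intro a _ ha
          have : slice a f = 0 := by
            by_contra h
            exact ha (honly a h)
          simp [this]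
        · intro h
          exact absurd (Finset.mem_univ _) h
      have h1 := (hbd _ ha0).2 hcard0 (Fin.tail x) (Fin.tail y) (by
        rw [slice_apply, ← honly _ hx', Fin.cons_self_tail]; exact hx) (by
        rw [slice_apply, ← honly _ hy', Fin.cons_self_tail]; exact hy)
      rw [slice_apply, slice_apply] at h1
      conv_lhs at h1 => rw [← honly _ hx', Fin.cons_self_tail]
      conv_rhs at h1 => rw [← honly _ hy', Fin.cons_self_tail]
      exact h1
    · push Not at hz
      have hq : 0 < Fintype.card (K 0) := by
        obtain ⟨x0, _⟩ := Function.ne_iff.1 hf0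
        exact Fintype.card_pos_iff.2 ⟨x0 0⟩
      obtain ⟨q, hqd⟩ : ∃ q, Fintype.card (K 0) = q := ⟨_, rfl⟩
      rw [hqd] at hq
      obtain ⟨M', hM'1, hMM', hM'le⟩ : ∃ M', 1 ≤ M' ∧ M ≤ q * M' ∧ ∀ t, M ≤ q * t → M' ≤ t := by
        have hex : ∃ t, M ≤ q * t := ⟨M, Nat.le_mul_of_pos_left _ hq⟩
        refine ⟨Nat.find hex, ?_, Nat.find_spec hex, fun t ht => Nat.find_min' hex ht⟩
        rw [Nat.one_le_iff_ne_zero]
        intro h
        have h1 := Nat.find_spec hex
        rw [h, mul_zero] at h1
        omega
      have hdelE : ∀ e' ∈ (tr '' E), M' ≤ co (fun i : Fin n => K i.succ) e' := by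
        rintro _ ⟨e, he, rfl⟩
        apply hM'le
        have h1 := hE e he
        rw [co_succ, hqd] at h1
        split_ifs at h1 with h0
        · rw [one_mul] at h1
          exact h1.trans (Nat.le_mul_of_pos_left _ hq)
        · exact h1
      have hbd := fun (a : K 0) =>
        ih (fun i : Fin n => K i.succ) _ M' hM'1 hdelE (slice a f) (slice_mem hf a) (hz a)
      have hsum : q * M' ≤ ∑ a : K 0, (Finset.univ.filter fun x => slice a f x ≠ 0).card := by
        have : q * M' = ∑ _a : K 0, M' := by
          rw [Finset.sum_const, Finset.card_univ, smul_eq_mul, hqd]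
        rw [this]
        exact Finset.sum_le_sum fun a _ => (hbd a).1
      refine ⟨by rw [hcs]; omega, ?_⟩
      intro heq
      rw [hcs] at heq
      have hqM : q * M' = M := by omega
      have hall : ∀ a : K 0, (Finset.univ.filter fun x => slice a f x ≠ 0).card = M' := by
        have h1 : ∑ a : K 0, ((Finset.univ.filter fun x => slice a f x ≠ 0).card - M') = 0 := by
          rw [Finset.sum_tsub_distrib _ (fun a _ => (hbd a).1), heq, Finset.sum_const,
            Finset.card_univ, smul_eq_mul, hqd]
          omega
        intro a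
        have h2 := (Finset.sum_eq_zero_iff.1 h1) a (Finset.mem_univ a)
        have h3 := (hbd a).1
        omega
      have hcab : ∀ (a b : K 0) (x y : ∀ i : Fin n, K i.succ), slice a f x ≠ 0 →
          slice b f y ≠ 0 → |slice a f x| = |slice b f y| := by
        intro a b x y hx hy
        by_cases hab : slice a f = slice b f
        · rw [← hab] at hy ⊢
          exact (hbd a).2 (hall a) x y hx hy
        · have hne : a ≠ b := fun h => hab (by rw [h])
          have hq2 : 2 ≤ q := by
            have : Nontrivial (K 0) := ⟨a, b, hne⟩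
            rw [← hqd]
            exact Fintype.one_lt_card
          have hdiff := ih (fun i : Fin n => K i.succ) _ M hM hlinkE (slice a f - slice b f)
            (slice_sub_mem hf a b) (sub_ne_zero.2 hab)
          let Sa := Finset.univ.filter fun x => slice a f x ≠ 0
          let Sb := Finset.univ.filter fun x => slice b f x ≠ 0
          let Sd := Finset.univ.filter fun x => (slice a f - slice b f) x ≠ 0
          have hsub : Sd ⊆ Sa ∪ Sb := by
            intro t ht
            rw [Finset.mem_filter] at ht
            rw [Finset.mem_union, Finset.mem_filter, Finset.mem_filter]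
            by_contra hcon
            push Not at hcon
            apply ht.2
            rw [Pi.sub_apply, hcon.1 (Finset.mem_univ _), hcon.2 (Finset.mem_univ _), sub_zero]
          have hc1 : Sd.card ≤ (Sa ∪ Sb).card := Finset.card_le_card hsub
          have hc2 : (Sa ∪ Sb).card + (Sa ∩ Sb).card = Sa.card + Sb.card :=
            Finset.card_union_add_card_inter Sa Sb
          have hSa : Sa.card = M' := hall a
          have hSb : Sb.card = M' := hall b
          have hSd : M ≤ Sd.card := hdiff.1
          have h2M : 2 * M' ≤ M := by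
            rw [← hqM]
            exact Nat.mul_le_mul_right _ hq2
          have hinter : (Sa ∩ Sb).card = 0 := by omega
          have hSdM : Sd.card = M := by omega
          have hSdeq : Sd = Sa ∪ Sb := Finset.eq_of_subset_of_card_le hsub (by omega)
          have hfl := hdiff.2 hSdM
          have hdisj : ∀ t, slice a f t ≠ 0 → slice b f t = 0 := by
            intro t ht
            by_contra h
            have : t ∈ Sa ∩ Sb := by
              rw [Finset.mem_inter, Finset.mem_filter, Finset.mem_filter]
              exact ⟨⟨Finset.mem_univ _, ht⟩, ⟨Finset.mem_univ _, h⟩⟩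
            rw [Finset.card_eq_zero.1 hinter] at this
            exact absurd this (Finset.notMem_empty _)
          have hbx := hdisj x hx
          have hay : slice a f y = 0 := by
            by_contra h
            exact hy (hdisj y h)
          have h1 := hfl x y (by rw [Pi.sub_apply, hbx, sub_zero]; exact hx)
            (by rw [Pi.sub_apply, hay, zero_sub]; exact neg_ne_zero.2 hy)
          rw [Pi.sub_apply, Pi.sub_apply, hbx, hay, sub_zero, zero_sub, abs_neg] at h1
          exact h1
      intro x y hx hy
      have h1 := hcab (x 0) (y 0) (Fin.tail x) (Fin.tail y)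
        (by rw [slice_apply, Fin.cons_self_tail]; exact hx)
        (by rw [slice_apply, Fin.cons_self_tail]; exact hy)
      rwa [slice_apply, slice_apply, Fin.cons_self_tail, Fin.cons_self_tail] at h1

open Classical in
lemma card_cyl {n : ℕ} (K : Fin n → Type) [∀ i, Fintype (K i)] (e : Finset (Fin n))
    (x : ∀ i, K i) : (Finset.univ.filter fun y : (∀ i, K i) => ∀ i ∈ e, y i = x i).card = co K e := by
  have h1 : (Finset.univ.filter fun y : (∀ i, K i) => ∀ i ∈ e, y i = x i) =
      Fintype.piFinset (fun i => if i ∈ e then {x i} else (Finset.univ : Finset (K i))) := by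
    ext y
    rw [Finset.mem_filter, Fintype.mem_piFinset]
    constructor
    · rintro ⟨_, h⟩ i
      by_cases hi : i ∈ e
      · rw [if_pos hi, Finset.mem_singleton]; exact h i hi
      · rw [if_neg hi]; exact Finset.mem_univ _
    · intro h
      refine ⟨Finset.mem_univ _, fun i hi => ?_⟩
      have h2 := h i
      rw [if_pos hi, Finset.mem_singleton] at h2
      exact h2
  rw [h1, Fintype.card_piFinset]
  unfold co
  refine Finset.prod_congr rfl fun i _ => ?_
  split_ifs
  · exact Finset.card_singleton _
  · exact Finset.card_univ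

open Classical in
/-- Extremality of the spaces `VE E` when all members of `E` see the same number of points. -/
theorem ext_VE {n : ℕ} (K : Fin n → Type) [∀ i, Fintype (K i)] (E : Set (Finset (Fin n)))
    (M : ℕ) (hM : 1 ≤ M) (hE : ∀ e ∈ E, co K e = M) : Ext (VE (K := K) E) M := by
  have hMR : (M : ℝ) ≠ 0 := by
    have : (0 : ℝ) < M := by exact_mod_cast hM
    exact this.ne'
  refine ⟨?_, ?_, ?_⟩
  · rintro T ⟨x, hx⟩ ⟨f, hf, _, hs⟩
    have hf0 : f ≠ 0 := by
      intro h
      apply (hs x).1 hx
      rw [h]; rfl
    have h1 := (supp_bound n K E M hM (fun e he => (hE e he).ge) f hf hf0).1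
    have h2 : T.ncard = (Finset.univ.filter fun x => f x ≠ 0).card := by
      rw [Set.ncard_eq_toFinset_card']
      congr 1
      ext y
      rw [Set.mem_toFinset, Finset.mem_filter]
      exact ⟨fun h => ⟨Finset.mem_univ _, (hs y).1 h⟩, fun h => (hs y).2 h.2⟩
    rw [h2]
    exact h1
  · intro f hf h0 hm x y hx hy
    have hf0 : f ≠ 0 := by
      intro h
      apply hx
      rw [h]; rfl
    have h1 := (supp_bound n K E M hM (fun e he => (hE e he).ge) f hf hf0).2 (by
      rw [← hm, Set.ncard_eq_toFinset_card']
      congr 1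
      ext y
      rw [Set.mem_toFinset, Finset.mem_filter]
      exact ⟨fun h => h.2, fun h => ⟨Finset.mem_univ _, h⟩⟩) x y hx hy
    rwa [abs_of_nonneg (h0 x), abs_of_nonneg (h0 y)] at h1
  · unfold VE
    rw [Submodule.span_le]
    rintro f ⟨e, he, hf⟩
    let cyl : (∀ i, K i) → Set (∀ i, K i) := fun x => {y | ∀ i ∈ e, y i = x i}
    have hcyl : ∀ x, (cyl x).ncard = M := by
      intro x
      rw [← hE e he, ← card_cyl K e x, Set.ncard_eq_toFinset_card']
      congr 1
      ext y
      rw [Set.mem_toFinset, Finset.mem_filter]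
      exact ⟨fun h => ⟨Finset.mem_univ _, h⟩, fun h => h.2⟩
    have h1 : f = (M : ℝ)⁻¹ • ∑ x, f x • (cyl x).indicator (fun _ => (1 : ℝ)) := by
      funext y
      rw [Pi.smul_apply, Finset.sum_apply]
      have h2 : ∀ x, (f x • (cyl x).indicator (fun _ => (1 : ℝ))) y
          = if (∀ i ∈ e, x i = y i) then f y else 0 := by
        intro x
        rw [Pi.smul_apply, Set.indicator_apply]
        by_cases hxy : ∀ i ∈ e, x i = y i
        · have h3 : y ∈ cyl x := fun i hi => (hxy i hi).symm
          rw [if_pos h3, if_pos hxy, hf x y hxy, smul_eq_mul, mul_one]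
        · have h3 : y ∉ cyl x := fun h => hxy fun i hi => (h i hi).symm
          rw [if_neg h3, if_neg hxy, smul_zero]
      rw [Finset.sum_congr rfl (fun x _ => h2 x), ← Finset.sum_filter, Finset.sum_const,
        card_cyl K e y, hE e he, nsmul_eq_mul, smul_eq_mul]
      field_simp
    rw [h1]
    refine Submodule.smul_mem _ _ (Submodule.sum_mem _ fun x _ => Submodule.smul_mem _ _ ?_)
    refine Submodule.subset_span ⟨?_, cyl x, ⟨x, fun i _ => rfl⟩, hcyl x, rfl⟩
    refine Submodule.subset_span ⟨e, he, ?_⟩
    intro y y' hyy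
    rw [Set.indicator_apply, Set.indicator_apply]
    have h3 : y ∈ cyl x ↔ y' ∈ cyl x :=
      ⟨fun h i hi => (hyy i hi).symm.trans (h i hi), fun h i hi => (hyy i hi).trans (h i hi)⟩
    by_cases h4 : y ∈ cyl x
    · rw [if_pos h4, if_pos (h3.1 h4)]
    · rw [if_neg h4, if_neg (fun h => h4 (h3.2 h))]

end Pool.Agent.RepPoly
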