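import Pool.Agent.RepPoly.Weights

set_option autoImplicit false

open Matrix

namespace Pool.Agent.RepPoly

/-- The permutation matrix of `s`, with entry `1` at `(s j, j)`, as a homomorphism. -/
def permMat (n : ℕ) : Equiv.Perm (Fin n) →* Matrix (Fin n) (Fin n) ℝ where
  toFun s := Matrix.of fun i j => if s j = i then 1 else 0
  map_one' := by
    ext i j
    simp [Matrix.one_apply, eq_comm]
  map_mul' s t := by
    ext i j
    simp only [Matrix.of_apply, Matrix.mul_apply]
    rw [Finset.sum_eq_single (t j)]
    · by_cases h : (s * t) j = i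
      · have h' : s (t j) = i := h
        rw [if_pos h, if_pos h', if_pos rfl, mul_one]
      · have h' : ¬ s (t j) = i := h
        rw [if_neg h, if_neg h', zero_mul]
    · intro b _ hb
      have h : (if t j = b then (1 : ℝ) else 0) = 0 := if_neg (fun h => hb h.symm)
      rw [h, mul_zero]
    · intro h
      exact absurd (Finset.mem_univ _) h

/-- The group of permutation matrices of the elements of a permutation group `G`. -/
def permGroup {n : ℕ} (G : Subgroup (Equiv.Perm (Fin n))) : Subgroup (GL (Fin n) ℝ) :=
  G.map (permMat n).toHomUnits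

lemma permMat_apply {n : ℕ} (s : Equiv.Perm (Fin n)) (i j : Fin n) :
    permMat n s i j = if s j = i then 1 else 0 := rfl

lemma permMat_injective (n : ℕ) : Function.Injective (permMat n).toHomUnits := by
  intro s t h
  have h1 : permMat n s = permMat n t := by
    have := congrArg (fun u : GL (Fin n) ℝ => (u : Matrix (Fin n) (Fin n) ℝ)) h
    simpa using this
  ext j
  have h2 := congrFun (congrFun h1 (t j)) j
  rw [permMat_apply, permMat_apply, if_pos rfl] at h2
  by_contra hne
  rw [if_neg (fun h => hne (by rw [h]))] at h2
  exact zero_ne_one h2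

/-- Weights for a permutation group: nonnegative, carried by `G`, weight `1` at the identity, and
total weight `1` on the elements sending `j` to `i`, for `i` and `j` in one orbit. -/
def Balanced {n : ℕ} (G : Subgroup (Equiv.Perm (Fin n))) : Prop :=
  ∃ w : Equiv.Perm (Fin n) → ℝ, (∀ s, 0 ≤ w s) ∧ (∀ s, s ∉ G → w s = 0) ∧ w 1 = 1 ∧
    ∀ i j : Fin n, (∃ s ∈ G, s j = i) → ∑ s : Equiv.Perm (Fin n), (if s j = i then w s else 0) = 1

/-- `G` is 2-transitive. -/
def TwoTransitive {n : ℕ} (G : Subgroup (Equiv.Perm (Fin n))) : Prop :=
  ∀ i j k l : Fin n, i ≠ j → k ≠ l → ∃ s ∈ G, s i = k ∧ s j = l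

open Classical in
lemma card_hits {n : ℕ} (G : Subgroup (Equiv.Perm (Fin n))) (i j : Fin n)
    (h : ∃ s ∈ G, s j = i) :
    (Finset.univ.filter fun s : G => s.1 j = i).card =
      (Finset.univ.filter fun s : G => s.1 j = j).card := by
  obtain ⟨t, ht, hti⟩ := h
  symm
  apply Finset.card_bij (fun s _ => (⟨t, ht⟩ : G) * s)
  · intro s hs
    simp only [Finset.mem_filter, Finset.mem_univ, true_and] at hs ⊢
    simp [hs, hti]
  · intro a _ b _ hab
    exact mul_left_cancel hab
  · intro s hs
    simp only [Finset.mem_filter, Finset.mem_univ, true_and] at hs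
    refine ⟨(⟨t, ht⟩ : G)⁻¹ * s, ?_, by simp⟩
    simp only [Finset.mem_filter, Finset.mem_univ, true_and]
    simp [hs, ← hti]

/-- The representation of `G` by permutation matrices. -/
noncomputable def permRep {n : ℕ} (G : Subgroup (Equiv.Perm (Fin n))) : G →* GL (Fin n) ℝ :=
  (permMat n).toHomUnits.comp G.subtype

lemma permRep_apply {n : ℕ} (G : Subgroup (Equiv.Perm (Fin n))) (g : G) (i j : Fin n) :
    (permRep G g : Matrix (Fin n) (Fin n) ℝ) i j = if g.1 j = i then 1 else 0 := rfl

lemma permRep_injective {n : ℕ} (G : Subgroup (Equiv.Perm (Fin n))) :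
    Function.Injective (permRep G) :=
  (permMat_injective n).comp G.subtype_injective

lemma permRep_range {n : ℕ} (G : Subgroup (Equiv.Perm (Fin n))) :
    (permRep G).range = permGroup G := by
  unfold permRep permGroup
  rw [MonoidHom.range_comp, Subgroup.range_subtype]

open Classical in
lemma sum_eq_of_support {n : ℕ} (G : Subgroup (Equiv.Perm (Fin n)))
    (F : Equiv.Perm (Fin n) → ℝ) (hF : ∀ s, s ∉ G → F s = 0) :
    ∑ s, F s = ∑ g : G, F g.1 := by
  rw [← Finset.sum_subtype (Finset.univ.filter (· ∈ G)) (by simp) F]
  symm
  apply Finset.sum_subset (Finset.subset_univ _)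
  intro s _ hs
  exact hF s (by simpa using hs)

open Classical in
theorem ext_of_balanced {n : ℕ} (G : Subgroup (Equiv.Perm (Fin n))) (hG : Balanced G) :
    ∃ m, Ext (coef (permGroup G)) m := by
  suffices h : ∃ m, Ext (cf (permRep G)) m by
    obtain ⟨m, hm⟩ := h
    refine ⟨m, ?_⟩
    rw [← permRep_range]
    exact hm.range (permRep_injective G)
  obtain ⟨w, hw0, hwG, hw1, hw⟩ := hG
  rcases Nat.eq_zero_or_pos n with hn | hn
  · subst hn
    refine ⟨1, ext_of_weights (permRep G) 1 (fun _ => 1) (fun _ => zero_le_one) rfl ?_ ?_ ?_ ?_⟩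
    · simp
    · ext i
      exact i.elim0
    · refine Submodule.subset_span ⟨const_mem_cf _ _, Set.univ, Set.univ_nonempty, ?_, ?_⟩
      · rw [Set.ncard_univ]
        exact Nat.card_unique
      · simp
    · intro k
      exact k.elim0
  · let hit : Fin n → Fin n → ℕ := fun i j => (Finset.univ.filter fun s : G => s.1 j = i).card
    let tot : ℝ := ∑ g : G, w g.1
    have hwG' : ∀ i j : Fin n, (∃ s ∈ G, s j = i) →
        ∑ g : G, (if g.1 j = i then w g.1 else 0) = 1 := by
      intro i j hij
      rw [← hw i j hij]
      symm
      apply sum_eq_of_support G (fun s => if s j = i then w s else 0)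
      intro s hs
      simp [hwG s hs]
    have star : ∀ i j : Fin n, (hit j j : ℝ) * ∑ g : G, (if g.1 j = i then w g.1 else 0)
        = hit i j := by
      intro i j
      by_cases hij : ∃ s ∈ G, s j = i
      · rw [hwG' i j hij, mul_one]
        exact_mod_cast (card_hits G i j hij).symm
      · have h1 : ∀ g : G, g.1 j ≠ i := fun g hg => hij ⟨g.1, g.2, hg⟩
        have h2 : hit i j = 0 := by
          rw [Finset.card_eq_zero, Finset.filter_eq_empty_iff]
          intro g _
          exact h1 g
        rw [h2]
        simp [h1]
    have htot : ∀ j : Fin n, (hit j j : ℝ) * tot = Fintype.card G := by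
      intro j
      have h1 : ∑ i : Fin n, (hit j j : ℝ) * ∑ g : G, (if g.1 j = i then w g.1 else 0)
          = ∑ i : Fin n, (hit i j : ℝ) := Finset.sum_congr rfl fun i _ => star i j
      rw [← Finset.mul_sum, Finset.sum_comm] at h1
      simp only [Finset.sum_ite_eq, Finset.mem_univ, if_true] at h1
      rw [h1]
      have h2 : (Finset.univ : Finset G).card = ∑ i : Fin n, hit i j :=
        Finset.card_eq_sum_card_fiberwise (f := fun g : G => g.1 j) (t := Finset.univ)
          (fun _ _ => Finset.mem_univ _)
      rw [← Nat.cast_sum, ← h2, Finset.card_univ]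
    have htpos : 0 < tot := by
      have h1 : w (1 : G).1 ≤ tot :=
        Finset.single_le_sum (f := fun g : G => w g.1) (fun g _ => hw0 _) (Finset.mem_univ 1)
      have h2 : w (1 : G).1 = 1 := by simpa using hw1
      linarith
    let j0 : Fin n := ⟨0, hn⟩
    have hjj : ∀ j, hit j j = hit j0 j0 := by
      intro j
      have h1 : (hit j j : ℝ) * tot = hit j0 j0 * tot := by rw [htot, htot]
      exact_mod_cast mul_right_cancel₀ htpos.ne' h1
    have hflat : ∀ i j : Fin n, (∃ s ∈ G, s j = i) →
        (fun g : G => (permRep G g : Matrix (Fin n) (Fin n) ℝ) i j) ∈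
          Flats (cf (permRep G)) (hit j0 j0) := by
      intro i j hij
      refine ⟨entry_mem_cf _ i j, {g | g.1 j = i}, ?_, ?_, ?_⟩
      · obtain ⟨s, hs, hsj⟩ := hij
        exact ⟨⟨s, hs⟩, hsj⟩
      · have h1 : hit i j = hit j0 j0 := (card_hits G i j hij).trans (hjj j)
        rw [← h1, Set.ncard_eq_toFinset_card']
        congr 1
        ext g
        simp
      · funext g
        rw [permRep_apply, Set.indicator_apply]
        rfl
    have hzero : ∀ i j : Fin n, (¬ ∃ s ∈ G, s j = i) →
        (fun g : G => (permRep G g : Matrix (Fin n) (Fin n) ℝ) i j) = 0 := by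
      intro i j hij
      funext g
      rw [permRep_apply, if_neg (fun h => hij ⟨g.1, g.2, h⟩)]
      rfl
    have hmem : ∀ i j : Fin n,
        (fun g : G => (permRep G g : Matrix (Fin n) (Fin n) ℝ) i j) ∈
          Submodule.span ℝ (Flats (cf (permRep G)) (hit j0 j0)) := by
      intro i j
      by_cases hij : ∃ s ∈ G, s j = i
      · exact Submodule.subset_span (hflat i j hij)
      · rw [hzero i j hij]
        exact Submodule.zero_mem _
    refine ⟨hit j0 j0, ext_of_weights (permRep G) (hit j0 j0) (fun g => w g.1)
      (fun g => hw0 _) (by simpa using hw1) (htot j0) ?_ ?_ hmem⟩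
    · ext i j
      have h1 := star i j
      rw [hjj j] at h1
      have h2 : (((hit j0 j0 : ℝ) • ∑ g : G, w g.1 • (permRep G g : Matrix (Fin n) (Fin n) ℝ)) i j)
          = (hit j0 j0 : ℝ) * ∑ g : G, (if g.1 j = i then w g.1 else 0) := by
        rw [Matrix.smul_apply, Matrix.sum_apply, smul_eq_mul]
        congr 1
        refine Finset.sum_congr rfl fun g _ => ?_
        rw [Matrix.smul_apply, permRep_apply, smul_eq_mul]
        split_ifs <;> simp
      rw [h2, h1, Matrix.sum_apply]
      simp only [permRep_apply]
      rw [Finset.sum_boole]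
    · have h1 : (fun _ : G => (1 : ℝ)) =
          ∑ i : Fin n, (fun g : G => (permRep G g : Matrix (Fin n) (Fin n) ℝ) i j0) := by
        funext g
        rw [Finset.sum_apply]
        simp [permRep_apply]
      rw [h1]
      exact Submodule.sum_mem _ fun i _ => hmem i j0

open Classical in
theorem balanced_of_twoTransitive {n : ℕ} (G : Subgroup (Equiv.Perm (Fin n)))
    (hG : TwoTransitive G) : Balanced G := by
  by_cases hn : n ≤ 1
  · -- at most one point
    have hsub : Subsingleton (Fin n) := by
      rcases Nat.le_one_iff_eq_zero_or_eq_one.1 hn with h | h <;> subst h <;> infer_instance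
    refine ⟨fun s => if s ∈ G then 1 else 0, fun s => by positivity, fun s hs => if_neg hs,
      if_pos G.one_mem, ?_⟩
    intro i j _
    have huniv : ∀ s : Equiv.Perm (Fin n), s = 1 := fun s => by
      ext x
      rw [Subsingleton.elim (s x) ((1 : Equiv.Perm (Fin n)) x)]
    have : ∀ F : Equiv.Perm (Fin n) → ℝ, ∑ s, F s = F 1 := by
      intro F
      rw [Finset.sum_eq_single 1]
      · intro b _ hb
        exact absurd (huniv b) hb
      · simp
    rw [this, if_pos (Subsingleton.elim _ _)]
    exact if_pos G.one_mem
  · push Not at hn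
    -- derangements
    let der : G → Prop := fun g => ∀ j, g.1 j ≠ j
    let hit : Fin n → Fin n → ℕ := fun i j =>
      (Finset.univ.filter fun s : G => der s ∧ s.1 j = i).card
    let D : ℕ := (Finset.univ.filter fun s : G => der s).card
    -- conjugation invariance
    have hinv : ∀ i j k l : Fin n, i ≠ j → k ≠ l → hit i j = hit k l := by
      intro i j k l hij hkl
      obtain ⟨t, ht, h1, h2⟩ := hG i j k l hij hkl
      apply Finset.card_bij (fun s _ => (⟨t, ht⟩ : G) * s * (⟨t, ht⟩ : G)⁻¹)
      · intro s hs
        simp only [Finset.mem_filter, Finset.mem_univ, true_and] at hs ⊢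
        refine ⟨?_, ?_⟩
        · intro x hx
          apply hs.1 (t⁻¹ x)
          have h3 : t (s.1 (t⁻¹ x)) = x := by simpa using hx
          rw [Equiv.Perm.eq_inv_iff_eq]
          exact h3
        · have h3 : t⁻¹ l = j := by rw [Equiv.Perm.inv_eq_iff_eq]; exact h2.symm
          simp only [Subgroup.coe_mul, Subgroup.coe_inv, Equiv.Perm.mul_apply]
          rw [h3, hs.2, h1]
      · intro a _ b _ hab
        simpa using hab
      · intro s hs
        simp only [Finset.mem_filter, Finset.mem_univ, true_and] at hs
        refine ⟨(⟨t, ht⟩ : G)⁻¹ * s * (⟨t, ht⟩ : G), ?_, by group⟩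
        simp only [Finset.mem_filter, Finset.mem_univ, true_and]
        refine ⟨?_, ?_⟩
        · intro x hx
          apply hs.1 (t x)
          have h3 : t⁻¹ (s.1 (t x)) = x := by simpa using hx
          rw [Equiv.Perm.inv_eq_iff_eq] at h3
          exact h3
        · simp only [Subgroup.coe_mul, Subgroup.coe_inv, Equiv.Perm.mul_apply]
          rw [h2, hs.2, Equiv.Perm.inv_eq_iff_eq]
          exact h1.symm
    have hdiag : ∀ j, hit j j = 0 := by
      intro j
      rw [Finset.card_eq_zero, Finset.filter_eq_empty_iff]
      rintro g _ ⟨h1, h2⟩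
      exact h1 j h2
    have hDsum : ∀ j, D = ∑ i, hit i j := by
      intro j
      have h1 := Finset.card_eq_sum_card_fiberwise
        (s := Finset.univ.filter fun s : G => der s) (f := fun g : G => g.1 j)
        (t := Finset.univ) (fun _ _ => Finset.mem_univ _)
      rw [show D = (Finset.univ.filter fun s : G => der s).card from rfl, h1]
      refine Finset.sum_congr rfl fun i _ => ?_
      rw [Finset.filter_filter]
    have hD : ∀ i j, i ≠ j → D = (n - 1) * hit i j := by
      intro i j hij
      rw [hDsum j, ← Finset.sum_erase Finset.univ (f := fun i => hit i j) (hdiag j),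
        Finset.sum_congr rfl (g := fun _ => hit i j), Finset.sum_const,
        Finset.card_erase_of_mem (Finset.mem_univ j), Finset.card_univ, Fintype.card_fin,
        smul_eq_mul]
      intro k hk
      exact hinv k j i j (Finset.ne_of_mem_erase hk) hij
    -- transitivity and the existence of derangements
    have hother : ∀ i : Fin n, ∃ j, i ≠ j := by
      intro i
      by_cases h : i = ⟨0, by omega⟩
      · refine ⟨⟨1, by omega⟩, ?_⟩
        rw [h]
        intro h'
        have := congrArg Fin.val h'
        simp at this
      · exact ⟨_, h⟩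
    have htrans : ∀ i j : Fin n, ∃ s ∈ G, s j = i := by
      intro i j
      obtain ⟨j', hj'⟩ := hother j
      obtain ⟨i', hi'⟩ := hother i
      obtain ⟨s, hs, h1, _⟩ := hG j j' i i' hj' hi'
      exact ⟨s, hs, h1⟩
    have hstab : ∀ j : Fin n, n * (Finset.univ.filter fun s : G => s.1 j = j).card
        = Fintype.card G := by
      intro j
      have h1 := Finset.card_eq_sum_card_fiberwise
        (s := (Finset.univ : Finset G)) (f := fun g : G => g.1 j)
        (t := Finset.univ) (fun _ _ => Finset.mem_univ _)
      rw [Finset.card_univ] at h1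
      rw [h1, Finset.sum_congr rfl (g := fun _ => (Finset.univ.filter fun s : G => s.1 j = j).card)
        (fun i _ => card_hits G i j (htrans i j)), Finset.sum_const, Finset.card_univ,
        Fintype.card_fin, smul_eq_mul]
    have hDpos : 0 < D := by
      rw [Nat.pos_iff_ne_zero]
      intro hD0
      have hno : ∀ g : G, ∃ j, g.1 j = j := by
        intro g
        by_contra hcon
        have h1 : g ∈ (Finset.univ.filter fun s : G => der s) := by
          rw [Finset.mem_filter]
          exact ⟨Finset.mem_univ _, fun j hj => hcon ⟨j, hj⟩⟩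
        rw [Finset.card_eq_zero.1 hD0] at h1
        exact absurd h1 (Finset.notMem_empty _)
      have h1 : ∑ g : G, (Finset.univ.filter fun j : Fin n => g.1 j = j).card
          = ∑ j : Fin n, (Finset.univ.filter fun g : G => g.1 j = j).card := by
        simp only [Finset.card_filter]
        exact Finset.sum_comm
      have h2 : n * ∑ j : Fin n, (Finset.univ.filter fun g : G => g.1 j = j).card
          = n * Fintype.card G := by
        rw [Finset.mul_sum, Finset.sum_congr rfl (fun j _ => hstab j), Finset.sum_const,
          Finset.card_univ, Fintype.card_fin, smul_eq_mul]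
      have h3 : ∑ g : G, (Finset.univ.filter fun j : Fin n => g.1 j = j).card
          = Fintype.card G := by
        rw [h1]
        exact Nat.eq_of_mul_eq_mul_left (by omega) h2
      have h4 : ∑ g : G, 1 < ∑ g : G, (Finset.univ.filter fun j : Fin n => g.1 j = j).card := by
        apply Finset.sum_lt_sum
        · intro g _
          obtain ⟨j, hj⟩ := hno g
          exact Finset.card_pos.2 ⟨j, by simp [hj]⟩
        · refine ⟨1, Finset.mem_univ _, ?_⟩
          simp
          exact hn
      rw [h3] at h4
      simp at h4
    have hn1 : (0 : ℝ) < (n : ℝ) - 1 := by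
      have : (1 : ℝ) < n := by exact_mod_cast hn
      linarith
    have hDR : (0 : ℝ) < D := by exact_mod_cast hDpos
    refine ⟨fun s => if s = 1 then 1 else if h : s ∈ G then
      (if der ⟨s, h⟩ then ((n : ℝ) - 1) / D else 0) else 0, ?_, ?_, if_pos rfl, ?_⟩
    · intro s
      dsimp only
      split_ifs
      · exact zero_le_one
      · positivity
      · exact le_rfl
      · exact le_rfl
    · intro s hs
      have h1 : s ≠ 1 := fun h => hs (h ▸ G.one_mem)
      simp [h1, hs]
    · intro i j _
      rw [sum_eq_of_support G (fun s => if s j = i then (if s = 1 then (1 : ℝ) else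
        if h : s ∈ G then (if der ⟨s, h⟩ then ((n : ℝ) - 1) / D else 0) else 0) else 0)]
      · by_cases hij : i = j
        · subst hij
          rw [Finset.sum_eq_single 1]
          · simp
          · intro g _ hg
            have h1 : g.1 ≠ 1 := fun h => hg (Subtype.ext h)
            by_cases h2 : g.1 i = i
            · have h3 : ¬ der g := fun h => h i h2
              have h4 : ¬ der ⟨g.1, g.2⟩ := h3
              simp [h1, h4]
            · simp [h2]
          · simp
        · have h1 : ∀ g : G, (if g.1 j = i then (if g.1 = 1 then (1 : ℝ) else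
              if h : g.1 ∈ G then (if der ⟨g.1, h⟩ then ((n : ℝ) - 1) / D else 0) else 0) else 0)
              = if (der g ∧ g.1 j = i) then ((n : ℝ) - 1) / D else 0 := by
            intro g
            by_cases h2 : g.1 j = i
            · have h3 : g.1 ≠ 1 := by
                intro h
                rw [h] at h2
                exact hij h2.symm
              rw [if_pos h2, if_neg h3, dif_pos g.2]
              by_cases h4 : der g
              · rw [if_pos h4, if_pos ⟨h4, h2⟩]
              · rw [if_neg h4, if_neg (fun h => h4 h.1)]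
            · rw [if_neg h2, if_neg (fun h => h2 h.2)]
          rw [Finset.sum_congr rfl (fun g _ => h1 g), ← Finset.sum_filter, Finset.sum_const,
            nsmul_eq_mul]
          have h2 : (D : ℝ) = ((n : ℝ) - 1) * hit i j := by
            have h3 := hD i j hij
            have h4 : ((n - 1 : ℕ) : ℝ) = (n : ℝ) - 1 := by
              rw [Nat.cast_sub hn.le, Nat.cast_one]
            rw [← h4]
            exact_mod_cast h3
          show (hit i j : ℝ) * (((n : ℝ) - 1) / D) = 1
          rw [← mul_div_assoc, mul_comm, ← h2]
          exact div_self hDR.ne'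
      · intro s hs
        have h1 : s ≠ 1 := fun h => hs (h ▸ G.one_mem)
        simp [h1, hs]

end Pool.Agent.RepPoly
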