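import Pool.Agent.RepPoly.Marg
import Pool.Agent.RepPoly.Perm

set_option autoImplicit false

open Matrix

namespace Pool.Agent.RepPoly.MarginalPolytopes

open Pool.Agent.RepPoly

/-- The points permuted by a product of groups: pairs of a set `e` of coordinates in the family
`E` and a choice of elements for the coordinates in `e`. -/
abbrev Pts {n : ℕ} (K : Fin n → Type) (E : Finset (Finset (Fin n))) : Type :=
  Σ e : {e // e ∈ E}, ∀ i : {i // i ∈ e.1}, K i.1

/-- The action of the product group on `Pts`: an element `x` of the product multiplies the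
chosen elements of `e` from the left by the coordinates of `x` in `e`. -/
def act {n : ℕ} (K : Fin n → Type) [∀ i, Group (K i)] (E : Finset (Finset (Fin n))) :
    (∀ i, K i) →* Equiv.Perm (Pts K E) where
  toFun x :=
    { toFun := fun p => ⟨p.1, fun i => x i.1 * p.2 i⟩
      invFun := fun p => ⟨p.1, fun i => (x i.1)⁻¹ * p.2 i⟩
      left_inv := by
        rintro ⟨e, y⟩
        simp
      right_inv := by
        rintro ⟨e, y⟩
        simp }
  map_one' := by
    ext ⟨e, y⟩ <;> simp
  map_mul' x y := by
    ext ⟨e, z⟩ <;> simp [mul_assoc]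

/-- The permutation group on `Fin d` given by the action `act`, once the points are numbered
by `w`. -/
def margGroup {n d : ℕ} (K : Fin n → Type) [∀ i, Group (K i)] (E : Finset (Finset (Fin n)))
    (w : Pts K E ≃ Fin d) : Subgroup (Equiv.Perm (Fin d)) :=
  (w.permCongrHom.toMonoidHom.comp (act K E)).range

/-- `P` is, up to numbering of the points, the permutation group of a product of finite groups
`K i` acting on the disjoint union over `e` in `E` of the products of the `K i` with `i` in `e`,
where the family `E` is nonempty and covers all coordinates, and the product of the orders of the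
`K i` with `i` outside `e` is the same for all `e` in `E`. -/
def IsMarginal {d : ℕ} (P : Subgroup (Equiv.Perm (Fin d))) : Prop :=
  ∃ (n : ℕ) (K : Fin n → Type) (_ : ∀ i, Group (K i)) (_ : ∀ i, Fintype (K i))
    (E : Finset (Finset (Fin n))) (M : ℕ) (w : Pts K E ≃ Fin d),
    E.Nonempty ∧ (∀ i, ∃ e ∈ E, i ∈ e) ∧ (∀ e ∈ E, ∏ i ∈ eᶜ, Fintype.card (K i) = M) ∧
    P = margGroup K E w

lemma ext_of_marginal {d : ℕ} (P : Subgroup (Equiv.Perm (Fin d))) (hP : IsMarginal P) :
    ∃ m, Ext (coef (permGroup P)) m := by
  classical
  obtain ⟨n, K, hK1, hK2, E, M, w, hE, hcov, hM, rfl⟩ := hP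
  let ψ : (∀ i, K i) →* Equiv.Perm (Fin d) := w.permCongrHom.toMonoidHom.comp (act K E)
  let ρ : (∀ i, K i) →* GL (Fin d) ℝ := (permMat d).toHomUnits.comp ψ
  have hψ : ∀ x (e : {e // e ∈ E}) (y : ∀ i : {i // i ∈ e.1}, K i.1),
      ψ x (w ⟨e, y⟩) = w ⟨e, fun i => x i.1 * y i⟩ := by
    intro x e y
    show w (act K E x (w.symm (w ⟨e, y⟩))) = _
    rw [Equiv.symm_apply_apply]
    rfl
  have hinj : Function.Injective ψ := by
    intro x x' h
    funext i
    obtain ⟨e, he, hi⟩ := hcov i
    have h1 := congrArg (fun s : Equiv.Perm (Fin d) => s (w ⟨⟨e, he⟩, fun _ => 1⟩)) h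
    simp only [hψ] at h1
    have h2 := w.injective h1
    rw [Sigma.mk.injEq] at h2
    have h3 := congrFun (eq_of_heq h2.2) ⟨i, hi⟩
    simpa using h3
  have hinj' : Function.Injective ρ := (permMat_injective d).comp hinj
  have hrange : ρ.range = permGroup (margGroup K E w) := by
    show (((permMat d).toHomUnits.comp ψ)).range = _
    rw [MonoidHom.range_comp]
    rfl
  have hentry : ∀ x i j, (ρ x : Matrix (Fin d) (Fin d) ℝ) i j = if ψ x j = i then 1 else 0 :=
    fun x i j => rfl
  have hcf : cf ρ = VE (K := K) (E : Set (Finset (Fin n))) := by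
    apply le_antisymm
    · rw [cf_le_iff]
      constructor
      · obtain ⟨e, he⟩ := hE
        exact Submodule.subset_span ⟨e, he, fun x y _ => rfl⟩
      · intro a b
        obtain ⟨⟨e, y⟩, rfl⟩ := w.surjective a
        obtain ⟨⟨e', y'⟩, rfl⟩ := w.surjective b
        by_cases hee : e' = e
        · subst hee
          refine Submodule.subset_span ⟨e'.1, e'.2, ?_⟩
          intro x x' hxx
          simp only [hentry, hψ]
          have h1 : (fun i : {i // i ∈ e'.1} => x i.1 * y' i) = fun i => x' i.1 * y' i := by
            funext i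
            rw [hxx i.1 i.2]
          rw [h1]
        · have h1 : (fun x => (ρ x : Matrix (Fin d) (Fin d) ℝ) (w ⟨e, y⟩) (w ⟨e', y'⟩)) = 0 := by
            funext x
            rw [hentry, hψ, if_neg, Pi.zero_apply]
            intro h2
            have h3 := w.injective h2
            rw [Sigma.mk.injEq] at h3
            exact hee h3.1
          rw [h1]
          exact Submodule.zero_mem _
    · rw [VE, Submodule.span_le]
      rintro f ⟨e, he, hf⟩
      have he' : e ∈ E := he
      let w0 : (∀ i : {i // i ∈ e}, K i.1) → Fin d := fun y => w ⟨⟨e, he'⟩, y⟩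
      let ext : (∀ i : {i // i ∈ e}, K i.1) → (∀ i, K i) := fun y i =>
        if h : i ∈ e then y ⟨i, h⟩ else 1
      have h1 : f = ∑ y : (∀ i : {i // i ∈ e}, K i.1),
          f (ext y) • fun x => (ρ x : Matrix (Fin d) (Fin d) ℝ) (w0 y) (w0 fun _ => 1) := by
        funext x
        rw [Finset.sum_apply, Finset.sum_eq_single (fun i : {i // i ∈ e} => x i.1)]
        · simp only [Pi.smul_apply, hentry, w0, hψ, mul_one, smul_eq_mul]
          rw [if_pos trivial, mul_one]
          apply hf
          intro i hi
          simp [ext, hi]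
        · intro y _ hy
          simp only [Pi.smul_apply, hentry, w0, hψ, mul_one, smul_eq_mul]
          rw [if_neg, mul_zero]
          intro h2
          have h3 := w.injective h2
          rw [Sigma.mk.injEq] at h3
          exact hy (eq_of_heq h3.2).symm
        · intro h
          exact absurd (Finset.mem_univ _) h
      rw [SetLike.mem_coe, h1]
      exact Submodule.sum_mem _ fun y _ => Submodule.smul_mem _ _ (entry_mem_cf ρ _ _)
  have hMpos : 1 ≤ M := by
    obtain ⟨e, he⟩ := hE
    rw [← hM e he]
    exact Finset.prod_pos fun i _ => Fintype.card_pos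
  have hco : ∀ e ∈ (E : Set (Finset (Fin n))), co K e = M := by
    intro e he
    rw [← hM e he, co]
    rw [← Finset.prod_compl_mul_prod e]
    rw [Finset.prod_congr rfl (fun i hi => if_neg (Finset.mem_compl.1 hi)),
      Finset.prod_congr rfl (fun i (hi : i ∈ e) => if_pos hi), Finset.prod_const_one, mul_one]
  refine ⟨M, ?_⟩
  rw [← hrange]
  apply Ext.range hinj'
  rw [hcf]
  exact ext_VE K _ M hMpos hco

/-- Every combinatorial isomorphism between the representation polytopes of two groups of this
kind is affine. -/
theorem result : ∀ (d e : ℕ) (P : Subgroup (Equiv.Perm (Fin d)))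
    (Q : Subgroup (Equiv.Perm (Fin e))), IsMarginal P → IsMarginal Q →
    ∀ σ : permGroup P ≃ permGroup Q,
      CombIso (permGroup P) (permGroup Q) σ → AffIso (permGroup P) (permGroup Q) σ := by
  intro d e P Q hP hQ σ hσ
  have hfin : ∀ (k : ℕ) (K : Subgroup (Equiv.Perm (Fin k))), Finite (permGroup K) := by
    intro k K
    have h : Function.Surjective (fun s : K => (⟨(permMat k).toHomUnits s.1,
        Subgroup.mem_map_of_mem _ s.2⟩ : permGroup K)) := by
      rintro ⟨_, s, hs, rfl⟩
      exact ⟨⟨s, hs⟩, rfl⟩
    exact Finite.of_surjective _ h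
  have := hfin d P
  have := hfin e Q
  obtain ⟨a, ha⟩ := ext_of_marginal P hP
  obtain ⟨b, hb⟩ := ext_of_marginal Q hQ
  exact affIso_of_combIso ha hb σ hσ

end Pool.Agent.RepPoly.MarginalPolytopes
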