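import Pool.Agent.RepPoly.GT3
import Pool.Agent.RepPoly.LA

set_option autoImplicit false

namespace Pool.Agent.RepPoly

/-- No invariant subspaces except `0` and the whole space. -/
def Irr {Γ V : Type} [Group Γ] [AddCommGroup V] [Module ℚ V]
    (ρ : Γ →* Module.End ℚ V) : Prop :=
  ∀ W : Submodule ℚ V, (∀ g, ∀ w ∈ W, ρ g w ∈ W) → W = ⊥ ∨ W = ⊤

/-- A vector and a functional with only two values on the orbit. -/
def FlatEx {Γ V : Type} [Group Γ] [AddCommGroup V] [Module ℚ V]
    (ρ : Γ →* Module.End ℚ V) (p : ℕ) : Prop :=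
  ∃ (v : V) (lam : V →ₗ[ℚ] ℚ), ∀ g, lam (ρ g v) = - (1 / (p : ℚ)) ∨
    lam (ρ g v) = 1 - 1 / (p : ℚ)

section

variable {Γ V : Type} [Group Γ] [AddCommGroup V] [Module ℚ V]

/-- Elements of `⟨z⟩` have no fixed vectors. -/
lemma nofix_of_mem {p : ℕ} (hp : p.Prime) (ρ : Γ →* Module.End ℚ V) {z : Γ} (hz1 : z ≠ 1)
    (hzp : z ^ p = 1) (hfix : ∀ v, ρ z v = v → v = 0) {c : Γ} (hc : c ∈ Subgroup.zpowers z)
    (hc1 : c ≠ 1) : ∀ v, ρ c v = v → v = 0 := by
  have : Fact p.Prime := ⟨hp⟩
  intro v hv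
  apply hfix
  have hord : orderOf z = p := orderOf_eq_prime hzp hz1
  have hcp : orderOf c = p := by
    apply orderOf_eq_prime _ hc1
    obtain ⟨k, rfl⟩ := hc
    dsimp only
    rw [← zpow_natCast, ← zpow_mul, mul_comm, zpow_mul, zpow_natCast, hzp, one_zpow]
  -- `z` is a power of `c`
  have hzc : z ∈ Subgroup.zpowers c := by
    have h1 : Subgroup.zpowers c ≤ Subgroup.zpowers z := by
      rw [Subgroup.zpowers_le]; exact hc
    have hfin : (Subgroup.zpowers z : Set Γ).Finite := by
      have h0 : 0 < orderOf z := by rw [hord]; exact hp.pos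
      have := Nat.card_zpowers z
      have h2 : Finite (Subgroup.zpowers z) := Nat.finite_of_card_ne_zero (by rw [this]; omega)
      exact Set.toFinite _
    have h2 : Subgroup.zpowers c = Subgroup.zpowers z := by
      have h3 : (Subgroup.zpowers c : Set Γ) = Subgroup.zpowers z := by
        apply Set.eq_of_subset_of_ncard_le h1 _ hfin
        have e1 : (Subgroup.zpowers z : Set Γ).ncard = p := by
          rw [← Nat.card_coe_set_eq]
          exact (Nat.card_zpowers z).trans hord
        have e2 : (Subgroup.zpowers c : Set Γ).ncard = p := by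
          rw [← Nat.card_coe_set_eq]
          exact (Nat.card_zpowers c).trans hcp
        rw [e1, e2]
      exact SetLike.coe_injective h3
    rw [h2]
    exact Subgroup.mem_zpowers z
  have hcfin : IsOfFinOrder c := by
    rw [← orderOf_pos_iff, hcp]; exact hp.pos
  obtain ⟨k, hk⟩ := (hcfin.mem_powers_iff_mem_zpowers).2 hzc
  have hk' : c ^ k = z := hk
  rw [← hk', map_pow]
  clear hk hk'
  induction k with
  | zero => simp
  | succ k ih => rw [pow_succ, Module.End.mul_apply, hv, ih]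

lemma span_orbit (ρ : Γ →* Module.End ℚ V) (hirr : Irr ρ) {v : V} (hv : v ≠ 0) :
    Submodule.span ℚ (Set.range fun g => ρ g v) = ⊤ := by
  refine (hirr _ ?_).resolve_left ?_
  · intro g w hw
    induction hw using Submodule.span_induction with
    | mem x hx =>
      obtain ⟨h, rfl⟩ := hx
      refine Submodule.subset_span ⟨g * h, ?_⟩
      simp only [map_mul, Module.End.mul_apply]
    | zero => rw [map_zero]; exact Submodule.zero_mem _
    | add x y _ _ hx hy => rw [map_add]; exact Submodule.add_mem _ hx hy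
    | smul c x _ hx => rw [map_smul]; exact Submodule.smul_mem _ _ hx
  · intro h
    apply hv
    have : v ∈ Submodule.span ℚ (Set.range fun g => ρ g v) :=
      Submodule.subset_span ⟨1, by simp⟩
    rw [h] at this
    exact (Submodule.mem_bot ℚ).1 this

/-- The flat functional from a dimension bound. -/
lemma flat_of_index [Finite Γ] [FiniteDimensional ℚ V] {p : ℕ} (hp : p.Prime)
    (ρ : Γ →* Module.End ℚ V) (hirr : Irr ρ) {z : Γ} (hz : ∀ g, g * z = z * g) (hz1 : z ≠ 1)
    (hzp : z ^ p = 1) (hfix : ∀ v, ρ z v = v → v = 0) {v : V} (hv : v ≠ 0) (H : Subgroup Γ)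
    (hH : ∀ h ∈ H, ρ h v = v)
    (hdim : (H ⊔ Subgroup.zpowers z).index * (p - 1) ≤ Module.finrank ℚ V) : FlatEx ρ p := by
  classical
  have : Fact p.Prime := ⟨hp⟩
  have hord : orderOf z = p := orderOf_eq_prime hzp hz1
  let I := Γ ⧸ (H ⊔ Subgroup.zpowers z)
  let _ : Fintype I := Fintype.ofFinite I
  let fr : I → Fin p → V := fun c k => ρ (c.out * z ^ (k : ℕ)) v
  have hZn : (Subgroup.zpowers z).Normal := by
    constructor
    rintro x ⟨k, rfl⟩ g
    dsimp only
    rw [(Commute.zpow_right (hz g : Commute g z) k).eq, mul_assoc, mul_inv_cancel, mul_one]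
    exact Subgroup.zpow_mem _ (Subgroup.mem_zpowers z) k
  have hfr : ∀ g : Γ, ∃ (c : I) (k : Fin p), ρ g v = fr c k := by
    intro g
    let c : I := (g : Γ ⧸ (H ⊔ Subgroup.zpowers z))
    have h1 : c.out⁻¹ * g ∈ H ⊔ Subgroup.zpowers z := by
      rw [← QuotientGroup.eq]
      exact QuotientGroup.out_eq' c
    obtain ⟨h, hh, t, ht, hht⟩ := Subgroup.mem_sup_of_normal_right.1 h1
    have hfin : IsOfFinOrder z := by
      rw [← orderOf_pos_iff, hord]; exact hp.pos
    obtain ⟨k, hk⟩ := (hfin.mem_powers_iff_mem_zpowers).2 ht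
    have hk' : z ^ k = t := hk
    refine ⟨c, ⟨k % p, Nat.mod_lt _ hp.pos⟩, ?_⟩
    have h2 : g = c.out * (z ^ (k % p) * h) := by
      have h3 : z ^ (k % p) = z ^ k := by
        rw [← hord]; exact pow_mod_orderOf z k
      have h4 : h * z ^ k = z ^ k * h := (Commute.pow_right (hz h : Commute h z) k).eq
      rw [h3, ← h4, hk', hht]
      group
    show ρ g v = ρ (c.out * z ^ (k % p)) v
    conv_lhs => rw [h2]
    rw [← mul_assoc, map_mul, Module.End.mul_apply, hH h hh]
  have hspan : ⊤ ≤ Submodule.span ℚ (Set.range fun q : I × Fin p => fr q.1 q.2) := by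
    rw [← span_orbit ρ hirr hv, Submodule.span_le]
    rintro _ ⟨g, rfl⟩
    obtain ⟨c, k, h⟩ := hfr g
    show ρ g v ∈ _
    rw [h]
    exact Submodule.subset_span ⟨(c, k), rfl⟩
  have hsum : ∀ c, ∑ k, fr c k = 0 := by
    intro c
    show ∑ k : Fin p, ρ (c.out * z ^ (k : ℕ)) v = 0
    have h1 : ∀ k : Fin p, ρ (c.out * z ^ (k : ℕ)) v = ρ c.out ((ρ z ^ (k : ℕ)) v) := by
      intro k
      rw [map_mul, map_pow, Module.End.mul_apply]
    rw [Finset.sum_congr rfl (fun k _ => h1 k), ← map_sum,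
      Fin.sum_univ_eq_sum_range (fun k => (ρ z ^ k) v) p,
      geo_sum (ρ z) (by rw [← map_pow, hzp, map_one]) hfix v, map_zero]
  have hdim' : Fintype.card I * (p - 1) ≤ Module.finrank ℚ V := by
    have h1 : Fintype.card I = (H ⊔ Subgroup.zpowers z).index := by
      rw [Subgroup.index, Nat.card_eq_fintype_card]
    rw [h1]
    exact hdim
  obtain ⟨lam, hlam⟩ := exists_functional' fr hspan hsum hp.pos
    (by exact_mod_cast hp.pos.ne') hdim' (fun _ => ⟨0, hp.pos⟩)
  refine ⟨v, lam, fun g => ?_⟩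
  obtain ⟨c, k, h⟩ := hfr g
  rw [h, hlam]
  split_ifs
  · right; rfl
  · left; ring

end

end Pool.Agent.RepPoly
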