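import Pool.Agent.RepPoly.PG

set_option autoImplicit false

namespace Pool.Agent.RepPoly

lemma coe_restrict_pow {V : Type} [AddCommGroup V] [Module ℚ V] (T : Module.End ℚ V)
    (W : Submodule ℚ V) (h : ∀ w ∈ W, T w ∈ W) (i : ℕ) (w : W) :
    (((T.restrict h) ^ i) w : V) = (T ^ i) (w : V) := by
  induction i generalizing w with
  | zero => rfl
  | succ i ih =>
    rw [pow_succ, pow_succ, Module.End.mul_apply, Module.End.mul_apply, ih]
    rfl

section

variable {Γ V : Type} [Group Γ] [AddCommGroup V] [Module ℚ V]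

/-- The dimension bound on subspaces stable under `ρ a`. -/
lemma finrank_sub_ge [FiniteDimensional ℚ V] {p n : ℕ} (hp : p.Prime)
    (ρ : Γ →* Module.End ℚ V) {a : Γ} (hap : (a ^ p ^ n) ^ p = 1)
    (hfix : ∀ v, ρ (a ^ p ^ n) v = v → v = 0) (W : Submodule ℚ V) (hW : ∀ w ∈ W, ρ a w ∈ W)
    (hne : W ≠ ⊥) : p ^ n * (p - 1) ≤ Module.finrank ℚ W := by
  have : Nontrivial W := Submodule.nontrivial_iff_ne_bot.2 hne
  apply finrank_ge ((ρ a).restrict hW) hp
  intro w
  apply Subtype.ext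
  rw [AddSubmonoidClass.coe_finsetSum]
  have h1 : ∀ i, (((((ρ a).restrict hW) ^ p ^ n) ^ i) w : V) = ((ρ (a ^ p ^ n)) ^ i) (w : V) := by
    intro i
    rw [← pow_mul, coe_restrict_pow, map_pow, ← pow_mul]
  rw [Finset.sum_congr rfl (fun i _ => h1 i)]
  exact geo_sum (ρ (a ^ p ^ n)) (by rw [← map_pow, hap, map_one]) hfix w

/-- For `p = 2` an element of order two without fixed vectors acts as `-1`. -/
lemma neg_of_nofix (ρ : Γ →* Module.End ℚ V) {c : Γ} (hc2 : c ^ 2 = 1)
    (hfix : ∀ v, ρ c v = v → v = 0) (v : V) : ρ c v = -v := by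
  have h1 := geo_sum (ρ c) (p := 2) (by rw [← map_pow, hc2, map_one]) hfix v
  rw [Finset.sum_range_succ, Finset.sum_range_one, pow_zero, pow_one, Module.End.one_apply] at h1
  exact (neg_eq_of_add_eq_zero_right h1).symm

/-- An invariant inner product. -/
lemma exists_form [Finite Γ] [FiniteDimensional ℚ V] (ρ : Γ →* Module.End ℚ V) :
    ∃ B : V →ₗ[ℚ] V →ₗ[ℚ] ℚ, (∀ g u w, B (ρ g u) (ρ g w) = B u w) ∧ ∀ u, u ≠ 0 → 0 < B u u := by
  classical
  let _ : Fintype Γ := Fintype.ofFinite Γ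
  let b := Module.finBasis ℚ V
  let B0 : V →ₗ[ℚ] V →ₗ[ℚ] ℚ := ∑ i, (b.coord i).smulRight (b.coord i)
  have hB0 : ∀ u w, B0 u w = ∑ i, b.coord i u * b.coord i w := by
    intro u w
    simp only [B0, LinearMap.sum_apply, LinearMap.smulRight_apply, LinearMap.smul_apply, smul_eq_mul]
  let B : V →ₗ[ℚ] V →ₗ[ℚ] ℚ := ∑ g : Γ, (B0.compl₁₂ (ρ g) (ρ g))
  have hB : ∀ u w, B u w = ∑ g, B0 (ρ g u) (ρ g w) := by
    intro u w
    simp only [B, LinearMap.sum_apply, LinearMap.compl₁₂_apply]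
  refine ⟨B, ?_, ?_⟩
  · intro g u w
    rw [hB, hB, ← Equiv.sum_comp (Equiv.mulRight g) (fun h => B0 (ρ h u) (ρ h w))]
    refine Finset.sum_congr rfl fun h _ => ?_
    simp only [Equiv.coe_mulRight, map_mul, Module.End.mul_apply]
  · intro u hu
    rw [hB]
    have hnn : ∀ x, 0 ≤ B0 x x := by
      intro x
      rw [hB0]
      exact Finset.sum_nonneg fun i _ => mul_self_nonneg _
    apply Finset.sum_pos'
    · intro g _
      exact hnn _
    · refine ⟨1, Finset.mem_univ _, ?_⟩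
      rw [map_one, Module.End.one_apply]
      apply lt_of_le_of_ne (hnn u)
      intro h
      apply hu
      rw [hB0] at h
      have h1 := (Finset.sum_eq_zero_iff_of_nonneg (fun i _ => mul_self_nonneg _)).1 h.symm
      apply b.ext_elem
      intro i
      have h2 := mul_self_eq_zero.1 (h1 i (Finset.mem_univ i))
      rw [map_zero]
      simpa using h2

/-- The positivity argument: in the quaternion case `ρ x v` is not in the span of `ρ (a ^ i) v`. -/
lemma quaternion_step [Finite Γ] [FiniteDimensional ℚ V] (ρ : Γ →* Module.End ℚ V) {a x : Γ}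
    (hxa : x * a * x⁻¹ = a⁻¹) {v : V} (hv : v ≠ 0) (hx2 : ρ (x ^ 2) v = -v)
    (hmem : ρ x v ∈ Submodule.span ℚ (Set.range fun i : ℤ => ρ (a ^ i) v)) : False := by
  obtain ⟨B, hB, hpos⟩ := exists_form ρ
  have hadj : ∀ (g : Γ) u w, B (ρ g u) w = B u (ρ g⁻¹ w) := by
    intro g u w
    rw [← hB g u (ρ g⁻¹ w), ← Module.End.mul_apply, ← map_mul, mul_inv_cancel, map_one,
      Module.End.one_apply]
  have key : ∀ u ∈ Submodule.span ℚ (Set.range fun i : ℤ => ρ (a ^ i) v),
      ∃ Q Q' : Module.End ℚ V, Q v = u ∧ (∀ u' w, B (Q u') w = B u' (Q' w)) ∧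
        (∀ u' w, B (Q' u') w = B u' (Q w)) ∧ ∀ w, ρ x (Q w) = Q' (ρ x w) := by
    intro u hu
    induction hu using Submodule.span_induction with
    | mem y hy =>
      obtain ⟨i, rfl⟩ := hy
      refine ⟨ρ (a ^ i), ρ (a ^ i)⁻¹, rfl, fun u' w => hadj _ _ _, fun u' w => ?_, fun w => ?_⟩
      · rw [hadj, inv_inv]
      · rw [← Module.End.mul_apply, ← Module.End.mul_apply, ← map_mul, ← map_mul]
        have h1 : x * a ^ i = (a ^ i)⁻¹ * x := by
          have h2 : x * a ^ i * x⁻¹ = (a ^ i)⁻¹ := by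
            rw [← conj_zpow, hxa, inv_zpow]
          rw [← h2]; group
        rw [h1]
    | zero =>
      exact ⟨0, 0, by simp, by simp, by simp, by simp⟩
    | add y z _ _ hy hz =>
      obtain ⟨Q, Q', h1, h2, h3, h4⟩ := hy
      obtain ⟨R, R', k1, k2, k3, k4⟩ := hz
      refine ⟨Q + R, Q' + R', by rw [LinearMap.add_apply, h1, k1], fun u' w => ?_, fun u' w => ?_,
        fun w => ?_⟩
      · simp only [LinearMap.add_apply, map_add, h2, k2]
      · simp only [LinearMap.add_apply, map_add, h3, k3]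
      · simp only [LinearMap.add_apply, map_add, h4, k4]
    | smul c y _ hy =>
      obtain ⟨Q, Q', h1, h2, h3, h4⟩ := hy
      refine ⟨c • Q, c • Q', by rw [LinearMap.smul_apply, h1], fun u' w => ?_, fun u' w => ?_,
        fun w => ?_⟩
      · simp only [LinearMap.smul_apply, map_smul, h2]
      · simp only [LinearMap.smul_apply, map_smul, h3]
      · simp only [LinearMap.smul_apply, map_smul, h4]
  obtain ⟨Q, Q', h1, h2, h3, h4⟩ := key _ hmem
  have h5 : ρ (x ^ 2) v = Q' (Q v) := by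
    rw [sq, map_mul, Module.End.mul_apply, ← h1, h4, ← h1]
  have h6 : B v (ρ (x ^ 2) v) = B (Q v) (Q v) := by
    rw [h5, ← h2]
  rw [hx2, map_neg] at h6
  have h7 := hpos v hv
  have h8 : 0 ≤ B (Q v) (Q v) := by
    by_cases h : Q v = 0
    · rw [h, map_zero]
    · exact (hpos _ h).le
  linarith

end

end Pool.Agent.RepPoly
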