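import Pool.Agent.RepPoly.PG2

set_option autoImplicit false

namespace Pool.Agent.RepPoly

section

variable {Γ V : Type} [Group Γ] [AddCommGroup V] [Module ℚ V]

/-- The stabilizer of a vector. -/
def stabV (ρ : Γ →* Module.End ℚ V) (v : V) : Subgroup Γ where
  carrier := {g | ρ g v = v}
  mul_mem' := by
    intro a b ha hb
    show ρ (a * b) v = v
    rw [map_mul, Module.End.mul_apply]
    have ha' : ρ a v = v := ha
    have hb' : ρ b v = v := hb
    rw [hb', ha']
  one_mem' := by
    show ρ 1 v = v
    rw [map_one, Module.End.one_apply]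
  inv_mem' := by
    intro a ha
    show ρ a⁻¹ v = v
    have ha' : ρ a v = v := ha
    conv_lhs => rw [← ha']
    rw [← Module.End.mul_apply, ← map_mul, inv_mul_cancel, map_one, Module.End.one_apply]

lemma mem_zpowers_two {z v : Γ} (hz2 : z ^ 2 = 1) (hv : v ∈ Subgroup.zpowers z) :
    v = 1 ∨ v = z := by
  obtain ⟨k, rfl⟩ := hv
  dsimp only
  have h2 : z ^ (2 : ℤ) = 1 := by exact_mod_cast hz2
  rcases Int.even_or_odd' k with ⟨t, ht | ht⟩
  · left
    rw [ht, zpow_mul, h2, one_zpow]
  · right
    rw [ht, zpow_add, zpow_mul, h2, one_zpow, one_mul, zpow_one]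

lemma finrank_map_inj [FiniteDimensional ℚ V] (f : Module.End ℚ V) (hf : Function.Injective f)
    (U : Submodule ℚ V) : Module.finrank ℚ (U.map f) = Module.finrank ℚ U :=
  (LinearEquiv.finrank_eq (Submodule.equivMapOfInjective f hf U)).symm

theorem flat_of_structure [Finite Γ] [FiniteDimensional ℚ V] [Nontrivial V] {p : ℕ}
    (hp : p.Prime) (ρ : Γ →* Module.End ℚ V) (hinj : Function.Injective ρ) (hirr : Irr ρ)
    {z : Γ} (hz : ∀ g, g * z = z * g) (hz1 : z ≠ 1) (hzp : z ^ p = 1)
    (hfix : ∀ v, ρ z v = v → v = 0) (a : Γ) (n : ℕ) (ha : orderOf a = p ^ (n + 1))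
    (hapz : a ^ (p ^ n) ∈ Subgroup.zpowers z) (hapn1 : a ^ (p ^ n) ≠ 1)
    (hza : z ∈ Subgroup.zpowers a)
    (hself : ∀ g : Γ, a * g = g * a → g ∈ Subgroup.zpowers a)
    (htor : ∀ y ∈ Subgroup.zpowers a, y ^ p = 1 → y ∈ Subgroup.zpowers z)
    (hcase : (∀ g, g ∈ Subgroup.zpowers a) ∨
        (p = 2 ∧ 1 ≤ n ∧ (∃ x, x ∉ Subgroup.zpowers a) ∧
          (∀ x y, x ∉ Subgroup.zpowers a → y ∉ Subgroup.zpowers a →
            x * y ∈ Subgroup.zpowers a) ∧
          ∀ x, x ∉ Subgroup.zpowers a →
            x * a * x⁻¹ = a⁻¹ ∨ x * a * x⁻¹ = a⁻¹ * a ^ (2 ^ n))) : FlatEx ρ p := by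
  classical
  have : Fact p.Prime := ⟨hp⟩
  have hord : orderOf z = p := orderOf_eq_prime hzp hz1
  have hap : (a ^ p ^ n) ^ p = 1 := by
    rw [← pow_mul, ← pow_succ, ← ha, pow_orderOf_eq_one]
  have hfixc := nofix_of_mem hp ρ hz1 hzp hfix hapz hapn1
  have hdimV : p ^ n * (p - 1) ≤ Module.finrank ℚ V := by
    have := finrank_sub_ge hp ρ hap hfixc ⊤ (fun w _ => Submodule.mem_top)
      (Ne.symm bot_ne_top)
    rwa [finrank_top] at this
  rcases hcase with hall | ⟨rfl, hn1, ⟨x0, hx0⟩, hprod, hact⟩
  · obtain ⟨v, hv⟩ := exists_ne (0 : V)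
    refine flat_of_index hp ρ hirr hz hz1 hzp hfix hv ⊥ ?_ ?_
    · intro h hh
      rw [Subgroup.mem_bot] at hh
      rw [hh, map_one, Module.End.one_apply]
    · rw [bot_sup_eq]
      have h1 : Nat.card Γ = p ^ (n + 1) := by
        rw [← ha, ← Nat.card_zpowers, (Subgroup.eq_top_iff' _).2 hall, Subgroup.card_top]
      have h2 := Subgroup.card_mul_index (Subgroup.zpowers z)
      rw [Nat.card_zpowers, hord, h1, pow_succ, mul_comm] at h2
      have h3 := Nat.eq_of_mul_eq_mul_right hp.pos h2
      rw [h3]
      exact hdimV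
  · -- the index of `⟨a⟩` is two
    have hnot : ∀ x b, b ∈ Subgroup.zpowers a → x ∉ Subgroup.zpowers a →
        b * x ∉ Subgroup.zpowers a := by
      intro x b hb hx h
      exact hx ((Subgroup.mul_mem_cancel_left _ hb).1 h)
    have hidx : (Subgroup.zpowers a).index = 2 := by
      rw [Subgroup.index_eq_two_iff]
      refine ⟨x0, fun b => ?_⟩
      by_cases hb : b ∈ Subgroup.zpowers a
      · exact Or.inr ⟨hb, hnot x0 b hb hx0⟩
      · exact Or.inl ⟨hprod b x0 hb hx0, hb⟩
    have hcard : Nat.card Γ = 2 ^ (n + 2) := by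
      have h1 := Subgroup.card_mul_index (Subgroup.zpowers a)
      rw [Nat.card_zpowers, ha, hidx] at h1
      rw [← h1]; ring
    by_cases hinv : ∃ x, x ∉ Subgroup.zpowers a ∧ x ^ 2 = 1
    · obtain ⟨x, hxA, hx2⟩ := hinv
      have hv : ∃ v, ρ x v = v ∧ v ≠ 0 := by
        by_contra hcon
        push Not at hcon
        have h1 := neg_of_nofix ρ hx2 hcon
        apply hxA
        apply hself
        apply hinj
        rw [map_mul, map_mul]
        ext v
        rw [Module.End.mul_apply, Module.End.mul_apply, h1, h1, map_neg]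
      obtain ⟨v, hxv, hv⟩ := hv
      refine flat_of_index hp ρ hirr hz hz1 hzp hfix hv (stabV ρ v) (fun h hh => hh) ?_
      have h1 : 4 ≤ Nat.card (stabV ρ v ⊔ Subgroup.zpowers z : Subgroup Γ) := by
        have hle : Subgroup.zpowers z ≤ stabV ρ v ⊔ Subgroup.zpowers z := le_sup_right
        obtain ⟨k, hk⟩ := Subgroup.card_dvd_of_le hle
        rw [Nat.card_zpowers, hord] at hk
        have hk0 : k ≠ 0 := by
          intro h
          rw [h, mul_zero] at hk
          exact Nat.card_pos.ne' hk
        have hk1 : k ≠ 1 := by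
          intro h
          rw [h, mul_one] at hk
          have h2 : Subgroup.zpowers z = stabV ρ v ⊔ Subgroup.zpowers z := by
            apply Subgroup.eq_of_le_of_card_ge hle
            rw [Nat.card_zpowers, hord, hk]
          have h3 : x ∈ Subgroup.zpowers z := by
            rw [h2]
            exact (le_sup_left : stabV ρ v ≤ _) hxv
          apply hxA
          exact (Subgroup.zpowers_le.2 hza) h3
        omega
      have h2 := Subgroup.card_mul_index (stabV ρ v ⊔ Subgroup.zpowers z)
      rw [hcard] at h2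
      have h3 : (stabV ρ v ⊔ Subgroup.zpowers z).index ≤ 2 ^ n := by
        have h4 : 4 * (stabV ρ v ⊔ Subgroup.zpowers z).index ≤ 4 * 2 ^ n := by
          calc 4 * (stabV ρ v ⊔ Subgroup.zpowers z).index
              ≤ Nat.card (stabV ρ v ⊔ Subgroup.zpowers z : Subgroup Γ) *
                (stabV ρ v ⊔ Subgroup.zpowers z).index := Nat.mul_le_mul_right _ h1
            _ = 4 * 2 ^ n := by rw [h2]; ring
        omega
      exact (Nat.mul_le_mul_right _ h3).trans hdimV
    · push Not at hinv
      -- the quaternion case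
      have hc : a ^ 2 ^ n = z := (mem_zpowers_two hzp hapz).resolve_left hapn1
      obtain ⟨j, hj⟩ := hprod x0 x0 hx0 hx0
      have hj' : a ^ j = x0 ^ 2 := by rw [sq]; exact hj
      have hxx : x0 * a ^ j * x0⁻¹ = a ^ j := by
        rw [hj']; group
      have hconj : x0 * a ^ j * x0⁻¹ = (x0 * a * x0⁻¹) ^ j := (conj_zpow).symm
      rw [hconj] at hxx
      have hx4 : (x0 ^ 2) ^ 2 = 1 := by
        rcases hact x0 hx0 with h1 | h1
        · rw [h1, inv_zpow] at hxx
          rw [← hj', sq]
          exact mul_eq_one_iff_eq_inv.2 hxx.symm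
        · have h2 : a⁻¹ * a ^ 2 ^ n = a ^ ((2 : ℤ) ^ n - 1) := by
            rw [sub_eq_neg_add, zpow_add, zpow_neg_one]
            congr 1
            rw [← zpow_natCast]
            push_cast
            rfl
          have hn2 : n ≠ 1 := by
            intro h
            rw [h] at h1 h2
            rw [h2] at h1
            norm_num at h1
            apply hx0
            apply hself
            exact (mul_inv_eq_iff_eq_mul.1 h1).symm
          obtain ⟨k, rfl⟩ : ∃ k, n = k + 2 := ⟨n - 2, by omega⟩
          rw [h1, h2, ← zpow_mul] at hxx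
          have h3 : a ^ (((2 : ℤ) ^ (k + 2) - 1) * j - j) = 1 := by
            rw [zpow_sub, hxx, mul_inv_cancel]
          have h4 := orderOf_dvd_iff_zpow_eq_one.2 h3
          rw [ha] at h4
          have h5 : ((2 : ℤ) ^ (k + 2)) * 2 ∣ ((2 ^ (k + 1) - 1) * j) * 2 := by
            have e1 : ((2 : ℤ) ^ (k + 2)) * 2 = ((2 ^ (k + 2 + 1) : ℕ) : ℤ) := by
              push_cast; ring
            have e2 : (((2 : ℤ) ^ (k + 1) - 1) * j) * 2 = ((2 : ℤ) ^ (k + 2) - 1) * j - j := by
              ring
            rw [e1, e2]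
            exact h4
          have h6 := Int.dvd_of_mul_dvd_mul_right (by norm_num) h5
          have h7 : IsCoprime ((2 : ℤ) ^ (k + 2)) (2 ^ (k + 1) - 1) := by
            apply IsCoprime.pow_left
            exact ⟨2 ^ k, -1, by ring⟩
          obtain ⟨q, hq⟩ := h7.dvd_of_dvd_mul_left h6
          rw [← hj', ← zpow_natCast, ← zpow_mul, hq]
          have e3 : (2 : ℤ) ^ (k + 2) * q * ((2 : ℕ) : ℤ) = ((2 ^ (k + 2 + 1) : ℕ) : ℤ) * q := by
            push_cast; ring
          rw [e3, zpow_mul, zpow_natCast, ← ha, pow_orderOf_eq_one, one_zpow]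
      have hxz : x0 ^ 2 = z := by
        have h1 : x0 ^ 2 ∈ Subgroup.zpowers z := by
          apply htor _ _ hx4
          rw [← hj']
          exact Subgroup.zpow_mem _ (Subgroup.mem_zpowers a) j
        exact (mem_zpowers_two hzp h1).resolve_left (hinv x0 hx0)
      have hact0 : x0 * a * x0⁻¹ = a⁻¹ := by
        rcases hact x0 hx0 with h1 | h1
        · exact h1
        · exfalso
          have h2 : x0 * a ∉ Subgroup.zpowers a := by
            intro h
            exact hx0 ((Subgroup.mul_mem_cancel_right _ (Subgroup.mem_zpowers a)).1 h)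
          apply hinv _ h2
          have h3 : (x0 * a) ^ 2 = (x0 * a * x0⁻¹) * x0 ^ 2 * a := by
            rw [sq, sq]; group
          have hzz : z * z = 1 := by rw [← sq]; exact hzp
          rw [h3, h1, hc, hxz, mul_assoc a⁻¹, hzz, mul_one, inv_mul_cancel]
      obtain ⟨v, hv⟩ := exists_ne (0 : V)
      have hzneg : ∀ w, ρ z w = -w := neg_of_nofix ρ hzp hfix
      let U : Submodule ℚ V := Submodule.span ℚ (Set.range fun i : ℤ => ρ (a ^ i) v)
      have hxU : ρ x0 v ∉ U := fun h =>
        quaternion_step ρ hact0 hv (by rw [hxz]; exact hzneg v) h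
      have hvU : v ∈ U := Submodule.subset_span ⟨0, by simp⟩
      have hUa : ∀ i : ℤ, ∀ w ∈ U, ρ (a ^ i) w ∈ U := by
        intro i w hw
        induction hw using Submodule.span_induction with
        | mem y hy =>
          obtain ⟨k, rfl⟩ := hy
          refine Submodule.subset_span ⟨i + k, ?_⟩
          dsimp only
          rw [← Module.End.mul_apply, ← map_mul, ← zpow_add]
        | zero => rw [map_zero]; exact Submodule.zero_mem _
        | add x y _ _ hx hy => rw [map_add]; exact Submodule.add_mem _ hx hy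
        | smul c x _ hx => rw [map_smul]; exact Submodule.smul_mem _ _ hx
      have hUne : U ≠ ⊥ := by
        intro h
        rw [h] at hvU
        exact hv ((Submodule.mem_bot ℚ).1 hvU)
      have hUge : 2 ^ n * (2 - 1) ≤ Module.finrank ℚ U :=
        finrank_sub_ge hp ρ hap hfixc U (fun w hw => by
          have := hUa 1 w hw
          rwa [zpow_one] at this) hUne
      have hUle : Module.finrank ℚ U ≤ 2 ^ n := by
        have h1 : U ≤ Submodule.span ℚ (Set.range fun i : Fin (2 ^ n) => ρ (a ^ (i : ℕ)) v) := by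
          rw [Submodule.span_le]
          rintro _ ⟨i, rfl⟩
          have hpos : (0 : ℤ) < 2 ^ n := by positivity
          have h2 : a ^ i = (a ^ 2 ^ n) ^ (i / 2 ^ n) * a ^ ((i % 2 ^ n).toNat) := by
            have e1 : i = 2 ^ n * (i / 2 ^ n) + i % 2 ^ n := (Int.mul_ediv_add_emod i (2 ^ n)).symm
            conv_lhs => rw [e1]
            rw [zpow_add, zpow_mul]
            congr 1
            · congr 1
              rw [← zpow_natCast]
              push_cast
              rfl
            · rw [← zpow_natCast, Int.toNat_of_nonneg (Int.emod_nonneg _ hpos.ne')]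
          have hlt : (i % 2 ^ n).toNat < 2 ^ n := by
            have := Int.emod_lt_of_pos i hpos
            have h3 : ((i % 2 ^ n).toNat : ℤ) < ((2 ^ n : ℕ) : ℤ) := by
              rw [Int.toNat_of_nonneg (Int.emod_nonneg _ hpos.ne')]
              push_cast
              exact this
            exact_mod_cast h3
          have hmem : ρ (a ^ ((i % 2 ^ n).toNat)) v ∈
              Submodule.span ℚ (Set.range fun i : Fin (2 ^ n) => ρ (a ^ (i : ℕ)) v) :=
            Submodule.subset_span ⟨⟨_, hlt⟩, rfl⟩
          show ρ (a ^ i) v ∈ _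
          rw [h2, map_mul, Module.End.mul_apply]
          rcases mem_zpowers_two hzp (Subgroup.zpow_mem _ hapz (i / 2 ^ n)) with h3 | h3
          · rw [h3, map_one, Module.End.one_apply]
            exact hmem
          · rw [h3, hzneg]
            exact Submodule.neg_mem _ hmem
        refine (Submodule.finrank_mono h1).trans ?_
        refine (finrank_range_le_card _).trans ?_
        simp
      have hxinj : Function.Injective (ρ x0) := by
        intro u w huw
        have h1 := congrArg (ρ x0⁻¹) huw
        rwa [← Module.End.mul_apply, ← Module.End.mul_apply, ← map_mul, inv_mul_cancel, map_one,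
          Module.End.one_apply, Module.End.one_apply] at h1
      let X : Submodule ℚ V := U.map (ρ x0)
      have hXrank : Module.finrank ℚ X = Module.finrank ℚ U := finrank_map_inj _ hxinj U
      have hXa : ∀ w ∈ X, ρ a w ∈ X := by
        rintro _ ⟨u, hu, rfl⟩
        refine ⟨ρ (a ^ (-1 : ℤ)) u, hUa (-1) u hu, ?_⟩
        rw [← Module.End.mul_apply, ← Module.End.mul_apply, ← map_mul, ← map_mul]
        congr 2
        rw [zpow_neg_one, ← hact0]
        have h1 : x0⁻¹ * a * x0 = a⁻¹ := by
          have h2 := congrArg (fun t => x0⁻¹ * t⁻¹ * x0) hact0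
          simp only [inv_inv] at h2
          have h3 : x0⁻¹ * (x0 * a * x0⁻¹)⁻¹ * x0 = a⁻¹ := by group
          rw [h3] at h2
          exact h2.symm
        rw [hact0]
        have h4 : x0 * a⁻¹ = x0 * (x0⁻¹ * a * x0) := by rw [h1]
        rw [h4]; group
      by_cases hW : U ⊓ X = ⊥
      · refine flat_of_index hp ρ hirr hz hz1 hzp hfix hv ⊥ ?_ ?_
        · intro h hh
          rw [Subgroup.mem_bot] at hh
          rw [hh, map_one, Module.End.one_apply]
        · rw [bot_sup_eq]
          have h2 := Subgroup.card_mul_index (Subgroup.zpowers z)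
          rw [Nat.card_zpowers, hord, hcard] at h2
          have h3 : (Subgroup.zpowers z).index = 2 ^ (n + 1) := by
            have : 2 * (Subgroup.zpowers z).index = 2 * 2 ^ (n + 1) := by
              rw [h2]; ring
            omega
          rw [h3]
          have h4 := Submodule.finrank_sup_add_finrank_inf_eq U X
          rw [hW, finrank_bot, add_zero, hXrank] at h4
          have h5 : Module.finrank ℚ (U ⊔ X : Submodule ℚ V) ≤ Module.finrank ℚ V :=
            Submodule.finrank_le _
          have h6 : (2 : ℕ) ^ (n + 1) = 2 ^ n + 2 ^ n := by ring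
          omega
      · exfalso
        have h1 : 2 ^ n * (2 - 1) ≤ Module.finrank ℚ (U ⊓ X : Submodule ℚ V) := by
          apply finrank_sub_ge hp ρ hap hfixc _ _ hW
          rintro w ⟨hw1, hw2⟩
          have h2 := hUa 1 w hw1
          rw [zpow_one] at h2
          exact ⟨h2, hXa w hw2⟩
        have h2 : U ⊓ X = U := Submodule.eq_of_le_of_finrank_le inf_le_left (by omega)
        have h3 : U ≤ X := inf_eq_left.1 h2
        have h4 : U = X := Submodule.eq_of_le_of_finrank_le h3 hXrank.le
        apply hxU
        rw [h4]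
        exact ⟨v, hvU, rfl⟩

end

end Pool.Agent.RepPoly
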