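import Pool.Agent.RepPoly.PG3

set_option autoImplicit false

namespace Pool.Agent.RepPoly

section

variable {Γ V : Type} [Group Γ] [AddCommGroup V] [Module ℚ V]

/-- Some `y z ^ i` has a nonzero fixed vector. -/
lemma exists_fixed [Nontrivial V] {p : ℕ} (hp : p.Prime) (ρ : Γ →* Module.End ℚ V)
    {z : Γ} (hz : ∀ g, g * z = z * g) (hz1 : z ≠ 1) (hzp : z ^ p = 1)
    (hfix : ∀ v, ρ z v = v → v = 0) {y : Γ} (hyp : y ^ p = 1) :
    ∃ i : ℕ, ∃ v, v ≠ 0 ∧ ρ (y * z ^ i) v = v := by
  classical
  by_contra hcon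
  push Not at hcon
  have : Fact p.Prime := ⟨hp⟩
  obtain ⟨v, hv⟩ := exists_ne (0 : V)
  have hord : orderOf z = p := orderOf_eq_prime hzp hz1
  have hyz : ∀ i : ℕ, Commute y (z ^ i) := fun i => Commute.pow_right (hz y : Commute y z) i
  have h1 : ∀ i : ℕ, ∑ j ∈ Finset.range p, (ρ (y * z ^ i) ^ j) v = 0 := by
    intro i
    apply geo_sum
    · rw [← map_pow, (hyz i).mul_pow, hyp, one_mul, ← pow_mul, mul_comm, pow_mul, hzp, one_pow,
        map_one]
    · intro w hw
      by_contra hne
      exact hcon i w hne hw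
  have h2 : ∑ i ∈ Finset.range p, ∑ j ∈ Finset.range p, (ρ (y * z ^ i) ^ j) v = 0 :=
    Finset.sum_eq_zero fun i _ => h1 i
  rw [Finset.sum_comm] at h2
  have h3 : ∀ j ∈ Finset.range p, j ≠ 0 →
      ∑ i ∈ Finset.range p, (ρ (y * z ^ i) ^ j) v = 0 := by
    intro j hj hj0
    have h4 : ∀ i, (ρ (y * z ^ i) ^ j) v = ρ (y ^ j) ((ρ (z ^ j) ^ i) v) := by
      intro i
      rw [← map_pow, (hyz i).mul_pow, map_mul, Module.End.mul_apply, ← map_pow, ← pow_mul,
        ← pow_mul, mul_comm i j]
    rw [Finset.sum_congr rfl (fun i _ => h4 i), ← map_sum]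
    have h5 : ∑ i ∈ Finset.range p, (ρ (z ^ j) ^ i) v = 0 := by
      apply geo_sum
      · rw [← map_pow, ← pow_mul, mul_comm, pow_mul, hzp, one_pow, map_one]
      · apply nofix_of_mem hp ρ hz1 hzp hfix
        · exact Subgroup.pow_mem _ (Subgroup.mem_zpowers z) j
        · intro h
          have h6 := orderOf_dvd_of_pow_eq_one h
          rw [hord] at h6
          have h7 := Nat.le_of_dvd (Nat.pos_of_ne_zero hj0) h6
          rw [Finset.mem_range] at hj
          omega
    rw [h5, map_zero]
  rw [Finset.sum_eq_single 0] at h2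
  · simp only [pow_zero, Module.End.one_apply, Finset.sum_const, Finset.card_range] at h2
    have h4 : (p : ℚ) • v = 0 := by
      rw [← h2]
      exact Nat.cast_smul_eq_nsmul ℚ p v
    rcases smul_eq_zero.1 h4 with h5 | h5
    · exact hp.pos.ne' (by exact_mod_cast h5)
    · exact hv h5
  · exact h3
  · intro h
    exact absurd (Finset.mem_range.2 hp.pos) h

/-- The induction step with an element `y` of order `p` that is central modulo `⟨z⟩`. -/
theorem flat_step [Finite Γ] [FiniteDimensional ℚ V] [Nontrivial V] {p : ℕ} (hp : p.Prime)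
    (ρ : Γ →* Module.End ℚ V) (hinj : Function.Injective ρ) (hirr : Irr ρ)
    {z : Γ} (hz : ∀ g, g * z = z * g) (hz1 : z ≠ 1) (hzp : z ^ p = 1)
    (hfix : ∀ v, ρ z v = v → v = 0) {y : Γ} (hyp : y ^ p = 1)
    (hyc : ∀ g, g * y * g⁻¹ * y⁻¹ ∈ Subgroup.zpowers z) (hyz : y ∉ Subgroup.zpowers z)
    (hv0 : ∃ v, v ≠ 0 ∧ ρ y v = v)
    (IH : ∀ (Γ' V' : Type) [Group Γ'] [AddCommGroup V'] [Module ℚ V'] [Finite Γ']
      [FiniteDimensional ℚ V'] [Nontrivial V'] (ρ' : Γ' →* Module.End ℚ V'),
      Nat.card Γ' < Nat.card Γ → IsPGroup p Γ' → Irr ρ' → (∃ g, ρ' g ≠ 1) → FlatEx ρ' p)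
    (hΓ : IsPGroup p Γ) : FlatEx ρ p := by
  classical
  have : Fact p.Prime := ⟨hp⟩
  have hpQ : (p : ℚ) ≠ 0 := by exact_mod_cast hp.pos.ne'
  -- the fixed space of `y`
  let V₁ : Submodule ℚ V := LinearMap.ker (ρ y - 1)
  have hV₁ : ∀ v, v ∈ V₁ ↔ ρ y v = v := by
    intro v
    rw [LinearMap.mem_ker, LinearMap.sub_apply, Module.End.one_apply, sub_eq_zero]
  let N : Subgroup Γ := Subgroup.centralizer {y}
  have hN : ∀ g, g ∈ N ↔ g * y = y * g := by
    intro g
    rw [Subgroup.mem_centralizer_singleton_iff]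
  have hNV : ∀ g ∈ N, ∀ v ∈ V₁, ρ g v ∈ V₁ := by
    intro g hg v hv
    rw [hV₁] at hv ⊢
    rw [← Module.End.mul_apply, ← map_mul, ← (hN g).1 hg, map_mul, Module.End.mul_apply, hv]
  -- the projection
  let e0 : Module.End ℚ V := (p : ℚ)⁻¹ • ∑ j ∈ Finset.range p, ρ (y ^ j)
  have he0 : ∀ w, e0 w = (p : ℚ)⁻¹ • ∑ j ∈ Finset.range p, ρ (y ^ j) w := by
    intro w
    simp only [e0, LinearMap.smul_apply, LinearMap.sum_apply]
  have hshift : ∀ w, ∑ j ∈ Finset.range p, ρ (y ^ (j + 1)) w
      = ∑ j ∈ Finset.range p, ρ (y ^ j) w := by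
    intro w
    have h2 := Finset.sum_range_succ' (fun j => ρ (y ^ j) w) p
    have h3 := Finset.sum_range_succ (fun j => ρ (y ^ j) w) p
    rw [h3] at h2
    rw [hyp, pow_zero] at h2
    exact (add_right_cancel h2).symm
  have he1 : ∀ w, ρ y (e0 w) = e0 w := by
    intro w
    rw [he0, map_smul, map_sum]
    congr 1
    rw [← hshift w]
    refine Finset.sum_congr rfl fun j _ => ?_
    rw [pow_succ', map_mul, Module.End.mul_apply]
  have he2 : ∀ w, e0 (ρ y w) = e0 w := by
    intro w
    rw [he0, he0]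
    congr 1
    rw [← hshift w]
    refine Finset.sum_congr rfl fun j _ => ?_
    rw [pow_succ, map_mul, Module.End.mul_apply]
  have he3 : ∀ w ∈ V₁, e0 w = w := by
    intro w hw
    rw [hV₁] at hw
    have h1 : ∀ j, ρ (y ^ j) w = w := by
      intro j
      induction j with
      | zero => simp
      | succ j ih => rw [pow_succ, map_mul, Module.End.mul_apply, hw, ih]
    rw [he0, Finset.sum_congr rfl (fun j _ => h1 j), Finset.sum_const, Finset.card_range,
      ← Nat.cast_smul_eq_nsmul ℚ, smul_smul, inv_mul_cancel₀ hpQ, one_smul]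
  have he4 : ∀ (c : Γ), (∀ g, g * c = c * g) → ∀ w, e0 (ρ c w) = ρ c (e0 w) := by
    intro c hc w
    rw [he0, he0, map_smul, map_sum]
    congr 1
    refine Finset.sum_congr rfl fun j _ => ?_
    rw [← Module.End.mul_apply, ← Module.End.mul_apply, ← map_mul, ← map_mul, hc]
  let e : V →ₗ[ℚ] V₁ := e0.codRestrict V₁ (fun w => (hV₁ _).2 (he1 w))
  have heq : ∀ w, (e w : V) = e0 w := fun w => rfl
  -- vanishing
  have hzero : ∀ h, h ∉ N → ∀ w ∈ V₁, e (ρ h w) = 0 := by
    intro h hh w hw
    have hcz := hyc h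
    set c : Γ := h * y * h⁻¹ * y⁻¹ with hc_def
    have hc1 : c ≠ 1 := by
      intro h1
      apply hh
      rw [hN]
      have h2 : h * y = c * y * h := by rw [hc_def]; group
      rw [h2, h1, one_mul]
    have hcc : ∀ g, g * c = c * g := by
      obtain ⟨k, hk⟩ := hcz
      have hk' : z ^ k = c := hk
      intro g
      rw [← hk']
      exact (Commute.zpow_right (hz g : Commute g z) k).eq
    have h3 : ρ c (ρ y (ρ h w)) = ρ h w := by
      rw [← Module.End.mul_apply, ← Module.End.mul_apply, ← map_mul, ← map_mul]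
      have h4 : c * y * h = h * y := by rw [hc_def]; group
      rw [h4, map_mul, Module.End.mul_apply, (hV₁ w).1 hw]
    have h5 : ρ c (e0 (ρ h w)) = e0 (ρ h w) := by
      rw [← he2 (ρ h w), ← he4 c hcc, h3, he2]
    apply Subtype.ext
    exact nofix_of_mem hp ρ hz1 hzp hfix hcz hc1 _ h5
  have hV₁ne : V₁ ≠ ⊥ := by
    intro h
    obtain ⟨v, hv, hv'⟩ := hv0
    apply hv
    have : v ∈ V₁ := (hV₁ v).2 hv'
    rw [h] at this
    exact (Submodule.mem_bot ℚ).1 this
  have hNtop : N ≠ ⊤ := by
    intro h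
    rcases hirr V₁ (fun g w hw => hNV g (by rw [h]; exact Subgroup.mem_top g) w hw) with h1 | h1
    · exact hV₁ne h1
    · apply hyz
      have h2 : ρ y = ρ 1 := by
        ext v
        have h3 : v ∈ V₁ := by rw [h1]; exact Submodule.mem_top
        rw [(hV₁ v).1 h3, map_one, Module.End.one_apply]
      rw [hinj h2]
      exact Subgroup.one_mem _
  have hcard : Nat.card N < Nat.card Γ := by
    apply lt_of_le_of_ne (Subgroup.card_le_card_group N)
    intro h
    exact hNtop (Subgroup.eq_top_of_card_eq N h)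
  let ρ' : N →* Module.End ℚ V₁ :=
    { toFun := fun g => (ρ g.1).restrict (hNV g.1 g.2)
      map_one' := by
        ext w
        show ρ (1 : Γ) (w : V) = w
        rw [map_one, Module.End.one_apply]
      map_mul' := by
        intro g h
        ext w
        show ρ ((g * h : N) : Γ) (w : V) = ρ g.1 (ρ h.1 w)
        rw [Subgroup.coe_mul, map_mul, Module.End.mul_apply] }
  have hρ' : ∀ (g : N) (w : V₁), ((ρ' g w : V₁) : V) = ρ g.1 (w : V) := fun g w => rfl
  have hzN : z ∈ N := by
    rw [hN]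
    exact (hz y).symm
  have hirr' : Irr ρ' := by
    intro U hU
    let U' : Submodule ℚ V := Submodule.span ℚ
      (Set.range fun q : Γ × U => ρ q.1 ((q.2 : V₁) : V))
    have hU' : ∀ g, ∀ w ∈ U', ρ g w ∈ U' := by
      intro g w hw
      induction hw using Submodule.span_induction with
      | mem x hx =>
        obtain ⟨⟨h, u⟩, rfl⟩ := hx
        refine Submodule.subset_span ⟨(g * h, u), ?_⟩
        simp only [map_mul, Module.End.mul_apply]
      | zero => rw [map_zero]; exact Submodule.zero_mem _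
      | add x y _ _ hx hy => rw [map_add]; exact Submodule.add_mem _ hx hy
      | smul c x _ hx => rw [map_smul]; exact Submodule.smul_mem _ _ hx
    rcases hirr U' hU' with h | h
    · left
      rw [eq_bot_iff]
      intro u hu
      have h1 : ((u : V₁) : V) ∈ U' := Submodule.subset_span ⟨(1, ⟨u, hu⟩), by simp⟩
      rw [h] at h1
      rw [Submodule.mem_bot]
      exact Subtype.ext ((Submodule.mem_bot ℚ).1 h1)
    · right
      rw [eq_top_iff]
      intro w _
      have hkey : ∀ x ∈ U', e x ∈ U := by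
        intro x hx
        induction hx using Submodule.span_induction with
        | mem x hx =>
          obtain ⟨⟨g, u⟩, rfl⟩ := hx
          dsimp only
          by_cases hg : g ∈ N
          · have h1 : e (ρ g ((u : V₁) : V)) = ρ' ⟨g, hg⟩ (u : V₁) := by
              apply Subtype.ext
              rw [heq, hρ']
              exact he3 _ (hNV g hg _ (u : V₁).2)
            rw [h1]
            exact hU _ _ u.2
          · rw [hzero g hg _ (u : V₁).2]
            exact U.zero_mem
        | zero => rw [map_zero]; exact Submodule.zero_mem _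
        | add x y _ _ hx hy => rw [map_add]; exact Submodule.add_mem _ hx hy
        | smul c x _ hx => rw [map_smul]; exact Submodule.smul_mem _ _ hx
      have h1 := hkey (w : V) (by rw [h]; exact Submodule.mem_top)
      have h2 : e (w : V) = w := Subtype.ext (he3 _ w.2)
      rwa [h2] at h1
  have hnt : Nontrivial V₁ := Submodule.nontrivial_iff_ne_bot.2 hV₁ne
  have hact : ∃ g, ρ' g ≠ 1 := by
    refine ⟨⟨z, hzN⟩, fun h => ?_⟩
    obtain ⟨v, hv, hv'⟩ := hv0
    apply hv
    apply hfix
    have h1 := congrArg (fun T : Module.End ℚ V₁ => ((T ⟨v, (hV₁ v).2 hv'⟩ : V₁) : V)) h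
    exact h1
  obtain ⟨v1, lam1, hlam1⟩ := IH N V₁ ρ' hcard (hΓ.to_subgroup N) hirr' hact
  let _ : Fintype (Γ ⧸ N) := Fintype.ofFinite _
  refine ⟨(v1 : V), ∑ q : Γ ⧸ N, (lam1.comp e).comp (ρ q.out⁻¹), fun g => ?_⟩
  have h1 : (∑ q : Γ ⧸ N, (lam1.comp e).comp (ρ q.out⁻¹)) (ρ g (v1 : V))
      = lam1 (ρ' ⟨(g : Γ ⧸ N).out⁻¹ * g, by
          rw [← QuotientGroup.eq]; exact QuotientGroup.out_eq' _⟩ v1) := by
    rw [LinearMap.sum_apply, Finset.sum_eq_single (g : Γ ⧸ N)]
    · rw [LinearMap.comp_apply, LinearMap.comp_apply]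
      congr 1
      apply Subtype.ext
      have h2 : ρ (g : Γ ⧸ N).out⁻¹ (ρ g (v1 : V)) = ρ ((g : Γ ⧸ N).out⁻¹ * g) (v1 : V) := by
        rw [map_mul, Module.End.mul_apply]
      rw [heq, hρ', h2]
      apply he3
      apply hNV _ _ _ v1.2
      rw [← QuotientGroup.eq]
      exact QuotientGroup.out_eq' _
    · intro q _ hq
      rw [LinearMap.comp_apply, LinearMap.comp_apply, ← Module.End.mul_apply, ← map_mul,
        hzero _ _ _ v1.2, map_zero]
      intro h
      apply hq
      rw [← QuotientGroup.eq] at h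
      rw [← h]
      exact (QuotientGroup.out_eq' q).symm
    · intro h
      exact absurd (Finset.mem_univ _) h
  rw [h1]
  exact hlam1 _

/-- Every irreducible rational representation of a finite `p`-group, not trivial, has a flat
functional. -/
theorem flat_exists {p : ℕ} (hp : p.Prime) : ∀ (m : ℕ) (Γ V : Type) [Group Γ] [AddCommGroup V]
    [Module ℚ V] [Finite Γ] [FiniteDimensional ℚ V] [Nontrivial V] (ρ : Γ →* Module.End ℚ V),
    Nat.card Γ ≤ m → IsPGroup p Γ → Irr ρ → (∃ g, ρ g ≠ 1) → FlatEx ρ p := by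
  intro m
  have : Fact p.Prime := ⟨hp⟩
  induction m with
  | zero =>
    intro Γ V _ _ _ _ _ _ ρ hm
    have := Nat.card_pos (α := Γ)
    omega
  | succ m ih =>
    intro Γ V _ _ _ _ _ _ ρ hm hΓ hirr hact
    by_cases hinj : Function.Injective ρ
    · -- a central element of order `p`
      have hnt : Nontrivial Γ := by
        obtain ⟨g, hg⟩ := hact
        refine ⟨g, 1, ?_⟩
        rintro rfl
        exact hg (map_one ρ)
      have hcnt : Nontrivial (Subgroup.center Γ) := hΓ.center_nontrivial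
      obtain ⟨c, hc1⟩ := exists_ne (1 : Subgroup.center Γ)
      obtain ⟨k, hk⟩ := (IsPGroup.iff_orderOf.1 hΓ) c.1
      have hk0 : k ≠ 0 := by
        intro h
        rw [h, pow_zero, orderOf_eq_one_iff] at hk
        exact hc1 (Subtype.ext hk)
      obtain ⟨k, rfl⟩ := Nat.exists_eq_add_one_of_ne_zero hk0
      let z : Γ := c.1 ^ p ^ k
      have hz : ∀ g, g * z = z * g := by
        intro g
        have h1 : g * c.1 = c.1 * g := (Subgroup.mem_center_iff.1 c.2 g)
        exact (Commute.pow_right (h1 : Commute g c.1) _).eq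
      have hzp : z ^ p = 1 := by
        show (c.1 ^ p ^ k) ^ p = 1
        rw [← pow_mul, ← pow_succ, ← hk, pow_orderOf_eq_one]
      have hz1 : z ≠ 1 := by
        intro h
        have h1 := orderOf_dvd_of_pow_eq_one h
        rw [hk] at h1
        have h2 := Nat.le_of_dvd (pow_pos hp.pos k) h1
        have h3 : p ^ k < p ^ (k + 1) := Nat.pow_lt_pow_right hp.one_lt (Nat.lt_succ_self k)
        omega
      have hfix : ∀ v, ρ z v = v → v = 0 := by
        let W : Submodule ℚ V := LinearMap.ker (ρ z - 1)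
        have hW : ∀ v, v ∈ W ↔ ρ z v = v := by
          intro v
          rw [LinearMap.mem_ker, LinearMap.sub_apply, Module.End.one_apply, sub_eq_zero]
        rcases hirr W (fun g w hw => by
          rw [hW] at hw ⊢
          rw [← Module.End.mul_apply, ← map_mul, ← hz, map_mul, Module.End.mul_apply, hw])
          with h | h
        · intro v hv
          have h1 := (hW v).2 hv
          rw [h] at h1
          exact (Submodule.mem_bot ℚ).1 h1
        · exfalso
          apply hz1
          apply hinj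
          ext v
          have h3 : v ∈ W := by rw [h]; exact Submodule.mem_top
          rw [(hW v).1 h3, map_one, Module.End.one_apply]
      by_cases hE : ∃ y : Γ, y ^ p = 1 ∧ (∀ g, g * y * g⁻¹ * y⁻¹ ∈ Subgroup.zpowers z) ∧
          y ∉ Subgroup.zpowers z
      · obtain ⟨y, hyp, hyc, hyz⟩ := hE
        obtain ⟨i, v, hv, hv'⟩ := exists_fixed hp ρ hz hz1 hzp hfix hyp
        have hcomm : Commute y (z ^ i) := Commute.pow_right (hz y : Commute y z) i
        refine flat_step hp ρ hinj hirr hz hz1 hzp hfix (y := y * z ^ i) ?_ ?_ ?_ ⟨v, hv, hv'⟩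
          ?_ hΓ
        · rw [hcomm.mul_pow, hyp, one_mul, ← pow_mul, mul_comm, pow_mul, hzp, one_pow]
        · intro g
          have h1 : g * (y * z ^ i) * g⁻¹ * (y * z ^ i)⁻¹ = g * y * g⁻¹ * y⁻¹ := by
            have h2 : g⁻¹ * (y * z ^ i)⁻¹ = g⁻¹ * y⁻¹ * (z ^ i)⁻¹ := by
              rw [mul_inv_rev, ← hcomm.inv_inv.eq, mul_assoc]
            have h3 : ∀ t : Γ, z ^ i * t = t * z ^ i := fun t =>
              (Commute.pow_right (hz t : Commute t z) i).eq.symm
            calc g * (y * z ^ i) * g⁻¹ * (y * z ^ i)⁻¹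
                = g * y * (z ^ i * (g⁻¹ * (y * z ^ i)⁻¹)) := by group
              _ = g * y * (z ^ i * (g⁻¹ * y⁻¹ * (z ^ i)⁻¹)) := by rw [h2]
              _ = g * y * ((g⁻¹ * y⁻¹ * (z ^ i)⁻¹) * z ^ i) := by rw [h3]
              _ = g * y * g⁻¹ * y⁻¹ := by group
          rw [h1]
          exact hyc g
        · intro h
          exact hyz ((Subgroup.mul_mem_cancel_right _
            (Subgroup.pow_mem _ (Subgroup.mem_zpowers z) i)).1 h)
        · intro Γ' V' _ _ _ _ _ _ ρ' hcard hpg hirr' hact'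
          exact ih Γ' V' ρ' (by omega) hpg hirr' hact'
      · push Not at hE
        obtain ⟨a, n, h1, h2, h3, h4, h5, h6, h7⟩ := structure_of_nE hΓ hz hz1 hzp hE
        exact flat_of_structure hp ρ hinj hirr hz hz1 hzp hfix a n h1 h2 h3 h4 h5 h6 h7
    · -- pass to the image
      let R := (ρ.toHomUnits).range
      let ρ' : R →* Module.End ℚ V := (Units.coeHom (Module.End ℚ V)).comp R.subtype
      have hval : ∀ g : Γ, ρ' ⟨ρ.toHomUnits g, g, rfl⟩ = ρ g := fun g => rfl
      have hsurj : Function.Surjective (ρ.toHomUnits.rangeRestrict) :=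
        ρ.toHomUnits.rangeRestrict_surjective
      have hRfin : Finite R := Finite.of_surjective _ hsurj
      have hcard : Nat.card R < Nat.card Γ := by
        apply lt_of_le_of_ne (Nat.card_le_card_of_surjective _ hsurj)
        intro h
        apply hinj
        have hb := (Nat.bijective_iff_surjective_and_card (ρ.toHomUnits.rangeRestrict)).2
          ⟨hsurj, h.symm⟩
        intro g g' hgg
        apply hb.1
        apply Subtype.ext
        apply Units.ext
        exact hgg
      have hflat : FlatEx ρ' p := by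
        apply ih R V ρ' (by omega) (hΓ.of_surjective _ hsurj)
        · intro W hW
          apply hirr
          intro g w hw
          have := hW ⟨ρ.toHomUnits g, g, rfl⟩ w hw
          exact this
        · obtain ⟨g, hg⟩ := hact
          exact ⟨⟨ρ.toHomUnits g, g, rfl⟩, hg⟩
      obtain ⟨v, lam, h⟩ := hflat
      exact ⟨v, lam, fun g => h ⟨ρ.toHomUnits g, g, rfl⟩⟩

end

end Pool.Agent.RepPoly
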