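import Pool.Agent.RepPoly.Weights

set_option autoImplicit false

open Matrix

namespace Pool.Agent.RepPoly

/-- `ρ` has no invariant vector in the space of column vectors and no invariant trilinear form,
expressed by the matrix entries. -/
def NoTri {Γ : Type*} [Group Γ] [Fintype Γ] {d : ℕ} (ρ : Γ →* GL (Fin d) ℝ) : Prop :=
  (∀ i j : Fin d, ∑ g : Γ, (ρ g : Matrix (Fin d) (Fin d) ℝ) i j = 0) ∧
  ∀ i j k l a b : Fin d, ∑ g : Γ, (ρ g : Matrix (Fin d) (Fin d) ℝ) i j *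
    (ρ g : Matrix (Fin d) (Fin d) ℝ) k l * (ρ g : Matrix (Fin d) (Fin d) ℝ) a b = 0

lemma third_linear {Γ : Type*} [Group Γ] [Fintype Γ] {d : ℕ} (ρ : Γ →* GL (Fin d) ℝ)
    (h : NoTri ρ) (A : Matrix (Fin d) (Fin d) ℝ) :
    ∑ g : Γ, ∑ i, ∑ j, A i j * (ρ g : Matrix (Fin d) (Fin d) ℝ) i j = 0 := by
  rw [Finset.sum_comm]
  refine Finset.sum_eq_zero fun i _ => ?_
  rw [Finset.sum_comm]
  refine Finset.sum_eq_zero fun j _ => ?_
  rw [← Finset.mul_sum, h.1, mul_zero]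

lemma third_cube {Γ : Type*} [Group Γ] [Fintype Γ] {d : ℕ} (ρ : Γ →* GL (Fin d) ℝ)
    (h : NoTri ρ) (A : Matrix (Fin d) (Fin d) ℝ) :
    ∑ g : Γ, (∑ i, ∑ j, A i j * (ρ g : Matrix (Fin d) (Fin d) ℝ) i j) ^ 3 = 0 := by
  have h1 : ∀ g : Γ, (∑ i, ∑ j, A i j * (ρ g : Matrix (Fin d) (Fin d) ℝ) i j) =
      ∑ p : Fin d × Fin d, A p.1 p.2 * (ρ g : Matrix (Fin d) (Fin d) ℝ) p.1 p.2 := by
    intro g
    rw [Fintype.sum_prod_type]
  have h2 : ∀ g : Γ, (∑ i, ∑ j, A i j * (ρ g : Matrix (Fin d) (Fin d) ℝ) i j) ^ 3 =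
      ∑ p : Fin d × Fin d, ∑ q : Fin d × Fin d, ∑ r : Fin d × Fin d,
        (A p.1 p.2 * A q.1 q.2 * A r.1 r.2) * ((ρ g : Matrix (Fin d) (Fin d) ℝ) p.1 p.2 *
        (ρ g : Matrix (Fin d) (Fin d) ℝ) q.1 q.2 * (ρ g : Matrix (Fin d) (Fin d) ℝ) r.1 r.2) := by
    intro g
    rw [h1, pow_three, Finset.sum_mul_sum, Finset.sum_mul_sum]
    refine Finset.sum_congr rfl fun p _ => ?_
    refine Finset.sum_congr rfl fun q _ => ?_
    rw [Finset.mul_sum]
    refine Finset.sum_congr rfl fun r _ => ?_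
    ring
  rw [Finset.sum_congr rfl (fun g _ => h2 g), Finset.sum_comm]
  refine Finset.sum_eq_zero fun p _ => ?_
  rw [Finset.sum_comm]
  refine Finset.sum_eq_zero fun q _ => ?_
  rw [Finset.sum_comm]
  refine Finset.sum_eq_zero fun r _ => ?_
  rw [← Finset.mul_sum, h.2, mul_zero]

/-- The second moment bound. -/
lemma second_le {Γ : Type*} [Group Γ] [Fintype Γ] {d : ℕ} (ρ : Γ →* GL (Fin d) ℝ)
    (h : NoTri ρ) (f : Γ → ℝ) (hf : f ∈ cf ρ) (h0 : ∀ x, 0 ≤ f x) :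
    ∃ c : ℝ, 0 ≤ c ∧ (∑ x, f x = (Fintype.card Γ : ℝ) * c) ∧
      ∑ x, f x ^ 2 ≤ 2 * (Fintype.card Γ : ℝ) * c ^ 2 := by
  obtain ⟨c, A, hA⟩ := mem_cf.1 hf
  set n : ℝ := (Fintype.card Γ : ℝ) with hn
  have hnpos : 0 < n := by
    rw [hn]
    exact_mod_cast Fintype.card_pos
  set f0 : Γ → ℝ := fun g => ∑ i, ∑ j, A i j * (ρ g : Matrix (Fin d) (Fin d) ℝ) i j with hf0
  have hfg : ∀ g, f g = c + f0 g := hA
  have e1 : ∑ g, f0 g = 0 := third_linear ρ h A
  have e3 : ∑ g, f0 g ^ 3 = 0 := third_cube ρ h A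
  have s1 : ∑ x, f x = n * c := by
    simp only [hfg, Finset.sum_add_distrib, e1, Finset.sum_const, Finset.card_univ,
      nsmul_eq_mul, add_zero]
    rw [← hn]
  set Q : ℝ := ∑ g, f0 g ^ 2 with hQ
  have hQ0 : 0 ≤ Q := Finset.sum_nonneg fun g _ => sq_nonneg _
  have s2 : ∑ x, f x ^ 2 = n * c ^ 2 + Q := by
    have : ∀ x, f x ^ 2 = c ^ 2 + 2 * c * f0 x + f0 x ^ 2 := fun x => by rw [hfg x]; ring
    simp only [this, Finset.sum_add_distrib, Finset.sum_const, Finset.card_univ, nsmul_eq_mul]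
    rw [← Finset.mul_sum, e1, ← hn, ← hQ]
    ring
  have s3 : ∑ x, f x ^ 3 = n * c ^ 3 + 3 * c * Q := by
    have : ∀ x, f x ^ 3 = c ^ 3 + 3 * c ^ 2 * f0 x + 3 * c * f0 x ^ 2 + f0 x ^ 3 :=
      fun x => by rw [hfg x]; ring
    simp only [this, Finset.sum_add_distrib, Finset.sum_const, Finset.card_univ, nsmul_eq_mul]
    rw [← Finset.mul_sum, ← Finset.mul_sum, e1, e3, ← hn, ← hQ]
    ring
  have hc0 : 0 ≤ c := by
    have : 0 ≤ n * c := by
      rw [← s1]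
      exact Finset.sum_nonneg fun x _ => h0 x
    exact nonneg_of_mul_nonneg_right this hnpos
  have hcs : (∑ x, f x ^ 2) ^ 2 ≤ (∑ x, f x) * ∑ x, f x ^ 3 := by
    have h1 := Finset.sum_mul_sq_le_sq_mul_sq Finset.univ (fun x => Real.sqrt (f x))
      (fun x => Real.sqrt (f x) * f x)
    have h2 : ∀ x, Real.sqrt (f x) * (Real.sqrt (f x) * f x) = f x ^ 2 := by
      intro x
      rw [← mul_assoc, Real.mul_self_sqrt (h0 x), sq]
    have h3 : ∀ x, Real.sqrt (f x) ^ 2 = f x := fun x => Real.sq_sqrt (h0 x)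
    have h4 : ∀ x, (Real.sqrt (f x) * f x) ^ 2 = f x ^ 3 := by
      intro x
      rw [mul_pow, Real.sq_sqrt (h0 x)]
      ring
    simp only [h2, h3, h4] at h1
    exact h1
  refine ⟨c, hc0, s1, ?_⟩
  rw [s1, s2, s3] at hcs
  rw [s2]
  -- `Q ^ 2 ≤ n c^2 Q`
  have h5 : Q ^ 2 ≤ n * c ^ 2 * Q := by nlinarith
  rcases hQ0.eq_or_lt with h6 | h6
  · rw [← h6]
    have : 0 ≤ n * c ^ 2 := by positivity
    linarith
  · have h7 : Q ≤ n * c ^ 2 := by
      by_contra hcon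
      push Not at hcon
      nlinarith
    linarith

/-- Extremality from the third moment. -/
theorem ext_of_third {Γ : Type*} [Group Γ] [Fintype Γ] {d : ℕ} (ρ : Γ →* GL (Fin d) ℝ)
    (h : NoTri ρ) (m : ℕ) (hm : 2 * m = Fintype.card Γ)
    (hspan1 : (fun _ => (1 : ℝ)) ∈ Submodule.span ℝ (Flats (cf ρ) m))
    (hspan2 : ∀ k l : Fin d, (fun g => (ρ g : Matrix (Fin d) (Fin d) ℝ) k l) ∈
      Submodule.span ℝ (Flats (cf ρ) m)) : Ext (cf ρ) m := by
  classical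
  have hmR : 2 * (m : ℝ) = Fintype.card Γ := by exact_mod_cast hm
  have hnpos : (0 : ℝ) < Fintype.card Γ := by exact_mod_cast Fintype.card_pos
  refine ⟨?_, ?_, (cf_le_iff ρ _).2 ⟨hspan1, hspan2⟩⟩
  · rintro T ⟨x, hx⟩ ⟨f, hf, h0, hs⟩
    obtain ⟨c, hc, h1, h2⟩ := second_le ρ h f hf h0
    have hfx : 0 < f x := lt_of_le_of_ne (h0 x) (Ne.symm ((hs x).1 hx))
    have hcpos : 0 < c := by
      have : 0 < (Fintype.card Γ : ℝ) * c := by
        rw [← h1]
        exact Finset.sum_pos' (fun y _ => h0 y) ⟨x, Finset.mem_univ _, hfx⟩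
      exact (mul_pos_iff_of_pos_left hnpos).1 this
    have hT : T.ncard = (Finset.univ.filter fun y => f y ≠ 0).card := by
      rw [Set.ncard_eq_toFinset_card']
      congr 1
      ext y
      simp [hs y]
    have h3 := Finset.sum_mul_sq_le_sq_mul_sq (Finset.univ.filter fun y => f y ≠ 0)
      (fun _ => (1 : ℝ)) f
    have h4 : ∑ y ∈ Finset.univ.filter (fun y => f y ≠ 0), f y = ∑ y, f y :=
      Finset.sum_filter_ne_zero _
    have h5 : ∑ y ∈ Finset.univ.filter (fun y => f y ≠ 0), f y ^ 2 = ∑ y, f y ^ 2 := by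
      rw [Finset.sum_filter]
      refine Finset.sum_congr rfl fun y _ => ?_
      by_cases hy : f y = 0
      · simp [hy]
      · simp [hy]
    simp only [one_mul, one_pow, Finset.sum_const, nsmul_eq_mul, mul_one] at h3
    rw [h4, h5, h1, ← hT] at h3
    have h6 : ((Fintype.card Γ : ℝ) * c) ^ 2 ≤ (T.ncard : ℝ) * (2 * (Fintype.card Γ : ℝ) * c ^ 2) :=
      h3.trans (mul_le_mul_of_nonneg_left h2 (Nat.cast_nonneg _))
    rw [← hmR] at h6
    have h7 : (m : ℝ) ≤ T.ncard := by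
      have hm0 : (0 : ℝ) < m := by linarith
      have hmc : 0 < (m : ℝ) * c ^ 2 := by positivity
      nlinarith
    exact_mod_cast h7
  · intro f hf h0 hcard x y hx hy
    obtain ⟨c, hc, h1, h2⟩ := second_le ρ h f hf h0
    have hT : (Finset.univ.filter fun y => f y ≠ 0).card = m := by
      rw [← hcard, Set.ncard_eq_toFinset_card']
      congr 1
      ext y
      simp
    have key : ∑ z ∈ Finset.univ.filter (fun z => f z ≠ 0), (f z - 2 * c) ^ 2 ≤ 0 := by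
      have h3 : ∀ z, (f z - 2 * c) ^ 2 = f z ^ 2 - 4 * c * f z + 4 * c ^ 2 := fun z => by ring
      simp only [h3, Finset.sum_add_distrib, Finset.sum_sub_distrib]
      have h4 : ∑ y ∈ Finset.univ.filter (fun y => f y ≠ 0), f y = ∑ y, f y :=
        Finset.sum_filter_ne_zero _
      have h5 : ∑ y ∈ Finset.univ.filter (fun y => f y ≠ 0), f y ^ 2 = ∑ y, f y ^ 2 := by
        rw [Finset.sum_filter]
        refine Finset.sum_congr rfl fun y _ => ?_
        by_cases hy : f y = 0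
        · simp [hy]
        · simp [hy]
      rw [← Finset.mul_sum, h4, h5, h1, Finset.sum_const, hT, nsmul_eq_mul]
      rw [← hmR] at h2 ⊢
      nlinarith
    have hz : ∀ z, f z ≠ 0 → f z = 2 * c := by
      intro z hz
      have h3 := (Finset.sum_eq_zero_iff_of_nonneg (fun z _ => sq_nonneg (f z - 2 * c))).1
        (le_antisymm key (Finset.sum_nonneg fun z _ => sq_nonneg _)) z (by simp [hz])
      have h4 := pow_eq_zero_iff (two_ne_zero) |>.1 h3
      linarith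
    rw [hz x hx, hz y hy]

end Pool.Agent.RepPoly
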