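import Pool.Agent.RepPoly.PG5
import Pool.Agent.RepPoly.Hull
import Pool.Agent.RepPoly.Third

set_option autoImplicit false

open Matrix

namespace Pool.Agent.RepPoly

/-- Rational functions whose real version lies in a real space of functions. -/
def ratPart {Γ : Type} (S : Submodule ℝ (Γ → ℝ)) : Submodule ℚ (Γ → ℚ) where
  carrier := {φ | (fun g => (φ g : ℝ)) ∈ S}
  add_mem' := by
    intro a b ha hb
    have h : (fun g => (((a + b) g : ℚ) : ℝ)) = (fun g => (a g : ℝ)) + (fun g => (b g : ℝ)) := by
      funext g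
      simp
    show (fun g => (((a + b) g : ℚ) : ℝ)) ∈ S
    rw [h]
    exact S.add_mem ha hb
  zero_mem' := by
    have h : (fun g : Γ => (((0 : Γ → ℚ) g : ℚ) : ℝ)) = 0 := by
      funext g
      simp
    show (fun g : Γ => (((0 : Γ → ℚ) g : ℚ) : ℝ)) ∈ S
    rw [h]
    exact S.zero_mem
  smul_mem' := by
    intro c a ha
    have h : (fun g => (((c • a) g : ℚ) : ℝ)) = (c : ℝ) • (fun g => (a g : ℝ)) := by
      funext g
      simp
    show (fun g => (((c • a) g : ℚ) : ℝ)) ∈ S
    rw [h]
    exact S.smul_mem _ ha

lemma mem_ratPart {Γ : Type} {S : Submodule ℝ (Γ → ℝ)} {φ : Γ → ℚ} :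
    φ ∈ ratPart S ↔ (fun g => (φ g : ℝ)) ∈ S := Iff.rfl

section sub

variable {Γ V : Type} [Group Γ] [AddCommGroup V] [Module ℚ V]

/-- `W` is invariant. -/
def Inv (ρ : Γ →* Module.End ℚ V) (W : Submodule ℚ V) : Prop := ∀ g, ∀ w ∈ W, ρ g w ∈ W

/-- The representation on an invariant subspace. -/
def subRep (ρ : Γ →* Module.End ℚ V) (W : Submodule ℚ V) (hW : Inv ρ W) :
    Γ →* Module.End ℚ W where
  toFun g := (ρ g).restrict (hW g)
  map_one' := by
    ext w
    show ρ (1 : Γ) (w : V) = w
    rw [map_one, Module.End.one_apply]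
  map_mul' := by
    intro g h
    ext w
    show ρ (g * h) (w : V) = ρ g (ρ h w)
    rw [map_mul, Module.End.mul_apply]

lemma subRep_coe (ρ : Γ →* Module.End ℚ V) (W : Submodule ℚ V) (hW : Inv ρ W) (g : Γ) (w : W) :
    ((subRep ρ W hW g w : W) : V) = ρ g (w : V) := rfl

/-- An equivariant projection onto an invariant subspace. -/
lemma exists_proj [Finite Γ] (ρ : Γ →* Module.End ℚ V) (M : Submodule ℚ V) (hM : Inv ρ M) :
    ∃ π : Module.End ℚ V, (∀ v, π v ∈ M) ∧ (∀ m ∈ M, π m = m) ∧
      ∀ g v, π (ρ g v) = ρ g (π v) := by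
  classical
  let _ : Fintype Γ := Fintype.ofFinite Γ
  obtain ⟨N, hMN⟩ := Submodule.exists_isCompl M
  let π0 : V →ₗ[ℚ] V := M.subtype.comp (M.projectionOnto N hMN)
  have h01 : ∀ v, π0 v ∈ M := fun v => Submodule.coe_mem _
  have h02 : ∀ m ∈ M, π0 m = m := by
    intro m hm
    have := Submodule.projectionOnto_apply_left hMN ⟨m, hm⟩
    exact congrArg Subtype.val this
  let π : Module.End ℚ V := ((Fintype.card Γ : ℚ)⁻¹) • ∑ g : Γ, (ρ g ∘ₗ π0 ∘ₗ ρ g⁻¹)
  have hπ : ∀ v, π v = ((Fintype.card Γ : ℚ)⁻¹) • ∑ g : Γ, ρ g (π0 (ρ g⁻¹ v)) := by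
    intro v
    simp only [π, LinearMap.smul_apply, LinearMap.sum_apply, LinearMap.comp_apply]
  have hc : (Fintype.card Γ : ℚ) ≠ 0 := by
    exact_mod_cast Fintype.card_ne_zero
  refine ⟨π, ?_, ?_, ?_⟩
  · intro v
    rw [hπ]
    exact M.smul_mem _ (M.sum_mem fun g _ => hM g _ (h01 _))
  · intro m hm
    have h1 : ∀ g : Γ, ρ g (π0 (ρ g⁻¹ m)) = m := by
      intro g
      rw [h02 _ (hM g⁻¹ m hm), ← Module.End.mul_apply, ← map_mul, mul_inv_cancel, map_one,
        Module.End.one_apply]
    rw [hπ, Finset.sum_congr rfl (fun g _ => h1 g), Finset.sum_const, Finset.card_univ,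
      ← Nat.cast_smul_eq_nsmul ℚ, smul_smul, inv_mul_cancel₀ hc, one_smul]
  · intro g v
    rw [hπ, hπ, map_smul, map_sum, ← Equiv.sum_comp (Equiv.mulLeft g)
      (fun h => ρ h (π0 (ρ h⁻¹ (ρ g v))))]
    congr 1
    refine Finset.sum_congr rfl fun h _ => ?_
    rw [Equiv.coe_mulLeft]
    dsimp only
    have e1 : ρ (g * h)⁻¹ (ρ g v) = ρ h⁻¹ v := by
      rw [← Module.End.mul_apply, ← map_mul, _root_.mul_inv_rev, mul_assoc, inv_mul_cancel, mul_one]
    rw [e1, map_mul, Module.End.mul_apply]

/-- A property of vectors that is linear, and holds on irreducible subspaces, holds everywhere. -/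
lemma all_of_irreducible [Finite Γ] [FiniteDimensional ℚ V] (ρ : Γ →* Module.End ℚ V)
    (W : Submodule ℚ V)
    (h : ∀ M : Submodule ℚ V, ∀ hM : Inv ρ M, M ≠ ⊥ → Irr (subRep ρ M hM) → M ≤ W) :
    W = ⊤ := by
  classical
  have key : ∀ n : ℕ, ∀ U : Submodule ℚ V, Inv ρ U → Module.finrank ℚ U ≤ n → U ≤ W := by
    intro n
    induction n with
    | zero =>
      intro U _ hU
      have : U = ⊥ := Submodule.finrank_eq_zero.1 (by omega)
      rw [this]
      exact bot_le
    | succ n ih =>
      intro U hUinv hU
      by_cases hU0 : U = ⊥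
      · rw [hU0]; exact bot_le
      -- a minimal invariant subspace
      have hex : ∃ r : ℕ, ∃ M : Submodule ℚ V, Inv ρ M ∧ M ≤ U ∧ M ≠ ⊥ ∧
          Module.finrank ℚ M = r := ⟨_, U, hUinv, le_rfl, hU0, rfl⟩
      obtain ⟨M, hMinv, hMU, hM0, hMr⟩ := Nat.find_spec hex
      have hMirr : Irr (subRep ρ M hMinv) := by
        intro X hX
        by_contra hcon
        push Not at hcon
        obtain ⟨hX0, hX1⟩ := hcon
        let X' : Submodule ℚ V := X.map M.subtype
        have hX'inv : Inv ρ X' := by
          rintro g _ ⟨x, hx, rfl⟩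
          exact ⟨subRep ρ M hMinv g x, hX g x hx, rfl⟩
        have hX'M : X' < M := by
          apply lt_of_le_of_ne
          · rintro _ ⟨x, _, rfl⟩
            exact x.2
          · intro heq
            apply hX1
            rw [eq_top_iff]
            intro x _
            have hx : (x : V) ∈ X' := by rw [heq]; exact x.2
            obtain ⟨y, hy, hyx⟩ := hx
            have : y = x := Subtype.ext hyx
            rwa [this] at hy
        have hX'0 : X' ≠ ⊥ := by
          intro heq
          apply hX0
          rw [eq_bot_iff]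
          intro x hx
          have hx' : (x : V) ∈ X' := ⟨x, hx, rfl⟩
          rw [heq, Submodule.mem_bot] at hx'
          rw [Submodule.mem_bot]
          exact Subtype.ext hx'
        have hlt := Submodule.finrank_lt_finrank_of_lt hX'M
        rw [hMr] at hlt
        exact Nat.find_min hex hlt ⟨X', hX'inv, hX'M.le.trans hMU, hX'0, rfl⟩
      have hMW := h M hMinv hM0 hMirr
      obtain ⟨π, hπ1, hπ2, hπ3⟩ := exists_proj ρ M hMinv
      let U' : Submodule ℚ V := U ⊓ LinearMap.ker π
      have hU'inv : Inv ρ U' := by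
        rintro g u ⟨hu1, hu2⟩
        refine ⟨hUinv g u hu1, ?_⟩
        rw [SetLike.mem_coe, LinearMap.mem_ker] at hu2 ⊢
        rw [hπ3, hu2, map_zero]
      have hU'lt : U' < U := by
        apply lt_of_le_of_ne inf_le_left
        intro heq
        apply hM0
        rw [eq_bot_iff]
        intro m hm
        have h1 : m ∈ U' := by
          have h0 := hMU hm
          rw [← heq] at h0
          exact h0
        have h2 := h1.2
        rw [SetLike.mem_coe, LinearMap.mem_ker, hπ2 m hm] at h2
        rw [Submodule.mem_bot]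
        exact h2
      have hU'W := ih U' hU'inv (by
        have := Submodule.finrank_lt_finrank_of_lt hU'lt
        omega)
      intro u hu
      have h1 : u = π u + (u - π u) := by abel
      rw [h1]
      refine W.add_mem (hMW (hπ1 u)) (hU'W ⟨U.sub_mem hu (hMU (hπ1 u)), ?_⟩)
      rw [SetLike.mem_coe, LinearMap.mem_ker, map_sub, hπ2 _ (hπ1 u), sub_self]
  rw [eq_top_iff]
  exact key _ ⊤ (fun _ _ _ => Submodule.mem_top) le_rfl

end sub

open Classical in
/-- The indicator functions of the faces with `|G|/p` vertices span, for rational `p`-groups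
without nonzero invariant vectors. -/
theorem span_of_rational_pgroup {d p : ℕ} (hp : p.Prime) (G : Subgroup (GL (Fin d) ℚ)) [Fintype G]
    (hG : IsPGroup p G) (hd : 0 < d)
    (hsumR : ∑ g : G, (repR G g : Matrix (Fin d) (Fin d) ℝ) = 0) :
    ∃ m : ℕ, Fintype.card G = p * m ∧
      (fun _ => (1 : ℝ)) ∈ Submodule.span ℝ (Flats (cf (repR G)) m) ∧
      ∀ k l : Fin d, (fun g => (repR G g : Matrix (Fin d) (Fin d) ℝ) k l) ∈
        Submodule.span ℝ (Flats (cf (repR G)) m) := by
  have hpf : Fact p.Prime := ⟨hp⟩
  have hpR : (1 : ℝ) < p := by exact_mod_cast hp.one_lt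
  have hpR0 : (0 : ℝ) < p := by linarith
  have hsumQ : ∀ w : Fin d → ℚ, ∑ g : G, repQ G g w = 0 := by
    have h1 : ∑ g : G, (g.1 : Matrix (Fin d) (Fin d) ℚ) = 0 := by
      ext i j
      have h2 := congrFun (congrFun hsumR i) j
      rw [Matrix.sum_apply] at h2
      simp only [repR_apply] at h2
      rw [Matrix.sum_apply]
      have h3 : ((∑ g : G, (g.1 : Matrix (Fin d) (Fin d) ℚ) i j : ℚ) : ℝ) = 0 := by
        push_cast
        exact h2
      exact_mod_cast h3
    intro w
    have h2 : ∑ g : G, repQ G g w = (∑ g : G, (g.1 : Matrix (Fin d) (Fin d) ℚ)) *ᵥ w := by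
      rw [Matrix.sum_mulVec]
      rfl
    rw [h2, h1, Matrix.zero_mulVec]
  have hV : Nontrivial (Fin d → ℚ) := by
    have : Nonempty (Fin d) := ⟨⟨0, hd⟩⟩
    infer_instance
  -- the size of the flats
  have hnt : Nontrivial G := by
    by_contra hcon
    rw [not_nontrivial_iff_subsingleton] at hcon
    obtain ⟨w, hw⟩ := exists_ne (0 : Fin d → ℚ)
    apply hw
    have h1 := hsumQ w
    have h2 : (Finset.univ : Finset G) = {1} := by
      ext g
      simp [Subsingleton.elim g 1]
    rw [h2, Finset.sum_singleton, map_one, Module.End.one_apply] at h1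
    exact h1
  have hpdvd : p ∣ Fintype.card G := by
    rw [← Nat.card_eq_fintype_card]
    refine hG.card_eq_or_dvd.resolve_left ?_
    intro h
    exact (not_subsingleton G) (Nat.card_eq_one_iff_unique.1 h).1
  obtain ⟨m, hm⟩ := hpdvd
  have hmpos : 0 < m := by
    rw [Nat.pos_iff_ne_zero]
    intro h
    rw [h, mul_zero] at hm
    exact Fintype.card_ne_zero hm
  have hmk : (m : ℝ) * (p : ℝ) = Fintype.card G := by
    rw [hm]; push_cast; ring
  set S : Submodule ℝ (G → ℝ) := Submodule.span ℝ (Flats (cf (repR G)) m) with hS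
  -- flats from irreducible subspaces
  have hirrflat : ∀ M : Submodule ℚ (Fin d → ℚ), ∀ hM : Inv (repQ G) M, M ≠ ⊥ →
      Irr (subRep (repQ G) M hM) → (∀ l : (Fin d → ℚ) →ₗ[ℚ] ℚ, ∀ u ∈ M,
        (fun g => l (repQ G g u)) ∈ ratPart S) ∧ (fun _ : G => (1 : ℚ)) ∈ ratPart S := by
    intro M hM hM0 hirr
    have hntM : Nontrivial M := Submodule.nontrivial_iff_ne_bot.2 hM0
    let σ := subRep (repQ G) M hM
    have hsumM : ∀ w : M, ∑ g : G, σ g w = 0 := by
      intro w
      apply Subtype.ext
      rw [AddSubmonoidClass.coe_finsetSum]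
      exact hsumQ w
    have hact : ∃ g, σ g ≠ 1 := by
      by_contra hcon
      push Not at hcon
      obtain ⟨w, hw⟩ := exists_ne (0 : M)
      apply hw
      have h1 := hsumM w
      simp only [hcon, Module.End.one_apply] at h1
      rw [Finset.sum_const, ← Nat.cast_smul_eq_nsmul ℚ] at h1
      refine (smul_eq_zero.1 h1).resolve_left ?_
      rw [Finset.card_univ]
      exact_mod_cast Fintype.card_ne_zero
    obtain ⟨v, lam, hlam⟩ := flat_exists hp (Nat.card G) G M σ le_rfl hG hirr hact
    have hpQ : (1 : ℚ) < p := by exact_mod_cast hp.one_lt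
    have hpQ0 : (0 : ℚ) < p := by linarith
    have hinv0 : 0 < 1 / (p : ℚ) := by positivity
    have hinv1 : 1 / (p : ℚ) < 1 := by
      rw [div_lt_one hpQ0]
      exact hpQ
    have hvne : v ≠ 0 := by
      intro h
      have h1 := hlam 1
      rw [h, map_zero, map_zero] at h1
      rcases h1 with h1 | h1 <;> linarith
    -- coefficient functions of `M` are in `cf`
    have hcfM : ∀ (l : M →ₗ[ℚ] ℚ) (u : M), (fun g => ((l (σ g u) : ℚ) : ℝ)) ∈ cf (repR G) := by
      intro l u
      obtain ⟨l0, hl0⟩ := LinearMap.exists_extend l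
      have h1 : (fun g => ((l (σ g u) : ℚ) : ℝ)) =
          fun g => cl l0 ((repR G g : Matrix (Fin d) (Fin d) ℝ) *ᵥ cv (u : Fin d → ℚ)) := by
        funext g
        rw [cv_mulVec, cl_cv]
        congr 1
        rw [← hl0, LinearMap.comp_apply]
        rfl
      rw [h1]
      exact coeff_mem_cf _ _ _
    -- the flats
    have hflat : ∀ h h' : G, (fun g => lam (σ (h * g * h') v) + 1 / (p : ℚ)) ∈ ratPart S := by
      intro h h'
      rw [mem_ratPart]
      refine Submodule.subset_span ⟨?_, {g | lam (σ (h * g * h') v) = 1 - 1 / (p : ℚ)}, ?_, ?_, ?_⟩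
      · have h1 : (fun g => ((lam (σ (h * g * h') v) + 1 / (p : ℚ) : ℚ) : ℝ)) =
            (fun g => (((lam.comp (σ h)) (σ g (σ h' v)) : ℚ) : ℝ)) + fun _ => (1 / (p : ℝ)) := by
          funext g
          rw [Pi.add_apply, LinearMap.comp_apply, ← Module.End.mul_apply, ← Module.End.mul_apply,
            ← map_mul, ← map_mul]
          push_cast
          rfl
        rw [h1]
        exact (cf (repR G)).add_mem (hcfM _ _) (const_mem_cf _ _)
      · by_contra hcon
        rw [Set.not_nonempty_iff_eq_empty] at hcon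
        have h1 : ∀ g, lam (σ (h * g * h') v) = -(1 / (p : ℚ)) := by
          intro g
          rcases hlam (h * g * h') with h2 | h2
          · exact h2
          · exact absurd (show g ∈ {g | lam (σ (h * g * h') v) = 1 - 1 / (p : ℚ)} from h2)
              (by rw [hcon]; exact Set.notMem_empty g)
        have h2 : ∑ g : G, lam (σ (h * g * h') v) = 0 := by
          rw [← map_sum]
          have h3 : ∀ g : G, σ (h * g * h') v = σ h (σ g (σ h' v)) := by
            intro g
            rw [map_mul, map_mul, Module.End.mul_apply, Module.End.mul_apply]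
          rw [Finset.sum_congr rfl (fun g _ => h3 g), ← map_sum, hsumM, map_zero, map_zero]
        rw [Finset.sum_congr rfl (fun g _ => h1 g), Finset.sum_const, Finset.card_univ,
          nsmul_eq_mul] at h2
        have h3 : (0 : ℚ) < Fintype.card G := by exact_mod_cast Fintype.card_pos
        have h4 : (Fintype.card G : ℚ) * (1 / (p : ℚ)) = 0 := by linarith
        exact absurd h4 (mul_pos h3 hinv0).ne'
      · -- the size
        have h2 : ∑ g : G, lam (σ (h * g * h') v) = 0 := by
          rw [← map_sum]
          have h3 : ∀ g : G, σ (h * g * h') v = σ h (σ g (σ h' v)) := by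
            intro g
            rw [map_mul, map_mul, Module.End.mul_apply, Module.End.mul_apply]
          rw [Finset.sum_congr rfl (fun g _ => h3 g), ← map_sum, hsumM, map_zero, map_zero]
        have h4 : ∀ g : G, lam (σ (h * g * h') v) =
            (if lam (σ (h * g * h') v) = 1 - 1 / (p : ℚ) then (1 : ℚ) else 0) - 1 / (p : ℚ) := by
          intro g
          rcases hlam (h * g * h') with h5 | h5
          · rw [h5, if_neg (by intro h6; linarith)]
            ring
          · rw [h5, if_pos rfl]
        rw [Finset.sum_congr rfl (fun g _ => h4 g), Finset.sum_sub_distrib, Finset.sum_boole,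
          Finset.sum_const, Finset.card_univ, nsmul_eq_mul, hm] at h2
        rw [Set.ncard_eq_toFinset_card']
        have h5 : (({g | lam (σ (h * g * h') v) = 1 - 1 / (p : ℚ)} : Set G).toFinset.card : ℚ)
            = m := by
          have h6 : ({g | lam (σ (h * g * h') v) = 1 - 1 / (p : ℚ)} : Set G).toFinset =
              Finset.univ.filter fun g => lam (σ (h * g * h') v) = 1 - 1 / (p : ℚ) := by
            ext g
            simp
          rw [h6]
          have h7 : ((p * m : ℕ) : ℚ) * (1 / (p : ℚ)) = m := by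
            push_cast
            field_simp
          linarith
        exact_mod_cast h5
      · funext g
        rw [Set.indicator_apply]
        rcases hlam (h * g * h') with h5 | h5
        · have h6 : g ∉ {g | lam (σ (h * g * h') v) = 1 - 1 / (p : ℚ)} := by
            intro h7
            have h8 : lam (σ (h * g * h') v) = 1 - 1 / (p : ℚ) := h7
            linarith
          rw [if_neg h6, h5]
          push_cast
          ring
        · have h6 : g ∈ {g | lam (σ (h * g * h') v) = 1 - 1 / (p : ℚ)} := h5
          rw [if_pos h6, h5]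
          push_cast
          ring
    -- the constants
    have hconst : (fun _ : G => (1 : ℚ)) ∈ ratPart S := by
      have h1 : (fun _ : G => (1 : ℚ)) = ((m : ℚ)⁻¹) •
          ∑ h' : G, (fun g => lam (σ (1 * g * h') v) + 1 / (p : ℚ)) := by
        funext g
        rw [Pi.smul_apply, Finset.sum_apply, Finset.sum_add_distrib, Finset.sum_const,
          Finset.card_univ, nsmul_eq_mul, hm]
        have h2 : ∑ h' : G, lam (σ (1 * g * h') v) = 0 := by
          rw [← map_sum]
          have h3 : ∀ h' : G, σ (1 * g * h') v = σ g (σ h' v) := by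
            intro h'
            rw [one_mul, map_mul, Module.End.mul_apply]
          rw [Finset.sum_congr rfl (fun h' _ => h3 h'), ← map_sum, hsumM, map_zero, map_zero]
        rw [h2, zero_add, smul_eq_mul]
        have hm0 : (m : ℚ) ≠ 0 := by exact_mod_cast hmpos.ne'
        push_cast
        field_simp
      rw [h1]
      exact Submodule.smul_mem _ _ (Submodule.sum_mem _ fun h' _ => hflat 1 h')
    have hC1 : ∀ h h' : G, (fun g => lam (σ (h * g * h') v)) ∈ ratPart S := by
      intro h h'
      have h1 : (fun g => lam (σ (h * g * h') v)) =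
          (fun g => lam (σ (h * g * h') v) + 1 / (p : ℚ)) - (1 / (p : ℚ)) • (fun _ : G => (1 : ℚ)) := by
        funext g
        simp
      rw [h1]
      exact Submodule.sub_mem _ (hflat h h') (Submodule.smul_mem _ _ hconst)
    have hC2 : ∀ (h : G) (u : M), (fun g => lam (σ (h * g) u)) ∈ ratPart S := by
      intro h u
      let T : M →ₗ[ℚ] (G → ℚ) := LinearMap.pi fun g => lam.comp (σ (h * g))
      have h1 : (⊤ : Submodule ℚ M) ≤ (ratPart S).comap T := by
        rw [← span_orbit σ hirr hvne, Submodule.span_le]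
        rintro _ ⟨h', rfl⟩
        have h2 : T (σ h' v) = fun g => lam (σ (h * g * h') v) := by
          funext g
          show lam (σ (h * g) (σ h' v)) = _
          rw [← Module.End.mul_apply, ← map_mul]
        show T (σ h' v) ∈ ratPart S
        rw [h2]
        exact hC1 h h'
      exact h1 (Submodule.mem_top (x := u))
    have hC3 : ∀ (l : M →ₗ[ℚ] ℚ) (u : M), (fun g => l (σ g u)) ∈ ratPart S := by
      intro l u
      have hl : l ∈ Submodule.span ℚ (Set.range fun h : G => lam.comp (σ h)) := by
        apply FiniteDimensional.mem_span_of_iInf_ker_le_ker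
        have hbot : (⨅ h : G, LinearMap.ker (lam.comp (σ h))) = ⊥ := by
          refine (hirr _ ?_).resolve_right ?_
          · intro g w hw
            rw [Submodule.mem_iInf] at hw ⊢
            intro h
            have h2 := hw (h * g)
            rw [LinearMap.mem_ker, LinearMap.comp_apply] at h2 ⊢
            have h3 : σ (h * g) w = σ h (σ g w) := by rw [map_mul, Module.End.mul_apply]
            rw [h3] at h2
            exact h2
          · intro htop
            have h2 : v ∈ (⨅ h : G, LinearMap.ker (lam.comp (σ h))) := by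
              rw [htop]; exact Submodule.mem_top
            rw [Submodule.mem_iInf] at h2
            have h3 := h2 1
            rw [LinearMap.mem_ker, LinearMap.comp_apply] at h3
            have h4 := hlam 1
            rw [h3] at h4
            rcases h4 with h4 | h4 <;> linarith
        rw [hbot]
        exact bot_le
      let T : (M →ₗ[ℚ] ℚ) →ₗ[ℚ] (G → ℚ) := LinearMap.pi fun g =>
        (Module.Dual.eval ℚ M (σ g u))
      have h1 : Submodule.span ℚ (Set.range fun h : G => lam.comp (σ h)) ≤ (ratPart S).comap T := by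
        rw [Submodule.span_le]
        rintro _ ⟨h, rfl⟩
        have h2 : T (lam.comp (σ h)) = fun g => lam (σ (h * g) u) := by
          funext g
          show lam (σ h (σ g u)) = _
          rw [← Module.End.mul_apply, ← map_mul]
        show T (lam.comp (σ h)) ∈ ratPart S
        rw [h2]
        exact hC2 h u
      exact h1 hl
    refine ⟨?_, hconst⟩
    intro l u hu
    exact hC3 (l.comp M.subtype) ⟨u, hu⟩
  -- all coefficient functions
  let W : Submodule ℚ (Fin d → ℚ) :=
    { carrier := {u | ∀ l : (Fin d → ℚ) →ₗ[ℚ] ℚ, (fun g => l (repQ G g u)) ∈ ratPart S}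
      add_mem' := by
        intro a b ha hb l
        have h1 : (fun g => l (repQ G g (a + b))) =
            (fun g => l (repQ G g a)) + (fun g => l (repQ G g b)) := by
          funext g
          simp only [Pi.add_apply, map_add]
        rw [h1]
        exact Submodule.add_mem _ (ha l) (hb l)
      zero_mem' := by
        intro l
        have h1 : (fun g : G => l (repQ G g 0)) = 0 := by
          funext g
          simp only [map_zero, Pi.zero_apply]
        rw [h1]
        exact Submodule.zero_mem _
      smul_mem' := by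
        intro c a ha l
        have h1 : (fun g : G => l (repQ G g (c • a))) = c • (fun g => l (repQ G g a)) := by
          funext g
          simp only [map_smul, Pi.smul_apply]
        rw [h1]
        exact Submodule.smul_mem _ _ (ha l) }
  have hW : W = ⊤ := by
    apply all_of_irreducible (repQ G)
    intro M hM hM0 hirr u hu l
    exact (hirrflat M hM hM0 hirr).1 l u hu
  have hconst : (fun _ : G => (1 : ℝ)) ∈ S := by
    -- an irreducible subspace exists
    have hex : ∃ M : Submodule ℚ (Fin d → ℚ), ∃ hM : Inv (repQ G) M, M ≠ ⊥ ∧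
        Irr (subRep (repQ G) M hM) := by
      by_contra hcon
      push Not at hcon
      have h1 := all_of_irreducible (repQ G) (⊥ : Submodule ℚ (Fin d → ℚ))
        (fun M hM hM0 hirr => absurd hirr (hcon M hM hM0))
      exact bot_ne_top h1
    obtain ⟨M, hM, hM0, hirr⟩ := hex
    have h1 := (hirrflat M hM hM0 hirr).2
    rw [mem_ratPart] at h1
    simpa using h1
  refine ⟨m, hm, hconst, ?_⟩
  intro k l
  have h1 : (Pi.single l 1 : Fin d → ℚ) ∈ W := by
    rw [hW]; exact Submodule.mem_top
  have h2 := h1 (LinearMap.proj k)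
  rw [mem_ratPart] at h2
  have h3 : (fun g : G => (((LinearMap.proj k : (Fin d → ℚ) →ₗ[ℚ] ℚ)
      (repQ G g (Pi.single l 1)) : ℚ) : ℝ)) =
      fun g : G => (repR G g : Matrix (Fin d) (Fin d) ℝ) k l := by
    funext g
    rw [repR_apply, repQ_apply]
    simp
  rw [h3] at h2
  exact h2

open Classical in
/-- Extremality for rational `p`-groups whose polytope contains `-(1/(p-1)) I`. -/
theorem ext_of_rational_pgroup {d p : ℕ} (hp : p.Prime) (G : Subgroup (GL (Fin d) ℚ)) [Finite G]
    (hG : IsPGroup p G)
    (hull : (-(1 / ((p : ℝ) - 1))) • (1 : Matrix (Fin d) (Fin d) ℝ) ∈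
      convexHull ℝ (Set.range fun g : toReal G => (g.1 : Matrix (Fin d) (Fin d) ℝ))) :
    ∃ m, Ext (coef (toReal G)) m := by
  have hpf : Fact p.Prime := ⟨hp⟩
  suffices h : ∃ m, Ext (cf (repR G)) m by
    obtain ⟨m, hm⟩ := h
    refine ⟨m, ?_⟩
    rw [← repR_range]
    exact hm.range (repR_injective G)
  let _ : Fintype G := Fintype.ofFinite G
  have hrange : (Set.range fun g : toReal G => (g.1 : Matrix (Fin d) (Fin d) ℝ)) =
      Set.range fun g : G => (repR G g : Matrix (Fin d) (Fin d) ℝ) := by
    ext M
    constructor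
    · rintro ⟨⟨g, hg⟩, rfl⟩
      rw [← repR_range] at hg
      obtain ⟨h, rfl⟩ := hg
      exact ⟨h, rfl⟩
    · rintro ⟨h, rfl⟩
      exact ⟨⟨repR G h, by rw [← repR_range]; exact ⟨h, rfl⟩⟩, rfl⟩
  rw [hrange] at hull
  rcases Nat.eq_zero_or_pos d with hd | hd
  · subst hd
    exact ⟨_, ext_of_dim_zero (repR G)⟩
  have hpR : (1 : ℝ) < p := by exact_mod_cast hp.one_lt
  have hsumR := sum_eq_zero_of_hull (repR G) (p : ℝ) hpR hull
  obtain ⟨m, hm, hconst, hspan⟩ := span_of_rational_pgroup hp G hG hd hsumR
  have hmk : (m : ℝ) * (p : ℝ) = Fintype.card G := by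
    rw [hm]; push_cast; ring
  exact ⟨m, ext_of_hull (repR G) m (p : ℝ) hpR hmk hull hconst hspan⟩

open Classical in
/-- Extremality for rational `2`-groups without invariant vectors and trilinear forms. -/
theorem ext_of_rational_two {d : ℕ} (G : Subgroup (GL (Fin d) ℚ)) [Fintype G]
    (hG : IsPGroup 2 G) (h3 : NoTri (repR G)) : ∃ m, Ext (coef (toReal G)) m := by
  suffices h : ∃ m, Ext (cf (repR G)) m by
    obtain ⟨m, hm⟩ := h
    refine ⟨m, ?_⟩
    rw [← repR_range]
    exact hm.range (repR_injective G)
  rcases Nat.eq_zero_or_pos d with hd | hd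
  · subst hd
    exact ⟨_, ext_of_dim_zero (repR G)⟩
  have hsumR : ∑ g : G, (repR G g : Matrix (Fin d) (Fin d) ℝ) = 0 := by
    ext i j
    rw [Matrix.sum_apply]
    exact h3.1 i j
  obtain ⟨m, hm, hconst, hspan⟩ := span_of_rational_pgroup Nat.prime_two G hG hd hsumR
  exact ⟨m, ext_of_third (repR G) h3 m hm.symm hconst hspan⟩

end Pool.Agent.RepPoly
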