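import Pool.Agent.RepPoly.Inv

set_option autoImplicit false

open Matrix

namespace Pool.Agent.RepPoly.SignedPermutations

open Pool.Agent.RepPoly

/-- Every combinatorial isomorphism between the representation polytopes of two groups of signed
permutation matrices without nonzero invariant tensors of degree `1` and `3` (for instance, groups
containing `-I`) is affine. -/
theorem result : ∀ (d e : ℕ) (G : Subgroup (GL (Fin d) ℝ)) (H : Subgroup (GL (Fin e) ℝ)),
    (∀ g ∈ G, IsSignedPerm g) → ((-1 : GL (Fin d) ℝ) ∈ G ∨ (NoInvVec G ∧ NoInvTensor G)) →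
    (∀ h ∈ H, IsSignedPerm h) → ((-1 : GL (Fin e) ℝ) ∈ H ∨ (NoInvVec H ∧ NoInvTensor H)) →
    ∀ σ : G ≃ H, CombIso G H σ → AffIso G H σ := by
  intro d e G H hG hG1 hH hH1 σ hσ
  have := finite_of_signed G hG
  have := finite_of_signed H hH
  have hG2 := hG1.elim (noInv_of_neg G) id
  have hH2 := hH1.elim (noInv_of_neg H) id
  obtain ⟨a, ha⟩ := ext_of_signed G hG hG2.1 hG2.2
  obtain ⟨b, hb⟩ := ext_of_signed H hH hH2.1 hH2.2
  exact affIso_of_combIso ha hb σ hσ

end Pool.Agent.RepPoly.SignedPermutations
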