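import Pool.Agent.RepPoly.Dim

set_option autoImplicit false

open Matrix

namespace Pool.Agent.RepPoly

section perm

variable {X : Type*} [Fintype X] [DecidableEq X]

/-- The matrix of the map `f ↦ f ∘ h`. -/
def Mh (h : Equiv.Perm X) : Matrix X X ℝ := Matrix.of fun x y => if y = h x then 1 else 0

omit [Fintype X] in
lemma Mh_apply (h : Equiv.Perm X) (x y : X) : Mh h x y = if y = h x then 1 else 0 := rfl

lemma Mh_mulVec (h : Equiv.Perm X) (f : X → ℝ) : Mh h *ᵥ f = f ∘ h := by
  funext x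
  simp [Matrix.mulVec, dotProduct, Mh_apply]

lemma Mh_mul_apply (h : Equiv.Perm X) (E : Matrix X X ℝ) (x y : X) : (Mh h * E) x y = E (h x) y := by
  simp [Matrix.mul_apply, Mh_apply]

lemma mul_Mh_apply (h : Equiv.Perm X) (E : Matrix X X ℝ) (x y : X) :
    (E * Mh h) x y = E x (h⁻¹ y) := by
  rw [Matrix.mul_apply, Finset.sum_eq_single (h⁻¹ y)]
  · simp [Mh_apply]
  · intro z _ hz
    rw [Mh_apply, if_neg, mul_zero]
    intro hy
    apply hz
    rw [hy]
    simp
  · intro h'
    exact absurd (Finset.mem_univ _) h'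

lemma Mh_mul (h h' : Equiv.Perm X) : Mh h * Mh h' = Mh (h' * h) := by
  ext x y
  rw [Mh_mul_apply, Mh_apply, Mh_apply]
  rfl

lemma Mh_one : Mh (1 : Equiv.Perm X) = 1 := by
  ext x y
  simp [Mh_apply, Matrix.one_apply, eq_comm]

lemma Mh_pow (h : Equiv.Perm X) (j : ℕ) : Mh h ^ j = Mh (h ^ j) := by
  induction j with
  | zero => rw [pow_zero, pow_zero, Mh_one]
  | succ j ih => rw [pow_succ, ih, Mh_mul, ← pow_succ']

omit [Fintype X] in
lemma Mh_transpose (h : Equiv.Perm X) : (Mh h)ᵀ = Mh h⁻¹ := by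
  ext x y
  rw [Matrix.transpose_apply, Mh_apply, Mh_apply]
  congr 1
  rw [eq_iff_iff]
  constructor
  · intro h'
    rw [h']
    simp
  · intro h'
    rw [h']
    simp

/-- `E` is the matrix of the orthogonal projection onto `V`. -/
structure ProjOn (E : Matrix X X ℝ) (V : Submodule ℝ (X → ℝ)) : Prop where
  symm : Eᵀ = E
  idem : E * E = E
  mem : ∀ f, f ∈ V ↔ E *ᵥ f = f

lemma ProjOn.mulVec_mem {E : Matrix X X ℝ} {V : Submodule ℝ (X → ℝ)} (hE : ProjOn E V)
    (f : X → ℝ) : E *ᵥ f ∈ V := by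
  rw [hE.mem, Matrix.mulVec_mulVec, hE.idem]

lemma ProjOn.finrank_eq {E : Matrix X X ℝ} {V : Submodule ℝ (X → ℝ)} (hE : ProjOn E V) :
    (Module.finrank ℝ V : ℝ) = E.trace := by
  have h1 : LinearMap.IsProj V (Matrix.toLin' E) :=
    ⟨fun f => by rw [Matrix.toLin'_apply]; exact hE.mulVec_mem f,
      fun f hf => by rw [Matrix.toLin'_apply]; exact (hE.mem f).1 hf⟩
  rw [← Matrix.trace_toLin'_eq, h1.trace]

/-- Invariance under a permutation. -/
def InvP (V : Submodule ℝ (X → ℝ)) (h : Equiv.Perm X) : Prop := ∀ f ∈ V, f ∘ h ∈ V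

omit [Fintype X] [DecidableEq X] in
lemma InvP.pow {V : Submodule ℝ (X → ℝ)} {h : Equiv.Perm X} (hh : InvP V h) (j : ℕ) :
    InvP V (h ^ j) := by
  induction j with
  | zero =>
    intro f hf
    simpa using hf
  | succ j ih =>
    intro f hf
    have h1 := hh _ (ih f hf)
    rw [pow_succ]
    exact h1

omit [DecidableEq X] in
lemma InvP.inv {V : Submodule ℝ (X → ℝ)} {h : Equiv.Perm X} (hh : InvP V h) : InvP V h⁻¹ := by
  classical
  have h1 : h⁻¹ = h ^ (orderOf h - 1) := by
    rw [eq_comm, ← mul_eq_one_iff_eq_inv, ← pow_succ, Nat.sub_add_cancel (orderOf_pos h),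
      pow_orderOf_eq_one]
  rw [h1]
  exact hh.pow _

lemma ProjOn.comm {E : Matrix X X ℝ} {V : Submodule ℝ (X → ℝ)} (hE : ProjOn E V)
    {h : Equiv.Perm X} (hh : InvP V h) : Mh h * E = E * Mh h := by
  have key : ∀ k : Equiv.Perm X, InvP V k → E * (Mh k * E) = Mh k * E := by
    intro k hk
    apply Matrix.toLin'.injective
    apply LinearMap.ext
    intro f
    rw [Matrix.toLin'_apply, Matrix.toLin'_apply, ← Matrix.mulVec_mulVec, ← Matrix.mulVec_mulVec,
      Mh_mulVec]
    exact (hE.mem _).1 (hk _ (hE.mulVec_mem f))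
  have h1 := key h hh
  have h2 := congrArg Matrix.transpose (key h⁻¹ hh.inv)
  rw [Matrix.transpose_mul, Matrix.transpose_mul, Mh_transpose, inv_inv, hE.symm] at h2
  rw [← h1, ← mul_assoc, h2]

/-- The functions of `V` fixed by `h`. -/
def fixV (V : Submodule ℝ (X → ℝ)) (h : Equiv.Perm X) : Submodule ℝ (X → ℝ) where
  carrier := {f | f ∈ V ∧ f ∘ h = f}
  add_mem' := by
    rintro a b ⟨ha, ha'⟩ ⟨hb, hb'⟩
    refine ⟨V.add_mem ha hb, ?_⟩
    rw [Pi.add_comp, ha', hb']
  zero_mem' := ⟨V.zero_mem, rfl⟩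
  smul_mem' := by
    rintro c a ⟨ha, ha'⟩
    refine ⟨V.smul_mem c ha, ?_⟩
    funext x
    have := congrFun ha' x
    simp only [Function.comp_apply, Pi.smul_apply] at this ⊢
    rw [this]

lemma sum_trace_eq {E : Matrix X X ℝ} {V : Submodule ℝ (X → ℝ)} (hE : ProjOn E V)
    {h : Equiv.Perm X} (hh : InvP V h) :
    ∑ j ∈ Finset.range (orderOf h), (Mh (h ^ j) * E).trace =
      orderOf h * Module.finrank ℝ (fixV V h) := by
  set m := orderOf h with hm
  have hmpos : 0 < m := orderOf_pos h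
  have hmR : (m : ℝ) ≠ 0 := by exact_mod_cast hmpos.ne'
  let P : Matrix X X ℝ := (m : ℝ)⁻¹ • ∑ j ∈ Finset.range m, Mh (h ^ j) * E
  have hPf : ∀ f, P *ᵥ f = (m : ℝ)⁻¹ • ∑ j ∈ Finset.range m, (E *ᵥ f) ∘ (h ^ j : Equiv.Perm X) := by
    intro f
    rw [Matrix.smul_mulVec, Matrix.sum_mulVec]
    congr 1
    refine Finset.sum_congr rfl fun j _ => ?_
    rw [← Matrix.mulVec_mulVec, Mh_mulVec]
  have hproj : LinearMap.IsProj (fixV V h) (Matrix.toLin' P) := by
    constructor
    · intro f
      rw [Matrix.toLin'_apply, hPf]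
      refine (fixV V h).smul_mem _ ?_
      constructor
      · exact V.sum_mem fun j _ => hh.pow j _ (hE.mulVec_mem f)
      · funext x
        simp only [Function.comp_apply, Finset.sum_apply]
        have h1 : ∀ j, (h ^ j : Equiv.Perm X) (h x) = (h ^ (j + 1) : Equiv.Perm X) x := by
          intro j
          rw [pow_succ]
          rfl
        simp only [h1]
        have h2 := Finset.sum_range_succ' (fun j => (E *ᵥ f) ((h ^ j : Equiv.Perm X) x)) m
        have h3 := Finset.sum_range_succ (fun j => (E *ᵥ f) ((h ^ j : Equiv.Perm X) x)) m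
        rw [h2] at h3
        have h4 : (h ^ m : Equiv.Perm X) x = (h ^ 0 : Equiv.Perm X) x := by
          rw [hm, pow_orderOf_eq_one, pow_zero]
        rw [h4] at h3
        exact add_right_cancel h3
    · rintro f ⟨hf1, hf2⟩
      rw [Matrix.toLin'_apply, hPf, (hE.mem f).1 hf1]
      have h1 : ∀ j : ℕ, f ∘ (h ^ j : Equiv.Perm X) = f := by
        intro j
        induction j with
        | zero => rfl
        | succ j ih =>
          rw [pow_succ]
          show (f ∘ (h ^ j : Equiv.Perm X)) ∘ h = f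
          rw [ih, hf2]
      simp only [h1, Finset.sum_const, Finset.card_range]
      rw [← Nat.cast_smul_eq_nsmul ℝ, smul_smul, inv_mul_cancel₀ hmR, one_smul]
  have h5 := hproj.trace
  rw [Matrix.trace_toLin'_eq, Matrix.trace_smul, Matrix.trace_sum, smul_eq_mul] at h5
  rw [← h5, ← mul_assoc, mul_inv_cancel₀ hmR, one_mul]

/-- Fixed spaces of two subspaces with the same cofaces. -/
lemma finrank_fixV_le {V V' : Submodule ℝ (X → ℝ)} {h : Equiv.Perm X}
    (hh' : InvP V' h) (h1 : (fun _ => (1 : ℝ)) ∈ V)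
    (hT : ∀ T, Coface V T → Coface V' T) :
    Module.finrank ℝ (fixV V h) ≤ Module.finrank ℝ (fixV V' h) := by
  apply finrank_le_of_coface
  · exact ⟨fun _ => 1, ⟨h1, rfl⟩, fun _ => zero_le_one, fun x => by simp⟩
  · rintro T ⟨f, ⟨hfV, hfh⟩, hf0, hfs⟩
    obtain ⟨f', hf'V, hf'0, hf's⟩ := hT T ⟨f, hfV, hf0, hfs⟩
    have hinv : ∀ x, (h x ∈ T ↔ x ∈ T) := by
      intro x
      rw [hfs, hfs]
      have := congrFun hfh x
      rw [Function.comp_apply] at this
      rw [this]
    have hinvj : ∀ (j : ℕ) x, ((h ^ j : Equiv.Perm X) x ∈ T ↔ x ∈ T) := by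
      intro j
      induction j with
      | zero => intro x; rfl
      | succ j ih =>
        intro x
        rw [pow_succ', Equiv.Perm.mul_apply, hinv, ih]
    set m := orderOf h with hm
    have hmpos : 0 < m := orderOf_pos h
    refine ⟨∑ j ∈ Finset.range m, f' ∘ (h ^ j : Equiv.Perm X), ⟨?_, ?_⟩, ?_, ?_⟩
    · exact V'.sum_mem fun j _ => hh'.pow j _ hf'V
    · funext x
      simp only [Function.comp_apply, Finset.sum_apply]
      have h1 : ∀ j, (h ^ j : Equiv.Perm X) (h x) = (h ^ (j + 1) : Equiv.Perm X) x := by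
        intro j
        rw [pow_succ]
        rfl
      simp only [h1]
      have h2 := Finset.sum_range_succ' (fun j => f' ((h ^ j : Equiv.Perm X) x)) m
      have h3 := Finset.sum_range_succ (fun j => f' ((h ^ j : Equiv.Perm X) x)) m
      rw [h2] at h3
      have h4 : (h ^ m : Equiv.Perm X) x = (h ^ 0 : Equiv.Perm X) x := by
        rw [hm, pow_orderOf_eq_one, pow_zero]
      rw [h4] at h3
      exact add_right_cancel h3
    · intro x
      rw [Finset.sum_apply]
      exact Finset.sum_nonneg fun j _ => hf'0 _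
    · intro x
      rw [Finset.sum_apply]
      constructor
      · intro hx
        apply ne_of_gt
        refine Finset.sum_pos (fun j _ => ?_) ⟨0, Finset.mem_range.2 hmpos⟩
        exact lt_of_le_of_ne (hf'0 _) (Ne.symm ((hf's _).1 ((hinvj j x).2 hx)))
      · intro hx
        by_contra hxT
        apply hx
        refine Finset.sum_eq_zero fun j _ => ?_
        by_contra hne
        exact hxT ((hinvj j x).1 ((hf's _).2 hne))

/-- The matrix `E` has rational entries. -/
def IsRat (E : Matrix X X ℝ) : Prop := ∀ x y, ∃ q : ℚ, E x y = q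

/-- Rational traces do not see the difference between generators of a cyclic group. -/
lemma trace_coprime {E : Matrix X X ℝ} {V : Submodule ℝ (X → ℝ)} (hE : ProjOn E V)
    (hr : IsRat E) {h : Equiv.Perm X} (hh : InvP V h) {j : ℕ}
    (hj : j.Coprime (orderOf h)) : (Mh (h ^ j) * E).trace = (Mh h * E).trace := by
  classical
  set m := orderOf h with hm
  have hmpos : 0 < m := orderOf_pos h
  have hcomm := hE.comm hh
  choose q hq using hr
  -- a common denominator
  obtain ⟨N, hN0, hN⟩ : ∃ N : ℕ, 0 < N ∧ ∀ x y, ∃ z : ℤ, (N : ℝ) * E x y = z := by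
    refine ⟨∏ p : X × X, (q p.1 p.2).den, Finset.prod_pos fun p _ => (q p.1 p.2).den_pos, ?_⟩
    intro x y
    have h1 : (q x y).den ∣ ∏ p : X × X, (q p.1 p.2).den :=
      Finset.dvd_prod_of_mem (fun p : X × X => (q p.1 p.2).den) (Finset.mem_univ (x, y))
    obtain ⟨c, hc⟩ := h1
    refine ⟨c * (q x y).num, ?_⟩
    rw [hc, hq]
    have h2 : ((q x y).den : ℝ) * (q x y : ℝ) = (q x y).num := by
      have := Rat.den_mul_eq_num (q x y)
      exact_mod_cast this
    push_cast
    calc ((q x y).den : ℝ) * c * (q x y : ℝ) = c * (((q x y).den : ℝ) * (q x y : ℝ)) := by ring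
      _ = c * ((q x y).num : ℝ) := by rw [h2]
  choose z hz using hN
  let C : ℕ → Matrix X X ℤ := fun i => Matrix.of fun x y => z ((h ^ i : Equiv.Perm X) x) y
  have hC : ∀ i, (C i).map (Int.castRingHom ℝ) = (N : ℝ) • (Mh (h ^ i) * E) := by
    intro i
    ext x y
    rw [Matrix.map_apply, Matrix.smul_apply, Mh_mul_apply, smul_eq_mul, hz]
    rfl
  have hNR : (N : ℝ) ≠ 0 := by exact_mod_cast hN0.ne'
  have hpow : ∀ i : ℕ, 0 < i → (Mh h * E) ^ i = Mh (h ^ i) * E := by
    intro i hi
    rw [← Mh_pow]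
    have h1 : (Mh h * E) ^ i = Mh h ^ i * E ^ i := (show Commute (Mh h) E from hcomm).mul_pow i
    rw [h1]
    congr 1
    have h2 : ∀ k : ℕ, E ^ (k + 1) = E := by
      intro k
      induction k with
      | zero => rw [zero_add, pow_one]
      | succ k ih => rw [pow_succ, ih, hE.idem]
    obtain ⟨k, rfl⟩ : ∃ k, i = k + 1 := ⟨i - 1, by omega⟩
    exact h2 k
  have hCpow : ∀ i : ℕ, 0 < i → C 1 ^ i = ((N : ℤ) ^ (i - 1)) • C i := by
    intro i hi
    have hinj : Function.Injective (fun A : Matrix X X ℤ => A.map (Int.castRingHom ℝ)) := by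
      intro A B hAB
      ext x y
      have := congrFun (congrFun hAB x) y
      simp only [Matrix.map_apply, eq_intCast, Int.cast_inj] at this
      exact this
    apply hinj
    show (C 1 ^ i).map (Int.castRingHom ℝ) = (((N : ℤ) ^ (i - 1)) • C i).map (Int.castRingHom ℝ)
    have h1 : (C 1 ^ i).map (Int.castRingHom ℝ) = ((C 1).map (Int.castRingHom ℝ)) ^ i :=
      map_pow (Int.castRingHom ℝ).mapMatrix (C 1) i
    rw [h1, hC 1, pow_one, smul_pow, hpow i hi]
    ext x y
    rw [Matrix.smul_apply, Matrix.map_apply, Matrix.smul_apply, smul_eq_mul, smul_eq_mul,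
      map_mul, map_pow]
    have h2 := congrFun (congrFun (hC i) x) y
    rw [Matrix.map_apply, Matrix.smul_apply, smul_eq_mul] at h2
    rw [h2]
    obtain ⟨k, rfl⟩ : ∃ k, i = k + 1 := ⟨i - 1, by omega⟩
    simp only [Nat.add_sub_cancel, eq_intCast, Int.cast_natCast]
    ring
  have hCmod : ∀ i i' : ℕ, i ≡ i' [MOD m] → C i = C i' := by
    intro i i' hii
    have h1 : h ^ i = h ^ i' := by
      rw [pow_eq_pow_iff_modEq, ← hm]
      exact hii
    ext x y
    show z ((h ^ i : Equiv.Perm X) x) y = z ((h ^ i' : Equiv.Perm X) x) y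
    rw [h1]
  -- the congruences
  have hdvd : ∀ B : ℕ, ∃ p : ℕ, B < p ∧ ((p : ℕ) : ℤ) ∣ (C j).trace - (C 1).trace := by
    intro B
    obtain ⟨p, hpB, hp, hpj⟩ := Nat.forall_exists_prime_gt_and_modEq (max B N) hmpos.ne' hj
    refine ⟨p, lt_of_le_of_lt (le_max_left _ _) hpB, ?_⟩
    have : Fact p.Prime := ⟨hp⟩
    rw [← ZMod.intCast_zmod_eq_zero_iff_dvd, Int.cast_sub, sub_eq_zero]
    have h1 : ((C 1 ^ p).map (Int.castRingHom (ZMod p))).trace =
        ((C 1).map (Int.castRingHom (ZMod p))).trace := by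
      have h2 : (C 1 ^ p).map (Int.castRingHom (ZMod p)) =
          ((C 1).map (Int.castRingHom (ZMod p))) ^ p :=
        map_pow (Int.castRingHom (ZMod p)).mapMatrix (C 1) p
      rw [h2, ZMod.trace_pow_card, ZMod.pow_card]
    have h3 : ∀ A : Matrix X X ℤ, (A.map (Int.castRingHom (ZMod p))).trace = ((A.trace : ℤ) : ZMod p) := by
      intro A
      simp only [Matrix.trace, Matrix.diag_apply, Matrix.map_apply, eq_intCast, Int.cast_sum]
    rw [h3, h3, hCpow p hp.pos, Matrix.trace_smul, smul_eq_mul, Int.cast_mul, Int.cast_pow,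
      Int.cast_natCast] at h1
    have hNp : ((N : ℕ) : ZMod p) ≠ 0 := by
      intro h0
      rw [ZMod.natCast_eq_zero_iff] at h0
      have := Nat.le_of_dvd hN0 h0
      have := lt_of_le_of_lt (le_max_right B N) hpB
      omega
    rw [ZMod.pow_card_sub_one_eq_one hNp, one_mul, hCmod p j hpj] at h1
    exact h1
  have heq : (C j).trace = (C 1).trace := by
    obtain ⟨p, hp1, hp2⟩ := hdvd ((C j).trace - (C 1).trace).natAbs
    have h1 : (C j).trace - (C 1).trace = 0 := by
      apply Int.eq_zero_of_abs_lt_dvd hp2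
      rw [Int.abs_eq_natAbs]
      exact_mod_cast hp1
    linarith
  have h6 : ∀ i, (N : ℝ) * (Mh (h ^ i) * E).trace = (((C i).trace : ℤ) : ℝ) := by
    intro i
    rw [← smul_eq_mul, ← Matrix.trace_smul, ← hC i]
    simp only [Matrix.trace, Matrix.diag_apply, Matrix.map_apply, eq_intCast, Int.cast_sum]
  have h7 := h6 j
  have h8 := h6 1
  rw [pow_one] at h8
  rw [heq, ← h8] at h7
  exact mul_left_cancel₀ hNR h7

/-- Traces agree for two rational subspaces with the same cofaces. -/
theorem trace_eq {E E' : Matrix X X ℝ} {V V' : Submodule ℝ (X → ℝ)} (hE : ProjOn E V)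
    (hE' : ProjOn E' V') (hr : IsRat E) (hr' : IsRat E')
    (h1 : (fun _ => (1 : ℝ)) ∈ V) (h1' : (fun _ => (1 : ℝ)) ∈ V')
    (hT : ∀ T, Coface V T ↔ Coface V' T) :
    ∀ (n : ℕ) (h : Equiv.Perm X), orderOf h = n → InvP V h → InvP V' h →
      (Mh h * E).trace = (Mh h * E').trace := by
  intro n
  induction n using Nat.strong_induction_on with
  | _ n ih =>
    intro h hn hh hh'
    have hnpos : 0 < n := by rw [← hn]; exact orderOf_pos h
    have hdim : Module.finrank ℝ (fixV V h) = Module.finrank ℝ (fixV V' h) :=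
      le_antisymm (finrank_fixV_le hh' h1 fun T => (hT T).1)
        (finrank_fixV_le hh h1' fun T => (hT T).2)
    have h2 := sum_trace_eq hE hh
    have h3 := sum_trace_eq hE' hh'
    rw [← hdim] at h3
    have h4 : ∑ j ∈ Finset.range (orderOf h),
        ((Mh (h ^ j) * E).trace - (Mh (h ^ j) * E').trace) = 0 := by
      rw [Finset.sum_sub_distrib, h2, h3, sub_self]
    have h5 : ∀ j ∈ Finset.range (orderOf h),
        ((Mh (h ^ j) * E).trace - (Mh (h ^ j) * E').trace) =
        if j.Coprime (orderOf h) then ((Mh h * E).trace - (Mh h * E').trace) else 0 := by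
      intro j _
      by_cases hj : j.Coprime (orderOf h)
      · rw [if_pos hj, trace_coprime hE hr hh hj, trace_coprime hE' hr' hh' hj]
      · rw [if_neg hj, sub_eq_zero]
        have h6 : orderOf (h ^ j) < n := by
          have hg : Nat.gcd (orderOf h) j ≠ 1 := by
            intro hg
            exact hj (Nat.coprime_comm.1 hg)
          rw [orderOf_pow, hn]
          rw [hn] at hg
          have hgpos : 0 < Nat.gcd n j := Nat.gcd_pos_of_pos_left _ hnpos
          exact Nat.div_lt_self hnpos (by omega)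
        exact ih _ h6 (h ^ j) rfl (hh.pow j) (hh'.pow j)
    rw [Finset.sum_congr rfl h5, ← Finset.sum_filter, Finset.sum_const] at h4
    have h6 : (Finset.filter (fun j => j.Coprime (orderOf h)) (Finset.range (orderOf h))).card ≠ 0 := by
      rw [Finset.card_ne_zero]
      by_cases hone : orderOf h = 1
      · exact ⟨0, by simp [hone]⟩
      · refine ⟨1, ?_⟩
        have : 0 < orderOf h := orderOf_pos h
        simp only [Finset.mem_filter, Finset.mem_range, Nat.coprime_one_left_eq_true, and_true]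
        omega
    rw [← Nat.cast_smul_eq_nsmul ℝ] at h4
    have h7 := (smul_eq_zero.1 h4).resolve_left (by exact_mod_cast h6)
    linarith

end perm

end Pool.Agent.RepPoly
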