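import Pool.Agent.RepPoly.Core

set_option autoImplicit false

open Matrix

namespace Pool.Agent.RepPoly

lemma lower_of_bound {X : Type*} [Fintype X] {V : Submodule ℝ (X → ℝ)} {m : ℕ}
    (hb : ∀ f ∈ V, (∀ x, 0 ≤ f x) → ∀ x, (m : ℝ) * f x ≤ ∑ y, f y) :
    ∀ T : Set X, T.Nonempty → Coface V T → m ≤ T.ncard := by
  classical
  rintro T ⟨x0, hx0⟩ ⟨f, hf, h0, hs⟩
  obtain ⟨x, -, hx⟩ := Finset.exists_max_image Finset.univ f ⟨x0, Finset.mem_univ _⟩
  have hfx : 0 < f x := by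
    have h1 : 0 < f x0 := lt_of_le_of_ne (h0 x0) (Ne.symm ((hs x0).1 hx0))
    exact lt_of_lt_of_le h1 (hx x0 (Finset.mem_univ _))
  have h2 : ∑ y, f y ≤ (T.ncard : ℝ) * f x := by
    have h3 : ∑ y, f y = ∑ y ∈ T.toFinset, f y := by
      symm
      apply Finset.sum_subset (Finset.subset_univ _)
      intro y _ hy
      by_contra hne
      exact hy (Set.mem_toFinset.2 ((hs y).2 hne))
    rw [h3, Set.ncard_eq_toFinset_card' T, ← nsmul_eq_mul]
    exact Finset.sum_le_card_nsmul _ _ _ (fun y _ => hx y (Finset.mem_univ _))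
  have h4 := (hb f hf h0 x).trans h2
  exact_mod_cast le_of_mul_le_mul_right h4 hfx

lemma flat_of_bound {X : Type*} [Fintype X] {V : Submodule ℝ (X → ℝ)} {m : ℕ}
    (hb : ∀ f ∈ V, (∀ x, 0 ≤ f x) → ∀ x, (m : ℝ) * f x ≤ ∑ y, f y) :
    ∀ f ∈ V, (∀ x, 0 ≤ f x) → {x | f x ≠ 0}.ncard = m →
    ∀ x y, f x ≠ 0 → f y ≠ 0 → f x = f y := by
  classical
  intro f hf h0 hm x1 x2 h1 h2
  obtain ⟨x, -, hx⟩ := Finset.exists_max_image Finset.univ f ⟨x1, Finset.mem_univ _⟩
  have hsum : ∑ y, f y = ∑ y ∈ {x | f x ≠ 0}.toFinset, f y := by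
    symm
    apply Finset.sum_subset (Finset.subset_univ _)
    intro y _ hy
    by_contra hne
    exact hy (Set.mem_toFinset.2 hne)
  have hcard : ({x | f x ≠ 0}.toFinset.card : ℝ) = m := by
    rw [← hm, Set.ncard_eq_toFinset_card']
  have hdiff : ∑ y ∈ {x | f x ≠ 0}.toFinset, (f x - f y) = 0 := by
    apply le_antisymm
    · rw [Finset.sum_sub_distrib, ← hsum, Finset.sum_const, nsmul_eq_mul, hcard]
      have := hb f hf h0 x
      linarith
    · exact Finset.sum_nonneg fun y _ => sub_nonneg.2 (hx y (Finset.mem_univ _))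
  have hall := (Finset.sum_eq_zero_iff_of_nonneg
    (fun y _ => sub_nonneg.2 (hx y (Finset.mem_univ _)))).1 hdiff
  have e1 := hall x1 (Set.mem_toFinset.2 h1)
  have e2 := hall x2 (Set.mem_toFinset.2 h2)
  linarith

/-- The averaging bound coming from a system of weights. -/
lemma bound_of_weights {Γ : Type*} [Group Γ] [Fintype Γ] {d : ℕ} (ρ : Γ →* GL (Fin d) ℝ)
    (m : ℕ) (w : Γ → ℝ)
    (hw0 : ∀ g, 0 ≤ w g) (hw1 : w 1 = 1)
    (hcard : (m : ℝ) * ∑ g, w g = Fintype.card Γ)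
    (hmat : (m : ℝ) • ∑ g, w g • (ρ g : Matrix (Fin d) (Fin d) ℝ)
      = ∑ g : Γ, (ρ g : Matrix (Fin d) (Fin d) ℝ)) :
    ∀ f ∈ cf ρ, (∀ x, 0 ≤ f x) → ∀ x, (m : ℝ) * f x ≤ ∑ y, f y := by
  intro f hf h0 x
  obtain ⟨c, A, hA⟩ := mem_cf.1 hf
  have h1 : (m : ℝ) * f x ≤ (m : ℝ) * ∑ g, w g * f (x * g) := by
    apply mul_le_mul_of_nonneg_left _ (Nat.cast_nonneg m)
    have h2 : w 1 * f (x * 1) ≤ ∑ g, w g * f (x * g) :=
      Finset.single_le_sum (f := fun g => w g * f (x * g))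
        (fun g _ => mul_nonneg (hw0 g) (h0 _)) (Finset.mem_univ 1)
    simpa [hw1] using h2
  refine h1.trans (le_of_eq ?_)
  -- the matrix identity, multiplied by `x`
  have hx : (m : ℝ) • ∑ g, w g • (ρ (x * g) : Matrix (Fin d) (Fin d) ℝ)
      = ∑ g : Γ, (ρ g : Matrix (Fin d) (Fin d) ℝ) := by
    have h3 : (ρ x : Matrix (Fin d) (Fin d) ℝ) * ((m : ℝ) • ∑ g, w g •
        (ρ g : Matrix (Fin d) (Fin d) ℝ)) = (ρ x : Matrix (Fin d) (Fin d) ℝ) *
        ∑ g : Γ, (ρ g : Matrix (Fin d) (Fin d) ℝ) := by rw [hmat]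
    rw [Matrix.mul_smul, Matrix.mul_sum, Matrix.mul_sum] at h3
    simp only [Matrix.mul_smul] at h3
    have h4 : ∑ g : Γ, (ρ x : Matrix (Fin d) (Fin d) ℝ) * (ρ g : Matrix (Fin d) (Fin d) ℝ)
        = ∑ g : Γ, (ρ g : Matrix (Fin d) (Fin d) ℝ) := by
      have := Equiv.sum_comp (Equiv.mulLeft x)
        (fun g : Γ => (ρ g : Matrix (Fin d) (Fin d) ℝ))
      rw [← this]
      refine Finset.sum_congr rfl fun g _ => ?_
      simp
    rw [h4] at h3
    rw [← h3]
    simp only [map_mul, Units.val_mul]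
  have hent : ∀ i j, (m : ℝ) * ∑ g, w g * (ρ (x * g) : Matrix (Fin d) (Fin d) ℝ) i j
      = ∑ g : Γ, (ρ g : Matrix (Fin d) (Fin d) ℝ) i j := by
    intro i j
    have := congrFun (congrFun hx i) j
    simpa only [Matrix.sum_apply, Matrix.smul_apply, smul_eq_mul] using this
  calc (m : ℝ) * ∑ g, w g * f (x * g)
      = (m : ℝ) * ∑ g, (w g * c + ∑ i, ∑ j, A i j *
          (w g * (ρ (x * g) : Matrix (Fin d) (Fin d) ℝ) i j)) := by
        congr 1
        refine Finset.sum_congr rfl fun g _ => ?_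
        rw [hA, mul_add, Finset.mul_sum]
        congr 1
        refine Finset.sum_congr rfl fun i _ => ?_
        rw [Finset.mul_sum]
        refine Finset.sum_congr rfl fun j _ => ?_
        ring
    _ = ((m : ℝ) * ∑ g, w g) * c + ∑ i, ∑ j, A i j *
          ((m : ℝ) * ∑ g, w g * (ρ (x * g) : Matrix (Fin d) (Fin d) ℝ) i j) := by
        rw [Finset.sum_add_distrib, mul_add, ← Finset.sum_mul, mul_assoc]
        congr 1
        rw [Finset.sum_comm, Finset.mul_sum]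
        refine Finset.sum_congr rfl fun i _ => ?_
        rw [Finset.sum_comm, Finset.mul_sum]
        refine Finset.sum_congr rfl fun j _ => ?_
        rw [← Finset.mul_sum]
        ring
    _ = (Fintype.card Γ : ℝ) * c + ∑ i, ∑ j, A i j *
          ∑ g : Γ, (ρ g : Matrix (Fin d) (Fin d) ℝ) i j := by
        rw [hcard]
        simp only [hent]
    _ = ∑ g, f g := by
        simp only [hA]
        rw [Finset.sum_add_distrib]
        congr 1
        · simp
        · symm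
          rw [Finset.sum_comm]
          refine Finset.sum_congr rfl fun i _ => ?_
          rw [Finset.sum_comm]
          refine Finset.sum_congr rfl fun j _ => ?_
          rw [Finset.mul_sum]

/-- The set of indicator functions used in `Ext`. -/
def Flats {X : Type*} (V : Submodule ℝ (X → ℝ)) (m : ℕ) : Set (X → ℝ) :=
  {f | f ∈ V ∧ ∃ T : Set X, T.Nonempty ∧ T.ncard = m ∧ f = T.indicator (fun _ => (1 : ℝ))}

/-- Extremality from weights and a spanning family of indicator functions. -/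
theorem ext_of_weights {Γ : Type*} [Group Γ] [Fintype Γ] {d : ℕ} (ρ : Γ →* GL (Fin d) ℝ)
    (m : ℕ) (w : Γ → ℝ)
    (hw0 : ∀ g, 0 ≤ w g) (hw1 : w 1 = 1)
    (hcard : (m : ℝ) * ∑ g, w g = Fintype.card Γ)
    (hmat : (m : ℝ) • ∑ g, w g • (ρ g : Matrix (Fin d) (Fin d) ℝ)
      = ∑ g : Γ, (ρ g : Matrix (Fin d) (Fin d) ℝ))
    (hspan1 : (fun _ => (1 : ℝ)) ∈ Submodule.span ℝ (Flats (cf ρ) m))
    (hspan2 : ∀ k l : Fin d, (fun g => (ρ g : Matrix (Fin d) (Fin d) ℝ) k l) ∈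
      Submodule.span ℝ (Flats (cf ρ) m)) : Ext (cf ρ) m :=
  ⟨lower_of_bound (bound_of_weights ρ m w hw0 hw1 hcard hmat),
    flat_of_bound (bound_of_weights ρ m w hw0 hw1 hcard hmat),
    (cf_le_iff ρ _).2 ⟨hspan1, hspan2⟩⟩

end Pool.Agent.RepPoly
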